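import Mathlib
import Pool.Agent.H307R2.LU

/-! Logarithmic bounds for `L(s,χ)` and `ζ(s)` near the line `Re s = 1`. -/

open MeasureTheory Filter Topology Set

namespace Pool.Agent.H378R2.M1

open Pool.Agent.H307R2 (LFunction_eq TM TM_norm_le Ech Ech_norm_le zeta_eq Ez Ez_norm_le)

noncomputable section

lemma sum_rpow_le {N : ℕ} {a σ : ℝ} (ha : 0 ≤ a)
    (hσ : (1 - σ) * Real.log N ≤ a) :
    ∑ n ∈ Finset.Icc 1 N, (n : ℝ) ^ (-σ) ≤ Real.exp a * (1 + Real.log N) := by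
  have h1 : ∀ n ∈ Finset.Icc 1 N, (n : ℝ) ^ (-σ) ≤ Real.exp a * (n : ℝ)⁻¹ := by
    intro n hn
    rw [Finset.mem_Icc] at hn
    have hn1 : (1 : ℝ) ≤ n := by exact_mod_cast hn.1
    have hn0 : (0 : ℝ) < n := by linarith
    have hnN : (n : ℝ) ≤ N := by exact_mod_cast hn.2
    have e : -σ = (1 - σ) + (-1) := by ring
    rw [e, Real.rpow_add hn0, Real.rpow_neg_one]
    have h2 : (n : ℝ) ^ (1 - σ) ≤ Real.exp a := by
      rw [Real.rpow_def_of_pos hn0]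
      apply Real.exp_le_exp.mpr
      have hl0 : 0 ≤ Real.log n := Real.log_nonneg hn1
      have hlN : Real.log n ≤ Real.log N := Real.log_le_log hn0 hnN
      rcases le_total 0 (1 - σ) with h | h
      · calc Real.log n * (1 - σ) ≤ Real.log N * (1 - σ) := by gcongr
          _ = (1 - σ) * Real.log N := by ring
          _ ≤ a := hσ
      · nlinarith
    exact mul_le_mul_of_nonneg_right h2 (by positivity)
  have h3 : ∑ n ∈ Finset.Icc 1 N, (n : ℝ)⁻¹ ≤ 1 + Real.log N := by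
    have := harmonic_le_one_add_log N
    rw [harmonic_eq_sum_Icc] at this
    push_cast at this
    exact this
  calc ∑ n ∈ Finset.Icc 1 N, (n : ℝ) ^ (-σ) ≤ ∑ n ∈ Finset.Icc 1 N, Real.exp a * (n : ℝ)⁻¹ :=
        Finset.sum_le_sum h1
    _ = Real.exp a * ∑ n ∈ Finset.Icc 1 N, (n : ℝ)⁻¹ := by rw [Finset.mul_sum]
    _ ≤ _ := mul_le_mul_of_nonneg_left h3 (Real.exp_pos _).le

lemma ceil_bounds {Q : ℝ} (hQ : 1 ≤ Q) : 1 ≤ ⌈Q ^ 2⌉₊ ∧ Q ^ 2 ≤ (⌈Q ^ 2⌉₊ : ℝ) ∧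
    (⌈Q ^ 2⌉₊ : ℝ) ≤ 2 * Q ^ 2 := by
  have h1 : 1 ≤ Q ^ 2 := by nlinarith
  refine ⟨?_, Nat.le_ceil _, ?_⟩
  · exact Nat.one_le_ceil_iff.2 (by linarith)
  · have := (Nat.ceil_lt_add_one (by positivity : 0 ≤ Q ^ 2)).le
    linarith

/-- the tail -/
lemma tail_le {Q σ : ℝ} (hQ : 1 ≤ Q) (hσ : 3 / 4 ≤ σ) :
    Q * ((⌈Q ^ 2⌉₊ : ℝ) ^ (-σ) / σ) ≤ 4 / 3 := by
  obtain ⟨h1, h2, h3⟩ := ceil_bounds hQ
  have hQ0 : 0 < Q := by linarith
  have hσ0 : 0 < σ := by linarith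
  have h4 : (⌈Q ^ 2⌉₊ : ℝ) ^ (-σ) ≤ Q ^ (-(3 / 2) : ℝ) := by
    calc (⌈Q ^ 2⌉₊ : ℝ) ^ (-σ) ≤ (Q ^ 2) ^ (-σ) :=
          Real.rpow_le_rpow_of_nonpos (by positivity) h2 (by linarith)
      _ = Q ^ (2 * (-σ)) := by
          rw [← Real.rpow_natCast Q 2, ← Real.rpow_mul hQ0.le]
          norm_num
      _ ≤ Q ^ (-(3 / 2) : ℝ) := Real.rpow_le_rpow_of_exponent_le hQ (by linarith)
  have h5 : Q * Q ^ (-(3 / 2) : ℝ) ≤ 1 := by
    have : Q * Q ^ (-(3 / 2) : ℝ) = Q ^ (-(1 / 2) : ℝ) := by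
      nth_rewrite 1 [← Real.rpow_one Q]
      rw [← Real.rpow_add hQ0]
      norm_num
    rw [this]
    exact Real.rpow_le_one_of_one_le_of_nonpos hQ (by norm_num)
  calc Q * ((⌈Q ^ 2⌉₊ : ℝ) ^ (-σ) / σ) ≤ Q * (Q ^ (-(3 / 2) : ℝ) / (3 / 4)) := by
        gcongr
    _ = (Q * Q ^ (-(3 / 2) : ℝ)) * (4 / 3) := by ring
    _ ≤ 1 * (4 / 3) := by gcongr
    _ = 4 / 3 := one_mul _

/-- `|L(s,χ)| ≪ l` for `Re s ≥ 1 - 1/l` where `l` dominates `log q` and `log (|t|+2)` -/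
theorem L_upper : ∃ C : ℝ, 1 ≤ C ∧ ∀ l : ℝ, 4 ≤ l → ∀ (q : ℕ) [NeZero q]
    (χ : DirichletCharacter ℂ q), χ ≠ 1 → Real.log q ≤ l → ∀ s : ℂ, 1 - 1 / l ≤ s.re → s.re ≤ 2 →
      Real.log (|s.im| + 2) ≤ l → ‖χ.LFunction s‖ ≤ C * l := by
  refine ⟨Real.exp 5 * 6 + 1, ?_, ?_⟩
  · have := Real.exp_pos 5; linarith
  intro l hl q _ χ hχ hql s hs1 hs2 htl
  have hl0 : 0 < l := by linarith
  have hq1 : (1 : ℝ) ≤ q := by exact_mod_cast Nat.one_le_iff_ne_zero.2 (NeZero.ne q)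
  set Q : ℝ := (q : ℝ) * (|s.im| + 2) with hQdef
  have hQ : 1 ≤ Q := by
    have := abs_nonneg s.im
    rw [hQdef]
    nlinarith
  have hl4 : 1 / l ≤ 1 / 4 := one_div_le_one_div_of_le (by norm_num) hl
  have hσ : 3 / 4 ≤ s.re := by linarith
  have hσ0 : 0 < s.re := by linarith
  obtain ⟨h1, h2, h3⟩ := ceil_bounds hQ
  set N := ⌈Q ^ 2⌉₊ with hN
  have hN0 : (0 : ℝ) < N := by exact_mod_cast h1
  have hlogQ : Real.log Q ≤ 2 * l := by
    rw [hQdef, Real.log_mul (by linarith) (by positivity)]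
    linarith
  have hlogN : Real.log N ≤ 5 * l := by
    calc Real.log N ≤ Real.log (2 * Q ^ 2) := Real.log_le_log hN0 h3
      _ = Real.log 2 + 2 * Real.log Q := by
          rw [Real.log_mul (by norm_num) (by positivity), Real.log_pow]; push_cast; ring
      _ ≤ 1 + 2 * (2 * l) := by
          have := Real.log_two_lt_d9
          linarith
      _ ≤ 5 * l := by linarith
  have hlogN0 : 0 ≤ Real.log N := Real.log_nonneg (by exact_mod_cast h1)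
  rw [LFunction_eq hχ h1 hσ0]
  have hA : ‖∑ n ∈ Finset.Icc 1 N, χ (n : ZMod q) * (n : ℂ) ^ (-s)‖ ≤
      Real.exp 5 * (6 * l) := by
    calc ‖∑ n ∈ Finset.Icc 1 N, χ (n : ZMod q) * (n : ℂ) ^ (-s)‖
        ≤ ∑ n ∈ Finset.Icc 1 N, (n : ℝ) ^ (-s.re) := by
          refine norm_sum_le_of_le _ fun n hn => ?_
          rw [Finset.mem_Icc] at hn
          have hn0 : 0 < n := by omega
          rw [norm_mul, Complex.norm_natCast_cpow_of_pos hn0, Complex.neg_re]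
          have := χ.norm_le_one (n : ZMod q)
          have h0 : (0 : ℝ) ≤ (n : ℝ) ^ (-s.re) := by positivity
          calc ‖χ (n : ZMod q)‖ * (n : ℝ) ^ (-s.re) ≤ 1 * (n : ℝ) ^ (-s.re) :=
                mul_le_mul_of_nonneg_right this h0
            _ = _ := one_mul _
      _ ≤ Real.exp 5 * (1 + Real.log N) := by
          apply sum_rpow_le (by norm_num)
          calc (1 - s.re) * Real.log N ≤ (1 / l) * Real.log N := by gcongr; linarith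
            _ ≤ (1 / l) * (5 * l) := by gcongr
            _ = 5 := by field_simp
      _ ≤ Real.exp 5 * (6 * l) := by
          gcongr
          linarith
  have hB : ‖s * TM N (Ech χ N) s‖ ≤ 4 / 3 := by
    have hs3 : ‖s‖ ≤ |s.im| + 2 := by
      have := Complex.norm_le_abs_re_add_abs_im s
      rw [abs_of_pos hσ0] at this
      linarith
    calc ‖s * TM N (Ech χ N) s‖ = ‖s‖ * ‖TM N (Ech χ N) s‖ := norm_mul _ _
      _ ≤ (|s.im| + 2) * (q * ((N : ℝ) ^ (-s.re) / s.re)) :=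
          mul_le_mul hs3 (TM_norm_le h1 (Ech_norm_le hχ N) hσ0) (norm_nonneg _) (by positivity)
      _ = Q * ((N : ℝ) ^ (-s.re) / s.re) := by rw [hQdef]; ring
      _ ≤ 4 / 3 := tail_le hQ hσ
  calc ‖∑ n ∈ Finset.Icc 1 N, χ (n : ZMod q) * (n : ℂ) ^ (-s) + s * TM N (Ech χ N) s‖
      ≤ Real.exp 5 * (6 * l) + 4 / 3 := (norm_add_le _ _).trans (add_le_add hA hB)
    _ ≤ (Real.exp 5 * 6 + 1) * l := by nlinarith [Real.exp_pos 5]

/-- `|ζ(s)| ≤ 5 l + 1/|s-1|` for `1 ≤ Re s ≤ 2` -/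
theorem zeta_upper {l : ℝ} (hl : 4 ≤ l) {s : ℂ} (hs1 : 1 ≤ s.re) (hs2 : s.re ≤ 2)
    (hne : s ≠ 1) (htl : Real.log (|s.im| + 2) ≤ l) :
    ‖riemannZeta s‖ ≤ 5 * l + 1 / ‖s - 1‖ := by
  have hl0 : 0 < l := by linarith
  set Q : ℝ := |s.im| + 2 with hQdef
  have hQ : 1 ≤ Q := by
    have := abs_nonneg s.im
    rw [hQdef]
    linarith
  have hσ : 3 / 4 ≤ s.re := by linarith
  have hσ0 : 0 < s.re := by linarith
  obtain ⟨h1, h2, h3⟩ := ceil_bounds hQ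
  set N := ⌈Q ^ 2⌉₊ with hN
  have hN0 : 0 < N := h1
  have hNr : (0 : ℝ) < N := by exact_mod_cast h1
  have hsn : 0 < ‖s - 1‖ := norm_pos_iff.2 (sub_ne_zero.2 hne)
  have hlogN : Real.log N ≤ 2 * l + 1 := by
    calc Real.log N ≤ Real.log (2 * Q ^ 2) := Real.log_le_log hNr h3
      _ = Real.log 2 + 2 * Real.log Q := by
          rw [Real.log_mul (by norm_num) (by positivity), Real.log_pow]; push_cast; ring
      _ ≤ 2 * l + 1 := by
          have := Real.log_two_lt_d9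
          linarith
  rw [zeta_eq h1 hσ0 hne]
  have hA : ‖∑ n ∈ Finset.Icc 1 N, (n : ℂ) ^ (-s)‖ ≤ 2 * l + 2 := by
    calc ‖∑ n ∈ Finset.Icc 1 N, (n : ℂ) ^ (-s)‖
        ≤ ∑ n ∈ Finset.Icc 1 N, (n : ℝ) ^ (-s.re) := by
          refine norm_sum_le_of_le _ fun n hn => ?_
          rw [Finset.mem_Icc] at hn
          have hn0 : 0 < n := by omega
          rw [Complex.norm_natCast_cpow_of_pos hn0, Complex.neg_re]
      _ ≤ Real.exp 0 * (1 + Real.log N) := by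
          apply sum_rpow_le le_rfl
          have hlogN0 : 0 ≤ Real.log N := Real.log_nonneg (by exact_mod_cast h1)
          nlinarith
      _ ≤ 2 * l + 2 := by rw [Real.exp_zero]; linarith
  have hC : ‖(N : ℂ) ^ (1 - s) / (s - 1)‖ ≤ 1 / ‖s - 1‖ := by
    rw [norm_div, Complex.norm_natCast_cpow_of_pos hN0]
    gcongr
    have e : (1 - s).re = 1 - s.re := by simp
    rw [e]
    exact Real.rpow_le_one_of_one_le_of_nonpos (by exact_mod_cast h1) (by linarith)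
  have hB : ‖s * TM N Ez s‖ ≤ 4 / 3 := by
    have hs3 : ‖s‖ ≤ |s.im| + 2 := by
      have := Complex.norm_le_abs_re_add_abs_im s
      rw [abs_of_pos hσ0] at this
      linarith
    calc ‖s * TM N Ez s‖ = ‖s‖ * ‖TM N Ez s‖ := norm_mul _ _
      _ ≤ (|s.im| + 2) * (1 * ((N : ℝ) ^ (-s.re) / s.re)) :=
          mul_le_mul hs3 (TM_norm_le h1 Ez_norm_le hσ0) (norm_nonneg _) (by positivity)
      _ = Q * ((N : ℝ) ^ (-s.re) / s.re) := by rw [hQdef]; ring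
      _ ≤ 4 / 3 := tail_le hQ hσ
  calc ‖∑ n ∈ Finset.Icc 1 N, (n : ℂ) ^ (-s) + (N : ℂ) ^ (1 - s) / (s - 1) + s * TM N Ez s‖
      ≤ (2 * l + 2) + 1 / ‖s - 1‖ + 4 / 3 :=
        (norm_add_le _ _).trans (add_le_add ((norm_add_le _ _).trans (add_le_add hA hC)) hB)
    _ ≤ 5 * l + 1 / ‖s - 1‖ := by linarith

/-- derivative bound -/
theorem L_deriv : ∃ C : ℝ, 1 ≤ C ∧ (∀ l : ℝ, 4 ≤ l → ∀ (q : ℕ) [NeZero q]
    (χ : DirichletCharacter ℂ q), χ ≠ 1 → Real.log q ≤ l → ∀ s : ℂ, 1 - 1 / l ≤ s.re → s.re ≤ 2 →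
      Real.log (|s.im| + 2) ≤ l → ‖χ.LFunction s‖ ≤ C * l) ∧
    (∀ l : ℝ, 4 ≤ l → ∀ (q : ℕ) [NeZero q]
    (χ : DirichletCharacter ℂ q), χ ≠ 1 → Real.log q ≤ l → ∀ s : ℂ, 1 - 1 / (2 * l) ≤ s.re →
      s.re ≤ 3 / 2 → Real.log (|s.im| + 3) ≤ l → ‖deriv χ.LFunction s‖ ≤ C * l ^ 2) := by
  obtain ⟨C, hC, h⟩ := L_upper
  refine ⟨2 * C, by linarith, ?_, ?_⟩
  · intro l hl q _ χ hχ hql s hs1 hs2 htl
    refine (h l hl q χ hχ hql s hs1 hs2 htl).trans ?_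
    nlinarith
  · intro l hl q _ χ hχ hql s hs1 hs2 htl
    have hl0 : 0 < l := by linarith
    have hR : 0 < 1 / (2 * l) := by positivity
    have hR8 : 1 / (2 * l) ≤ 1 / 8 := one_div_le_one_div_of_le (by norm_num) (by linarith)
    have key := Complex.norm_deriv_le_of_forall_mem_sphere_norm_le (c := s) (R := 1 / (2 * l))
      (C := C * l) (f := χ.LFunction) hR
      (DirichletCharacter.differentiable_LFunction hχ).diffContOnCl ?_
    · refine key.trans (le_of_eq ?_)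
      field_simp
    · intro z hz
      rw [mem_sphere_iff_norm] at hz
      have hre : |z.re - s.re| ≤ 1 / (2 * l) := by
        rw [← hz, ← Complex.sub_re]; exact Complex.abs_re_le_norm _
      have him : |z.im - s.im| ≤ 1 / (2 * l) := by
        rw [← hz, ← Complex.sub_im]; exact Complex.abs_im_le_norm _
      have e2 : 1 / l = 1 / (2 * l) + 1 / (2 * l) := by field_simp; norm_num
      rw [abs_le] at hre
      apply h l hl q χ hχ hql z (by linarith [hre.1]) (by linarith [hre.2])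
      refine le_trans (Real.log_le_log (by positivity) ?_) htl
      have := abs_sub_abs_le_abs_sub z.im s.im
      linarith

/-- Lipschitz bound -/
theorem L_lip : ∃ C : ℝ, 1 ≤ C ∧ (∀ l : ℝ, 4 ≤ l → ∀ (q : ℕ) [NeZero q]
    (χ : DirichletCharacter ℂ q), χ ≠ 1 → Real.log q ≤ l → ∀ s : ℂ, 1 - 1 / l ≤ s.re → s.re ≤ 2 →
      Real.log (|s.im| + 2) ≤ l → ‖χ.LFunction s‖ ≤ C * l) ∧
    (∀ l : ℝ, 4 ≤ l → ∀ (q : ℕ) [NeZero q]
    (χ : DirichletCharacter ℂ q), χ ≠ 1 → Real.log q ≤ l → ∀ s : ℂ, 1 - 1 / (2 * l) ≤ s.re →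
      s.re ≤ 3 / 2 → Real.log (|s.im| + 3) ≤ l → ‖deriv χ.LFunction s‖ ≤ C * l ^ 2) ∧
    (∀ l : ℝ, 4 ≤ l → ∀ (q : ℕ) [NeZero q]
    (χ : DirichletCharacter ℂ q), χ ≠ 1 → Real.log q ≤ l → ∀ s s' : ℂ, 1 - 1 / (2 * l) ≤ s.re →
      s.re ≤ 3 / 2 → 1 - 1 / (2 * l) ≤ s'.re → s'.re ≤ 3 / 2 → ∀ Y : ℝ, |s.im| ≤ Y → |s'.im| ≤ Y →
      Real.log (Y + 3) ≤ l → ‖χ.LFunction s - χ.LFunction s'‖ ≤ C * l ^ 2 * ‖s - s'‖) := by
  obtain ⟨C, hC, h1, h2⟩ := L_deriv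
  refine ⟨C, hC, h1, h2, ?_⟩
  intro l hl q _ χ hχ hql s s' hs1 hs2 hs1' hs2' Y hY hY' hYl
  have hY0 : 0 ≤ Y := (abs_nonneg _).trans hY
  set S : Set ℂ := {z : ℂ | (1 - 1 / (2 * l) ≤ z.re ∧ z.re ≤ 3 / 2) ∧ (-Y ≤ z.im ∧ z.im ≤ Y)}
  have hconv : Convex ℝ S := by
    have a1 : Convex ℝ {z : ℂ | 1 - 1 / (2 * l) ≤ z.re} := convex_halfSpace_re_ge _
    have a2 : Convex ℝ {z : ℂ | z.re ≤ 3 / 2} := convex_halfSpace_re_le _
    have a3 : Convex ℝ {z : ℂ | -Y ≤ z.im} := convex_halfSpace_im_ge _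
    have a4 : Convex ℝ {z : ℂ | z.im ≤ Y} := convex_halfSpace_im_le _
    exact (a1.inter a2).inter (a3.inter a4)
  have hb : ∀ z ∈ S, ‖deriv χ.LFunction z‖ ≤ C * l ^ 2 := by
    rintro z ⟨⟨b1, b2⟩, b3, b4⟩
    apply h2 l hl q χ hχ hql z b1 b2
    refine le_trans (Real.log_le_log (by positivity) ?_) hYl
    have : |z.im| ≤ Y := abs_le.mpr ⟨b3, b4⟩
    linarith
  have hd : ∀ z ∈ S, DifferentiableAt ℂ χ.LFunction z := fun z _ =>
    (DirichletCharacter.differentiable_LFunction hχ) z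
  rw [abs_le] at hY hY'
  exact hconv.norm_image_sub_le_of_norm_deriv_le hd hb ⟨⟨hs1', hs2'⟩, hY'⟩ ⟨⟨hs1, hs2⟩, hY⟩

end

end Pool.Agent.H378R2.M1
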