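import Mathlib

open Finset

namespace Pool.Agent.H378R2

/-- tent weight in logarithmic scale, supported on `[1, e]` -/
noncomputable def Phi (u : ℝ) : ℝ := max 0 (1 / 2 - |Real.log u - 1 / 2|)

/-- weighted prime sum twisted by a character -/
noncomputable def psiPhi {f : ℕ} (χ : DirichletCharacter ℂ f) (X : ℝ) : ℂ :=
  ∑ n ∈ Icc 1 ⌊3 * X⌋₊, ((Phi (n / X) * ArithmeticFunction.vonMangoldt n : ℝ) : ℂ) * χ (n : ZMod f)

/-- discrepancy of the weighted von Mangoldt function in the class `b` mod `Q` -/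
noncomputable def EPhi (X : ℝ) (Q b : ℕ) : ℝ :=
  ∑ n ∈ (Icc 1 ⌊3 * X⌋₊).filter (fun n => n ≡ b [MOD Q]),
      Phi (n / X) * ArithmeticFunction.vonMangoldt n -
    (1 / (Nat.totient Q : ℝ)) * ∑ n ∈ Icc 1 ⌊3 * X⌋₊, Phi (n / X) * ArithmeticFunction.vonMangoldt n

/-- cut-off for the primes of the big modulus -/
noncomputable def yy (X : ℝ) : ℕ := ⌊Real.log X / 1000⌋₊

/-- no prime `≤ z2 X` is ever removed from the big modulus -/
noncomputable def z2 (X : ℝ) : ℕ := ⌈(Real.log (Real.log X)) ^ 3⌉₊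

/-- the primes of the big modulus: all primes `≤ y` except those in `S` and `ps` -/
noncomputable def PW (X : ℝ) (S : Finset ℕ) (ps : ℕ) : Finset ℕ :=
  (Icc 1 (yy X)).filter (fun p => p.Prime ∧ p ∉ S ∧ p ≠ ps)

/-- the big modulus -/
noncomputable def WW (X : ℝ) (S : Finset ℕ) (ps : ℕ) : ℕ := ∏ p ∈ PW X S ps, p

/-- admissible removed sets -/
def GoodS (X : ℝ) (S : Finset ℕ) : Prop :=
  (∀ q ∈ S, q.Prime ∧ z2 X < q ∧ q ≤ yy X) ∧
    ∑ q ∈ S, (1 : ℝ) / q ≤ 6 / (Real.log (Real.log X)) ^ 2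

/-- exceptional prime: `ps = 1` (none) or a prime `> Z` -/
def GoodP (Z ps : ℕ) : Prop := ps = 1 ∨ (ps.Prime ∧ Z < ps)

/-- squarefree integers `≤ R` all of whose prime factors lie outside `E` -/
noncomputable def adm (E : Finset ℕ) (R : ℕ) : Finset ℕ :=
  (Icc 1 R).filter (fun d => Squarefree d ∧ ∀ p ∈ E, p.Prime → ¬ p ∣ d)

open Classical in
/-- the general main-term sum of the multidimensional sieve -/
noncomputable def sieveSum (J : ℕ) (F G : Fin J → ℝ → ℝ) (L : ℝ) (E : Fin J → Finset ℕ)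
    (w : ℕ → Fin J → ℝ) (R : ℕ) : ℝ :=
  ∑ d ∈ Fintype.piFinset (fun j => adm (E j) R), ∑ e ∈ Fintype.piFinset (fun j => adm (E j) R),
    if Pairwise (fun i j => (Nat.lcm (d i) (e i)).Coprime (Nat.lcm (d j) (e j))) then
      ∏ j, (((ArithmeticFunction.moebius (d j) : ℤ) : ℝ) * ((ArithmeticFunction.moebius (e j) : ℤ) : ℝ) *
        F j (Real.log (d j) / L) * G j (Real.log (e j) / L) *
        ∏ p ∈ (Nat.lcm (d j) (e j)).primeFactors, w p j)
    else 0

/-- logarithm of the step `τ(j!)/τ((j-1)!)` -/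
noncomputable def lg (j : ℕ) : ℝ :=
  Real.log ((j.factorial.divisors.card : ℝ) / ((j - 1).factorial.divisors.card : ℝ))

/-- `1/ℓ` summed over the small `ℓ ∣ j` with `j/ℓ` prime -/
noncomputable def Gp (X : ℝ) (j : ℕ) : ℝ :=
  ∑ l ∈ (Icc 1 ⌊(2 * Real.log X) ^ 3⌋₊).filter (fun l => l ∣ j ∧ (j / l).Prime), (1 : ℝ) / l

end Pool.Agent.H378R2
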