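import Mathlib
import Pool.Agent.H378R2.M1e
import Pool.Agent.Erdos456.LDich

/-! Shifting the contour for `psiPhi`. -/

open MeasureTheory Filter Topology Set

namespace Pool.Agent.H378R2.M1

open Pool.Agent.H378R2 (Phi psiPhi)
open DirichletCharacter
open ArithmeticFunction (vonMangoldt)

noncomputable section

/-- crude bound for `∑ Λ(n) n^{-c}` -/
theorem vM_sum_bound : ∃ C : ℝ, 1 ≤ C ∧ ∀ c : ℝ, 1 < c → c ≤ 2 →
    ∑' n : ℕ, vonMangoldt n * (n : ℝ) ^ (-c) ≤ C / (c - 1) ^ 2 := by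
  obtain ⟨Z, hZ1, hZ⟩ := Pool.Agent.Erdos456.zeta_bound
  refine ⟨4 * Z, by linarith, ?_⟩
  intro c hc hc2
  set e : ℝ := (c - 1) / 2 with he
  have he0 : 0 < e := by rw [he]; linarith
  have hb : ∀ n : ℕ, vonMangoldt n * (n : ℝ) ^ (-c) ≤ e⁻¹ * (1 / (n : ℝ) ^ (1 + e)) := by
    intro n
    rcases Nat.eq_zero_or_pos n with h | h
    · subst h
      simp
      positivity
    · have hn : (0 : ℝ) < n := by exact_mod_cast h
      have h1 : vonMangoldt n ≤ Real.log n := ArithmeticFunction.vonMangoldt_le_log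
      have h2 : Real.log n ≤ (n : ℝ) ^ e / e := Real.log_le_rpow_div hn.le he0
      have h3 : (n : ℝ) ^ e * (n : ℝ) ^ (-c) = 1 / (n : ℝ) ^ (1 + e) := by
        rw [← Real.rpow_add hn, one_div, ← Real.rpow_neg hn.le]
        congr 1
        rw [he]; ring
      calc vonMangoldt n * (n : ℝ) ^ (-c) ≤ ((n : ℝ) ^ e / e) * (n : ℝ) ^ (-c) :=
            mul_le_mul_of_nonneg_right (h1.trans h2) (by positivity)
        _ = e⁻¹ * ((n : ℝ) ^ e * (n : ℝ) ^ (-c)) := by ring
        _ = _ := by rw [h3]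
  have hs : Summable (fun n : ℕ => 1 / (n : ℝ) ^ (1 + e)) :=
    Real.summable_one_div_nat_rpow.mpr (by linarith)
  have hz : ∑' n : ℕ, 1 / (n : ℝ) ^ (1 + e) ≤ Z / e := by
    have h1 := hZ (1 + e) (by linarith) (by rw [he]; linarith)
    have h2 : riemannZeta ((1 + e : ℝ) : ℂ) = ((∑' n : ℕ, 1 / (n : ℝ) ^ (1 + e) : ℝ) : ℂ) := by
      rw [zeta_eq_tsum_one_div_nat_cpow (by simp; linarith)]
      rw [Complex.ofReal_tsum]
      congr 1
      funext n
      push_cast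
      rw [Complex.ofReal_cpow (Nat.cast_nonneg n)]
      push_cast
      rfl
    rw [h2, Complex.norm_real] at h1
    have h3 := (le_abs_self _).trans h1
    simpa using h3
  calc ∑' n : ℕ, vonMangoldt n * (n : ℝ) ^ (-c) ≤ ∑' n : ℕ, e⁻¹ * (1 / (n : ℝ) ^ (1 + e)) :=
        (vM_summable hc).tsum_le_tsum hb (hs.mul_left _)
    _ = e⁻¹ * ∑' n : ℕ, (1 / (n : ℝ) ^ (1 + e)) := tsum_mul_left
    _ ≤ e⁻¹ * (Z / e) := by gcongr
    _ = 4 * Z / (c - 1) ^ 2 := by
        rw [he]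
        have : c - 1 ≠ 0 := by linarith
        field_simp
        ring

lemma G_norm_le {q : ℕ} [NeZero q] (χ : DirichletCharacter ℂ q) {c : ℝ} (hc : 1 < c) (t : ℝ) :
    ‖G χ ((c : ℂ) + t * Complex.I)‖ ≤ ∑' n : ℕ, vonMangoldt n * (n : ℝ) ^ (-c) := by
  rw [← G_eq χ (by simpa using hc)]
  unfold LSeries
  have h1 : ∀ n, ‖LSeries.term (aT χ) ((c : ℂ) + t * Complex.I) n‖ ≤
      vonMangoldt n * (n : ℝ) ^ (-c) := by
    intro n
    simpa using term_norm χ ((c : ℂ) + t * Complex.I) n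
  exact tsum_of_norm_bounded (vM_summable hc).hasSum h1

/-- the integrand of the contour integral -/
def gI {q : ℕ} [NeZero q] (χ : DirichletCharacter ℂ q) (X : ℝ) (s : ℂ) : ℂ :=
  G χ s * ((X : ℂ) ^ s * MPhi s)

lemma gI_differentiableAt {q : ℕ} [NeZero q] (χ : DirichletCharacter ℂ q) (hχ : χ ≠ 1) {X : ℝ}
    (hX : 0 < X) {s : ℂ} (hs : s ≠ 0) (hL : LFunction χ s ≠ 0) :
    DifferentiableAt ℂ (gI χ X) s := by
  have hd : Differentiable ℂ (LFunction χ) := differentiable_LFunction hχ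
  have hd' : DifferentiableAt ℂ (deriv (LFunction χ)) s :=
    (hd.analyticAt s).deriv.differentiableAt
  have hX' : (X : ℂ) ≠ 0 := by exact_mod_cast hX.ne'
  unfold gI G
  refine ((hd'.neg.div (hd s) hL)).mul (DifferentiableAt.mul ?_ (MPhi_differentiableAt hs))
  exact DifferentiableAt.const_cpow differentiableAt_id (Or.inl hX')

lemma gI_norm {q : ℕ} [NeZero q] (χ : DirichletCharacter ℂ q) {X : ℝ}
    (hX : 0 < X) {s : ℂ} (h2 : s.re ≤ 2) :
    ‖gI χ X s‖ ≤ ‖G χ s‖ * (X ^ s.re * (16 / ‖s‖ ^ 2)) := by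
  unfold gI
  rw [norm_mul, norm_mul, Complex.norm_cpow_eq_rpow_re_of_pos hX]
  have := MPhi_bound h2
  gcongr

lemma norm_sq_lower' {c t : ℝ} (hc : 3 / 4 ≤ c) :
    (1 + t ^ 2) / 2 ≤ ‖(c : ℂ) + t * Complex.I‖ ^ 2 := by
  rw [Complex.sq_norm, Complex.normSq_apply]
  simp
  nlinarith [sq_nonneg t]

/-- tail integral of `1/t^2` -/
lemma integral_inv_sq_Ioi {T : ℝ} (hT : 0 < T) : ∫ t in Ioi T, (t ^ 2)⁻¹ = 1 / T := by
  have h := integral_Ioi_rpow_of_lt (a := (-2 : ℝ)) (by norm_num) hT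
  have e : ∀ t ∈ Ioi T, (t ^ 2)⁻¹ = t ^ (-2 : ℝ) := by
    intro t ht
    have : 0 < t := hT.trans ht
    rw [Real.rpow_neg this.le, Real.rpow_two]
  rw [setIntegral_congr_fun measurableSet_Ioi e, h]
  have : T ^ (-2 + 1 : ℝ) = T⁻¹ := by
    rw [← Real.rpow_neg_one]; norm_num
  rw [this]
  norm_num

lemma integrableOn_inv_sq_Ioi {T : ℝ} (hT : 0 < T) : IntegrableOn (fun t : ℝ => (t ^ 2)⁻¹) (Ioi T) := by
  have h := integrableOn_Ioi_rpow_of_lt (a := (-2 : ℝ)) (by norm_num) hT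
  refine h.congr_fun ?_ measurableSet_Ioi
  intro t ht
  have : 0 < t := hT.trans ht
  simp only
  rw [Real.rpow_neg this.le, Real.rpow_two]

/-- tails of an integral whose integrand is `≤ B/t^2` -/
lemma tail_bound {g : ℝ → ℂ} {T B : ℝ} (hT : 0 < T) (hi : Integrable g)
    (hB : ∀ t, T ≤ |t| → ‖g t‖ ≤ B * (t ^ 2)⁻¹) :
    ‖∫ t, g t‖ ≤ ‖∫ t in (-T)..T, g t‖ + 2 * B / T := by
  have h1 : ∫ t, g t = (∫ t in Iic (-T), g t) + (∫ t in (-T)..T, g t) + ∫ t in Ioi T, g t := by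
    rw [← intervalIntegral.integral_Iic_add_Ioi (b := T) hi.integrableOn hi.integrableOn]
    congr 1
    rw [← intervalIntegral.integral_Iic_sub_Iic hi.integrableOn hi.integrableOn]
    ring
  have h2 : ‖∫ t in Ioi T, g t‖ ≤ B / T := by
    calc ‖∫ t in Ioi T, g t‖ ≤ ∫ t in Ioi T, B * (t ^ 2)⁻¹ := by
          refine norm_integral_le_of_norm_le ((integrableOn_inv_sq_Ioi hT).const_mul B) ?_
          refine (ae_restrict_iff' measurableSet_Ioi).mpr (Eventually.of_forall fun t ht => ?_)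
          apply hB
          exact (le_of_lt ht).trans (le_abs_self t)
      _ = B / T := by
          rw [integral_const_mul, integral_inv_sq_Ioi hT]; ring
  have h3 : ‖∫ t in Iic (-T), g t‖ ≤ B / T := by
    have e : ∫ t in Iic (-T), g t = ∫ t in Ioi T, g (-t) := by
      have := integral_comp_neg_Ioi (c := T) (f := g)
      rw [this]
    rw [e]
    calc ‖∫ t in Ioi T, g (-t)‖ ≤ ∫ t in Ioi T, B * (t ^ 2)⁻¹ := by
          refine norm_integral_le_of_norm_le ((integrableOn_inv_sq_Ioi hT).const_mul B) ?_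
          refine (ae_restrict_iff' measurableSet_Ioi).mpr (Eventually.of_forall fun t ht => ?_)
          have := hB (-t) (by rw [abs_neg]; exact (le_of_lt ht).trans (le_abs_self t))
          simpa using this
      _ = B / T := by
          rw [integral_const_mul, integral_inv_sq_Ioi hT]; ring
  rw [h1]
  refine (norm_add₃_le).trans ?_
  have : 2 * B / T = B / T + B / T := by ring
  rw [this]
  linarith

end

end Pool.Agent.H378R2.M1
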