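import Mathlib
import Pool.Agent.H378R2.M1f

/-! Shifting the contour for `psiPhi`: the bound. -/

open MeasureTheory Filter Topology Set

namespace Pool.Agent.H378R2.M1

open Pool.Agent.H378R2 (Phi psiPhi)
open DirichletCharacter
open ArithmeticFunction (vonMangoldt)

noncomputable section

lemma ne_zero_of_re {s : ℂ} (h : 3 / 4 ≤ s.re) : s ≠ 0 := by
  intro h0
  rw [h0] at h
  simp at h
  linarith

theorem contour {q : ℕ} [NeZero q] (χ : DirichletCharacter ℂ q) (hχ : χ ≠ 1) {X c δ T M A : ℝ}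
    (hX : 1 ≤ X) (hc : 1 < c) (hδ : 0 < δ) (hδ4 : δ ≤ 1 / 4) (hcδ : c ≤ 1 + δ) (hXc : X ^ c ≤ 3 * X)
    (hT : 1 ≤ T) (hM : 0 ≤ M) (hA : ∑' n : ℕ, vonMangoldt n * (n : ℝ) ^ (-c) ≤ A)
    (hL : ∀ s : ℂ, |s.re - 1| ≤ δ → |s.im| ≤ T → LFunction χ s ≠ 0 ∧
      ‖deriv (LFunction χ) s / LFunction χ s‖ ≤ M) :
    ‖psiPhi χ X‖ ≤ 16 * (X ^ (1 - δ) * M + X * M / T ^ 2 + X * A / T) := by
  have hX0 : 0 < X := by linarith
  have hc2 : c ≤ 2 := by linarith
  have hT0 : 0 < T := by linarith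
  have hpi : 3 < Real.pi := Real.pi_gt_three
  have hpi4 : Real.pi < 4 := Real.pi_lt_four
  have hG : ∀ s : ℂ, |s.re - 1| ≤ δ → |s.im| ≤ T → ‖G χ s‖ ≤ M := by
    intro s h1 h2
    have := (hL s h1 h2).2
    unfold G
    rwa [neg_div, norm_neg]
  have hA0 : 0 ≤ A := le_trans (tsum_nonneg fun n => mul_nonneg
    ArithmeticFunction.vonMangoldt_nonneg (by positivity)) hA
  rw [psiPhi_eq χ hX0 hc hc2]
  set g : ℝ → ℂ := fun t => gI χ X ((c : ℂ) + t * Complex.I) with hg
  have hgeq : (∫ t : ℝ, G χ ((c : ℂ) + t * Complex.I) *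
      ((X : ℂ) ^ ((c : ℂ) + t * Complex.I) * MPhi ((c : ℂ) + t * Complex.I))) = ∫ t, g t := rfl
  rw [hgeq]
  -- nonvanishing on the line `c`
  have hLc : ∀ t : ℝ, LFunction χ ((c : ℂ) + t * Complex.I) ≠ 0 := by
    intro t
    have h1 : (1 : ℝ) ≤ ((c : ℂ) + t * Complex.I).re := by simp; linarith
    exact LFunction_ne_zero_of_one_le_re χ (Or.inl hχ) h1
  have hgcont : Continuous g := by
    rw [continuous_iff_continuousAt]
    intro t
    have h1 := (gI_differentiableAt χ hχ hX0 (line_ne_zero (c := c) (t := t) (by linarith))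
      (hLc t)).continuousAt
    exact ContinuousAt.comp (f := fun t : ℝ => (c : ℂ) + t * Complex.I) (g := gI χ X) h1
      (by fun_prop)
  have hgb : ∀ t : ℝ, ‖g t‖ ≤ A * (X ^ c * (16 / ‖(c : ℂ) + t * Complex.I‖ ^ 2)) := by
    intro t
    refine (gI_norm χ hX0 (by simpa using hc2)).trans ?_
    have h1 := (G_norm_le χ hc t).trans hA
    have h2 : ((c : ℂ) + t * Complex.I).re = c := by simp
    rw [h2]
    gcongr
  have hgi : Integrable g := by
    refine Integrable.mono' (integrable_inv_one_add_sq.const_mul (A * X ^ c * 16))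
      hgcont.aestronglyMeasurable ?_
    refine Eventually.of_forall fun t => (hgb t).trans ?_
    have h1 := norm_sq_lower (c := c) (t := t) hc.le
    calc A * (X ^ c * (16 / ‖(c : ℂ) + t * Complex.I‖ ^ 2)) ≤ A * (X ^ c * (16 / (1 + t ^ 2))) := by
          gcongr
      _ = _ := by rw [div_eq_mul_inv]; ring
  have htail : ‖∫ t, g t‖ ≤ ‖∫ t in (-T)..T, g t‖ + 2 * (A * X ^ c * 16) / T := by
    refine tail_bound hT0 hgi ?_
    intro t ht
    refine (hgb t).trans ?_
    have h0 : 0 < t ^ 2 := by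
      have : 0 < |t| := by linarith
      exact sq_pos_of_ne_zero (abs_pos.mp this)
    have h1 : t ^ 2 ≤ ‖(c : ℂ) + t * Complex.I‖ ^ 2 := by
      have := norm_sq_lower (c := c) (t := t) hc.le
      linarith
    calc A * (X ^ c * (16 / ‖(c : ℂ) + t * Complex.I‖ ^ 2)) ≤ A * (X ^ c * (16 / t ^ 2)) := by
          gcongr
      _ = _ := by rw [div_eq_mul_inv]; ring
  -- the rectangle
  have hrect := Complex.integral_boundary_rect_eq_zero_of_differentiableOn (gI χ X)
    (⟨1 - δ, -T⟩ : ℂ) (⟨c, T⟩ : ℂ) (by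
      intro s hs
      rw [Complex.mem_reProdIm] at hs
      simp only at hs
      obtain ⟨h1, h2⟩ := hs
      rw [uIcc_of_le (by linarith)] at h1 h2
      have h3 : |s.re - 1| ≤ δ := by
        rw [abs_le]; constructor <;> linarith [h1.1, h1.2]
      have h4 : |s.im| ≤ T := abs_le.mpr ⟨h2.1, h2.2⟩
      have h5 : s ≠ 0 := ne_zero_of_re (by linarith [h1.1])
      exact (gI_differentiableAt χ hχ hX0 h5 (hL s h3 h4).1).differentiableWithinAt)
  simp only at hrect
  have hv : ‖∫ y in (-T)..T, gI χ X (((1 - δ : ℝ) : ℂ) + y * Complex.I)‖ ≤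
      M * X ^ (1 - δ) * 32 * Real.pi := by
    have hb : ∀ y ∈ Ioc (-T) T, ‖gI χ X (((1 - δ : ℝ) : ℂ) + y * Complex.I)‖ ≤
        M * X ^ (1 - δ) * 32 * (1 + y ^ 2)⁻¹ := by
      intro y hy
      have hre : (((1 - δ : ℝ) : ℂ) + y * Complex.I).re = 1 - δ := by simp
      have him : (((1 - δ : ℝ) : ℂ) + y * Complex.I).im = y := by simp
      refine (gI_norm χ hX0 (by rw [hre]; linarith)).trans ?_
      have h1 := hG (((1 - δ : ℝ) : ℂ) + y * Complex.I)
        (by rw [hre]; rw [abs_of_nonpos (by linarith)]; linarith)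
        (by rw [him]; exact abs_le.mpr ⟨hy.1.le, hy.2⟩)
      rw [hre]
      have h2 := norm_sq_lower' (c := 1 - δ) (t := y) (by linarith)
      calc ‖G χ (((1 - δ : ℝ) : ℂ) + y * Complex.I)‖ *
            (X ^ (1 - δ) * (16 / ‖((1 - δ : ℝ) : ℂ) + y * Complex.I‖ ^ 2))
          ≤ M * (X ^ (1 - δ) * (16 / ((1 + y ^ 2) / 2))) := by
            gcongr
        _ = _ := by rw [div_div_eq_mul_div, div_eq_mul_inv]; ring
    rw [intervalIntegral.integral_of_le (by linarith)]
    calc ‖∫ y in Ioc (-T) T, gI χ X (((1 - δ : ℝ) : ℂ) + y * Complex.I)‖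
        ≤ ∫ y in Ioc (-T) T, M * X ^ (1 - δ) * 32 * (1 + y ^ 2)⁻¹ := by
          refine norm_integral_le_of_norm_le
            ((integrable_inv_one_add_sq.const_mul _).integrableOn) ?_
          exact (ae_restrict_iff' measurableSet_Ioc).mpr (Eventually.of_forall hb)
      _ ≤ ∫ y, M * X ^ (1 - δ) * 32 * (1 + y ^ 2)⁻¹ := by
          refine setIntegral_le_integral (integrable_inv_one_add_sq.const_mul _) ?_
          exact Eventually.of_forall fun y => by positivity
      _ = _ := by rw [integral_const_mul, integral_univ_inv_one_add_sq]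
  have hh : ∀ T' : ℝ, |T'| = T →
      ‖∫ x in (1 - δ)..c, gI χ X (x + (T' : ℂ) * Complex.I)‖ ≤ M * (3 * X) * 16 / T ^ 2 * (1 / 2) := by
    intro T' hT'
    have hb : ∀ x ∈ Set.uIoc (1 - δ) c, ‖gI χ X (x + (T' : ℂ) * Complex.I)‖ ≤
        M * (3 * X) * 16 / T ^ 2 := by
      intro x hx
      rw [uIoc_of_le (by linarith)] at hx
      have hre : ((x : ℂ) + (T' : ℂ) * Complex.I).re = x := by simp
      have him : ((x : ℂ) + (T' : ℂ) * Complex.I).im = T' := by simp
      refine (gI_norm χ hX0 (by rw [hre]; linarith [hx.2])).trans ?_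
      have h1 := hG ((x : ℂ) + (T' : ℂ) * Complex.I)
        (by rw [hre, abs_le]; constructor <;> linarith [hx.1, hx.2])
        (by rw [him, hT'])
      rw [hre]
      have h2 : T ^ 2 ≤ ‖(x : ℂ) + (T' : ℂ) * Complex.I‖ ^ 2 := by
        rw [Complex.sq_norm, Complex.normSq_apply, hre, him, ← hT', sq_abs]
        nlinarith [sq_nonneg x]
      have h3 : X ^ x ≤ 3 * X := (Real.rpow_le_rpow_of_exponent_le hX hx.2).trans hXc
      calc ‖G χ ((x : ℂ) + (T' : ℂ) * Complex.I)‖ *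
            (X ^ x * (16 / ‖(x : ℂ) + (T' : ℂ) * Complex.I‖ ^ 2))
          ≤ M * (3 * X * (16 / T ^ 2)) := by gcongr
        _ = _ := by ring
    refine (intervalIntegral.norm_integral_le_of_norm_le_const hb).trans ?_
    have : |c - (1 - δ)| ≤ 1 / 2 := by
      rw [abs_of_nonneg (by linarith)]; linarith
    gcongr
  have hmain : ‖∫ t in (-T)..T, g t‖ ≤ M * X ^ (1 - δ) * 32 * Real.pi +
      M * (3 * X) * 16 / T ^ 2 := by
    have h1 := hh T (abs_of_pos hT0)
    have h2 := hh (-T) (by rw [abs_neg]; exact abs_of_pos hT0)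
    have e : Complex.I • (∫ t in (-T)..T, g t) =
        (∫ x in (1 - δ)..c, gI χ X (x + (T : ℂ) * Complex.I)) -
        (∫ x in (1 - δ)..c, gI χ X (x + ((-T : ℝ) : ℂ) * Complex.I)) +
        Complex.I • (∫ y in (-T)..T, gI χ X (((1 - δ : ℝ) : ℂ) + y * Complex.I)) := by
      have h3 := hrect
      rw [hg]
      linear_combination h3
    have e2 : ‖∫ t in (-T)..T, g t‖ = ‖Complex.I • (∫ t in (-T)..T, g t)‖ := by
      rw [norm_smul, Complex.norm_I, one_mul]
    rw [e2, e]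
    refine (norm_add_le _ _).trans ?_
    have h4 := norm_sub_le (∫ x in (1 - δ)..c, gI χ X (x + (T : ℂ) * Complex.I))
      (∫ x in (1 - δ)..c, gI χ X (x + ((-T : ℝ) : ℂ) * Complex.I))
    rw [norm_smul, Complex.norm_I, one_mul]
    linarith
  have hfin : ‖∫ t, g t‖ ≤ M * X ^ (1 - δ) * 32 * Real.pi +
      M * (3 * X) * 16 / T ^ 2 + 2 * (A * (3 * X) * 16) / T := by
    refine htail.trans ?_
    have : 2 * (A * X ^ c * 16) / T ≤ 2 * (A * (3 * X) * 16) / T := by gcongr
    linarith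
  rw [norm_mul, Complex.norm_real, Real.norm_of_nonneg (by positivity)]
  calc 1 / (2 * Real.pi) * ‖∫ t, g t‖ ≤ 1 / (2 * Real.pi) * (M * X ^ (1 - δ) * 32 * Real.pi +
      M * (3 * X) * 16 / T ^ 2 + 2 * (A * (3 * X) * 16) / T) := by gcongr
    _ = 16 * (X ^ (1 - δ) * M) + (3 / Real.pi) * (8 * (X * M / T ^ 2)) +
        (3 / Real.pi) * (16 * (X * A / T)) := by
        field_simp
        ring
    _ ≤ 16 * (X ^ (1 - δ) * M) + 1 * (16 * (X * M / T ^ 2)) + 1 * (16 * (X * A / T)) := by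
        have h3 : 3 / Real.pi ≤ 1 := by
          rw [div_le_one (by positivity)]; exact hpi.le
        have h4 : 0 ≤ X * M / T ^ 2 := by positivity
        have h5 : 0 ≤ X * A / T := by positivity
        have h6 : 8 * (X * M / T ^ 2) ≤ 16 * (X * M / T ^ 2) := by linarith
        gcongr
    _ = _ := by ring

end

end Pool.Agent.H378R2.M1
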