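import Mathlib
import Pool.Agent.H378R2.M1c
import Pool.Agent.H378R2.M1g

/-! (M1) characters of small conductor. -/

open MeasureTheory Filter Topology Set

namespace Pool.Agent.H378R2.M1

open DirichletCharacter

noncomputable section

lemma exp_dominates (K : ℝ) (k : ℕ) : ∃ a : ℝ, ∀ x : ℝ, a ≤ x → K * x ^ k ≤ Real.exp x := by
  have h := (Real.isLittleO_pow_exp_atTop (n := k)).bound (c := 1 / (|K| + 1)) (by positivity)
  obtain ⟨a, ha⟩ := eventually_atTop.mp h
  refine ⟨max a 0, fun x hx => ?_⟩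
  have h1 := ha x ((le_max_left _ _).trans hx)
  have hx0 : 0 ≤ x := (le_max_right _ _).trans hx
  rw [Real.norm_of_nonneg (by positivity), Real.norm_of_nonneg (Real.exp_pos x).le,
    div_mul_eq_mul_div, one_mul, le_div_iff₀ (by positivity)] at h1
  have h2 : K * x ^ k ≤ (|K| + 1) * x ^ k := by
    apply mul_le_mul_of_nonneg_right _ (by positivity)
    have := le_abs_self K
    linarith
  linarith

end

end Pool.Agent.H378R2.M1

namespace Pool.Agent.H378R2

open DirichletCharacter M1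

/-- (M1) characters of small squarefree conductor, with at most one exceptional conductor `fs`,
which is larger than any prescribed `Z`. -/
theorem small_conductor (Z : ℕ) : ∃ X0 : ℝ, ∀ X : ℝ, X0 ≤ X →
    ∃ fs : ℕ, (fs = 0 ∨ Z < fs) ∧
      ∀ f : ℕ, Squarefree f → 1 < f → (f : ℝ) ≤ Real.exp ((Real.log (Real.log X)) ^ 6) → f ≠ fs →
        ∀ χ : DirichletCharacter ℂ f, χ.IsPrimitive →
          ‖psiPhi χ X‖ ≤ X * Real.exp (-(Real.log (Real.log X)) ^ 7) := by
  obtain ⟨d, hd0, hd2, hnzr⟩ := nzr_exc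
  obtain ⟨l0, hl0⟩ := hnzr Z
  obtain ⟨C, hC1, hC⟩ := vM_sum_bound
  obtain ⟨a, ha⟩ := exp_dominates (48 * 2 ^ 19 / d + 48 * C) 151
  refine ⟨Real.exp (Real.exp (max (max a l0) 4)), fun X hX => ?_⟩
  set lam := Real.log (Real.log X) with hlam
  have hXpos : 0 < X := (Real.exp_pos _).trans_le hX
  have hL : Real.exp (max (max a l0) 4) ≤ Real.log X := by
    rw [Real.le_log_iff_exp_le hXpos]; exact hX
  have hLpos : 0 < Real.log X := (Real.exp_pos _).trans_le hL
  have hlam1 : max (max a l0) 4 ≤ lam := by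
    rw [hlam, Real.le_log_iff_exp_le hLpos]; exact hL
  have hlam4 : 4 ≤ lam := (le_max_right _ _).trans hlam1
  have hlama : a ≤ lam := ((le_max_left _ _).trans (le_max_left _ _)).trans hlam1
  have hlaml : l0 ≤ lam := ((le_max_right _ _).trans (le_max_left _ _)).trans hlam1
  have hexplam : Real.exp lam = Real.log X := by rw [hlam, Real.exp_log hLpos]
  have hdom := ha lam hlama
  have hlam0 : 0 < lam := by linarith
  have hlam1' : 1 ≤ lam := by linarith
  -- the parameter `l`
  set l : ℝ := 2 * lam ^ 8 with hl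
  have hl_ge : lam ≤ l := by
    have : lam ≤ lam ^ 8 := le_self_pow₀ hlam1' (by norm_num)
    rw [hl]; linarith [pow_pos hlam0 8]
  obtain ⟨fs, hfs, hmain⟩ := hl0 l (hlaml.trans hl_ge)
  refine ⟨fs, hfs, ?_⟩
  intro f _ hf1 hfle hffs χ hχ
  have : NeZero f := ⟨by omega⟩
  have hχ1 : χ ≠ 1 := primitive_ne_one hf1 hχ
  have hf0 : (0 : ℝ) < f := by exact_mod_cast (by omega : 0 < f)
  have hlogf : Real.log f ≤ l := by
    have h1 : Real.log f ≤ lam ^ 6 := by
      rw [Real.log_le_iff_le_exp hf0]; exact hfle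
    have h2 : lam ^ 6 ≤ lam ^ 8 := pow_le_pow_right₀ hlam1' (by norm_num)
    rw [hl]; linarith [pow_pos hlam0 8]
  have hlpow : l ^ 18 = 2 ^ 18 * lam ^ 144 := by rw [hl]; ring
  have hlpos : 0 < l := by linarith
  set δ : ℝ := d / l ^ 18 with hδ
  set M : ℝ := l ^ 18 / d with hM
  set T : ℝ := Real.exp (lam ^ 8) with hT
  have hδ0 : 0 < δ := by positivity
  have hM0 : 0 ≤ M := by positivity
  have hδM : δ * M = 1 := by
    rw [hδ, hM]; field_simp
  have hT3 : 3 ≤ T := by
    rw [hT]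
    have h1 := Real.add_one_le_exp (lam ^ 8)
    have h2 : lam ≤ lam ^ 8 := le_self_pow₀ hlam1' (by norm_num)
    linarith
  have hp144 : lam ^ 144 ≤ lam ^ 151 := pow_le_pow_right₀ hlam1' (by norm_num)
  have hp7 : lam ≤ lam ^ 7 := le_self_pow₀ hlam1' (by norm_num)
  have hp151 : 1 ≤ lam ^ 151 := one_le_pow₀ hlam1'
  -- `48 M ≤ e^λ`
  have hM48 : 48 * M ≤ Real.exp lam := by
    refine le_trans ?_ hdom
    rw [hM, hlpow]
    have h1 : 48 * (2 ^ 18 * lam ^ 144 / d) = (48 * 2 ^ 18 / d) * lam ^ 144 := by ring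
    rw [h1]
    have h2 : 48 * 2 ^ 18 / d ≤ 48 * 2 ^ 19 / d + 48 * C := by
      have : 48 * 2 ^ 18 / d ≤ 48 * 2 ^ 19 / d := by gcongr <;> norm_num
      linarith
    gcongr
  have hC48 : 48 * C ≤ Real.exp lam := by
    refine le_trans ?_ hdom
    have h1 : 48 * C * 1 ≤ (48 * 2 ^ 19 / d + 48 * C) * lam ^ 151 := by
      gcongr
      have : 0 < 48 * 2 ^ 19 / d := by positivity
      linarith
    linarith
  -- `λ + λ^7 ≤ δ e^λ`
  have hmain1 : lam + lam ^ 7 ≤ δ * Real.exp lam := by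
    have h1 : M * (lam + lam ^ 7) ≤ Real.exp lam := by
      refine le_trans ?_ hdom
      rw [hM, hlpow]
      calc 2 ^ 18 * lam ^ 144 / d * (lam + lam ^ 7) ≤ 2 ^ 18 * lam ^ 144 / d * (lam ^ 7 + lam ^ 7) := by
            gcongr
        _ = (2 ^ 19 / d) * lam ^ 151 := by ring
        _ ≤ (48 * 2 ^ 19 / d + 48 * C) * lam ^ 151 := by
            gcongr
            have : 2 ^ 19 / d ≤ 48 * 2 ^ 19 / d := by
              have h9 : 0 < 2 ^ 19 / d := by positivity
              have h10 : 48 * 2 ^ 19 / d = 48 * (2 ^ 19 / d) := by ring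
              linarith
            linarith
    calc lam + lam ^ 7 = δ * (M * (lam + lam ^ 7)) := by rw [← mul_assoc, hδM, one_mul]
      _ ≤ δ * Real.exp lam := by gcongr
  have hδ4 : δ ≤ 1 / 4 := by
    rw [hδ, div_le_iff₀ (by positivity)]
    have h2 : (2 : ℝ) ≤ l := by linarith
    have h3 : (2 : ℝ) ^ 18 ≤ l ^ 18 := by gcongr
    norm_num at h3
    linarith
  set c : ℝ := 1 + 1 / Real.log X with hc
  have hc1 : 1 < c := by
    rw [hc]
    have : 0 < 1 / Real.log X := by positivity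
    linarith
  have hcδ : c ≤ 1 + δ := by
    rw [hc, ← hexplam]
    have h1 : 1 ≤ δ * Real.exp lam := by
      have := hp7
      linarith
    have h2 : 1 / Real.exp lam ≤ δ := by
      rw [div_le_iff₀ (Real.exp_pos _)]; exact h1
    linarith
  have hX1 : 1 ≤ X := by
    have : 0 ≤ Real.exp (max (max a l0) 4) := (Real.exp_pos _).le
    exact (Real.one_le_exp this).trans hX
  have hXc : X ^ c ≤ 3 * X := by
    rw [hc, Real.rpow_add hXpos, Real.rpow_one]
    have h1 : X ^ (1 / Real.log X) = Real.exp 1 := by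
      rw [Real.rpow_def_of_pos hXpos, mul_one_div_cancel hLpos.ne']
    rw [h1]
    have := Real.exp_one_lt_d9
    nlinarith
  have hA : ∑' n : ℕ, ArithmeticFunction.vonMangoldt n * (n : ℝ) ^ (-c) ≤
      C * Real.exp (2 * lam) := by
    refine (hC c hc1 (by linarith)).trans (le_of_eq ?_)
    have h1 : c - 1 = 1 / Real.log X := by rw [hc]; ring
    have h2 : Real.exp (2 * lam) = (Real.log X) ^ 2 := by
      rw [← hexplam, ← Real.exp_nat_mul]; norm_num
    rw [h1, h2]
    field_simp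
  have hcont := contour χ hχ1 hX1 hc1 hδ0 hδ4 hcδ hXc (by linarith : (1 : ℝ) ≤ T) hM0 hA (by
    intro s h1 h2
    refine hmain f hf1 hlogf hffs χ hχ s h1 ?_
    have h3 : 2 * |s.im| + 3 ≤ Real.exp l := by
      have h4 : Real.exp l = T * T := by
        rw [hT, hl, ← Real.exp_add]; congr 1; ring
      rw [h4]
      nlinarith
    rw [Real.log_le_iff_le_exp (by positivity)]
    exact h3)
  refine hcont.trans ?_
  -- the three terms
  have hXδ : X ^ (1 - δ) = X * Real.exp (-(δ * Real.exp lam)) := by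
    rw [sub_eq_add_neg, Real.rpow_add hXpos, Real.rpow_one, Real.rpow_def_of_pos hXpos, hexplam]
    congr 2; ring
  have hpow : lam + lam ^ 7 ≤ 2 * lam ^ 8 ∧ 3 * lam + lam ^ 7 ≤ lam ^ 8 := by
    have h1 : lam ^ 8 = lam * lam ^ 7 := by ring
    have h2 : 4 * lam ^ 7 ≤ lam * lam ^ 7 := by gcongr
    constructor <;> linarith
  have t1 : 48 * (X ^ (1 - δ) * M) ≤ X * Real.exp (-lam ^ 7) := by
    rw [hXδ]
    calc 48 * (X * Real.exp (-(δ * Real.exp lam)) * M)
        = X * ((48 * M) * Real.exp (-(δ * Real.exp lam))) := by ring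
      _ ≤ X * (Real.exp lam * Real.exp (-(lam + lam ^ 7))) := by
          gcongr
      _ = _ := by rw [← Real.exp_add]; congr 2; ring
  have hTT : 1 / T ^ 2 = Real.exp (-(2 * lam ^ 8)) := by
    rw [hT, ← Real.exp_nat_mul, Real.exp_neg, one_div]; norm_num
  have t2 : 48 * (X * M / T ^ 2) ≤ X * Real.exp (-lam ^ 7) := by
    calc 48 * (X * M / T ^ 2) = X * ((48 * M) * (1 / T ^ 2)) := by ring
      _ = X * ((48 * M) * Real.exp (-(2 * lam ^ 8))) := by rw [hTT]
      _ ≤ X * (Real.exp lam * Real.exp (-(lam + lam ^ 7))) := by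
          gcongr
          exact hpow.1
      _ = _ := by rw [← Real.exp_add]; congr 2; ring
  have hT1 : 1 / T = Real.exp (-(lam ^ 8)) := by
    rw [hT, Real.exp_neg, one_div]
  have t3 : 48 * (X * (C * Real.exp (2 * lam)) / T) ≤ X * Real.exp (-lam ^ 7) := by
    calc 48 * (X * (C * Real.exp (2 * lam)) / T) = X * ((48 * C) * Real.exp (2 * lam) * (1 / T)) := by
          ring
      _ = X * ((48 * C) * Real.exp (2 * lam) * Real.exp (-(lam ^ 8))) := by rw [hT1]
      _ ≤ X * (Real.exp lam * Real.exp (2 * lam) * Real.exp (-(3 * lam + lam ^ 7))) := by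
          gcongr
          exact hpow.2
      _ = _ := by rw [← Real.exp_add, ← Real.exp_add]; congr 2; ring
  linarith

end Pool.Agent.H378R2
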