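import Mathlib
import Pool.Agent.H398R2.BV5
import Pool.Agent.H378R2.Defs

/-! The large sieve bound `ls_sum`. -/

open Finset Filter Topology

namespace Pool.Agent.H378R2.LSBV

open Pool.Agent.Helper112 Pool.Agent.Helper112.TI Pool.Agent.Helper112.TII
open Pool.Agent.H410R2 Pool.Agent.H398R2.BV

theorem dyadic_ineq (X y : ℝ) (hX : 1 ≤ X) (U : ℕ) (hU : X ^ (1 / 10 : ℝ) ≤ U)
    (hy1 : 1 ≤ y) (hy : y ≤ 2 * X ^ (1 / 50 : ℝ)) :
    y * (Real.sqrt X / (y / 2) + (Real.sqrt (X / U) + Real.sqrt (X / U)) + y) * Real.sqrt X ≤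
      10 * X := by
  have hX0 : 0 < X := by linarith
  have hy0 : 0 < y := by linarith
  have hsX : Real.sqrt X * Real.sqrt X = X := Real.mul_self_sqrt hX0.le
  have hp : 0 < X ^ (1 / 10 : ℝ) := by positivity
  have h1 : Real.sqrt (X / U) ≤ X ^ (9 / 20 : ℝ) := by
    rw [Real.sqrt_le_left (by positivity)]
    calc X / U ≤ X / X ^ (1 / 10 : ℝ) := div_le_div_of_nonneg_left hX0.le hp hU
      _ = X ^ (1 - 1 / 10 : ℝ) := by rw [Real.rpow_sub hX0, Real.rpow_one]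
      _ = (X ^ (9 / 20 : ℝ)) ^ 2 := by
          rw [← Real.rpow_natCast, ← Real.rpow_mul hX0.le]; norm_num
  have h2 : y * Real.sqrt (X / U) ≤ 2 * Real.sqrt X := by
    calc y * Real.sqrt (X / U) ≤ (2 * X ^ (1 / 50 : ℝ)) * X ^ (9 / 20 : ℝ) :=
          mul_le_mul hy h1 (Real.sqrt_nonneg _) (by positivity)
      _ = 2 * X ^ (1 / 50 + 9 / 20 : ℝ) := by rw [Real.rpow_add hX0]; ring
      _ ≤ 2 * X ^ (1 / 2 : ℝ) := by
          apply mul_le_mul_of_nonneg_left _ (by norm_num)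
          exact Real.rpow_le_rpow_of_exponent_le hX (by norm_num)
      _ = _ := by rw [Real.sqrt_eq_rpow]
  have h3 : y * y ≤ 4 * Real.sqrt X := by
    calc y * y ≤ (2 * X ^ (1 / 50 : ℝ)) * (2 * X ^ (1 / 50 : ℝ)) :=
          mul_le_mul hy hy hy0.le (by positivity)
      _ = 4 * X ^ (1 / 50 + 1 / 50 : ℝ) := by rw [Real.rpow_add hX0]; ring
      _ ≤ 4 * X ^ (1 / 2 : ℝ) := by
          apply mul_le_mul_of_nonneg_left _ (by norm_num)
          exact Real.rpow_le_rpow_of_exponent_le hX (by norm_num)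
      _ = _ := by rw [Real.sqrt_eq_rpow]
  have h4 : y * (Real.sqrt X / (y / 2)) = 2 * Real.sqrt X := by field_simp
  have h5 : y * (Real.sqrt X / (y / 2) + (Real.sqrt (X / U) + Real.sqrt (X / U)) + y) ≤
      10 * Real.sqrt X := by
    have : y * (Real.sqrt X / (y / 2) + (Real.sqrt (X / U) + Real.sqrt (X / U)) + y) =
        y * (Real.sqrt X / (y / 2)) + 2 * (y * Real.sqrt (X / U)) + y * y := by ring
    rw [this, h4]
    linarith
  calc _ ≤ 10 * Real.sqrt X * Real.sqrt X :=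
        mul_le_mul_of_nonneg_right h5 (Real.sqrt_nonneg _)
    _ = 10 * X := by rw [mul_assoc, hsX]

theorem typeII_sum (X : ℝ) (hX : 4 ≤ X) (hL1 : 1 ≤ Real.log X) (U : ℕ)
    (hU : X ^ (1 / 10 : ℝ) ≤ U) (F : ℕ) (hF : (F:ℝ) ≤ X ^ (1 / 50 : ℝ)) :
    ∑ f ∈ Icc 2 F, ∑ ψ ∈ Prim f, ‖TL X f ψ (LamII U U)‖ ≤
      120 * X * (1 + Real.log X) ^ 6 := by
  have hX0 : 0 < X := by linarith
  have hX1 : 1 ≤ X := by linarith
  set L := Real.log X with hL
  have hp : 0 < X ^ (1 / 10 : ℝ) := by positivity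
  have hU1 : 1 ≤ U := by
    by_contra h
    have : U = 0 := by omega
    subst this
    simp at hU
    linarith
  have hmaps : ∀ f ∈ Icc 2 F, Nat.log 2 f ∈ range (⌊L⌋₊ + 1) := by
    intro f hf
    rw [mem_Icc] at hf
    have h3 : (f:ℝ) ≤ X ^ (1 / 50 : ℝ) := le_trans (by exact_mod_cast hf.2) hF
    rw [mem_range, Nat.lt_succ_iff]
    apply Nat.le_floor
    have h4 : ((2:ℝ) ^ (Nat.log 2 f)) ≤ X ^ ((1:ℝ) / 2) := by
      calc ((2:ℝ) ^ (Nat.log 2 f)) ≤ f := by exact_mod_cast Nat.pow_log_le_self 2 (by omega)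
        _ ≤ X ^ (1 / 50 : ℝ) := h3
        _ ≤ _ := Real.rpow_le_rpow_of_exponent_le hX1 (by norm_num)
    have h5 := Real.log_le_log (by positivity) h4
    rw [Real.log_pow, Real.log_rpow hX0] at h5
    have h6 : (0.5:ℝ) < Real.log 2 := by
      have := Real.log_two_gt_d9
      linarith
    have h7 : (0:ℝ) ≤ (Nat.log 2 f : ℝ) := by positivity
    nlinarith
  rw [← sum_fiberwise_of_maps_to hmaps]
  have hblock : ∀ j ∈ range (⌊L⌋₊ + 1), ∑ f ∈ (Icc 2 F).filter (fun f => Nat.log 2 f = j),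
      ∑ ψ ∈ Prim f, ‖TL X f ψ (LamII U U)‖ ≤ 120 * X * (1 + L) ^ 5 := by
    intro j _
    rcases ((Icc 2 F).filter (fun f => Nat.log 2 f = j)).eq_empty_or_nonempty with
      hemp | ⟨f0, hf0⟩
    · rw [hemp, sum_empty]
      positivity
    have hsub : (Icc 2 F).filter (fun f => Nat.log 2 f = j) ⊆ Icc (2 ^ j) (2 ^ (j + 1)) := by
      intro f hf
      rw [mem_filter, mem_Icc] at hf
      obtain ⟨h1, h2⟩ := hf
      rw [mem_Icc, ← h2]
      exact ⟨Nat.pow_log_le_self 2 (by omega), (Nat.lt_pow_succ_log_self (by norm_num) f).le⟩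
    rw [mem_filter, mem_Icc] at hf0
    obtain ⟨h1, h2⟩ := hf0
    set y : ℝ := 2 ^ (j + 1) with hy
    have hy2j : (2:ℝ) ^ j = y / 2 := by rw [hy, pow_succ]; ring
    have hy1 : 1 ≤ y := one_le_pow₀ (by norm_num)
    have hj1 : (2:ℝ) ^ j ≤ f0 := by
      rw [← h2]; exact_mod_cast Nat.pow_log_le_self 2 (by omega)
    have hf0F : (f0:ℝ) ≤ X ^ (1 / 50 : ℝ) := le_trans (by exact_mod_cast h1.2) hF
    have hyu : y ≤ 2 * X ^ (1 / 50 : ℝ) := by
      have : y / 2 ≤ X ^ (1 / 50 : ℝ) := by rw [← hy2j]; exact hj1.trans hf0F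
      linarith
    have hkey := dyadic_ineq X y hX1 U hU hy1 hyu
    have hyX : y ≤ X := by
      calc y ≤ 2 * X ^ (1 / 50 : ℝ) := hyu
        _ ≤ 2 * X ^ ((1:ℝ) / 2) := by
            have : X ^ (1 / 50 : ℝ) ≤ X ^ ((1:ℝ) / 2) :=
              Real.rpow_le_rpow_of_exponent_le hX1 (by norm_num)
            linarith
        _ ≤ X ^ ((1:ℝ) / 2) * X ^ ((1:ℝ) / 2) := by
            apply mul_le_mul_of_nonneg_right _ (by positivity)
            rw [← Real.sqrt_eq_rpow]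
            apply Real.le_sqrt_of_sq_le
            linarith
        _ = X := by
            rw [← Real.rpow_add hX0]; norm_num
    have hlogy : Real.log y ≤ L := Real.log_le_log (by linarith) hyX
    have hlogy0 : 0 ≤ Real.log y := Real.log_nonneg hy1
    have hb := typeII_block X hX1 U U (2 ^ j) (2 ^ (j + 1)) hU1 hU1 Nat.one_le_two_pow
      Nat.one_le_two_pow
    push_cast at hb
    rw [← hy, hy2j, ← hL] at hb
    have h0 : ∀ f : ℕ, 0 ≤ ∑ ψ ∈ Prim f, ‖TL X f ψ (LamII U U)‖ :=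
      fun f => sum_nonneg fun _ _ => norm_nonneg _
    calc ∑ f ∈ (Icc 2 F).filter (fun f => Nat.log 2 f = j),
          ∑ ψ ∈ Prim f, ‖TL X f ψ (LamII U U)‖ ≤
          ∑ f ∈ (Icc 2 F).filter (fun f => Nat.log 2 f = j),
            y * ((1 / (Nat.totient f : ℝ)) * ∑ ψ ∈ Prim f, ‖TL X f ψ (LamII U U)‖) := by
          apply sum_le_sum
          intro f hf
          have hf' := hsub hf
          rw [mem_Icc] at hf'
          have hfp : 0 < f := lt_of_lt_of_le (by positivity) hf'.1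
          have hφ : (0:ℝ) < Nat.totient f := by exact_mod_cast Nat.totient_pos.mpr hfp
          have hφy : (Nat.totient f : ℝ) ≤ y := by
            calc (Nat.totient f : ℝ) ≤ f := by exact_mod_cast Nat.totient_le f
              _ ≤ y := by rw [hy]; exact_mod_cast hf'.2
          have : 1 ≤ y * (1 / (Nat.totient f : ℝ)) := by
            rw [mul_one_div, le_div_iff₀ hφ]
            linarith
          calc _ = 1 * ∑ ψ ∈ Prim f, ‖TL X f ψ (LamII U U)‖ := by ring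
            _ ≤ (y * (1 / (Nat.totient f : ℝ))) * ∑ ψ ∈ Prim f, ‖TL X f ψ (LamII U U)‖ :=
                mul_le_mul_of_nonneg_right this (h0 f)
            _ = _ := by ring
      _ = y * ∑ f ∈ (Icc 2 F).filter (fun f => Nat.log 2 f = j),
            ((1 / (Nat.totient f : ℝ)) * ∑ ψ ∈ Prim f, ‖TL X f ψ (LamII U U)‖) := by
          rw [mul_sum]
      _ ≤ y * ∑ f ∈ Icc (2 ^ j) (2 ^ (j + 1)),
            ((1 / (Nat.totient f : ℝ)) * ∑ ψ ∈ Prim f, ‖TL X f ψ (LamII U U)‖) := by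
          apply mul_le_mul_of_nonneg_left _ (by positivity)
          apply sum_le_sum_of_subset_of_nonneg hsub
          intro f _ _
          exact mul_nonneg (by positivity) (h0 f)
      _ ≤ y * (12 * (1 + Real.log y) * (Real.sqrt X / (y / 2) +
            (Real.sqrt (X / U) + Real.sqrt (X / U)) + y) *
            (Real.sqrt X * (1 + L) ^ 3) * L) :=
          mul_le_mul_of_nonneg_left hb (by positivity)
      _ = 12 * ((1 + Real.log y) * (1 + L) ^ 3 * L) * (y * (Real.sqrt X / (y / 2) +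
            (Real.sqrt (X / U) + Real.sqrt (X / U)) + y) * Real.sqrt X) := by ring
      _ ≤ 12 * ((1 + L) * (1 + L) ^ 3 * (1 + L)) * (10 * X) := by
          apply mul_le_mul _ hkey (by positivity) (by positivity)
          gcongr
          linarith
      _ = _ := by ring
  refine (sum_le_sum hblock).trans ?_
  rw [sum_const, nsmul_eq_mul, card_range]
  have h8 : ((⌊L⌋₊ + 1 : ℕ) : ℝ) ≤ 1 + L := by
    push_cast
    have := Nat.floor_le (show 0 ≤ L by linarith)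
    linarith
  calc ((⌊L⌋₊ + 1 : ℕ) : ℝ) * (120 * X * (1 + L) ^ 5) ≤ (1 + L) * (120 * X * (1 + L) ^ 5) :=
        mul_le_mul_of_nonneg_right h8 (by positivity)
    _ = _ := by ring

/-- the large sieve bound for the log weight -/
theorem ls_psiLog (X : ℝ) (hX : 4 ≤ X) (F : ℕ) (hF : (F:ℝ) ≤ X ^ (1 / 50 : ℝ)) :
    ∑ f ∈ Icc 2 F, ∑ ψ ∈ Prim f, ‖psiLog X f ψ‖ ≤ 152 * X * (1 + Real.log X) ^ 6 := by
  have hX0 : 0 < X := by linarith
  have hX1 : 1 ≤ X := by linarith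
  have hL1 : 1 ≤ Real.log X := by
    rw [Real.le_log_iff_exp_le hX0]
    have := Real.exp_one_lt_d9
    linarith
  set L := Real.log X with hL
  have hp : 1 ≤ X ^ (1 / 10 : ℝ) := Real.one_le_rpow hX1 (by norm_num)
  obtain ⟨U, hU1, hU2⟩ : ∃ U : ℕ, X ^ (1 / 10 : ℝ) ≤ U ∧ (U:ℝ) ≤ 2 * X ^ (1 / 10 : ℝ) := by
    refine ⟨⌈X ^ (1 / 10 : ℝ)⌉₊, Nat.le_ceil _, ?_⟩
    have := (Nat.ceil_lt_add_one (show 0 ≤ X ^ (1 / 10 : ℝ) by positivity)).le
    linarith
  have hU : 1 ≤ U := by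
    have : (1:ℝ) ≤ U := hp.trans hU1
    exact_mod_cast this
  have h1 : ∑ f ∈ Icc 2 F, ∑ ψ ∈ Prim f, ‖psiLog X f ψ‖ ≤
      ∑ f ∈ Icc 2 F, ∑ ψ ∈ Prim f, 8 * (U:ℝ) * U * f * L ^ 2 +
      ∑ f ∈ Icc 2 F, ∑ ψ ∈ Prim f, ‖TL X f ψ (LamII U U)‖ := by
    rw [← sum_add_distrib]
    apply sum_le_sum
    intro f hf
    rw [mem_Icc] at hf
    rw [← sum_add_distrib]
    apply sum_le_sum
    intro ψ hψ
    exact norm_psiLog_le X hX1 U U f hU hU hf.1 ψ (prim_ne_one hf.1 hψ)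
  have h2 : ∑ f ∈ Icc 2 F, ∑ ψ ∈ Prim f, 8 * (U:ℝ) * U * f * L ^ 2 ≤ 32 * X * L ^ 2 := by
    have h3 : ∀ f ∈ Icc 2 F, ∑ ψ ∈ Prim f, 8 * (U:ℝ) * U * f * L ^ 2 ≤
        (F:ℝ) * (8 * (U:ℝ) * U * F * L ^ 2) := by
      intro f hf
      rw [mem_Icc] at hf
      have hfF : (f:ℝ) ≤ F := by exact_mod_cast hf.2
      rw [sum_const, nsmul_eq_mul]
      have hc : ((Prim f).card : ℝ) ≤ F := by
        calc ((Prim f).card : ℝ) ≤ Nat.totient f := card_prim_le (by omega)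
          _ ≤ f := by exact_mod_cast Nat.totient_le f
          _ ≤ F := hfF
      apply mul_le_mul hc _ (by positivity) (by positivity)
      gcongr
    calc _ ≤ ∑ f ∈ Icc 2 F, (F:ℝ) * (8 * (U:ℝ) * U * F * L ^ 2) := sum_le_sum h3
      _ = ((Icc 2 F).card : ℝ) * ((F:ℝ) * (8 * (U:ℝ) * U * F * L ^ 2)) := by
          rw [sum_const, nsmul_eq_mul]
      _ ≤ (F:ℝ) * ((F:ℝ) * (8 * (U:ℝ) * U * F * L ^ 2)) := by
          apply mul_le_mul_of_nonneg_right _ (by positivity)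
          rw [Nat.card_Icc]
          have : F + 1 - 2 ≤ F := by omega
          exact_mod_cast this
      _ = 8 * ((F:ℝ) ^ 3 * U ^ 2) * L ^ 2 := by ring
      _ ≤ 8 * ((X ^ (1 / 50 : ℝ)) ^ 3 * (2 * X ^ (1 / 10 : ℝ)) ^ 2) * L ^ 2 := by gcongr
      _ = 32 * (X ^ (3 / 50 + 1 / 5 : ℝ)) * L ^ 2 := by
          rw [Real.rpow_add hX0]
          have e1 : (X ^ (1 / 50 : ℝ)) ^ 3 = X ^ (3 / 50 : ℝ) := by
            rw [← Real.rpow_natCast, ← Real.rpow_mul hX0.le]; norm_num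
          have e2 : (X ^ (1 / 10 : ℝ)) ^ 2 = X ^ (1 / 5 : ℝ) := by
            rw [← Real.rpow_natCast, ← Real.rpow_mul hX0.le]; norm_num
          rw [e1, mul_pow, e2]; ring
      _ ≤ 32 * X * L ^ 2 := by
          have : X ^ (3 / 50 + 1 / 5 : ℝ) ≤ X := by
            calc X ^ (3 / 50 + 1 / 5 : ℝ) ≤ X ^ (1:ℝ) :=
                  Real.rpow_le_rpow_of_exponent_le hX1 (by norm_num)
              _ = X := Real.rpow_one X
          gcongr
  have h4 := typeII_sum X hX hL1 U hU1 F hF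
  rw [← hL] at h4
  have h5 : L ^ 2 ≤ (1 + L) ^ 6 := by
    calc L ^ 2 ≤ (1 + L) ^ 2 := by gcongr; linarith
      _ ≤ (1 + L) ^ 6 := pow_le_pow_right₀ (by linarith) (by norm_num)
  have h6 : 32 * X * L ^ 2 ≤ 32 * X * (1 + L) ^ 6 := mul_le_mul_of_nonneg_left h5 (by positivity)
  linarith

/-- the log-weighted sum over a longer range -/
theorem psiLog_eq_max (x : ℝ) (hx : 0 < x) (N : ℕ) (hN : ⌊x⌋₊ ≤ N) (f : ℕ)
    (χ : DirichletCharacter ℂ f) :
    psiLog x f χ = ∑ n ∈ Icc 1 N, ((ArithmeticFunction.vonMangoldt n : ℝ) : ℂ) *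
      χ (n : ZMod f) * ((max 0 (Real.log (x / n)) : ℝ) : ℂ) := by
  unfold psiLog
  have hsub : Icc 1 ⌊x⌋₊ ⊆ Icc 1 N := Icc_subset_Icc_right hN
  rw [← sum_subset hsub]
  · apply sum_congr rfl
    intro n hn
    rw [mem_Icc] at hn
    have hn0 : (0:ℝ) < n := by exact_mod_cast hn.1
    have hnx : (n:ℝ) ≤ x := (Nat.cast_le.mpr hn.2).trans (Nat.floor_le hx.le)
    have : 0 ≤ Real.log (x / n) := Real.log_nonneg (by rw [le_div_iff₀ hn0]; linarith)
    rw [max_eq_right this]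
  · intro n hn hn'
    rw [mem_Icc] at hn hn'
    have hn0 : (0:ℝ) < n := by exact_mod_cast hn.1
    have h1 : ⌊x⌋₊ < n := by
      by_contra h
      exact hn' ⟨hn.1, by omega⟩
    have hnx : x < n := (Nat.floor_lt hx.le).mp h1
    have : Real.log (x / n) ≤ 0 := Real.log_nonpos (by positivity)
      (by rw [div_le_one hn0]; linarith)
    rw [max_eq_left this]
    simp

theorem Phi_eq (X n : ℝ) (hX : 0 < X) (hn : 0 < n) :
    Phi (n / X) = max 0 (Real.log (X / n)) - 2 * max 0 (Real.log (Real.exp (1 / 2) * X / n)) +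
      max 0 (Real.log (Real.exp 1 * X / n)) := by
  have e1 : Real.log (X / n) = - Real.log (n / X) := by
    rw [← Real.log_inv, inv_div]
  have e2 : Real.log (Real.exp (1 / 2) * X / n) = 1 / 2 - Real.log (n / X) := by
    rw [mul_div_assoc, Real.log_mul (Real.exp_ne_zero _) (by positivity), Real.log_exp, e1]; ring
  have e3 : Real.log (Real.exp 1 * X / n) = 1 - Real.log (n / X) := by
    rw [mul_div_assoc, Real.log_mul (Real.exp_ne_zero _) (by positivity), Real.log_exp, e1]; ring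
  rw [e1, e2, e3]
  unfold Phi
  set v := Real.log (n / X)
  rcases le_total v 0 with h | h
  · rw [abs_of_nonpos (by linarith), max_eq_left (by linarith), max_eq_right (by linarith),
      max_eq_right (by linarith), max_eq_right (by linarith)]
    ring
  rcases le_total v (1 / 2) with h2 | h2
  · rw [abs_of_nonpos (by linarith), max_eq_right (by linarith), max_eq_left (by linarith),
      max_eq_right (by linarith), max_eq_right (by linarith)]
    ring
  rcases le_total v 1 with h3 | h3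
  · rw [abs_of_nonneg (by linarith), max_eq_right (by linarith), max_eq_left (by linarith),
      max_eq_left (by linarith), max_eq_right (by linarith)]
    ring
  · rw [abs_of_nonneg (by linarith), max_eq_left (by linarith), max_eq_left (by linarith),
      max_eq_left (by linarith), max_eq_left (by linarith)]
    ring

theorem psiPhi_eq (X : ℝ) (hX : 0 < X) (f : ℕ) (χ : DirichletCharacter ℂ f) :
    psiPhi χ X = psiLog X f χ - 2 * psiLog (Real.exp (1 / 2) * X) f χ +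
      psiLog (Real.exp 1 * X) f χ := by
  have h3 : Real.exp 1 ≤ 3 := by
    have := Real.exp_one_lt_d9
    linarith
  have h12 : Real.exp (1 / 2) ≤ Real.exp 1 := Real.exp_le_exp.mpr (by norm_num)
  have hN : ∀ x : ℝ, x ≤ 3 * X → ⌊x⌋₊ ≤ ⌊3 * X⌋₊ := fun x hx => Nat.floor_le_floor hx
  rw [psiLog_eq_max X hX _ (hN X (by linarith)),
    psiLog_eq_max (Real.exp (1 / 2) * X) (by positivity) _ (hN _ (by gcongr; linarith)),
    psiLog_eq_max (Real.exp 1 * X) (by positivity) _ (hN _ (by gcongr)), mul_sum,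
    ← sum_sub_distrib, ← sum_add_distrib]
  unfold psiPhi
  apply sum_congr rfl
  intro n hn
  rw [mem_Icc] at hn
  have hn0 : (0:ℝ) < n := by exact_mod_cast hn.1
  rw [Phi_eq X n hX hn0]
  push_cast
  ring

theorem norm_psiPhi_le (X : ℝ) (hX : 0 < X) (f : ℕ) (χ : DirichletCharacter ℂ f) :
    ‖psiPhi χ X‖ ≤ ‖psiLog X f χ‖ + 2 * ‖psiLog (Real.exp (1 / 2) * X) f χ‖ +
      ‖psiLog (Real.exp 1 * X) f χ‖ := by
  rw [psiPhi_eq X hX]
  refine (norm_add_le _ _).trans ?_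
  refine add_le_add_left ((norm_sub_le _ _).trans ?_) _
  rw [norm_mul]
  simp

end Pool.Agent.H378R2.LSBV

namespace Pool.Agent.H378R2

open Classical in
/-- (LS) all primitive characters of conductor up to a small power of `X` -/
theorem ls_sum : ∃ C X0 : ℝ, ∀ X : ℝ, X0 ≤ X →
    ∑ f ∈ Icc 2 ⌊X ^ (1 / 50 : ℝ)⌋₊,
      ∑ χ ∈ (univ : Finset (DirichletCharacter ℂ f)).filter (fun χ => χ.IsPrimitive), ‖psiPhi χ X‖
      ≤ C * X * (Real.log X) ^ 8 := by
  refine ⟨1216 * 3 ^ 6, 4, fun X hX => ?_⟩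
  have hX0 : 0 < X := by linarith
  have hX1 : 1 ≤ X := by linarith
  have hL1 : 1 ≤ Real.log X := by
    rw [Real.le_log_iff_exp_le hX0]
    have := Real.exp_one_lt_d9
    linarith
  set F := ⌊X ^ (1 / 50 : ℝ)⌋₊ with hFdef
  have hF : (F:ℝ) ≤ X ^ (1 / 50 : ℝ) := Nat.floor_le (by positivity)
  have h3 : Real.exp 1 ≤ 3 := by
    have := Real.exp_one_lt_d9
    linarith
  have h12 : Real.exp (1 / 2) ≤ 2 := by
    have h := Real.exp_one_lt_d9
    have h2 : Real.exp (1 / 2) * Real.exp (1 / 2) = Real.exp 1 := by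
      rw [← Real.exp_add]; norm_num
    nlinarith [Real.exp_pos (1 / 2)]
  have h12' : 1 ≤ Real.exp (1 / 2) := Real.one_le_exp (by norm_num)
  have h1' : 1 ≤ Real.exp 1 := Real.one_le_exp (by norm_num)
  have hmono : ∀ c : ℝ, 1 ≤ c → (F:ℝ) ≤ (c * X) ^ (1 / 50 : ℝ) := fun c hc =>
    hF.trans (Real.rpow_le_rpow hX0.le (by nlinarith) (by norm_num))
  have a1 := LSBV.ls_psiLog X hX F hF
  have a2 := LSBV.ls_psiLog (Real.exp (1 / 2) * X) (by nlinarith) F (hmono _ h12')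
  have a3 := LSBV.ls_psiLog (Real.exp 1 * X) (by nlinarith) F (hmono _ h1')
  rw [Real.log_mul (Real.exp_ne_zero _) hX0.ne', Real.log_exp] at a2 a3
  set L := Real.log X with hL
  have hsum : ∑ f ∈ Icc 2 F,
      ∑ χ ∈ (univ : Finset (DirichletCharacter ℂ f)).filter (fun χ => χ.IsPrimitive),
        ‖psiPhi χ X‖ ≤
      ∑ f ∈ Icc 2 F, ∑ ψ ∈ Pool.Agent.H398R2.BV.Prim f, ‖Pool.Agent.H410R2.psiLog X f ψ‖ +
      2 * ∑ f ∈ Icc 2 F, ∑ ψ ∈ Pool.Agent.H398R2.BV.Prim f,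
        ‖Pool.Agent.H410R2.psiLog (Real.exp (1 / 2) * X) f ψ‖ +
      ∑ f ∈ Icc 2 F, ∑ ψ ∈ Pool.Agent.H398R2.BV.Prim f,
        ‖Pool.Agent.H410R2.psiLog (Real.exp 1 * X) f ψ‖ := by
    rw [mul_sum, ← sum_add_distrib, ← sum_add_distrib]
    apply sum_le_sum
    intro f _
    rw [mul_sum, ← sum_add_distrib, ← sum_add_distrib]
    apply sum_le_sum
    intro χ _
    exact LSBV.norm_psiPhi_le X hX0 f χ
  have hp6 : (1 + L) ^ 6 ≤ (3 * L) ^ 6 := by gcongr; linarith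
  have hp6' : (1 + (1 / 2 + L)) ^ 6 ≤ (3 * L) ^ 6 := by gcongr; linarith
  have hp6'' : (1 + (1 + L)) ^ 6 ≤ (3 * L) ^ 6 := by gcongr; linarith
  have b1 : 152 * X * (1 + L) ^ 6 ≤ 152 * X * (3 * L) ^ 6 := by gcongr
  have b2 : 152 * (Real.exp (1 / 2) * X) * (1 + (1 / 2 + L)) ^ 6 ≤
      152 * (2 * X) * (3 * L) ^ 6 := by gcongr
  have b3 : 152 * (Real.exp 1 * X) * (1 + (1 + L)) ^ 6 ≤
      152 * (3 * X) * (3 * L) ^ 6 := by gcongr
  have hL8 : L ^ 6 ≤ L ^ 8 := pow_le_pow_right₀ hL1 (by norm_num)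
  calc _ ≤ 152 * X * (3 * L) ^ 6 + 2 * (152 * (2 * X) * (3 * L) ^ 6) +
        152 * (3 * X) * (3 * L) ^ 6 := by linarith
    _ = 1216 * 3 ^ 6 * X * L ^ 6 := by ring
    _ ≤ 1216 * 3 ^ 6 * X * L ^ 8 := by gcongr

end Pool.Agent.H378R2
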