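import Mathlib
import Pool.Agent.H378R2.LSBV3

/-! Random removal of primes. -/

open Finset

namespace Pool.Agent.H378R2.LSBV

open Pool.Agent.Helper112 Pool.Agent.H398R2.BV

/-- product weights on subsets -/
noncomputable def ww (P : Finset ℕ) (κ : ℝ) (S : Finset ℕ) : ℝ :=
  (∏ _i ∈ S, κ) * ∏ _i ∈ P \ S, (1 - κ)

theorem ww_nonneg (P : Finset ℕ) (κ : ℝ) (h0 : 0 ≤ κ) (h1 : κ ≤ 1) (S : Finset ℕ) :
    0 ≤ ww P κ S :=
  mul_nonneg (prod_nonneg fun _ _ => h0) (prod_nonneg fun _ _ => by linarith)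

theorem sum_ww_disjoint (P B : Finset ℕ) (κ : ℝ) :
    ∑ S ∈ P.powerset, ww P κ S * (if Disjoint S B then 1 else 0) = (1 - κ) ^ (P ∩ B).card := by
  have h1 : ∀ S ∈ P.powerset, ww P κ S * (if Disjoint S B then 1 else 0) =
      (∏ i ∈ S, κ * (if i ∈ B then 0 else 1)) * ∏ _i ∈ P \ S, (1 - κ) := by
    intro S _
    unfold ww
    rw [prod_mul_distrib]
    have : (∏ i ∈ S, (if i ∈ B then (0:ℝ) else 1)) = if Disjoint S B then 1 else 0 := by
      split_ifs with h
      · apply prod_eq_one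
        intro i hi
        rw [if_neg (Finset.disjoint_left.mp h hi)]
      · rw [Finset.not_disjoint_iff] at h
        obtain ⟨i, hi, hi'⟩ := h
        exact prod_eq_zero hi (if_pos hi')
    rw [this]
    ring
  rw [sum_congr rfl h1, ← prod_add]
  have h2 : ∀ i ∈ P, κ * (if i ∈ B then (0:ℝ) else 1) + (1 - κ) = if i ∈ B then (1 - κ) else 1 := by
    intro i _
    split_ifs <;> ring
  rw [prod_congr rfl h2, prod_ite, prod_const, prod_const, one_pow, mul_one]
  congr 1

theorem sum_ww (P : Finset ℕ) (κ : ℝ) : ∑ S ∈ P.powerset, ww P κ S = 1 := by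
  have := sum_ww_disjoint P ∅ κ
  simpa using this

theorem sum_ww_inv (P : Finset ℕ) (κ : ℝ) :
    ∑ S ∈ P.powerset, ww P κ S * ∑ q ∈ S, (1:ℝ) / q = κ * ∑ q ∈ P, (1:ℝ) / q := by
  have h1 : ∀ S ∈ P.powerset, ww P κ S * ∑ q ∈ S, (1:ℝ) / q =
      ∑ q ∈ P, ((1:ℝ) / q) * (ww P κ S * (1 - (if Disjoint S {q} then 1 else 0))) := by
    intro S hS
    rw [mem_powerset] at hS
    rw [mul_sum, ← sum_subset hS]
    · apply sum_congr rfl
      intro q hq
      rw [if_neg (by simpa using hq)]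
      ring
    · intro q _ hq
      rw [if_pos (by simpa using hq)]
      ring
  rw [sum_congr rfl h1, sum_comm, mul_sum]
  apply sum_congr rfl
  intro q hq
  rw [← mul_sum]
  have h2 : ∑ S ∈ P.powerset, ww P κ S * (1 - (if Disjoint S {q} then (1:ℝ) else 0)) = κ := by
    have h3 := sum_ww_disjoint P {q} κ
    have h4 : (P ∩ {q}).card = 1 := by
      rw [inter_singleton_of_mem hq, card_singleton]
    rw [h4, pow_one] at h3
    simp_rw [mul_sub]
    rw [sum_sub_distrib, h3]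
    simp only [mul_one]
    rw [sum_ww]
    ring
  rw [h2]
  ring

theorem exists_good (P : Finset ℕ) (κ : ℝ) (h0 : 0 ≤ κ) (h1 : κ ≤ 1) (X1 X2 : Finset ℕ → ℝ)
    (hX1 : ∀ S, 0 ≤ X1 S) (hX2 : ∀ S, 0 ≤ X2 S) (m1 m2 : ℝ) (hm1 : 0 < m1) (hm2 : 0 < m2)
    (hE1 : ∑ S ∈ P.powerset, ww P κ S * X1 S ≤ m1)
    (hE2 : ∑ S ∈ P.powerset, ww P κ S * X2 S ≤ m2) :
    ∃ S ⊆ P, X1 S ≤ 3 * m1 ∧ X2 S ≤ 3 * m2 := by
  by_contra hcon
  push Not at hcon
  have h2 : ∀ S ∈ P.powerset, ww P κ S ≤ ww P κ S * X1 S / (3 * m1) +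
      ww P κ S * X2 S / (3 * m2) := by
    intro S hS
    rw [mem_powerset] at hS
    have hw := ww_nonneg P κ h0 h1 S
    have h3 : 1 ≤ X1 S / (3 * m1) + X2 S / (3 * m2) := by
      by_cases hc : X1 S ≤ 3 * m1
      · have := hcon S hS hc
        have h4 : 1 ≤ X2 S / (3 * m2) := by
          rw [le_div_iff₀ (by positivity)]; linarith
        have h5 : 0 ≤ X1 S / (3 * m1) := div_nonneg (hX1 S) (by positivity)
        linarith
      · push Not at hc
        have h4 : 1 ≤ X1 S / (3 * m1) := by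
          rw [le_div_iff₀ (by positivity)]; linarith
        have h5 : 0 ≤ X2 S / (3 * m2) := div_nonneg (hX2 S) (by positivity)
        linarith
    calc ww P κ S = ww P κ S * 1 := by ring
      _ ≤ ww P κ S * (X1 S / (3 * m1) + X2 S / (3 * m2)) := mul_le_mul_of_nonneg_left h3 hw
      _ = _ := by ring
  have h3 := sum_le_sum h2
  rw [sum_ww, sum_add_distrib, ← sum_div, ← sum_div] at h3
  have h4 : (∑ S ∈ P.powerset, ww P κ S * X1 S) / (3 * m1) ≤ 1 / 3 := by
    rw [div_le_div_iff₀ (by positivity) (by norm_num)]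
    linarith
  have h5 : (∑ S ∈ P.powerset, ww P κ S * X2 S) / (3 * m2) ≤ 1 / 3 := by
    rw [div_le_div_iff₀ (by positivity) (by norm_num)]
    linarith
  linarith

theorem WW_dvd_primorial (X : ℝ) (S : Finset ℕ) (ps : ℕ) : WW X S ps ∣ primorial (yy X) := by
  unfold WW primorial
  apply prod_dvd_prod_of_subset
  intro p hp
  unfold PW at hp
  rw [mem_filter, mem_Icc] at hp
  rw [mem_filter, mem_range]
  exact ⟨by omega, hp.2.1⟩

theorem WW_primes (X : ℝ) (S : Finset ℕ) (ps : ℕ) : ∀ p ∈ PW X S ps, p.Prime := by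
  intro p hp
  unfold PW at hp
  rw [mem_filter] at hp
  exact hp.2.1

theorem WW_pos (X : ℝ) (S : Finset ℕ) (ps : ℕ) : 1 ≤ WW X S ps := by
  unfold WW
  exact Nat.one_le_iff_ne_zero.mpr (prod_ne_zero_iff.mpr fun p hp => (WW_primes X S ps p hp).ne_zero)

theorem WW_squarefree (X : ℝ) (S : Finset ℕ) (ps : ℕ) : Squarefree (WW X S ps) := by
  unfold WW
  apply Finset.squarefree_prod_of_pairwise_isCoprime
  · intro p hp q hq hpq
    have h1 := WW_primes X S ps p (by simpa using hp)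
    have h2 := WW_primes X S ps q (by simpa using hq)
    exact Nat.coprime_iff_isRelPrime.mp ((Nat.coprime_primes h1 h2).mpr hpq)
  · intro p hp
    exact (WW_primes X S ps p hp).squarefree

theorem WW_primeFactors (X : ℝ) (S : Finset ℕ) (ps : ℕ) :
    (WW X S ps).primeFactors = PW X S ps := by
  unfold WW
  exact Nat.primeFactors_prod (WW_primes X S ps)

theorem disjoint_of_dvd_WW (X : ℝ) (S : Finset ℕ) (ps a : ℕ) (ha : a ∣ WW X S ps) :
    Disjoint S a.primeFactors := by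
  rw [Finset.disjoint_right]
  intro p hp hS
  have h1 : p ∈ (WW X S ps).primeFactors :=
    Nat.primeFactors_mono ha (by have := WW_pos X S ps; omega) hp
  rw [WW_primeFactors] at h1
  unfold PW at h1
  rw [mem_filter] at h1
  exact h1.2.2.1 hS

/-- the pairs of case B -/
noncomputable def pairB (X : ℝ) (ps R D Ω : ℕ) (P S : Finset ℕ) : Finset (ℕ × ℕ) :=
  ((WW X S ps).divisors ×ˢ QQ (WW X S ps) ps R).filter
    (fun p => p.1 * p.2 ≠ 1 ∧ p.2 ≤ D ∧ Ω ≤ (P ∩ p.1.primeFactors).card)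

theorem caseB (T : ℕ → ℝ) (hT : ∀ f, 0 ≤ T f) (X : ℝ) (ps R D Ω F : ℕ) (P : Finset ℕ) (κ : ℝ)
    (h0 : 0 ≤ κ) (h1 : κ ≤ 1) (hF : primorial (yy X) * R ≤ F) :
    ∑ S ∈ P.powerset, ww P κ S * ∑ p ∈ pairB X ps R D Ω P S, T (p.1 * p.2) ≤
      (1 - κ) ^ Ω * (D * ∑ f ∈ Icc 2 F, T f) := by
  set V := primorial (yy X) with hV
  have hV0 : 0 < V := primorial_pos _
  set G := ((V.divisors ×ˢ Icc 1 D).filter
    (fun p => p.1 * p.2 ≠ 1 ∧ p.2 ≤ R ∧ Ω ≤ (P ∩ p.1.primeFactors).card)) with hG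
  have s1 : ∀ S ∈ P.powerset, ww P κ S * ∑ p ∈ pairB X ps R D Ω P S, T (p.1 * p.2) ≤
      ∑ p ∈ G, T (p.1 * p.2) *
        (ww P κ S * (if Disjoint S p.1.primeFactors then (1:ℝ) else 0)) := by
    intro S _
    have hw := ww_nonneg P κ h0 h1 S
    rw [mul_sum]
    have hsub : pairB X ps R D Ω P S ⊆ G := by
      intro p hp
      unfold pairB at hp
      rw [mem_filter, mem_product, Nat.mem_divisors, mem_QQ] at hp
      rw [hG, mem_filter, mem_product, Nat.mem_divisors, mem_Icc]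
      obtain ⟨⟨⟨h2, _⟩, ⟨h3, h4⟩, _⟩, h5, h6, h7⟩ := hp
      exact ⟨⟨⟨h2.trans (WW_dvd_primorial X S ps), hV0.ne'⟩, h3, h6⟩, h5, h4, h7⟩
    calc ∑ p ∈ pairB X ps R D Ω P S, ww P κ S * T (p.1 * p.2) =
        ∑ p ∈ pairB X ps R D Ω P S, T (p.1 * p.2) *
        (ww P κ S * (if Disjoint S p.1.primeFactors then (1:ℝ) else 0)) := by
          apply sum_congr rfl
          intro p hp
          unfold pairB at hp
          rw [mem_filter, mem_product, Nat.mem_divisors] at hp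
          rw [if_pos (disjoint_of_dvd_WW X S ps p.1 hp.1.1.1)]
          ring
      _ ≤ _ := by
          apply sum_le_sum_of_subset_of_nonneg hsub
          intro p _ _
          apply mul_nonneg (hT _)
          apply mul_nonneg hw
          split_ifs <;> norm_num
  refine (sum_le_sum s1).trans ?_
  rw [sum_comm]
  have s2 : ∀ p ∈ G, ∑ S ∈ P.powerset, T (p.1 * p.2) *
        (ww P κ S * (if Disjoint S p.1.primeFactors then (1:ℝ) else 0)) ≤
      (1 - κ) ^ Ω * T (p.1 * p.2) := by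
    intro p hp
    rw [hG, mem_filter] at hp
    rw [← mul_sum, sum_ww_disjoint, mul_comm]
    apply mul_le_mul_of_nonneg_right _ (hT _)
    exact pow_le_pow_of_le_one (by linarith) (by linarith) hp.2.2.2
  refine (sum_le_sum s2).trans ?_
  rw [← mul_sum]
  apply mul_le_mul_of_nonneg_left _ (by apply pow_nonneg; linarith)
  -- sum over G
  have s3 : ∑ p ∈ G, T (p.1 * p.2) ≤ ∑ b ∈ Icc 1 D, ∑ f ∈ Icc 2 F, T f := by
    have hmaps : ∀ p ∈ G, p.2 ∈ Icc 1 D := by
      intro p hp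
      rw [hG, mem_filter, mem_product] at hp
      exact hp.1.2
    rw [← sum_fiberwise_of_maps_to hmaps]
    apply sum_le_sum
    intro b hb
    rw [mem_Icc] at hb
    rw [← sum_image (f := T) (g := fun p : ℕ × ℕ => p.1 * p.2)]
    · apply sum_le_sum_of_subset_of_nonneg
      · intro f hf
        rw [mem_image] at hf
        obtain ⟨p, hp, rfl⟩ := hf
        rw [mem_filter, hG, mem_filter, mem_product, Nat.mem_divisors, mem_Icc] at hp
        obtain ⟨⟨⟨⟨h2, _⟩, h3, h4⟩, h5, h6, _⟩, _⟩ := hp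
        rw [mem_Icc]
        have h7 : 0 < p.1 := Nat.pos_of_dvd_of_pos h2 hV0
        have h8 : 0 < p.1 * p.2 := by positivity
        have h9 : p.1 * p.2 ≤ V * R := Nat.mul_le_mul (Nat.le_of_dvd hV0 h2) h6
        exact ⟨by omega, h9.trans hF⟩
      · intro f _ _
        exact hT f
    · intro p hp p' hp' h
      rw [Finset.mem_coe, mem_filter] at hp hp'
      have e2 : p.2 = p'.2 := by rw [hp.2, hp'.2]
      simp only at h
      rw [hp.2, hp'.2] at h
      have e1 : p.1 = p'.1 := Nat.eq_of_mul_eq_mul_right (by omega) h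
      exact Prod.ext e1 e2
  refine s3.trans ?_
  rw [sum_const, nsmul_eq_mul, Nat.card_Icc]
  simp

end Pool.Agent.H378R2.LSBV
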