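import Mathlib
import Pool.Agent.H378R2.LSBV4

/-! The relative Bombieri-Vinogradov theorem. -/

open Finset Filter Topology

namespace Pool.Agent.H378R2

/-- statement of module M1 -/
def SmallConductor : Prop := ∀ Z : ℕ, ∃ X0 : ℝ, ∀ X : ℝ, X0 ≤ X →
    ∃ fs : ℕ, (fs = 0 ∨ Z < fs) ∧
      ∀ f : ℕ, Squarefree f → 1 < f → (f : ℝ) ≤ Real.exp ((Real.log (Real.log X)) ^ 6) → f ≠ fs →
        ∀ χ : DirichletCharacter ℂ f, χ.IsPrimitive →
          ‖psiPhi χ X‖ ≤ X * Real.exp (-(Real.log (Real.log X)) ^ 7)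

namespace LSBV

open Pool.Agent.Helper112 Pool.Agent.H398R2.BV

theorem exists_ps (Z fs : ℕ) (h : fs = 0 ∨ primorial Z < fs) :
    ∃ ps, GoodP Z ps ∧ ∀ f, 1 < f → Squarefree f → f.Coprime ps → f ≠ fs := by
  by_cases hc : Squarefree fs ∧ 1 < fs
  · obtain ⟨hsq, h1⟩ := hc
    have h2 : primorial Z < fs := by
      rcases h with h | h
      · omega
      · exact h
    have h3 : ∃ p, p.Prime ∧ p ∣ fs ∧ Z < p := by
      by_contra hcon
      push Not at hcon
      have h4 : fs ∣ primorial Z := by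
        rw [← Nat.prod_primeFactors_of_squarefree hsq]
        unfold primorial
        apply prod_dvd_prod_of_subset
        intro p hp
        rw [mem_filter, mem_range]
        have hp' := Nat.prime_of_mem_primeFactors hp
        have := hcon p hp' (Nat.dvd_of_mem_primeFactors hp)
        exact ⟨by omega, hp'⟩
      have := Nat.le_of_dvd (primorial_pos Z) h4
      omega
    obtain ⟨p, hp, hpf, hpZ⟩ := h3
    refine ⟨p, Or.inr ⟨hp, hpZ⟩, fun f _ _ hcop hf => ?_⟩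
    subst hf
    have := hcop.symm
    rw [Nat.Prime.coprime_iff_not_dvd hp] at this
    exact this hpf
  · refine ⟨1, Or.inl rfl, fun f hf1 hf2 _ hf => ?_⟩
    subst hf
    exact hc ⟨hf2, hf1⟩

theorem TT_le (X : ℝ) (f : ℕ) (hf : 1 ≤ f) (E : ℝ) (hE : 0 ≤ E)
    (h : ∀ χ : DirichletCharacter ℂ f, χ.IsPrimitive → ‖psiPhi χ X‖ ≤ E) :
    TT X f ≤ f * E := by
  classical
  unfold TT
  calc ∑ ψ ∈ Prim f, ‖psiPhi ψ X‖ ≤ ∑ ψ ∈ Prim f, E := by
        apply sum_le_sum
        intro ψ hψ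
        apply h
        unfold Prim at hψ
        rw [mem_filter] at hψ
        exact hψ.2
    _ = ((Prim f).card : ℝ) * E := by rw [sum_const, nsmul_eq_mul]
    _ ≤ f * E := by
        apply mul_le_mul_of_nonneg_right _ hE
        exact (card_prim_le hf).trans (by exact_mod_cast Nat.totient_le f)

/-- size of conductors in case A -/
theorem size_caseA (X : ℝ) (ps Ω : ℕ) (S : Finset ℕ) (a : ℕ) (ha : a ∣ WW X S ps)
    (hΩ : (((Icc 1 (yy X)).filter (fun p => p.Prime ∧ z2 X < p)) ∩ a.primeFactors).card < Ω)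
    (L : ℝ) (hL : 1 ≤ L) (hy : (yy X : ℝ) ≤ L) :
    (a : ℝ) ≤ 4 ^ (z2 X) * L ^ Ω := by
  set P := (Icc 1 (yy X)).filter (fun p => p.Prime ∧ z2 X < p) with hP
  have hsq : Squarefree a := (WW_squarefree X S ps).squarefree_of_dvd ha
  have h1 : a = (∏ p ∈ P ∩ a.primeFactors, p) * ∏ p ∈ a.primeFactors \ P, p := by
    conv_lhs => rw [← Nat.prod_primeFactors_of_squarefree hsq]
    rw [inter_comm, prod_inter_mul_prod_sdiff]
  have h2 : ∏ p ∈ a.primeFactors \ P, p ≤ 4 ^ (z2 X) := by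
    refine le_trans ?_ (primorial_le_four_pow (z2 X))
    apply Nat.le_of_dvd (primorial_pos _)
    unfold primorial
    apply prod_dvd_prod_of_subset
    intro p hp
    rw [Finset.mem_sdiff] at hp
    obtain ⟨hp1, hp2⟩ := hp
    have hpp := Nat.prime_of_mem_primeFactors hp1
    have h3 : p ∈ (WW X S ps).primeFactors :=
      Nat.primeFactors_mono ha (by have := WW_pos X S ps; omega) hp1
    rw [WW_primeFactors] at h3
    unfold PW at h3
    rw [mem_filter, mem_Icc] at h3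
    rw [mem_filter, mem_range]
    refine ⟨?_, hpp⟩
    by_contra hcon
    apply hp2
    rw [hP, mem_filter, mem_Icc]
    exact ⟨h3.1, hpp, by omega⟩
  have h3 : ((∏ p ∈ P ∩ a.primeFactors, p : ℕ) : ℝ) ≤ L ^ Ω := by
    push_cast
    calc ∏ p ∈ P ∩ a.primeFactors, (p:ℝ) ≤ ∏ p ∈ P ∩ a.primeFactors, L := by
          apply Finset.prod_le_prod
          · intro p _; positivity
          · intro p hp
            rw [mem_inter, hP, mem_filter, mem_Icc] at hp
            exact le_trans (by exact_mod_cast hp.1.1.2) hy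
      _ = L ^ (P ∩ a.primeFactors).card := by rw [prod_const]
      _ ≤ L ^ Ω := pow_le_pow_right₀ hL hΩ.le
  have h4 : (a:ℝ) = ((∏ p ∈ P ∩ a.primeFactors, p : ℕ) : ℝ) *
      ((∏ p ∈ a.primeFactors \ P, p : ℕ) : ℝ) := by
    exact_mod_cast h1
  rw [h4, mul_comm]
  apply mul_le_mul _ h3 (by positivity) (by positivity)
  exact_mod_cast h2

/-- polynomial inequalities in `l = log log X` -/
theorem poly1 (l B B1 : ℝ) (hB : 0 ≤ B) (hB1 : 0 ≤ B1) (hl : B + B1 + 10 ≤ l) :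
    2 * (l ^ 3 + 1) + l * (B * l ^ 4 + 1) + B1 * l ≤ l ^ 6 := by
  have hl1 : 10 ≤ l := by linarith
  have h5 : 0 < l ^ 5 := by positivity
  have h1 : (B + B1 + 10) * l ^ 5 ≤ l ^ 6 := by
    calc (B + B1 + 10) * l ^ 5 ≤ l * l ^ 5 := mul_le_mul_of_nonneg_right hl h5.le
      _ = l ^ 6 := by ring
  have h2 : l ≤ l ^ 5 := by
    calc l = l ^ 1 := (pow_one l).symm
      _ ≤ l ^ 5 := pow_le_pow_right₀ (by linarith) (by norm_num)
  have h3 : l ^ 3 ≤ l ^ 5 := pow_le_pow_right₀ (by linarith) (by norm_num)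
  have h4 : 1 ≤ l ^ 5 := one_le_pow₀ (by linarith)
  have h6 : B1 * l ≤ B1 * l ^ 5 := mul_le_mul_of_nonneg_left h2 hB1
  nlinarith

theorem poly2 (l M : ℝ) (hM : 0 ≤ M) (hl : M + 10 ≤ l) :
    2 * l ^ 6 + M * l ≤ l ^ 7 := by
  have hl1 : 10 ≤ l := by linarith
  have h6 : 0 < l ^ 6 := by positivity
  have h1 : (M + 10) * l ^ 6 ≤ l ^ 7 := by
    calc (M + 10) * l ^ 6 ≤ l * l ^ 6 := mul_le_mul_of_nonneg_right hl h6.le
      _ = l ^ 7 := by ring
  have h2 : l ≤ l ^ 6 := by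
    calc l = l ^ 1 := (pow_one l).symm
      _ ≤ l ^ 6 := pow_le_pow_right₀ (by linarith) (by norm_num)
  have h3 : M * l ≤ M * l ^ 6 := mul_le_mul_of_nonneg_left h2 hM
  nlinarith

end LSBV

end Pool.Agent.H378R2
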