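import Mathlib
import Pool.Agent.H378R2.LSBV6

/-! The relative Bombieri-Vinogradov theorem: choice of parameters. -/

open Finset Filter Topology

namespace Pool.Agent.H378R2

namespace LSBV

open Pool.Agent.Helper112 Pool.Agent.H398R2.BV

theorem primorial_yy_le (X : ℝ) (hX : 1 ≤ X) : (primorial (yy X) : ℝ) ≤ X ^ (1 / 500 : ℝ) := by
  have hX0 : 0 < X := by linarith
  have hL : 0 ≤ Real.log X := Real.log_nonneg hX
  have h1 : (primorial (yy X) : ℝ) ≤ (4:ℝ) ^ (yy X) := by
    exact_mod_cast primorial_le_four_pow (yy X)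
  refine h1.trans ?_
  have h2 : (yy X : ℝ) ≤ Real.log X / 1000 := Nat.floor_le (by positivity)
  have h4 : Real.log 4 ≤ 2 := by
    have : (4:ℝ) = 2 ^ 2 := by norm_num
    rw [this, Real.log_pow]
    have := Real.log_two_lt_d9
    push_cast
    linarith
  have h5 : 0 ≤ Real.log 4 := Real.log_nonneg (by norm_num)
  rw [Real.rpow_def_of_pos hX0]
  calc (4:ℝ) ^ (yy X) = Real.exp (Real.log 4 * yy X) := by
        rw [Real.exp_mul, Real.exp_log (by norm_num), Real.rpow_natCast]
    _ ≤ Real.exp (Real.log X * (1 / 500)) := by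
        apply Real.exp_le_exp.mpr
        calc Real.log 4 * yy X ≤ 2 * (Real.log X / 1000) :=
              mul_le_mul h4 h2 (by positivity) (by norm_num)
          _ = _ := by ring

theorem main_alg (φ t a b c n C5 C1 X M : ℝ) (hφ : φ ≠ 0) (ha : a ≠ 0) (hb : b ≠ 0) (hc : c ≠ 0)
    (hn : n = a * b * c) (hM : M = C1 * X / n) :
    (1 / φ) * ((t * a) * (5 * C5 * M)) = (1 / 2) * ((t * 10 * C5 * C1) / c) * (X / (φ * b)) := by
  subst hn hM
  field_simp
  ring

theorem pow_le_exp (κ l : ℝ) (B Ω : ℕ) (hκ1 : κ ≤ 1) (h : B * l ≤ κ * Ω) :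
    (1 - κ) ^ Ω ≤ Real.exp (-(B * l)) := by
  have h1 : 1 - κ ≤ Real.exp (-κ) := by
    have := Real.add_one_le_exp (-κ)
    linarith
  calc (1 - κ) ^ Ω ≤ (Real.exp (-κ)) ^ Ω := pow_le_pow_left₀ (by linarith) h1 _
    _ = Real.exp (-(κ * Ω)) := by
        rw [← Real.exp_nat_mul]
        congr 1
        ring
    _ ≤ _ := Real.exp_le_exp.mpr (by linarith)

end LSBV

open LSBV Pool.Agent.Helper112 Pool.Agent.H398R2.BV

/-- (BV) Bombieri-Vinogradov relative to a suitable big modulus, from M1 -/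
theorem bv_of (hSC : SmallConductor) (A Z : ℕ) : ∃ X0 : ℝ, ∀ X : ℝ, X0 ≤ X →
    ∃ (ps : ℕ) (S : Finset ℕ), GoodP Z ps ∧ GoodS X S ∧
      ∀ b : ℕ → ℕ, (∀ q, 1 ≤ q → (b q).Coprime (WW X S ps * q)) →
      ∑ q ∈ (Icc 1 ⌊X ^ (1 / 100 : ℝ)⌋₊).filter
          (fun q => Squarefree q ∧ q.Coprime (WW X S ps * ps)),
        (q.divisors.card : ℝ) ^ A * |EPhi X (WW X S ps * q) (b q)|
        ≤ X / ((Nat.totient (WW X S ps) : ℝ) * (Real.log X) ^ A) := by
  classical
  set K := 2 ^ (A + 1) with hK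
  set N := K + A + 2 with hN
  set k := N + 8 with hk
  obtain ⟨C0, X1, hls⟩ := ls_sum
  set C1 := max C0 1 with hC1
  have hC1p : 1 ≤ C1 := le_max_right _ _
  obtain ⟨C5, hC5, hwt⟩ := wt_le A
  obtain ⟨X2, hX2⟩ := hSC (primorial Z)
  have hlog : Tendsto Real.log atTop atTop := Real.tendsto_log_atTop
  have hloglog : Tendsto (fun X : ℝ => Real.log (Real.log X)) atTop atTop := hlog.comp hlog
  have ev : ∀ᶠ X : ℝ in atTop, ∃ (ps : ℕ) (S : Finset ℕ), GoodP Z ps ∧ GoodS X S ∧
      ∀ b : ℕ → ℕ, (∀ q, 1 ≤ q → (b q).Coprime (WW X S ps * q)) →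
      ∑ q ∈ (Icc 1 ⌊X ^ (1 / 100 : ℝ)⌋₊).filter
          (fun q => Squarefree q ∧ q.Coprime (WW X S ps * ps)),
        (q.divisors.card : ℝ) ^ A * |EPhi X (WW X S ps * q) (b q)|
        ≤ X / ((Nat.totient (WW X S ps) : ℝ) * (Real.log X) ^ A) := by
    filter_upwards [eventually_ge_atTop X1, eventually_ge_atTop X2, eventually_ge_atTop (4:ℝ),
      hloglog.eventually_ge_atTop (6 * k + 20 : ℝ),
      hlog.eventually_ge_atTop (2 ^ K * 10 * C5 * C1),
      ev_log (16 * C5) (A + 2) (1 / 2) (by norm_num)] with X h1 h2 h3 h4 h5 h6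
    have hX0 : 0 < X := by linarith
    have hX1 : 1 ≤ X := by linarith
    have hL1 : 1 ≤ Real.log X := by
      rw [Real.le_log_iff_exp_le hX0]
      have := Real.exp_one_lt_d9
      linarith
    set L := Real.log X with hL
    set l := Real.log L with hl
    have hL0 : 0 < L := by linarith
    have hl20 : 20 ≤ l := by
      have : (0:ℝ) ≤ k := by positivity
      linarith
    have hexpl : Real.exp l = L := Real.exp_log hL0
    have hkr : (0:ℝ) ≤ k := by positivity
    -- exceptional prime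
    obtain ⟨fs, hfs, hsc⟩ := hX2 X h2
    obtain ⟨ps, hps, hps2⟩ := exists_ps Z fs hfs
    have hsc' : ∀ f : ℕ, Squarefree f → 1 < f → (f : ℝ) ≤ Real.exp (l ^ 6) → f.Coprime ps →
        ∀ χ : DirichletCharacter ℂ f, χ.IsPrimitive →
          ‖psiPhi χ X‖ ≤ X * Real.exp (-l ^ 7) := by
      intro f hf1 hf2 hf3 hf4
      exact hsc f hf1 hf2 hf3 (hps2 f hf2 hf1 hf4)
    -- parameters
    set R := ⌊X ^ (1 / 100 : ℝ)⌋₊ with hR
    set F := ⌊X ^ (1 / 50 : ℝ)⌋₊ with hF
    set D := ⌊L ^ (2 * k)⌋₊ with hD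
    set Ω := ⌈(3 * k : ℕ) * l ^ 4⌉₊ with hΩ
    set κ := 1 / l ^ 3 with hκ
    set P := (Icc 1 (yy X)).filter (fun p => p.Prime ∧ z2 X < p) with hP
    set M := C1 * X / L ^ N with hM
    have hM0 : 0 < M := by positivity
    have hl3 : (1:ℝ) ≤ l ^ 3 := one_le_pow₀ (by linarith)
    have hκ0 : 0 ≤ κ := by positivity
    have hκ1 : κ ≤ 1 := by
      rw [hκ, div_le_one (by positivity)]
      exact hl3
    have hRle : (R : ℝ) ≤ X ^ (1 / 100 : ℝ) := Nat.floor_le (by positivity)
    have hVR : ((primorial (yy X) * R : ℕ) : ℝ) ≤ X ^ (1 / 50 : ℝ) := by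
      push_cast
      calc (primorial (yy X) : ℝ) * R ≤ X ^ (1 / 500 : ℝ) * X ^ (1 / 100 : ℝ) :=
            mul_le_mul (primorial_yy_le X hX1) hRle (by positivity) (by positivity)
        _ = X ^ (1 / 500 + 1 / 100 : ℝ) := by rw [Real.rpow_add hX0]
        _ ≤ _ := Real.rpow_le_rpow_of_exponent_le hX1 (by norm_num)
    have hFle : primorial (yy X) * R ≤ F := Nat.le_floor hVR
    have hall : ∑ f ∈ Icc 2 F, TT X f ≤ M * L ^ k := by
      have h7 := hls X h1
      have h8 : ∑ f ∈ Icc 2 F, TT X f ≤ C0 * X * L ^ 8 := h7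
      refine h8.trans ?_
      have hLk : L ^ k = L ^ N * L ^ 8 := by rw [hk, pow_add]
      have hLN0 : L ^ N ≠ 0 := by positivity
      have : M * L ^ k = C1 * X * L ^ 8 := by
        rw [hM, hLk]
        field_simp
      rw [this]
      have : C0 ≤ C1 := le_max_left _ _
      gcongr
    have hyL : (yy X : ℝ) ≤ L := by
      have : (yy X : ℝ) ≤ L / 1000 := Nat.floor_le (by positivity)
      linarith
    -- random set
    have hE1 : ∑ S ∈ P.powerset, ww P κ S * ∑ q ∈ S, (1:ℝ) / q ≤ 2 / l ^ 2 := by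
      rw [sum_ww_inv]
      have h7 : ∑ q ∈ P, (1:ℝ) / q ≤ 1 + l := by
        calc ∑ q ∈ P, (1:ℝ) / q ≤ ∑ q ∈ Icc 1 (yy X), (1:ℝ) / q := by
              apply sum_le_sum_of_subset_of_nonneg (filter_subset _ _)
              intro i _ _
              positivity
          _ ≤ 1 + Real.log (yy X) := harm_le' _
          _ ≤ 1 + l := by
              rcases Nat.eq_zero_or_pos (yy X) with h | h
              · rw [h]; simp; linarith
              · have : Real.log (yy X) ≤ l :=
                  Real.log_le_log (by exact_mod_cast h) hyL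
                linarith
      calc κ * ∑ q ∈ P, (1:ℝ) / q ≤ κ * (1 + l) := mul_le_mul_of_nonneg_left h7 hκ0
        _ ≤ κ * (2 * l) := mul_le_mul_of_nonneg_left (by linarith) hκ0
        _ = 2 / l ^ 2 := by
            rw [hκ]
            have : l ≠ 0 := by linarith
            field_simp
    have hE2 : ∑ S ∈ P.powerset, ww P κ S * ∑ p ∈ pairB X ps R D Ω P S, TT X (p.1 * p.2) ≤ M := by
      refine (caseB (TT X) (TT_nonneg X) X ps R D Ω F P κ hκ0 hκ1 hFle).trans ?_
      have h7 : (1 - κ) ^ Ω ≤ Real.exp (-((3 * k : ℕ) * l)) := by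
        apply pow_le_exp κ l (3 * k) Ω hκ1
        have h8 : ((3 * k : ℕ) : ℝ) * l ^ 4 ≤ Ω := Nat.le_ceil _
        calc ((3 * k : ℕ) : ℝ) * l = κ * (((3 * k : ℕ) : ℝ) * l ^ 4) := by
              rw [hκ]
              have : l ≠ 0 := by linarith
              field_simp
          _ ≤ κ * Ω := mul_le_mul_of_nonneg_left h8 hκ0
      have h8 : Real.exp (-((3 * k : ℕ) * l)) = 1 / L ^ (3 * k) := by
        rw [Real.exp_neg, Real.exp_nat_mul, hexpl, one_div]
      rw [h8] at h7
      have hDle : (D:ℝ) ≤ L ^ (2 * k) := Nat.floor_le (by positivity)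
      have hT0 : 0 ≤ ∑ f ∈ Icc 2 F, TT X f := sum_nonneg fun f _ => TT_nonneg X f
      calc (1 - κ) ^ Ω * (D * ∑ f ∈ Icc 2 F, TT X f) ≤
          (1 / L ^ (3 * k)) * (L ^ (2 * k) * (M * L ^ k)) := by
            apply mul_le_mul h7 _ (by positivity) (by positivity)
            exact mul_le_mul hDle hall hT0 (by positivity)
        _ = M * ((L ^ (2 * k) * L ^ k) / L ^ (3 * k)) := by ring
        _ = M := by
            rw [← pow_add, show 2 * k + k = 3 * k by ring, div_self (by positivity), mul_one]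
    obtain ⟨S, hSP, hS1, hS2⟩ := exists_good P κ hκ0 hκ1 (fun S => ∑ q ∈ S, (1:ℝ) / q)
      (fun S => ∑ p ∈ pairB X ps R D Ω P S, TT X (p.1 * p.2))
      (fun S => sum_nonneg fun _ _ => by positivity)
      (fun S => sum_nonneg fun _ _ => TT_nonneg X _) (2 / l ^ 2) M (by positivity) hM0 hE1 hE2
    refine ⟨ps, S, hps, ⟨?_, ?_⟩, ?_⟩
    · intro q hq
      have := hSP hq
      rw [hP, mem_filter, mem_Icc] at this
      exact ⟨this.2.1, this.2.2, this.1.2⟩
    · calc ∑ q ∈ S, (1:ℝ) / q ≤ 3 * (2 / l ^ 2) := hS1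
        _ = 6 / l ^ 2 := by ring
    intro b hb
    set W := WW X S ps with hW
    have hW1 : 1 ≤ W := WW_pos X S ps
    have hWV : W ≤ primorial (yy X) :=
      Nat.le_of_dvd (primorial_pos _) (WW_dvd_primorial X S ps)
    have hWX : (W:ℝ) ≤ X ^ (1 / 500 : ℝ) :=
      le_trans (by exact_mod_cast hWV) (primorial_yy_le X hX1)
    have hφW : (0:ℝ) < Nat.totient W := by exact_mod_cast Nat.totient_pos.mpr hW1
    -- case A
    have hsize : ∀ p ∈ pairs X ps R S, p.2 ≤ D → (P ∩ p.1.primeFactors).card < Ω →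
        ((p.1 * p.2 : ℕ) : ℝ) ≤ Real.exp (l ^ 6) := by
      intro p hp hpD hpΩ
      unfold pairs at hp
      rw [mem_filter, mem_product, Nat.mem_divisors] at hp
      have h7 := size_caseA X ps Ω S p.1 hp.1.1.1 hpΩ L hL1 hyL
      have h8 : (p.2 : ℝ) ≤ L ^ (2 * k) :=
        le_trans (by exact_mod_cast hpD) (Nat.floor_le (by positivity))
      have hz : (z2 X : ℝ) ≤ l ^ 3 + 1 := (Nat.ceil_lt_add_one (by positivity)).le
      have hΩle : (Ω : ℝ) ≤ (3 * k : ℕ) * l ^ 4 + 1 := (Nat.ceil_lt_add_one (by positivity)).le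
      have h4e : (4:ℝ) ≤ Real.exp 2 := by
        have h := Real.exp_one_gt_d9
        have : Real.exp 2 = Real.exp 1 * Real.exp 1 := by rw [← Real.exp_add]; norm_num
        rw [this]
        nlinarith
      push_cast
      calc (p.1 : ℝ) * p.2 ≤ (4 ^ (z2 X) * L ^ Ω) * L ^ (2 * k) :=
            mul_le_mul h7 h8 (by positivity) (by positivity)
        _ ≤ ((Real.exp 2) ^ (z2 X) * L ^ Ω) * L ^ (2 * k) := by gcongr
        _ = Real.exp (2 * z2 X + Ω * l + (2 * k : ℕ) * l) := by
            rw [Real.exp_add, Real.exp_add, Real.exp_nat_mul, Real.exp_nat_mul, hexpl,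
              ← Real.exp_nat_mul, mul_comm (2:ℝ) (z2 X : ℝ)]
        _ ≤ Real.exp (l ^ 6) := by
            apply Real.exp_le_exp.mpr
            have hp1 := poly1 l ((3 * k : ℕ) : ℝ) ((2 * k : ℕ) : ℝ) (by positivity) (by positivity)
              (by push_cast; linarith)
            have : (Ω : ℝ) * l ≤ l * ((3 * k : ℕ) * l ^ 4 + 1) := by
              rw [mul_comm]
              exact mul_le_mul_of_nonneg_left hΩle (by linarith)
            linarith
    have hA : ∑ p ∈ (pairs X ps R S).filter (fun p => p.2 ≤ D ∧ (P ∩ p.1.primeFactors).card < Ω),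
        TT X (p.1 * p.2) ≤ M := by
      refine (sum_pairsA X hX0.le ps R D Ω Z hps P S l hsize hsc').trans ?_
      have hp2 := poly2 l (N:ℝ) (by positivity) (by
        have : (N:ℝ) ≤ k := by rw [hk]; push_cast; linarith
        linarith)
      have h7 : Real.exp (2 * l ^ 6 - l ^ 7) ≤ 1 / L ^ N := by
        have : 1 / L ^ N = Real.exp (-(N * l)) := by
          rw [Real.exp_neg, Real.exp_nat_mul, hexpl, one_div]
        rw [this]
        exact Real.exp_le_exp.mpr (by linarith)
      calc X * Real.exp (2 * l ^ 6 - l ^ 7) ≤ X * (1 / L ^ N) :=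
            mul_le_mul_of_nonneg_left h7 hX0.le
        _ = 1 * X / L ^ N := by ring
        _ ≤ C1 * X / L ^ N := by gcongr
    have hmain := sum_pairs A X C5 M L hX0.le hC5 hwt ps R D Ω k F P S hL1 hM0.le
      (fun b hb => by
        have : L ^ (2 * k) < b := (Nat.floor_lt (by positivity)).mp hb
        exact this.le) hFle hall hA hS2
    -- logarithm of R
    have hRX : (R:ℝ) ≤ X := by
      refine hRle.trans ?_
      calc X ^ (1 / 100 : ℝ) ≤ X ^ (1:ℝ) := Real.rpow_le_rpow_of_exponent_le hX1 (by norm_num)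
        _ = X := Real.rpow_one X
    have hsumwt : ∑ e ∈ Icc 1 R, wt A e ≤ 2 ^ K * L ^ K := by
      refine (sum_wt A R).trans ?_
      rw [← hK, ← mul_pow]
      have h7 := log_natCast_le R X hX1 hRX
      have h8 := Real.log_natCast_nonneg R
      apply pow_le_pow_left₀ (by linarith)
      linarith
    have hsumwt0 : 0 ≤ ∑ e ∈ Icc 1 R, wt A e := sum_nonneg fun e _ => wt_nonneg A e
    have hpairs0 : 0 ≤ ∑ p ∈ pairs X ps R S, wt A p.2 * TT X (p.1 * p.2) :=
      sum_nonneg fun p _ => mul_nonneg (wt_nonneg A _) (TT_nonneg X _)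
    -- first part
    have s0 : ∑ q ∈ QQ W ps R, (q.divisors.card : ℝ) ^ A * |EPhi X (W * q) (b q)| ≤
        ∑ q ∈ QQ W ps R, (q.divisors.card : ℝ) ^ A * ((1 / (Nat.totient (W * q) : ℝ)) *
          ∑ f ∈ (W * q).divisors.filter (fun f => f ≠ 1), TT X f) +
        ∑ q ∈ QQ W ps R, (q.divisors.card : ℝ) ^ A *
          (2 * ((W * q).primeFactors.card * Real.log (3 * X))) := by
      rw [← sum_add_distrib]
      apply sum_le_sum
      intro q hq
      rw [mem_QQ] at hq
      rw [← mul_add]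
      apply mul_le_mul_of_nonneg_left _ (by positivity)
      exact EPhi_le X hX1 (W * q) (b q) (Nat.mul_pos hW1 hq.1.1) (hb q hq.1.1)
    have s1 := main_swap A (TT X) (TT_nonneg X) W ps R hW1
    have s2 : (1 / (Nat.totient W : ℝ)) * ((∑ e ∈ Icc 1 R, wt A e) *
      ∑ p ∈ (W.divisors ×ˢ QQ W ps R).filter (fun p => p.1 * p.2 ≠ 1),
        wt A p.2 * TT X (p.1 * p.2)) ≤ (1 / 2) * (X / ((Nat.totient W : ℝ) * L ^ A)) := by
      calc _ ≤ (1 / (Nat.totient W : ℝ)) * ((2 ^ K * L ^ K) * (5 * C5 * M)) := by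
            apply mul_le_mul_of_nonneg_left _ (by positivity)
            exact mul_le_mul hsumwt hmain hpairs0 (by positivity)
        _ = (1 / 2) * ((2 ^ K * 10 * C5 * C1) / L ^ 2) * (X / ((Nat.totient W : ℝ) * L ^ A)) :=
            main_alg (Nat.totient W : ℝ) (2 ^ K) (L ^ K) (L ^ A) (L ^ 2) (L ^ N) C5 C1 X M
              hφW.ne' (by positivity) (by positivity) (by positivity)
              (by rw [hN, pow_add, pow_add]) hM
        _ ≤ (1 / 2) * 1 * (X / ((Nat.totient W : ℝ) * L ^ A)) := by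
            gcongr
            rw [div_le_one (by positivity)]
            calc 2 ^ K * 10 * C5 * C1 ≤ L := h5
              _ ≤ L ^ 2 := by nlinarith
        _ = _ := by ring
    have s3 : ∑ q ∈ QQ W ps R, (q.divisors.card : ℝ) ^ A *
          (2 * ((W * q).primeFactors.card * Real.log (3 * X))) ≤
        (1 / 2) * (X / ((Nat.totient W : ℝ) * L ^ A)) := by
      have t1 : ∀ q ∈ QQ W ps R, (q.divisors.card : ℝ) ^ A *
          (2 * ((W * q).primeFactors.card * Real.log (3 * X))) ≤
          8 * C5 * L ^ 2 * X ^ (1 / 200 : ℝ) := by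
        intro q hq
        rw [mem_QQ] at hq
        obtain ⟨⟨hq1, hq2⟩, _, _⟩ := hq
        have hq0 : (0:ℝ) < q := by exact_mod_cast hq1
        have hφq : (0:ℝ) < Nat.totient q := by exact_mod_cast Nat.totient_pos.mpr hq1
        have u1 : (q.divisors.card : ℝ) ^ A ≤ C5 * X ^ (1 / 200 : ℝ) := by
          have v1 := hwt q hq1
          unfold wt at v1
          rw [div_le_iff₀ hφq] at v1
          refine v1.trans ?_
          calc C5 / Real.sqrt q * (Nat.totient q : ℝ) ≤ C5 / Real.sqrt q * q := by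
                apply mul_le_mul_of_nonneg_left _ (by positivity)
                exact_mod_cast Nat.totient_le q
            _ = C5 * (q / Real.sqrt q) := by ring
            _ = C5 * Real.sqrt q := by rw [Real.div_sqrt]
            _ ≤ C5 * X ^ (1 / 200 : ℝ) := by
                apply mul_le_mul_of_nonneg_left _ hC5.le
                rw [Real.sqrt_le_left (by positivity)]
                calc (q:ℝ) ≤ R := by exact_mod_cast hq2
                  _ ≤ X ^ (1 / 100 : ℝ) := hRle
                  _ = (X ^ (1 / 200 : ℝ)) ^ 2 := by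
                      rw [← Real.rpow_natCast, ← Real.rpow_mul hX0.le]; norm_num
        have u2 : ((W * q).primeFactors.card : ℝ) ≤ 2 * L := by
          refine (omega_le_log (W * q) (Nat.mul_pos hW1 hq1)).trans ?_
          have v1 : ((W * q : ℕ) : ℝ) ≤ X := by
            calc ((W * q : ℕ) : ℝ) ≤ ((primorial (yy X) * R : ℕ) : ℝ) := by
                  exact_mod_cast Nat.mul_le_mul hWV hq2
              _ ≤ X ^ (1 / 50 : ℝ) := hVR
              _ ≤ X ^ (1:ℝ) := Real.rpow_le_rpow_of_exponent_le hX1 (by norm_num)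
              _ = X := Real.rpow_one X
          have := log_natCast_le (W * q) X hX1 v1
          linarith
        have u3 : Real.log (3 * X) ≤ 2 * L := by
          calc Real.log (3 * X) ≤ Real.log (X * X) :=
                Real.log_le_log (by positivity) (by nlinarith)
            _ = 2 * L := by rw [Real.log_mul hX0.ne' hX0.ne']; ring
        have u4 : 0 ≤ Real.log (3 * X) := Real.log_nonneg (by linarith)
        calc (q.divisors.card : ℝ) ^ A *
          (2 * ((W * q).primeFactors.card * Real.log (3 * X))) ≤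
            (C5 * X ^ (1 / 200 : ℝ)) * (2 * ((2 * L) * (2 * L))) := by
              apply mul_le_mul u1 _ (by positivity) (by positivity)
              apply mul_le_mul_of_nonneg_left _ (by norm_num)
              exact mul_le_mul u2 u3 u4 (by positivity)
          _ = _ := by ring
      refine (sum_le_sum t1).trans ?_
      rw [sum_const, nsmul_eq_mul]
      have t2 : ((QQ W ps R).card : ℝ) ≤ X ^ (1 / 100 : ℝ) := by
        have : (QQ W ps R).card ≤ R := by
          refine (card_filter_le _ _).trans ?_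
          rw [Nat.card_Icc]
          omega
        exact le_trans (by exact_mod_cast this) hRle
      have t3 : (Nat.totient W : ℝ) ≤ X ^ (1 / 500 : ℝ) :=
        le_trans (by exact_mod_cast Nat.totient_le W) hWX
      rw [← mul_div_assoc, le_div_iff₀ (by positivity)]
      calc ((QQ W ps R).card : ℝ) * (8 * C5 * L ^ 2 * X ^ (1 / 200 : ℝ)) *
          ((Nat.totient W : ℝ) * L ^ A) ≤
          X ^ (1 / 100 : ℝ) * (8 * C5 * L ^ 2 * X ^ (1 / 200 : ℝ)) *
          (X ^ (1 / 500 : ℝ) * L ^ A) := by gcongr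
        _ = (1 / 2) * ((16 * C5 * L ^ (A + 2)) *
            (X ^ (1 / 100 : ℝ) * X ^ (1 / 200 : ℝ) * X ^ (1 / 500 : ℝ))) := by
            rw [pow_add]; ring
        _ ≤ (1 / 2) * (X ^ (1 / 2 : ℝ) * X ^ (1 / 2 : ℝ)) := by
            apply mul_le_mul_of_nonneg_left _ (by norm_num)
            apply mul_le_mul h6 _ (by positivity) (by positivity)
            rw [← Real.rpow_add hX0, ← Real.rpow_add hX0]
            exact Real.rpow_le_rpow_of_exponent_le hX1 (by norm_num)
        _ = (1 / 2) * X := by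
            rw [← Real.rpow_add hX0]; norm_num
    have hfin : ∑ q ∈ QQ W ps R, (q.divisors.card : ℝ) ^ A * |EPhi X (W * q) (b q)| ≤
        X / ((Nat.totient W : ℝ) * L ^ A) := by linarith
    exact hfin
  exact eventually_atTop.mp ev

end Pool.Agent.H378R2
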