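import Mathlib
import Pool.Agent.H378R2.M7c

open Finset

namespace Pool.Agent.H378R2

theorem sqf_lcm {a b : ℕ} (ha : Squarefree a) (hb : Squarefree b) : Squarefree (Nat.lcm a b) := by
  have ha0 : a ≠ 0 := ha.ne_zero
  have hb0 : b ≠ 0 := hb.ne_zero
  rw [Nat.squarefree_iff_factorization_le_one (Nat.lcm_ne_zero ha0 hb0)]
  intro p
  rw [Nat.factorization_lcm ha0 hb0, Finsupp.sup_apply]
  exact max_le ((Nat.squarefree_iff_factorization_le_one ha0).1 ha p)
    ((Nat.squarefree_iff_factorization_le_one hb0).1 hb p)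

theorem lcm_le_mul' {a b : ℕ} (ha : 0 < a) (hb : 0 < b) : Nat.lcm a b ≤ a * b :=
  Nat.le_of_dvd (Nat.mul_pos ha hb) (Nat.lcm_dvd_mul a b)

/-- a prime dividing the lcm is outside `E` -/
theorem prime_not_mem {E : Finset ℕ} {R d e p : ℕ} (hd : d ∈ adm E R) (he : e ∈ adm E R)
    (hp : p.Prime) (h : p ∣ Nat.lcm d e) : p ∉ E := by
  intro hpE
  rw [mem_adm] at hd he
  have h1 : p ∣ d * e := h.trans (Nat.lcm_dvd_mul d e)
  rcases (Nat.Prime.dvd_mul hp).1 h1 with h2 | h2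
  · exact hd.2.2 p hpE hp h2
  · exact he.2.2 p hpE hp h2

open Classical in
/-- the tuples seen by the weights -/
noncomputable def supp {J : ℕ} (E : Fin J → Finset ℕ) (R : ℕ) (L : ℝ) (c : Fin J → ℝ) : Finset (Fin J → ℕ) :=
  Fintype.piFinset (fun j => (adm (E j) R).filter (fun d => Real.log d ≤ L * c j))

theorem mem_supp {J : ℕ} {E : Fin J → Finset ℕ} {R : ℕ} {L : ℝ} {c : Fin J → ℝ} {d : Fin J → ℕ} :
    d ∈ supp E R L c ↔ ∀ j, d j ∈ adm (E j) R ∧ Real.log (d j) ≤ L * c j := by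
  classical
  unfold supp
  rw [Fintype.mem_piFinset]
  simp only [Finset.mem_filter]

theorem supp_card {J : ℕ} (E : Fin J → Finset ℕ) (R : ℕ) (L : ℝ) (c : Fin J → ℝ) :
    ((supp E R L c).card : ℝ) ≤ Real.exp (L * ∑ j, c j) := by
  classical
  unfold supp
  rw [Fintype.card_piFinset, Nat.cast_prod, Finset.mul_sum, Real.exp_sum]
  refine Finset.prod_le_prod (fun j _ => Nat.cast_nonneg _) fun j _ => ?_
  have hsub : (adm (E j) R).filter (fun d : ℕ => Real.log (d : ℝ) ≤ L * c j) ⊆ Icc 1 ⌊Real.exp (L * c j)⌋₊ := by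
    intro d hd
    rw [Finset.mem_filter, mem_adm] at hd
    rw [Finset.mem_Icc]
    refine ⟨hd.1.1.1, Nat.le_floor ?_⟩
    have hd0 : (0 : ℝ) < d := by exact_mod_cast hd.1.1.1
    exact (Real.log_le_iff_le_exp hd0).1 hd.2
  have h1 := Finset.card_le_card hsub
  rw [Nat.card_Icc, Nat.add_sub_cancel] at h1
  calc ((((adm (E j) R).filter (fun d : ℕ => Real.log (d : ℝ) ≤ L * c j)).card : ℕ) : ℝ) ≤ (⌊Real.exp (L * c j)⌋₊ : ℝ) := by
        exact_mod_cast h1
    _ ≤ _ := Nat.floor_le (Real.exp_pos _).le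

theorem supp_prod_le {J : ℕ} {E : Fin J → Finset ℕ} {R : ℕ} {L : ℝ} {c : Fin J → ℝ} {d : Fin J → ℕ}
    (hd : d ∈ supp E R L c) : ((∏ j, d j : ℕ) : ℝ) ≤ Real.exp (L * ∑ j, c j) := by
  rw [mem_supp] at hd
  rw [Nat.cast_prod, Finset.mul_sum, Real.exp_sum]
  refine Finset.prod_le_prod (fun j _ => Nat.cast_nonneg _) fun j _ => ?_
  have hd0 : (0 : ℝ) < d j := by exact_mod_cast (mem_adm.1 (hd j).1).1.1
  exact (Real.log_le_iff_le_exp hd0).1 (hd j).2

theorem support_bound {J : ℕ} (E : Fin J → Finset ℕ) (R : ℕ) (L Cf : ℝ) (hL : 0 < L) (hCf : 0 ≤ Cf)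
    (F G : Fin J → ℝ → ℝ) (cF cG : Fin J → ℝ)
    (hF : ∀ j x, |F j x| ≤ Cf) (hG : ∀ j x, |G j x| ≤ Cf)
    (hF0 : ∀ j x, cF j < x → F j x = 0) (hG0 : ∀ j x, cG j < x → G j x = 0)
    (T : (Fin J → ℕ) → (Fin J → ℕ) → ℝ) (hT : ∀ d e, 0 ≤ T d e) :
    ∑ d ∈ Fintype.piFinset (fun j => adm (E j) R), ∑ e ∈ Fintype.piFinset (fun j => adm (E j) R),
        |wt F G L d e| * T d e ≤
    Cf ^ (2 * J) * ∑ d ∈ supp E R L cF, ∑ e ∈ supp E R L cG, T d e := by
  classical
  have hsub : ∀ c : Fin J → ℝ, supp E R L c ⊆ Fintype.piFinset (fun j => adm (E j) R) := by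
    intro c d hd
    rw [mem_supp] at hd
    rw [Fintype.mem_piFinset]
    exact fun j => (hd j).1
  have h1 : ∑ d ∈ Fintype.piFinset (fun j => adm (E j) R), ∑ e ∈ Fintype.piFinset (fun j => adm (E j) R),
        |wt F G L d e| * T d e = ∑ d ∈ supp E R L cF, ∑ e ∈ supp E R L cG, |wt F G L d e| * T d e := by
    rw [← Finset.sum_subset (hsub cF)]
    · refine Finset.sum_congr rfl fun d _ => ?_
      rw [← Finset.sum_subset (hsub cG)]
      intro e he hne
      rw [mem_supp] at hne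
      rw [Fintype.mem_piFinset] at he
      push Not at hne
      obtain ⟨j, hj⟩ := hne
      have h2 := hj (he j)
      have h3 : G j (Real.log (e j) / L) = 0 := by
        apply hG0
        rw [lt_div_iff₀ hL]
        linarith
      have h4 : wt F G L d e = 0 := by
        unfold wt
        apply Finset.prod_eq_zero (Finset.mem_univ j)
        rw [h3, mul_zero]
      rw [h4, abs_zero, zero_mul]
    · intro d hd hne
      rw [mem_supp] at hne
      rw [Fintype.mem_piFinset] at hd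
      push Not at hne
      obtain ⟨j, hj⟩ := hne
      have h2 := hj (hd j)
      have h3 : F j (Real.log (d j) / L) = 0 := by
        apply hF0
        rw [lt_div_iff₀ hL]
        linarith
      apply Finset.sum_eq_zero
      intro e _
      have h4 : wt F G L d e = 0 := by
        unfold wt
        apply Finset.prod_eq_zero (Finset.mem_univ j)
        rw [h3]
        ring
      rw [h4, abs_zero, zero_mul]
  rw [h1, Finset.mul_sum]
  refine Finset.sum_le_sum fun d _ => ?_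
  rw [Finset.mul_sum]
  refine Finset.sum_le_sum fun e _ => ?_
  exact mul_le_mul_of_nonneg_right (abs_wt_le F G L Cf hCf hF hG d e) (hT d e)

theorem not_PC_err {J : ℕ} {E : Fin J → Finset ℕ} {R N : ℕ} {d e : Fin J → ℕ} (ν : ℕ → ℝ) (M : ℝ)
    (w : ℕ → Fin J → ℝ) (x : ℕ → Fin J → ℤ)
    (hd : ∀ j, d j ∈ adm (E j) R) (he : ∀ j, e j ∈ adm (E j) R)
    (hres : ∀ i j, i ≠ j → ∀ p : ℕ, p.Prime → p ∉ E i → p ∉ E j → ∀ n ∈ Icc 1 N, ν n ≠ 0 →
      ¬ ((p : ℤ) ∣ x n i ∧ (p : ℤ) ∣ x n j))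
    (h : ¬ PC d e) : Err N ν x M w d e = 0 := by
  classical
  unfold Err
  rw [if_neg h, mul_zero, sub_zero]
  apply Finset.sum_eq_zero
  intro n hn
  by_cases hν : ν n = 0
  · simp [hν]
  rw [if_neg]
  intro hDC
  apply h
  intro i j hij
  by_contra hcop
  obtain ⟨p, hp, hpi, hpj⟩ := Nat.Prime.not_coprime_iff_dvd.1 hcop
  exact hres i j hij p hp (prime_not_mem (hd i) (he i) hp hpi) (prime_not_mem (hd j) (he j) hp hpj) n hn hν
    ⟨(Int.natCast_dvd_natCast.2 hpi).trans (hDC i), (Int.natCast_dvd_natCast.2 hpj).trans (hDC j)⟩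

theorem prod_one_div {D : ℕ} (hD : Squarefree D) : ∏ p ∈ D.primeFactors, (1 : ℝ) / p = 1 / D := by
  rw [Finset.prod_div_distrib, Finset.prod_const_one]
  congr 1
  have := Nat.prod_primeFactors_of_squarefree hD
  rw [← Nat.cast_prod, this]

theorem adm_lcm_coprime {E : Finset ℕ} {R d e W : ℕ} (hd : d ∈ adm E R) (he : e ∈ adm E R)
    (hW : ∀ p : ℕ, p.Prime → p ∉ E → ¬ p ∣ W) : (Nat.lcm d e).Coprime W := by
  by_contra hcop
  obtain ⟨p, hp, hpi, hpj⟩ := Nat.Prime.not_coprime_iff_dvd.1 hcop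
  exact hW p hp (prime_not_mem hd he hp hpi) hpj

theorem sum1 {J : ℕ} (X : ℝ) (hX : 4 ≤ X) (W a : ℕ) (hW : 0 < W) (F G : Fin J → ℝ → ℝ)
    (L Cf : ℝ) (hL : 0 < L) (hCf : 0 ≤ Cf) (cF cG : Fin J → ℝ)
    (hF : ∀ j x, |F j x| ≤ Cf) (hG : ∀ j x, |G j x| ≤ Cf)
    (hF0 : ∀ j x, cF j < x → F j x = 0) (hG0 : ∀ j x, cG j < x → G j x = 0)
    (E : Fin J → Finset ℕ) (R : ℕ) (c : Fin J → ℕ) (h : Fin J → ℤ)
    (hEW : ∀ j, ∀ p : ℕ, p.Prime → p ∉ E j → ¬ p ∣ W) (hEc : ∀ j, ∀ p : ℕ, p.Prime → p ∉ E j → ¬ p ∣ c j)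
    (hres : ∀ i j, i ≠ j → ∀ p : ℕ, p.Prime → p ∉ E i → p ∉ E j → ∀ n : ℕ,
      ¬ ((p : ℤ) ∣ c i * n + h i ∧ (p : ℤ) ∣ c j * n + h j))
    (hsize : W * Real.exp (L * (∑ j, cF j + ∑ j, cG j)) ≤ X) :
    |∑ n ∈ Icc 1 ⌊3 * X⌋₊, (if n ≡ a [MOD W] then Phi (n / X) else 0) *
        ∏ j, (VVm (E j) R L (F j) (c j * n + h j) * VVm (E j) R L (G j) (c j * n + h j)) -
      (MPhi X * (1 / W)) * sieveSum J F G L E (fun p _ => 1 / (p : ℝ)) R| ≤
    5 * Cf ^ (2 * J) * Real.exp (L * (∑ j, cF j + ∑ j, cG j)) := by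
  classical
  refine (expand_le E R L F G ⌊3 * X⌋₊ (fun n => if n ≡ a [MOD W] then Phi (n / X) else 0)
    (fun n j => c j * n + h j) (MPhi X * (1 / W)) (fun p _ => 1 / (p : ℝ))).trans ?_
  refine (support_bound E R L Cf hL hCf F G cF cG hF hG hF0 hG0 _ (fun _ _ => abs_nonneg _)).trans ?_
  have key : ∀ d ∈ supp E R L cF, ∀ e ∈ supp E R L cG,
      |Err ⌊3 * X⌋₊ (fun n => if n ≡ a [MOD W] then Phi (n / X) else 0)
        (fun n j => c j * n + h j) (MPhi X * (1 / W)) (fun p _ => 1 / (p : ℝ)) d e| ≤ 5 := by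
    intro d hd e he
    have hdp := supp_prod_le hd
    have hep := supp_prod_le he
    rw [mem_supp] at hd he
    by_cases hPC : PC d e
    · set D : Fin J → ℕ := fun j => Nat.lcm (d j) (e j) with hD
      have hd0 : ∀ j, d j ≠ 0 := fun j => by have := (mem_adm.1 (hd j).1).1.1; omega
      have he0 : ∀ j, e j ≠ 0 := fun j => by have := (mem_adm.1 (he j).1).1.1; omega
      have hD0 : ∀ j, D j ≠ 0 := fun j => Nat.lcm_ne_zero (hd0 j) (he0 j)
      have hDW : ∀ j, (D j).Coprime W := fun j => adm_lcm_coprime (hd j).1 (he j).1 (hEW j)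
      have hDc : ∀ j, (c j).Coprime (D j) := fun j => (adm_lcm_coprime (hd j).1 (he j).1 (hEc j)).symm
      have hDsq : ∀ j, Squarefree (D j) := fun j =>
        sqf_lcm (mem_adm.1 (hd j).1).2.1 (mem_adm.1 (he j).1).2.1
      obtain ⟨b, hb⟩ := class_exists W a hW.ne' D c h hD0 hPC hDW hDc
      have hprodpos : 0 < ∏ j, D j := Finset.prod_pos fun j _ => Nat.pos_of_ne_zero (hD0 j)
      have hDle : ((∏ j, D j : ℕ) : ℝ) ≤ Real.exp (L * (∑ j, cF j + ∑ j, cG j)) := by
        have h1 : ∏ j, D j ≤ (∏ j, d j) * ∏ j, e j := by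
          rw [← Finset.prod_mul_distrib]
          exact Finset.prod_le_prod' fun j _ => lcm_le_mul' (Nat.pos_of_ne_zero (hd0 j)) (Nat.pos_of_ne_zero (he0 j))
        calc ((∏ j, D j : ℕ) : ℝ) ≤ (((∏ j, d j) * ∏ j, e j : ℕ) : ℝ) := by exact_mod_cast h1
          _ = ((∏ j, d j : ℕ) : ℝ) * ((∏ j, e j : ℕ) : ℝ) := by push_cast; ring
          _ ≤ Real.exp (L * ∑ j, cF j) * Real.exp (L * ∑ j, cG j) := by
              apply mul_le_mul hdp hep (Nat.cast_nonneg _) (Real.exp_pos _).le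
          _ = _ := by rw [← Real.exp_add]; ring_nf
      have hQle : ((W * ∏ j, D j : ℕ) : ℝ) ≤ X := by
        push_cast
        refine le_trans ?_ hsize
        have : (∏ j, (D j : ℝ)) ≤ Real.exp (L * (∑ j, cF j + ∑ j, cG j)) := by
          have := hDle; push_cast at this; exact this
        exact mul_le_mul_of_nonneg_left this (Nat.cast_nonneg _)
      have h2 := phi_sum_class X hX (W * ∏ j, D j) b (Nat.mul_pos hW hprodpos) hQle
      have e1 : Err ⌊3 * X⌋₊ (fun n => if n ≡ a [MOD W] then Phi (n / X) else 0)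
        (fun n j => c j * n + h j) (MPhi X * (1 / W)) (fun p _ => 1 / (p : ℝ)) d e =
          ∑ n ∈ (Icc 1 ⌊3 * X⌋₊).filter (fun n => n ≡ b [MOD (W * ∏ j, D j)]), Phi (n / X) -
            MPhi X * (1 / ((W * ∏ j, D j : ℕ) : ℝ)) := by
        unfold Err
        rw [if_pos hPC]
        congr 1
        · rw [Finset.sum_filter]
          refine Finset.sum_congr rfl fun n _ => ?_
          by_cases hn : n ≡ b [MOD (W * ∏ j, D j)]
          · have h3 := (hb n).2 hn
            have hDC : DC (fun j => (c j : ℤ) * n + h j) d e := h3.2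
            simp only [if_pos hn, if_pos hDC, if_pos h3.1]
          · rw [if_neg hn]
            by_cases hDC : DC (fun j => (c j : ℤ) * n + h j) d e
            · rw [if_pos hDC]
              have hna : ¬ n ≡ a [MOD W] := fun hna => hn ((hb n).1 ⟨hna, hDC⟩)
              simp only [if_neg hna]
            · rw [if_neg hDC]
        · rw [mul_assoc]
          congr 1
          have : ∀ j : Fin J, ∏ p ∈ (Nat.lcm (d j) (e j)).primeFactors, (1 : ℝ) / p = 1 / (D j : ℝ) :=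
            fun j => prod_one_div (hDsq j)
          simp_rw [this]
          rw [Finset.prod_div_distrib, Finset.prod_const_one]
          push_cast
          field_simp
      rw [e1]
      exact h2
    · rw [not_PC_err _ _ _ _ (fun j => (hd j).1) (fun j => (he j).1) _ hPC]
      · norm_num
      · intro i j hij p hp hpi hpj n _ _
        exact hres i j hij p hp hpi hpj n
  have h3 : ∑ d ∈ supp E R L cF, ∑ e ∈ supp E R L cG,
      |Err ⌊3 * X⌋₊ (fun n => if n ≡ a [MOD W] then Phi (n / X) else 0)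
        (fun n j => c j * n + h j) (MPhi X * (1 / W)) (fun p _ => 1 / (p : ℝ)) d e| ≤
      5 * Real.exp (L * (∑ j, cF j + ∑ j, cG j)) := by
    calc _ ≤ ∑ d ∈ supp E R L cF, ∑ e ∈ supp E R L cG, (5 : ℝ) :=
          Finset.sum_le_sum fun d hd => Finset.sum_le_sum fun e he => key d hd e he
      _ = ((supp E R L cF).card : ℝ) * (((supp E R L cG).card : ℝ) * 5) := by
          rw [Finset.sum_const, Finset.sum_const, nsmul_eq_mul, nsmul_eq_mul]
      _ ≤ Real.exp (L * ∑ j, cF j) * (Real.exp (L * ∑ j, cG j) * 5) := by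
          have := supp_card E R L cF
          have := supp_card E R L cG
          gcongr
      _ = _ := by rw [mul_add, Real.exp_add]; ring
  calc _ ≤ Cf ^ (2 * J) * (5 * Real.exp (L * (∑ j, cF j + ∑ j, cG j))) :=
        mul_le_mul_of_nonneg_left h3 (by positivity)
    _ = _ := by ring

end Pool.Agent.H378R2
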