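import Mathlib
import Pool.Agent.H378R2.M7d

open Finset

namespace Pool.Agent.H378R2

/-- total von Mangoldt mass -/
noncomputable def LPhi (X : ℝ) : ℝ := ∑ n ∈ Icc 1 ⌊3 * X⌋₊, Phi (n / X) * ArithmeticFunction.vonMangoldt n

theorem EPhi_eq (X : ℝ) (Q b : ℕ) : EPhi X Q b =
    ∑ n ∈ (Icc 1 ⌊3 * X⌋₊).filter (fun n => n ≡ b [MOD Q]),
      Phi (n / X) * ArithmeticFunction.vonMangoldt n - LPhi X * (1 / (Nat.totient Q : ℝ)) := by
  unfold EPhi LPhi
  ring

theorem totient_sqf {D : ℕ} (hD : Squarefree D) : (D.totient : ℝ) = ∏ p ∈ D.primeFactors, ((p : ℝ) - 1) := by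
  have h1 := Nat.totient_mul_prod_primeFactors D
  have h2 := Nat.prod_primeFactors_of_squarefree hD
  rw [h2] at h1
  have hD0 : 0 < D := Nat.pos_of_ne_zero hD.ne_zero
  have h3 : D.totient = ∏ p ∈ D.primeFactors, (p - 1) := by
    have : D * D.totient = D * ∏ p ∈ D.primeFactors, (p - 1) := by rw [← h1, mul_comm]
    exact Nat.eq_of_mul_eq_mul_left hD0 this
  rw [h3, Nat.cast_prod]
  refine Finset.prod_congr rfl fun p hp => ?_
  rw [Nat.cast_sub (Nat.prime_of_mem_primeFactors hp).one_lt.le, Nat.cast_one]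

theorem totient_prod {J : ℕ} (D : Fin J → ℕ) (hD : Pairwise (fun i j => (D i).Coprime (D j))) :
    (∏ j, D j).totient = ∏ j, (D j).totient := by
  have : ∀ s : Finset (Fin J), (∏ j ∈ s, D j).totient = ∏ j ∈ s, (D j).totient := by
    intro s
    classical
    induction s using Finset.induction_on with
    | empty => simp
    | insert a s ha ih =>
      rw [Finset.prod_insert ha, Finset.prod_insert ha, Nat.totient_mul, ih]
      apply Nat.Coprime.prod_right
      intro i hi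
      exact hD (fun h => ha (h ▸ hi))
  exact this univ

theorem squarefree_prod {J : ℕ} (D : Fin J → ℕ) (hD : Pairwise (fun i j => (D i).Coprime (D j)))
    (h : ∀ j, Squarefree (D j)) : Squarefree (∏ j, D j) := by
  have : ∀ s : Finset (Fin J), Squarefree (∏ j ∈ s, D j) := by
    intro s
    classical
    induction s using Finset.induction_on with
    | empty => simp
    | insert a s ha ih =>
      rw [Finset.prod_insert ha]
      rw [Nat.squarefree_mul_iff]
      refine ⟨?_, h a, ih⟩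
      apply Nat.Coprime.prod_right
      intro i hi
      exact hD (fun h => ha (h ▸ hi))
  exact this univ

/-- grouping tuples by the product of the lcm's -/
theorem fiber_bound {J : ℕ} (S T : Finset (Fin J → ℕ)) (Qs : Finset ℕ) (P : (Fin J → ℕ) → (Fin J → ℕ) → Prop)
    (f : ℕ → ℝ) (hf : ∀ q, 0 ≤ f q) (hQ : ∀ q ∈ Qs, q ≠ 0)
    (hmap : ∀ d ∈ S, ∀ e ∈ T, P d e → (∏ j, Nat.lcm (d j) (e j)) ∈ Qs)
    (U : (Fin J → ℕ) → (Fin J → ℕ) → ℝ)
    (hU : ∀ d ∈ S, ∀ e ∈ T, P d e → U d e ≤ f (∏ j, Nat.lcm (d j) (e j)))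
    (hU' : ∀ d ∈ S, ∀ e ∈ T, ¬ P d e → U d e ≤ 0) :
    ∑ d ∈ S, ∑ e ∈ T, U d e ≤ ∑ q ∈ Qs, (q.divisors.card : ℝ) ^ (2 * J) * f q := by
  classical
  have h1 : ∑ d ∈ S, ∑ e ∈ T, U d e ≤ ∑ x ∈ (S ×ˢ T).filter (fun x => P x.1 x.2),
      f (∏ j, Nat.lcm (x.1 j) (x.2 j)) := by
    rw [← Finset.sum_product', Finset.sum_filter]
    refine Finset.sum_le_sum fun x hx => ?_
    rw [Finset.mem_product] at hx
    split_ifs with h
    · exact hU _ hx.1 _ hx.2 h
    · exact hU' _ hx.1 _ hx.2 h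
  refine h1.trans ?_
  rw [← Finset.sum_fiberwise_of_maps_to (s := (S ×ˢ T).filter (fun x => P x.1 x.2)) (t := Qs)
    (g := fun x => ∏ j, Nat.lcm (x.1 j) (x.2 j))
    (by
      intro x hx
      rw [Finset.mem_filter, Finset.mem_product] at hx
      exact hmap _ hx.1.1 _ hx.1.2 hx.2)]
  refine Finset.sum_le_sum fun q hq => ?_
  have h2 : ∀ x ∈ ((S ×ˢ T).filter (fun x => P x.1 x.2)).filter
      (fun x => ∏ j, Nat.lcm (x.1 j) (x.2 j) = q), f (∏ j, Nat.lcm (x.1 j) (x.2 j)) = f q := by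
    intro x hx
    rw [(Finset.mem_filter.1 hx).2]
  rw [Finset.sum_congr rfl h2, Finset.sum_const, nsmul_eq_mul]
  apply mul_le_mul_of_nonneg_right _ (hf q)
  have hsub : ((S ×ˢ T).filter (fun x => P x.1 x.2)).filter
      (fun x => ∏ j, Nat.lcm (x.1 j) (x.2 j) = q) ⊆
      (Fintype.piFinset (fun _ : Fin J => q.divisors)) ×ˢ (Fintype.piFinset (fun _ : Fin J => q.divisors)) := by
    intro x hx
    have hx2 := (Finset.mem_filter.1 hx).2
    rw [Finset.mem_product, Fintype.mem_piFinset, Fintype.mem_piFinset]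
    constructor
    · intro j
      rw [Nat.mem_divisors]
      refine ⟨?_, hQ q hq⟩
      rw [← hx2]
      exact (Nat.dvd_lcm_left _ _).trans (Finset.dvd_prod_of_mem (fun j => Nat.lcm (x.1 j) (x.2 j)) (Finset.mem_univ j))
    · intro j
      rw [Nat.mem_divisors]
      refine ⟨?_, hQ q hq⟩
      rw [← hx2]
      exact (Nat.dvd_lcm_right _ _).trans (Finset.dvd_prod_of_mem (fun j => Nat.lcm (x.1 j) (x.2 j)) (Finset.mem_univ j))
  have h3 := Finset.card_le_card hsub
  rw [Finset.card_product, Fintype.card_piFinset, Finset.prod_const, Finset.card_univ, Fintype.card_fin] at h3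
  calc _ ≤ ((q.divisors.card ^ J * q.divisors.card ^ J : ℕ) : ℝ) := by exact_mod_cast h3
    _ = _ := by push_cast; rw [two_mul, pow_add]

theorem sum2 {J : ℕ} (X : ℝ) (W P b : ℕ) (hW : 0 < W) (hbW : b.Coprime W) (F G : Fin J → ℝ → ℝ)
    (L Cf : ℝ) (hL : 0 < L) (hCf : 0 ≤ Cf) (cF cG : Fin J → ℝ)
    (hF : ∀ j x, |F j x| ≤ Cf) (hG : ∀ j x, |G j x| ≤ Cf)
    (hF0 : ∀ j x, cF j < x → F j x = 0) (hG0 : ∀ j x, cG j < x → G j x = 0)
    (E : Fin J → Finset ℕ) (R : ℕ) (h : Fin J → ℤ)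
    (hEW : ∀ j, ∀ p : ℕ, p.Prime → p ∉ E j → ¬ p ∣ W) (hEP : ∀ j, ∀ p : ℕ, p.Prime → p ∉ E j → ¬ p ∣ P)
    (hEh : ∀ j, ∀ p : ℕ, p.Prime → p ∉ E j → ¬ (p : ℤ) ∣ h j)
    (hres : ∀ i j, i ≠ j → ∀ p : ℕ, p.Prime → p ∉ E i → p ∉ E j → ∀ n : ℕ,
      ¬ ((p : ℤ) ∣ n + h i ∧ (p : ℤ) ∣ n + h j))
    (B : ℕ → ℕ) (hB : ∀ q, 1 ≤ q → ∀ b' : ℕ, b'.Coprime (W * q) → |EPhi X (W * q) b'| ≤ |EPhi X (W * q) (B q)|) :
    |∑ n ∈ Icc 1 ⌊3 * X⌋₊, (if n ≡ b [MOD W] then Phi (n / X) * ArithmeticFunction.vonMangoldt n else 0) *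
        ∏ j, (VVm (E j) R L (F j) (n + h j) * VVm (E j) R L (G j) (n + h j)) -
      (LPhi X * (1 / W.totient)) * sieveSum J F G L E (fun p _ => 1 / ((p : ℝ) - 1)) R| ≤
    Cf ^ (2 * J) * ∑ q ∈ (Icc 1 ⌊Real.exp (L * (∑ j, cF j + ∑ j, cG j))⌋₊).filter
      (fun q => Squarefree q ∧ q.Coprime P), (q.divisors.card : ℝ) ^ (2 * J) * |EPhi X (W * q) (B q)| := by
  classical
  refine (expand_le E R L F G ⌊3 * X⌋₊ (fun n => if n ≡ b [MOD W] then Phi (n / X) * ArithmeticFunction.vonMangoldt n else 0)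
    (fun n j => n + h j) (LPhi X * (1 / W.totient)) (fun p _ => 1 / ((p : ℝ) - 1))).trans ?_
  refine (support_bound E R L Cf hL hCf F G cF cG hF hG hF0 hG0 _ (fun _ _ => abs_nonneg _)).trans ?_
  apply mul_le_mul_of_nonneg_left _ (by positivity)
  refine fiber_bound (supp E R L cF) (supp E R L cG) _ PC (fun q => |EPhi X (W * q) (B q)|)
    (fun _ => abs_nonneg _) ?_ ?_ _ ?_ ?_
  · intro q hq
    rw [Finset.mem_filter, Finset.mem_Icc] at hq
    omega
  · intro d hd e he hPC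
    have hdp := supp_prod_le hd
    have hep := supp_prod_le he
    rw [mem_supp] at hd he
    have hd0 : ∀ j, d j ≠ 0 := fun j => by have := (mem_adm.1 (hd j).1).1.1; omega
    have he0 : ∀ j, e j ≠ 0 := fun j => by have := (mem_adm.1 (he j).1).1.1; omega
    have hprodpos : 0 < ∏ j, Nat.lcm (d j) (e j) :=
      Finset.prod_pos fun j _ => Nat.pos_of_ne_zero (Nat.lcm_ne_zero (hd0 j) (he0 j))
    rw [Finset.mem_filter, Finset.mem_Icc]
    refine ⟨⟨hprodpos, Nat.le_floor ?_⟩, ?_, ?_⟩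
    · have h1 : ∏ j, Nat.lcm (d j) (e j) ≤ (∏ j, d j) * ∏ j, e j := by
        rw [← Finset.prod_mul_distrib]
        exact Finset.prod_le_prod' fun j _ => lcm_le_mul' (Nat.pos_of_ne_zero (hd0 j)) (Nat.pos_of_ne_zero (he0 j))
      calc ((∏ j, Nat.lcm (d j) (e j) : ℕ) : ℝ) ≤ (((∏ j, d j) * ∏ j, e j : ℕ) : ℝ) := by exact_mod_cast h1
        _ = ((∏ j, d j : ℕ) : ℝ) * ((∏ j, e j : ℕ) : ℝ) := by push_cast; ring
        _ ≤ Real.exp (L * ∑ j, cF j) * Real.exp (L * ∑ j, cG j) := by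
            apply mul_le_mul hdp hep (Nat.cast_nonneg _) (Real.exp_pos _).le
        _ = _ := by rw [← Real.exp_add]; ring_nf
    · exact squarefree_prod _ hPC fun j => sqf_lcm (mem_adm.1 (hd j).1).2.1 (mem_adm.1 (he j).1).2.1
    · exact Nat.Coprime.prod_left fun j _ => adm_lcm_coprime (hd j).1 (he j).1 (hEP j)
  · intro d hd e he hPC
    rw [mem_supp] at hd he
    set D : Fin J → ℕ := fun j => Nat.lcm (d j) (e j) with hD
    have hd0 : ∀ j, d j ≠ 0 := fun j => by have := (mem_adm.1 (hd j).1).1.1; omega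
    have he0 : ∀ j, e j ≠ 0 := fun j => by have := (mem_adm.1 (he j).1).1.1; omega
    have hD0 : ∀ j, D j ≠ 0 := fun j => Nat.lcm_ne_zero (hd0 j) (he0 j)
    have hDW : ∀ j, (D j).Coprime W := fun j => adm_lcm_coprime (hd j).1 (he j).1 (hEW j)
    have hDsq : ∀ j, Squarefree (D j) := fun j =>
      sqf_lcm (mem_adm.1 (hd j).1).2.1 (mem_adm.1 (he j).1).2.1
    obtain ⟨b', hb'⟩ := class_exists W b hW.ne' D (fun _ => 1) h hD0 hPC hDW (fun _ => Nat.coprime_one_left _)
    simp only [Nat.cast_one, one_mul] at hb'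
    have hprodpos : 0 < ∏ j, D j := Finset.prod_pos fun j _ => Nat.pos_of_ne_zero (hD0 j)
    have hself := (hb' b').2 rfl
    have hcop : b'.Coprime (W * ∏ j, D j) := by
      rw [Nat.coprime_mul_iff_right]
      constructor
      · have h1 : b'.gcd W = b.gcd W := Nat.ModEq.gcd_eq hself.1
        rw [Nat.coprime_iff_gcd_eq_one, h1]
        exact hbW
      · apply Nat.Coprime.prod_right
        intro j _
        by_contra hcop
        obtain ⟨p, hp, hpi, hpj⟩ := Nat.Prime.not_coprime_iff_dvd.1 hcop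
        have hpE := prime_not_mem (hd j).1 (he j).1 hp hpj
        apply hEh j p hp hpE
        have h2 : (p : ℤ) ∣ b' + h j := (Int.natCast_dvd_natCast.2 hpj).trans (hself.2 j)
        have h3 : (p : ℤ) ∣ b' := Int.natCast_dvd_natCast.2 hpi
        exact (Int.dvd_add_right h3).1 h2
    have e1 : Err ⌊3 * X⌋₊ (fun n => if n ≡ b [MOD W] then Phi (n / X) * ArithmeticFunction.vonMangoldt n else 0)
      (fun n j => n + h j) (LPhi X * (1 / W.totient)) (fun p _ => 1 / ((p : ℝ) - 1)) d e =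
        EPhi X (W * ∏ j, D j) b' := by
      rw [EPhi_eq]
      unfold Err
      rw [if_pos hPC]
      congr 1
      · rw [Finset.sum_filter]
        refine Finset.sum_congr rfl fun n _ => ?_
        by_cases hn : n ≡ b' [MOD (W * ∏ j, D j)]
        · have h3 := (hb' n).2 hn
          have hDC : DC (fun j => (n : ℤ) + h j) d e := h3.2
          simp only [if_pos hn, if_pos hDC, if_pos h3.1]
        · rw [if_neg hn]
          by_cases hDC : DC (fun j => (n : ℤ) + h j) d e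
          · rw [if_pos hDC]
            have hna : ¬ n ≡ b [MOD W] := fun hna => hn ((hb' n).1 ⟨hna, hDC⟩)
            simp only [if_neg hna]
          · rw [if_neg hDC]
      · rw [mul_assoc]
        congr 1
        have hcopW : W.Coprime (∏ j, D j) := Nat.Coprime.prod_right fun j _ => (hDW j).symm
        rw [Nat.totient_mul hcopW, totient_prod D hPC]
        have : ∀ j : Fin J, ∏ p ∈ (Nat.lcm (d j) (e j)).primeFactors, (1 : ℝ) / ((p : ℝ) - 1) =
            1 / ((D j).totient : ℝ) := by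
          intro j
          rw [totient_sqf (hDsq j), Finset.prod_div_distrib, Finset.prod_const_one]
        simp_rw [this]
        rw [Finset.prod_div_distrib, Finset.prod_const_one]
        push_cast
        rw [one_div_mul_one_div]
    rw [e1]
    exact hB _ hprodpos _ hcop
  · intro d hd e he hPC
    rw [mem_supp] at hd he
    rw [not_PC_err _ _ _ _ (fun j => (hd j).1) (fun j => (he j).1) _ hPC]
    · norm_num
    · intro i j hij p hp hpi hpj n _ _
      exact hres i j hij p hp hpi hpj n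

end Pool.Agent.H378R2
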