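import Mathlib
import Pool.Agent.H378R2.M7h

open Finset Filter
open scoped ContDiff

namespace Pool.Agent.H378R2

open Pool.Agent.Erdos456.Mert (PP)

theorem ev_log_rpow (C r : ℝ) (hr : 0 < r) : ∀ᶠ v : ℝ in atTop, 3 * Real.log v + C ≤ v ^ r := by
  have h1 := (isLittleO_log_rpow_atTop hr).def (by norm_num : (0 : ℝ) < 1 / 6)
  have h2 : Tendsto (fun v : ℝ => v ^ r) atTop atTop := tendsto_rpow_atTop hr
  filter_upwards [h1, h2.eventually_ge_atTop (2 * C), eventually_ge_atTop 1] with v hv1 hv2 hv3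
  rw [Real.norm_of_nonneg (Real.log_nonneg hv3), Real.norm_of_nonneg (Real.rpow_nonneg (by linarith) _)] at hv1
  linarith

theorem ev1 (C : ℝ) : ∀ᶠ t : ℝ in atTop, 3 * Real.log (2 * t) + C ≤ (t / 200) ^ (1 / 4 : ℝ) := by
  have h0 : Tendsto (fun t : ℝ => t / 200) atTop atTop := tendsto_id.atTop_div_const (by norm_num)
  have h1 := h0.eventually (ev_log_rpow (C + 3 * Real.log 400) (1 / 4) (by norm_num))
  filter_upwards [h1, eventually_gt_atTop 0] with t ht ht0
  have : Real.log (2 * t) = Real.log (t / 200) + Real.log 400 := by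
    rw [← Real.log_mul (by positivity) (by norm_num)]
    congr 1; ring
  rw [this]
  linarith

theorem ev2 (C : ℝ) : ∀ᶠ t : ℝ in atTop, Real.log (3 * Real.log (2 * t)) + C ≤ Real.log (t / 200) / 32 := by
  have h0 : Tendsto (fun t : ℝ => Real.log (t / 200)) atTop atTop :=
    Real.tendsto_log_atTop.comp (tendsto_id.atTop_div_const (by norm_num))
  have h1 : ∀ᶠ w : ℝ in atTop, Real.log (4 * w) + C ≤ w / 32 := by
    have h2 := (ev_log_rpow (3 * Real.log 4 + 3 * C) (1 / 2) (by norm_num))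
    have h3 : ∀ᶠ w : ℝ in atTop, w ^ (1 / 2 : ℝ) ≤ w / 32 := by
      filter_upwards [eventually_ge_atTop (1024 : ℝ)] with w hw
      have hs : Real.sqrt w ^ 2 = w := Real.sq_sqrt (by linarith)
      have hs2 : 32 ≤ Real.sqrt w := by
        apply Real.le_sqrt_of_sq_le
        linarith
      rw [← Real.sqrt_eq_rpow]
      nlinarith
    filter_upwards [h2, h3, eventually_gt_atTop 0] with w hw1 hw2 hw3
    rw [Real.log_mul (by norm_num) hw3.ne']
    have hw4 : 0 ≤ w ^ (1 / 2 : ℝ) := Real.rpow_nonneg hw3.le _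
    linarith
  have h2 := h0.eventually h1
  have h3 := h0.eventually_ge_atTop (3 * Real.log 400)
  filter_upwards [h2, h3, eventually_gt_atTop 0] with t ht1 ht2 ht0
  have hl : 0 < Real.log 400 := Real.log_pos (by norm_num)
  have : Real.log (2 * t) = Real.log (t / 200) + Real.log 400 := by
    rw [← Real.log_mul (by positivity) (by norm_num)]
    congr 1; ring
  have h4 : Real.log (3 * Real.log (2 * t)) ≤ Real.log (4 * Real.log (t / 200)) := by
    apply Real.log_le_log
    · rw [this]; linarith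
    · rw [this]; linarith
  linarith

theorem Esup_prime {X : ℝ} {ps p : ℕ} (h : p ∈ Esup X ps) : p.Prime := by
  unfold Esup at h
  rw [Finset.mem_union, mem_PP', Finset.mem_filter] at h
  rcases h with h | h
  · exact h.2
  · exact h.2

theorem sum_Esup_le (X : ℝ) (ps : ℕ) (φ : ℕ → ℝ) (hφ : ∀ p, 0 ≤ φ p) (E : Finset ℕ) (hE : E ⊆ Esup X ps) (M : ℝ)
    (hM : ∀ p : ℕ, p.Prime → φ p ≤ M) (hM0 : 0 ≤ M) :
    ∑ p ∈ E, φ p ≤ ∑ p ∈ PP ⌊(2 * Real.log X) ^ 3⌋₊, φ p + M := by
  classical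
  refine (Finset.sum_le_sum_of_subset_of_nonneg hE (fun _ _ _ => hφ _)).trans ?_
  unfold Esup
  have h1 : 0 ≤ ∑ p ∈ PP ⌊(2 * Real.log X) ^ 3⌋₊ ∩ ({ps} : Finset ℕ).filter Nat.Prime, φ p :=
    Finset.sum_nonneg fun _ _ => hφ _
  have h2 := Finset.sum_union_inter (s₁ := PP ⌊(2 * Real.log X) ^ 3⌋₊) (s₂ := ({ps} : Finset ℕ).filter Nat.Prime)
    (f := φ)
  have h3 : ∑ p ∈ ({ps} : Finset ℕ).filter Nat.Prime, φ p ≤ M := by
    rw [Finset.filter_singleton]
    split_ifs with h
    · rw [Finset.sum_singleton]; exact hM _ h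
    · rw [Finset.sum_empty]; exact hM0
  linarith

theorem setfacts : ∃ c : ℝ, 0 < c ∧ ∃ X0 : ℝ, ∀ X : ℝ, X0 ≤ X → ∀ (ps : ℕ) (E : Finset ℕ), E ⊆ Esup X ps →
    (∑ p ∈ E, Real.log p / p ≤ (LL X) ^ (1 / 4 : ℝ)) ∧
    (∑ p ∈ E, (1 : ℝ) / p ≤ Real.log (LL X) / 32) ∧
    c / Real.log (Real.log X) ≤ BE E := by
  obtain ⟨C1, hC1⟩ := Pool.Agent.Erdos456.Mert.mertens_log
  obtain ⟨C2, hC2⟩ := Pool.Agent.Erdos456.Mert.mertens_inv
  refine ⟨Real.exp (-C2 - 6) / 6, by positivity, ?_⟩
  have hlog := Real.tendsto_log_atTop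
  have e1 := hlog.eventually (ev1 (C1 + 1))
  have e2 := hlog.eventually (ev2 (C2 + 1))
  have e3 := hlog.eventually_ge_atTop (10 : ℝ)
  have e4 := (hlog.comp hlog).eventually_ge_atTop (10 : ℝ)
  rw [← Filter.eventually_atTop]
  filter_upwards [e1, e2, e3, e4, eventually_ge_atTop 10] with X h1 h2 h3 h4 h5
  intro ps E hE
  simp only [Function.comp] at h4
  set N := ⌊(2 * Real.log X) ^ 3⌋₊ with hN
  have hN1 : (N : ℝ) ≤ (2 * Real.log X) ^ 3 := Nat.floor_le (by positivity)
  have hN3 : 3 ≤ N := by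
    rw [hN]
    apply Nat.le_floor
    have : (20 : ℝ) ^ 3 ≤ (2 * Real.log X) ^ 3 := by
      apply pow_le_pow_left₀ (by norm_num); linarith
    push_cast
    linarith
  have hNr : (3 : ℝ) ≤ N := by exact_mod_cast hN3
  have hlN : Real.log N ≤ 3 * Real.log (2 * Real.log X) := by
    have : Real.log ((2 * Real.log X) ^ 3) = 3 * Real.log (2 * Real.log X) := by
      rw [Real.log_pow]; norm_num
    rw [← this]
    exact Real.log_le_log (by linarith) hN1
  have hlN1 : 1 ≤ Real.log N := by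
    rw [Real.le_log_iff_exp_le (by linarith)]
    have := Real.exp_one_lt_d9
    linarith
  have hpr : ∀ p : ℕ, p.Prime → Real.log p / p ≤ 1 := by
    intro p hp
    have hp0 : (0 : ℝ) < p := by exact_mod_cast hp.pos
    rw [div_le_one hp0]
    have := Real.log_le_sub_one_of_pos hp0
    linarith
  have hpr2 : ∀ p : ℕ, p.Prime → (1 : ℝ) / p ≤ 1 := by
    intro p hp
    have hp0 : (1 : ℝ) ≤ p := by exact_mod_cast hp.one_lt.le
    rw [div_le_one (by linarith)]
    exact hp0
  have hn1 : ∀ p : ℕ, 0 ≤ Real.log p / p := fun p => by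
    apply div_nonneg _ (Nat.cast_nonneg _)
    exact Real.log_natCast_nonneg p
  have hs1 := sum_Esup_le X ps (fun p => Real.log p / p) hn1 E hE 1 hpr zero_le_one
  have hs2 := sum_Esup_le X ps (fun p => (1 : ℝ) / p) (fun p => by positivity) E hE 1 hpr2 zero_le_one
  have hm1 := (abs_le.1 (hC1 N (by omega))).2
  have hm2 := (abs_le.1 (hC2 N hN3)).2
  have hloglog : Real.log (Real.log N) ≤ Real.log (3 * Real.log (2 * Real.log X)) :=
    Real.log_le_log (by linarith) hlN
  have hS2 : ∑ p ∈ E, (1 : ℝ) / p ≤ Real.log (3 * Real.log (2 * Real.log X)) + C2 + 1 := by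
    linarith
  refine ⟨?_, ?_, ?_⟩
  · unfold LL
    refine le_trans ?_ h1
    linarith
  · unfold LL
    refine le_trans ?_ h2
    linarith
  · have hb := BE_ge (E := E) (fun p hp => Esup_prime (hE hp))
    refine le_trans ?_ hb
    have hpos : 0 < 3 * Real.log (2 * Real.log X) := by linarith
    have h6 : Real.exp (-(Real.log (3 * Real.log (2 * Real.log X)) + C2 + 1) - 4) ≤
        Real.exp (-(∑ p ∈ E, (1 : ℝ) / p) - 4) := by
      apply Real.exp_le_exp.2
      linarith
    refine le_trans ?_ h6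
    have h7 : Real.exp (-(Real.log (3 * Real.log (2 * Real.log X)) + C2 + 1) - 4) =
        Real.exp (-C2 - 5) / (3 * Real.log (2 * Real.log X)) := by
      rw [show -(Real.log (3 * Real.log (2 * Real.log X)) + C2 + 1) - 4 =
        (-C2 - 5) - Real.log (3 * Real.log (2 * Real.log X)) by ring, Real.exp_sub, Real.exp_log hpos]
    rw [h7]
    have h8 : Real.exp (-C2 - 6) ≤ Real.exp (-C2 - 5) := Real.exp_le_exp.2 (by linarith)
    have h9 : Real.log (2 * Real.log X) ≤ 2 * Real.log (Real.log X) := by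
      rw [Real.log_mul (by norm_num) (by linarith)]
      have := Real.log_two_lt_d9
      linarith
    rw [div_div, div_le_div_iff₀ (by positivity) hpos]
    have h10 : 0 < Real.exp (-C2 - 6) := Real.exp_pos _
    calc Real.exp (-C2 - 6) * (3 * Real.log (2 * Real.log X)) ≤ Real.exp (-C2 - 5) * (3 * (2 * Real.log (Real.log X))) := by
          gcongr
      _ = _ := by ring

end Pool.Agent.H378R2
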