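import Mathlib
import Pool.Agent.H378R2.M7i
import Pool.Agent.H378R2.M7e
import Pool.Agent.H378R2.M7g

open Finset Filter
open scoped ContDiff

namespace Pool.Agent.H378R2

open Pool.Agent.Erdos456.Mert (PP)

theorem LL_tendsto : Tendsto LL atTop atTop :=
  Real.tendsto_log_atTop.atTop_div_const (by norm_num)

theorem RR_ge (L : ℝ) (hL : 2 ≤ L) : L / 2 ≤ Real.log (⌊Real.exp L⌋₊ : ℝ) := by
  have h1 : Real.exp L - 1 < (⌊Real.exp L⌋₊ : ℝ) := by
    have := Nat.lt_floor_add_one (Real.exp L)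
    linarith
  have h2 : Real.exp (L / 2) ≤ Real.exp L - 1 := by
    have h3 : Real.exp L = Real.exp (L / 2) * Real.exp (L / 2) := by rw [← Real.exp_add]; ring_nf
    have h4 : 2 ≤ Real.exp (L / 2) := by
      have := Real.add_one_le_exp (L / 2)
      linarith
    rw [h3]
    nlinarith
  rw [Real.le_log_iff_exp_le (by linarith [Real.exp_pos (L / 2)])]
  linarith

theorem z2_tendsto : Tendsto z2 atTop atTop := by
  unfold z2
  apply tendsto_nat_ceil_atTop.comp
  have h1 : Tendsto (fun X : ℝ => Real.log (Real.log X)) atTop atTop :=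
    Real.tendsto_log_atTop.comp Real.tendsto_log_atTop
  exact (tendsto_pow_atTop (by norm_num : (3 : ℕ) ≠ 0)).comp h1

theorem asymp1 (h5 : SieveAsymp) (J : ℕ) (F G : Fin J → ℝ → ℝ)
    (hF : ∀ j, ContDiff ℝ ∞ (F j)) (hG : ∀ j, ContDiff ℝ ∞ (G j))
    (hFc : ∀ j, HasCompactSupport (F j)) (hGc : ∀ j, HasCompactSupport (G j))
    (hF0 : ∀ j x, 1 / 2 < x → F j x = 0) (hG0 : ∀ j x, 1 / 2 < x → G j x = 0)
    (ε : ℝ) (hε : 0 < ε) :
    ∀ᶠ X : ℝ in atTop, ∀ (ps : ℕ) (E : Fin J → Finset ℕ) (w : ℕ → Fin J → ℝ),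
      (∀ j, E j ⊆ Esup X ps) → (∀ j, ∀ p : ℕ, p.Prime → p ≤ z2 X → p ∈ E j) →
      (∀ j, ∀ p : ℕ, p.Prime → |w p j - 1 / p| ≤ 2 / (p : ℝ) ^ 2) →
      |(∏ j, (LL X * BE (E j))) * sieveSum J F G (LL X) E w (RR X) - ∏ j, DD (F j) (G j)| ≤ ε := by
  obtain ⟨δ, hδ, h⟩ := h5 J F G hF hG hFc hGc ε hε
  obtain ⟨c, hc, X0, hset⟩ := setfacts
  have e1 := LL_tendsto.eventually_ge_atTop (1 / δ)
  have e2 := LL_tendsto.eventually_ge_atTop 2
  have e3 := z2_tendsto.eventually_ge_atTop ⌈1 / δ⌉₊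
  filter_upwards [e1, e2, e3, eventually_ge_atTop X0] with X h1 h2 h3 h4
  intro ps E w hE hsm hw
  have hf := fun j => hset X h4 ps (E j) (hE j)
  apply h (LL X) E w (RR X) h1
  · intro j x hx
    have h6 : 1 / 2 < x := by
      refine lt_of_le_of_lt ?_ hx
      rw [le_div_iff₀ (by linarith)]
      have := RR_ge (LL X) h2
      unfold RR
      linarith
    exact ⟨hF0 j x h6, hG0 j x h6⟩
  · intro j p hp
    exact Esup_prime (hE j hp)
  · intro j p hp hpl
    apply hsm j p hp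
    have : p ≤ ⌈1 / δ⌉₊ := by
      have := hpl.trans (Nat.le_ceil (1 / δ))
      exact_mod_cast this
    exact this.trans h3
  · intro j; exact (hf j).1
  · intro j; exact (hf j).2.1
  · intro j p hp _
    exact hw j p hp

theorem w_one (p : ℕ) : |(1 : ℝ) / p - 1 / p| ≤ 2 / (p : ℝ) ^ 2 := by
  rw [sub_self, abs_zero]; positivity

theorem w_two {p : ℕ} (hp : p.Prime) : |(1 : ℝ) / ((p : ℝ) - 1) - 1 / p| ≤ 2 / (p : ℝ) ^ 2 := by
  have h2 : (2 : ℝ) ≤ p := by exact_mod_cast hp.two_le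
  have h1 : (1 : ℝ) / ((p : ℝ) - 1) - 1 / p = 1 / ((p - 1) * p) := by
    rw [div_sub_div _ _ (by linarith) (by linarith)]
    congr 1; ring
  rw [h1, abs_of_pos (by apply one_div_pos.2; apply mul_pos <;> linarith),
    div_le_div_iff₀ (by apply mul_pos <;> linarith) (by positivity)]
  nlinarith

/-- the coprimality set of the sieve -/
noncomputable def EE (X : ℝ) (S : Finset ℕ) (ps : ℕ) : Finset ℕ :=
  PW X S ps ∪ ({ps} : Finset ℕ).filter Nat.Prime

theorem mem_PW {X : ℝ} {S : Finset ℕ} {ps p : ℕ} :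
    p ∈ PW X S ps ↔ p ≤ yy X ∧ p.Prime ∧ p ∉ S ∧ p ≠ ps := by
  unfold PW
  rw [Finset.mem_filter, Finset.mem_Icc]
  constructor
  · rintro ⟨⟨_, h1⟩, h2⟩; exact ⟨h1, h2⟩
  · rintro ⟨h1, h2⟩; exact ⟨⟨h2.1.one_lt.le, h1⟩, h2⟩

theorem mem_EE {X : ℝ} {S : Finset ℕ} {ps p : ℕ} (hp : p.Prime) :
    p ∈ EE X S ps ↔ (p ∈ PW X S ps ∨ p = ps) := by
  unfold EE
  rw [Finset.mem_union, Finset.mem_filter, Finset.mem_singleton]
  constructor
  · rintro (h | h)
    · exact Or.inl h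
    · exact Or.inr h.1
  · rintro (h | h)
    · exact Or.inl h
    · exact Or.inr ⟨h, hp⟩

theorem EE_prime {X : ℝ} {S : Finset ℕ} {ps p : ℕ} (h : p ∈ EE X S ps) : p.Prime := by
  unfold EE at h
  rw [Finset.mem_union, mem_PW, Finset.mem_filter] at h
  rcases h with h | h
  · exact h.2.1
  · exact h.2

theorem prime_dvd_WW {X : ℝ} {S : Finset ℕ} {ps p : ℕ} (hp : p.Prime) :
    p ∣ WW X S ps ↔ p ∈ PW X S ps := by
  unfold WW
  constructor
  · intro h
    obtain ⟨q, hq, hpq⟩ := (Prime.dvd_finsetProd_iff hp.prime _).1 h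
    have hq' := (mem_PW.1 hq).2.1
    rw [(Nat.prime_dvd_prime_iff_eq hp hq').1 hpq]
    exact hq
  · intro h
    exact Finset.dvd_prod_of_mem _ h

theorem not_dvd_WW {X : ℝ} {S : Finset ℕ} {ps p : ℕ} (hp : p.Prime) (h : p ∉ EE X S ps) :
    ¬ p ∣ WW X S ps := by
  rw [prime_dvd_WW hp]
  intro h2
  exact h ((mem_EE hp).2 (Or.inl h2))

theorem not_dvd_WWps {X : ℝ} {S : Finset ℕ} {Z ps p : ℕ} (hps : GoodP Z ps) (hp : p.Prime) (h : p ∉ EE X S ps) :
    ¬ p ∣ WW X S ps * ps := by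
  rw [Nat.Prime.dvd_mul hp, not_or]
  refine ⟨not_dvd_WW hp h, fun h2 => ?_⟩
  rcases hps with h3 | h3
  · rw [h3] at h2
    exact hp.one_lt.ne' (Nat.dvd_one.1 h2)
  · exact h ((mem_EE hp).2 (Or.inr ((Nat.prime_dvd_prime_iff_eq hp h3.1).1 h2)))

theorem WW_pos (X : ℝ) (S : Finset ℕ) (ps : ℕ) : 0 < WW X S ps :=
  Finset.prod_pos fun p hp => (mem_PW.1 hp).2.1.pos

theorem WW_squarefree (X : ℝ) (S : Finset ℕ) (ps : ℕ) : Squarefree (WW X S ps) := by
  unfold WW
  have : ∀ s : Finset ℕ, (∀ p ∈ s, p.Prime) → Squarefree (∏ p ∈ s, p) := by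
    intro s
    induction s using Finset.induction_on with
    | empty => intro _; simp
    | insert a s ha ih =>
      intro hs
      rw [Finset.prod_insert ha, Nat.squarefree_mul_iff]
      refine ⟨?_, (hs a (Finset.mem_insert_self _ _)).prime.squarefree, ih fun p hp => hs p (Finset.mem_insert_of_mem hp)⟩
      apply Nat.Coprime.prod_right
      intro i hi
      rw [Nat.coprime_primes (hs a (Finset.mem_insert_self _ _)) (hs i (Finset.mem_insert_of_mem hi))]
      rintro rfl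
      exact ha hi
  exact this _ fun p hp => (mem_PW.1 hp).2.1

theorem WW_primeFactors (X : ℝ) (S : Finset ℕ) (ps : ℕ) : (WW X S ps).primeFactors = PW X S ps := by
  ext p
  rw [Nat.mem_primeFactors]
  constructor
  · rintro ⟨hp, h, _⟩
    exact (prime_dvd_WW hp).1 h
  · intro h
    exact ⟨(mem_PW.1 h).2.1, (prime_dvd_WW (mem_PW.1 h).2.1).2 h, (WW_pos X S ps).ne'⟩

theorem totient_WW (X : ℝ) (S : Finset ℕ) (ps : ℕ) :
    ((WW X S ps).totient : ℝ) = WW X S ps * BE (PW X S ps) := by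
  have h1 := totient_sqf (WW_squarefree X S ps)
  rw [WW_primeFactors] at h1
  rw [h1]
  unfold WW BE
  push_cast
  rw [← Finset.prod_mul_distrib]
  refine Finset.prod_congr rfl fun p hp => ?_
  have : (p : ℝ) ≠ 0 := by exact_mod_cast (mem_PW.1 hp).2.1.ne_zero
  field_simp

theorem BE_EE_ge (X : ℝ) (S : Finset ℕ) (ps : ℕ) : BE (PW X S ps) / 2 ≤ BE (EE X S ps) := by
  classical
  have hPWp : ∀ p ∈ PW X S ps, p.Prime := fun p hp => (mem_PW.1 hp).2.1
  have hpos := BE_pos hPWp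
  unfold EE
  rw [Finset.filter_singleton]
  split_ifs with h
  · have hnot : ps ∉ PW X S ps := fun h2 => (mem_PW.1 h2).2.2.2 rfl
    have hdisj : Disjoint (PW X S ps) {ps} := by
      rw [Finset.disjoint_singleton_right]; exact hnot
    unfold BE
    rw [Finset.prod_union hdisj, Finset.prod_singleton]
    have h2 : (1 : ℝ) / 2 ≤ 1 - 1 / (ps : ℝ) := by
      have : (2 : ℝ) ≤ ps := by exact_mod_cast h.two_le
      have := one_div_le_one_div_of_le (by norm_num : (0 : ℝ) < 2) this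
      linarith
    unfold BE at hpos
    nlinarith
  · rw [Finset.union_empty]
    linarith

/-- eventually true relations between the parameters -/
theorem EE_facts (z : ℕ) : ∀ᶠ X : ℝ in atTop, z < z2 X ∧ z2 X ≤ yy X ∧ yy X ≤ ⌊(2 * Real.log X) ^ 3⌋₊ := by
  have hlog := Real.tendsto_log_atTop
  have hll : Tendsto (fun X : ℝ => Real.log (Real.log X)) atTop atTop := hlog.comp hlog
  have e1 := z2_tendsto.eventually_gt_atTop z
  have e2 : ∀ᶠ X : ℝ in atTop, (Real.log (Real.log X)) ^ 3 + 2 ≤ Real.log X / 1000 := by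
    have h1 := (isLittleO_log_rpow_atTop (by norm_num : (0 : ℝ) < 1 / 6)).def (by norm_num : (0 : ℝ) < 1)
    have h2 := hlog.eventually h1
    filter_upwards [h2, hlog.eventually_ge_atTop (10 ^ 8 : ℝ), hll.eventually_ge_atTop 1] with X h3 h4 h5
    rw [one_mul, Real.norm_of_nonneg (by linarith), Real.norm_of_nonneg (Real.rpow_nonneg (by linarith) _)] at h3
    have h6 : (Real.log (Real.log X)) ^ 3 ≤ Real.sqrt (Real.log X) := by
      calc (Real.log (Real.log X)) ^ 3 ≤ ((Real.log X) ^ (1 / 6 : ℝ)) ^ 3 := pow_le_pow_left₀ (by linarith) h3 3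
        _ = Real.sqrt (Real.log X) := by
            rw [Real.sqrt_eq_rpow, ← Real.rpow_natCast, ← Real.rpow_mul (by linarith)]
            norm_num
    have h7 : Real.sqrt (Real.log X) ^ 2 = Real.log X := Real.sq_sqrt (by linarith)
    have h8 : 10 ^ 4 ≤ Real.sqrt (Real.log X) := by
      apply Real.le_sqrt_of_sq_le
      linarith
    nlinarith
  filter_upwards [e1, e2, hlog.eventually_ge_atTop (10 ^ 4 : ℝ)] with X h1 h2 h3
  refine ⟨h1, ?_, ?_⟩
  · unfold z2 yy
    apply Nat.le_floor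
    have h5 : 0 ≤ (Real.log (Real.log X)) ^ 3 := by
      apply pow_nonneg
      apply Real.log_nonneg
      linarith
    have h4 := Nat.ceil_lt_add_one h5
    linarith
  · unfold yy
    apply Nat.floor_le_floor
    have : (1 : ℝ) ≤ 2 * Real.log X := by linarith
    nlinarith [pow_le_pow_left₀ (by norm_num : (0 : ℝ) ≤ 1) this 2]

theorem EE_sub {X : ℝ} {S : Finset ℕ} {ps : ℕ} (h : yy X ≤ ⌊(2 * Real.log X) ^ 3⌋₊) :
    EE X S ps ⊆ Esup X ps := by
  unfold EE Esup
  apply Finset.union_subset_union _ (Finset.Subset.refl _)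
  intro p hp
  rw [mem_PW] at hp
  rw [mem_PP']
  exact ⟨hp.1.trans h, hp.2.1⟩

theorem EE_small {X : ℝ} {S : Finset ℕ} {ps p : ℕ} (hS : GoodS X S) (h : z2 X ≤ yy X)
    (hp : p.Prime) (hpl : p ≤ z2 X) : p ∈ EE X S ps := by
  rw [mem_EE hp, mem_PW]
  by_cases h1 : p = ps
  · exact Or.inr h1
  · refine Or.inl ⟨hpl.trans h, hp, ?_, h1⟩
    intro h2
    have := (hS.1 p h2).2.1
    omega

theorem WW_le (X : ℝ) (hX : 1 ≤ X) (S : Finset ℕ) (ps : ℕ) : (WW X S ps : ℝ) ≤ Real.exp (Real.log X / 700) := by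
  have h1 : WW X S ps ≤ primorial (yy X) := by
    unfold WW primorial
    apply Finset.prod_le_prod_of_subset_of_one_le'
    · intro p hp
      rw [mem_PW] at hp
      rw [Finset.mem_filter, Finset.mem_range]
      exact ⟨by omega, hp.2.1⟩
    · intro p hp _
      exact (Finset.mem_filter.1 hp).2.one_lt.le
  have h2 : primorial (yy X) ≤ 4 ^ (yy X) := primorial_le_four_pow _
  have hl : 0 ≤ Real.log X := Real.log_nonneg hX
  have h3 : (yy X : ℝ) ≤ Real.log X / 1000 := Nat.floor_le (by positivity)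
  calc (WW X S ps : ℝ) ≤ ((4 ^ (yy X) : ℕ) : ℝ) := by exact_mod_cast h1.trans h2
    _ = Real.exp (Real.log 4 * yy X) := by
        push_cast
        rw [Real.exp_mul, Real.exp_log (by norm_num), Real.rpow_natCast]
    _ ≤ _ := by
        apply Real.exp_le_exp.2
        have h4 : Real.log 4 ≤ 1.39 := by
          have : Real.log 4 = 2 * Real.log 2 := by
            rw [show (4 : ℝ) = 2 ^ 2 by norm_num, Real.log_pow]; norm_num
          rw [this]
          have := Real.log_two_lt_d9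
          linarith
        have h5 : 0 ≤ Real.log 4 := Real.log_nonneg (by norm_num)
        nlinarith

end Pool.Agent.H378R2
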