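import Mathlib
import Pool.Agent.H378R2.Defs
import Pool.Agent.H378R2.M5a

set_option autoImplicit false

open Finset

namespace Pool.Agent.H378R2.M5

theorem pf_lcm {a b : ℕ} (ha : a ≠ 0) (hb : b ≠ 0) :
    (Nat.lcm a b).primeFactors = a.primeFactors ∪ b.primeFactors := by
  ext p
  simp only [Finset.mem_union, Nat.mem_primeFactors]
  constructor
  · rintro ⟨hp, hd, _⟩
    have h1 : p ∣ a * b := hd.trans (Nat.lcm_dvd_mul a b)
    rcases (Nat.Prime.dvd_mul hp).mp h1 with h | h
    · left; exact ⟨hp, h, ha⟩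
    · right; exact ⟨hp, h, hb⟩
  · rintro (⟨hp, hd, _⟩ | ⟨hp, hd, _⟩)
    · exact ⟨hp, hd.trans (Nat.dvd_lcm_left a b), Nat.lcm_ne_zero ha hb⟩
    · exact ⟨hp, hd.trans (Nat.dvd_lcm_right a b), Nat.lcm_ne_zero ha hb⟩

theorem moebius_sq {n : ℕ} (h : Squarefree n) :
    ArithmeticFunction.moebius n = (-1) ^ n.primeFactors.card := by
  rw [ArithmeticFunction.moebius_apply_of_squarefree h]
  congr 1
  rw [← (ArithmeticFunction.cardDistinctFactors_eq_cardFactors_iff_squarefree h.ne_zero).mpr h,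
    ArithmeticFunction.cardDistinctFactors_apply]
  rfl

theorem log_sq {n : ℕ} (h : Squarefree n) :
    Real.log n = ∑ p ∈ n.primeFactors, Real.log p := by
  conv_lhs => rw [← Nat.prod_primeFactors_of_squarefree h]
  rw [Nat.cast_prod, Real.log_prod]
  intro p hp
  exact_mod_cast (Nat.prime_of_mem_primeFactors hp).ne_zero

/-- value of a coordinate -/
noncomputable def val (F G : ℝ → ℝ) (L : ℝ) (w : ℕ → ℝ) (P : Finset ℕ × Finset ℕ) : ℝ :=
  (-1) ^ P.1.card * (-1) ^ P.2.card * F ((∑ p ∈ P.1, Real.log p) / L) *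
    G ((∑ p ∈ P.2, Real.log p) / L) * ∏ p ∈ U P, w p

/-- primes up to `Y` -/
def PY (Y : ℕ) : Finset ℕ := (Icc 1 Y).filter Nat.Prime

open Classical in
theorem sieveSum_eq (J : ℕ) (F G : Fin J → ℝ → ℝ) (L : ℝ) (hL : 0 < L) (E : Fin J → Finset ℕ)
    (w : ℕ → Fin J → ℝ) (R Y : ℕ) (hRY : R ≤ Y)
    (hFc : ∀ j, Continuous (F j)) (hGc : ∀ j, Continuous (G j))
    (hFG : ∀ j x, Real.log R / L < x → F j x = 0 ∧ G j x = 0) :
    sieveSum J F G L E w R =
      ∑ P ∈ Fintype.piFinset (fun _ : Fin J => (PY Y).powerset ×ˢ (PY Y).powerset),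
        (if Pairwise (fun i j => Disjoint (U (P i)) (U (P j))) then
          ∏ j, val (F j) (G j) L (fun p => if p ∈ E j then 0 else w p j) (P j) else 0) := by
  -- vanishing beyond R
  have hvan : ∀ (f : ℝ → ℝ), Continuous f → (∀ x, Real.log R / L < x → f x = 0) →
      ∀ D : Finset ℕ, (∀ p ∈ D, p.Prime) → R < ∏ p ∈ D, p → f ((∑ p ∈ D, Real.log p) / L) = 0 := by
    intro f hf hf0 D hD hR
    have h1 : ∑ p ∈ D, Real.log p = Real.log ((∏ p ∈ D, p : ℕ) : ℝ) := by
      rw [Nat.cast_prod, Real.log_prod]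
      intro p hp
      exact_mod_cast (hD p hp).ne_zero
    rw [h1]
    rcases Nat.eq_zero_or_pos R with hR0 | hR0
    · subst hR0
      simp only [Nat.cast_zero, Real.log_zero, zero_div] at hf0
      have h2 : (1 : ℝ) ≤ ((∏ p ∈ D, p : ℕ) : ℝ) := by exact_mod_cast hR
      have h3 : 0 ≤ Real.log ((∏ p ∈ D, p : ℕ) : ℝ) / L := div_nonneg (Real.log_nonneg h2) hL.le
      rcases h3.lt_or_eq with h4 | h4
      · exact hf0 _ h4
      · rw [← h4]
        have h5 : Filter.Tendsto f (nhdsWithin 0 (Set.Ioi 0)) (nhds (f 0)) :=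
          (hf.tendsto 0).mono_left nhdsWithin_le_nhds
        have h6 : Filter.Tendsto f (nhdsWithin 0 (Set.Ioi 0)) (nhds 0) := by
          apply tendsto_const_nhds.congr'
          filter_upwards [self_mem_nhdsWithin] with x hx
          exact (hf0 x hx).symm
        exact tendsto_nhds_unique h5 h6
    · apply hf0
      apply div_lt_div_of_pos_right _ hL
      apply Real.log_lt_log (by exact_mod_cast hR0)
      exact_mod_cast hR
  -- the index sets
  let A : Fin J → Finset ℕ := fun j => adm (E j) R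
  have hA : ∀ j, ∀ d ∈ A j, d ≠ 0 ∧ d ≤ R ∧ Squarefree d ∧ ∀ p ∈ E j, p.Prime → ¬ p ∣ d := by
    intro j d hd
    simp only [A, adm, Finset.mem_filter, Finset.mem_Icc] at hd
    exact ⟨by omega, hd.1.2, hd.2.1, hd.2.2⟩
  -- step 1: pairs
  have step1 : sieveSum J F G L E w R =
      ∑ P ∈ Fintype.piFinset (fun j => A j ×ˢ A j),
        (if Pairwise (fun i j => (Nat.lcm (P i).1 (P i).2).Coprime (Nat.lcm (P j).1 (P j).2)) then
      ∏ j, (((ArithmeticFunction.moebius (P j).1 : ℤ) : ℝ) *
        ((ArithmeticFunction.moebius (P j).2 : ℤ) : ℝ) *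
        F j (Real.log (P j).1 / L) * G j (Real.log (P j).2 / L) *
        ∏ p ∈ (Nat.lcm (P j).1 (P j).2).primeFactors, w p j)
    else 0) := by
    rw [sieveSum, ← Finset.sum_product']
    apply Finset.sum_nbij' (fun de => fun j => (de.1 j, de.2 j)) (fun P => (fun j => (P j).1, fun j => (P j).2))
    · intro de hde
      rw [Finset.mem_product, Fintype.mem_piFinset, Fintype.mem_piFinset] at hde
      rw [Fintype.mem_piFinset]
      intro j
      rw [Finset.mem_product]
      exact ⟨hde.1 j, hde.2 j⟩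
    · intro P hP
      rw [Fintype.mem_piFinset] at hP
      rw [Finset.mem_product, Fintype.mem_piFinset, Fintype.mem_piFinset]
      exact ⟨fun j => (Finset.mem_product.mp (hP j)).1, fun j => (Finset.mem_product.mp (hP j)).2⟩
    · intro de _; rfl
    · intro P _; rfl
    · intro de _; rfl
  rw [step1]
  -- the map to finite sets of primes
  let Ψ : (Fin J → ℕ × ℕ) → (Fin J → Finset ℕ × Finset ℕ) :=
    fun P j => ((P j).1.primeFactors, (P j).2.primeFactors)
  set T := Fintype.piFinset (fun j => A j ×ˢ A j) with hT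
  have hTm : ∀ P ∈ T, ∀ j, (P j).1 ∈ A j ∧ (P j).2 ∈ A j := by
    intro P hP j
    rw [hT, Fintype.mem_piFinset] at hP
    exact Finset.mem_product.mp (hP j)
  have hinj : Set.InjOn Ψ T := by
    intro P hP P' hP' h
    funext j
    have hj := congrFun h j
    simp only [Ψ, Prod.mk.injEq] at hj
    have h1 := hTm P hP j
    have h2 := hTm P' hP' j
    apply Prod.ext
    · rw [← Nat.prod_primeFactors_of_squarefree (hA j _ h1.1).2.2.1,
        ← Nat.prod_primeFactors_of_squarefree (hA j _ h2.1).2.2.1, hj.1]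
    · rw [← Nat.prod_primeFactors_of_squarefree (hA j _ h1.2).2.2.1,
        ← Nat.prod_primeFactors_of_squarefree (hA j _ h2.2).2.2.1, hj.2]
  have hmemPY : ∀ D : Finset ℕ, D ∈ (PY Y).powerset ↔ ∀ p ∈ D, p.Prime ∧ p ≤ Y := by
    intro D
    rw [Finset.mem_powerset]
    constructor
    · intro h p hp
      have := h hp
      rw [PY, Finset.mem_filter, Finset.mem_Icc] at this
      exact ⟨this.2, this.1.2⟩
    · intro h p hp
      rw [PY, Finset.mem_filter, Finset.mem_Icc]
      exact ⟨⟨(h p hp).1.one_lt.le, (h p hp).2⟩, (h p hp).1⟩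
  have hpfmem : ∀ j, ∀ d ∈ A j, d.primeFactors ∈ (PY Y).powerset := by
    intro j d hd
    rw [hmemPY]
    intro p hp
    have h1 := hA j d hd
    refine ⟨Nat.prime_of_mem_primeFactors hp, ?_⟩
    exact (Nat.le_of_mem_primeFactors hp).trans (h1.2.1.trans hRY)
  have hsub : T.image Ψ ⊆ Fintype.piFinset (fun _ : Fin J => (PY Y).powerset ×ˢ (PY Y).powerset) := by
    intro P' hP'
    rw [Finset.mem_image] at hP'
    obtain ⟨P, hP, rfl⟩ := hP'
    rw [Fintype.mem_piFinset]
    intro j
    rw [Finset.mem_product]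
    exact ⟨hpfmem j _ (hTm P hP j).1, hpfmem j _ (hTm P hP j).2⟩
  rw [← Finset.sum_subset hsub]
  · rw [Finset.sum_image hinj]
    refine Finset.sum_congr rfl (fun P hP => ?_)
    have hm := hTm P hP
    have hlcm : ∀ j, (Nat.lcm (P j).1 (P j).2).primeFactors = U (Ψ P j) := fun j =>
      pf_lcm (hA j _ (hm j).1).1 (hA j _ (hm j).2).1
    have hlcm0 : ∀ j, Nat.lcm (P j).1 (P j).2 ≠ 0 := fun j =>
      Nat.lcm_ne_zero (hA j _ (hm j).1).1 (hA j _ (hm j).2).1
    have hiff : Pairwise (fun i j => (Nat.lcm (P i).1 (P i).2).Coprime (Nat.lcm (P j).1 (P j).2)) ↔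
        Pairwise (fun i j => Disjoint (U (Ψ P i)) (U (Ψ P j))) := by
      constructor
      · intro h i j hij
        have := (h hij).disjoint_primeFactors
        rwa [hlcm, hlcm] at this
      · intro h i j hij
        have := h hij
        rw [← Nat.disjoint_primeFactors (hlcm0 i) (hlcm0 j), hlcm, hlcm]
        exact this
    by_cases hpw : Pairwise (fun i j => Disjoint (U (Ψ P i)) (U (Ψ P j)))
    · rw [if_pos (hiff.mpr hpw), if_pos hpw]
      refine Finset.prod_congr rfl (fun j _ => ?_)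
      have h1 := hA j _ (hm j).1
      have h2 := hA j _ (hm j).2
      rw [val, hlcm]
      simp only [Ψ]
      rw [moebius_sq h1.2.2.1, moebius_sq h2.2.2.1, log_sq h1.2.2.1, log_sq h2.2.2.1]
      push_cast
      congr 1
      refine Finset.prod_congr rfl (fun p hp => ?_)
      rw [if_neg]
      intro hpE
      simp only [U, Finset.mem_union] at hp
      rcases hp with hp | hp
      · exact h1.2.2.2 p hpE (Nat.prime_of_mem_primeFactors hp) (Nat.dvd_of_mem_primeFactors hp)
      · exact h2.2.2.2 p hpE (Nat.prime_of_mem_primeFactors hp) (Nat.dvd_of_mem_primeFactors hp)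
    · rw [if_neg (fun h => hpw (hiff.mp h)), if_neg hpw]
  · intro P hP hPn
    split_ifs with hpw
    swap
    · rfl
    rw [Fintype.mem_piFinset] at hP
    have hPp : ∀ j, (∀ p ∈ (P j).1, p.Prime ∧ p ≤ Y) ∧ (∀ p ∈ (P j).2, p.Prime ∧ p ≤ Y) := by
      intro j
      have := hP j
      rw [Finset.mem_product, hmemPY, hmemPY] at this
      exact this
    by_contra hne
    have hne := Finset.prod_ne_zero_iff.mp hne
    apply hPn
    rw [Finset.mem_image]
    have hgood : ∀ j, (∏ p ∈ (P j).1, p) ∈ A j ∧ (∏ p ∈ (P j).2, p) ∈ A j := by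
      intro j
      have h1 := hne j (Finset.mem_univ j)
      rw [val] at h1
      have hw : ∀ p ∈ U (P j), p ∉ E j := by
        intro p hp hpE
        apply h1
        rw [Finset.prod_eq_zero hp (by simp [hpE]), mul_zero]
      have hF : F j ((∑ p ∈ (P j).1, Real.log p) / L) ≠ 0 := by
        intro h; apply h1; rw [h]; simp
      have hG : G j ((∑ p ∈ (P j).2, Real.log p) / L) ≠ 0 := by
        intro h; apply h1; rw [h]; simp
      have hle1 : ∏ p ∈ (P j).1, p ≤ R := by
        by_contra hlt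
        exact hF (hvan (F j) (hFc j) (fun x hx => (hFG j x hx).1) _ (fun p hp => ((hPp j).1 p hp).1)
          (not_le.mp hlt))
      have hle2 : ∏ p ∈ (P j).2, p ≤ R := by
        by_contra hlt
        exact hG (hvan (G j) (hGc j) (fun x hx => (hFG j x hx).2) _ (fun p hp => ((hPp j).2 p hp).1)
          (not_le.mp hlt))
      have hadm : ∀ D : Finset ℕ, (∀ p ∈ D, p.Prime) → ∏ p ∈ D, p ≤ R → (∀ p ∈ D, p ∉ E j) →
          (∏ p ∈ D, p) ∈ A j := by
        intro D hD hDR hDE
        simp only [A, adm, Finset.mem_filter, Finset.mem_Icc]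
        have hpos : 0 < ∏ p ∈ D, p := Finset.prod_pos (fun p hp => (hD p hp).pos)
        refine ⟨⟨hpos, hDR⟩, ?_, ?_⟩
        · apply Finset.squarefree_prod_of_pairwise_isCoprime
          · intro p hp q hq hpq
            rw [Function.onFun, ← Nat.coprime_iff_isRelPrime]
            exact (Nat.coprime_primes (hD p hp) (hD q hq)).mpr hpq
          · intro p hp
            exact (hD p hp).squarefree
        · intro p hp hpp hpd
          have : p ∈ (∏ p ∈ D, p).primeFactors := Nat.mem_primeFactors.mpr ⟨hpp, hpd, hpos.ne'⟩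
          rw [Nat.primeFactors_prod hD] at this
          exact hDE p this hp
      exact ⟨hadm _ (fun p hp => ((hPp j).1 p hp).1) hle1 (fun p hp => hw p (Finset.mem_union_left _ hp)),
        hadm _ (fun p hp => ((hPp j).2 p hp).1) hle2 (fun p hp => hw p (Finset.mem_union_right _ hp))⟩
    refine ⟨fun j => (∏ p ∈ (P j).1, p, ∏ p ∈ (P j).2, p), ?_, ?_⟩
    · rw [hT, Fintype.mem_piFinset]
      intro j
      rw [Finset.mem_product]
      exact hgood j
    · funext j
      simp only [Ψ]
      rw [Nat.primeFactors_prod (fun p hp => ((hPp j).1 p hp).1),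
        Nat.primeFactors_prod (fun p hp => ((hPp j).2 p hp).1)]

end Pool.Agent.H378R2.M5
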