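import Mathlib
import Pool.Agent.H378R2.M5c

set_option autoImplicit false

open Finset MeasureTheory
open scoped ContDiff FourierTransform

namespace Pool.Agent.H378R2.M5

theorem ss_add_ne (v v' : ℝ) : ss v + ss v' ≠ 0 := by
  intro h
  have := congrArg Complex.re h
  rw [Complex.add_re, ss_re, ss_re] at this
  norm_num at this

theorem main_integral (f g : ℝ → ℝ) (η η' : ℝ → ℂ) (hηc : Continuous η) (hηc' : Continuous η')
    (hη : Integrable (fun v => ‖ss v‖ ^ 1 * ‖η v‖)) (hη' : Integrable (fun v => ‖ss v‖ ^ 1 * ‖η' v‖))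
    (hf : ∀ t : ℝ, ((deriv f t : ℝ) : ℂ) = -∫ v, η v * ss v * Complex.exp (-(ss v) * t))
    (hg : ∀ t : ℝ, ((deriv g t : ℝ) : ℂ) = -∫ v, η' v * ss v * Complex.exp (-(ss v) * t)) :
    ∫ z : ℝ × ℝ, η z.1 * η' z.2 * (ss z.1 * ss z.2 / (ss z.1 + ss z.2)) =
      ((∫ t in Set.Ioi (0 : ℝ), deriv f t * deriv g t : ℝ) : ℂ) := by
  rw [← integral_complex_ofReal]
  have hsc := continuous_ss
  have h1 : ∀ t : ℝ, ((deriv f t * deriv g t : ℝ) : ℂ) =
      ∫ z : ℝ × ℝ, (η z.1 * ss z.1 * (η' z.2 * ss z.2)) * Complex.exp (-(ss z.1 + ss z.2) * t) := by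
    intro t
    push_cast
    rw [hf, hg, neg_mul_neg, ← integral_prod_mul]
    refine integral_congr_ae (Filter.Eventually.of_forall (fun z => ?_))
    simp only
    have : Complex.exp (-(ss z.1 + ss z.2) * t) = Complex.exp (-(ss z.1) * t) * Complex.exp (-(ss z.2) * t) := by
      rw [← Complex.exp_add]; congr 1; ring
    rw [this]; ring
  simp_rw [h1]
  rw [integral_integral_swap]
  · refine integral_congr_ae (Filter.Eventually.of_forall (fun z => ?_))
    simp only
    rw [integral_const_mul]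
    rw [integral_exp_mul_complex_Ioi (by
      rw [Complex.neg_re, Complex.add_re, ss_re, ss_re]; norm_num)]
    have := ss_add_ne z.1 z.2
    simp only [Complex.ofReal_zero, mul_zero, Complex.exp_zero]
    field_simp
  · -- integrability
    have e1 : Integrable (fun t : ℝ => Real.exp (-(2 : ℝ) * t)) (volume.restrict (Set.Ioi 0)) := by
      exact exp_neg_integrableOn_Ioi 0 (by norm_num)
    have e2 : Integrable (fun z : ℝ × ℝ => (‖ss z.1‖ ^ 1 * ‖η z.1‖) * (‖ss z.2‖ ^ 1 * ‖η' z.2‖))
        (volume.prod volume) := hη.mul_prod hη'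
    have e3 := e1.mul_prod e2
    refine e3.mono' ?_ ?_
    · apply Continuous.aestronglyMeasurable
      fun_prop
    · refine Filter.Eventually.of_forall (fun x => ?_)
      simp only [Function.uncurry]
      rw [norm_mul, norm_mul, norm_mul, norm_mul, Complex.norm_exp]
      have : (-(ss x.2.1 + ss x.2.2) * (x.1 : ℂ)).re = -2 * x.1 := by
        rw [Complex.re_mul_ofReal, Complex.neg_re, Complex.add_re, ss_re, ss_re]; norm_num
      rw [this]
      apply le_of_eq; ring

end Pool.Agent.H378R2.M5
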