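import Mathlib
import Pool.Agent.H378R2.M5d

set_option autoImplicit false

open Finset Filter Topology

namespace Pool.Agent.H378R2.M5

/-- `(s-1)ζ(s)` -/
noncomputable def HH : ℂ → ℂ := Function.update (fun s => (s - 1) * riemannZeta s) 1 1

theorem HH_one : HH 1 = 1 := by simp [HH]

theorem HH_of_ne {s : ℂ} (hs : s ≠ 1) : HH s = (s - 1) * riemannZeta s := by
  simp [HH, Function.update_of_ne hs]

theorem continuous_HH : Continuous HH := by
  rw [continuous_iff_continuousAt]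
  intro s
  by_cases hs : s = 1
  · subst hs
    rw [HH, continuousAt_update_same]
    exact riemannZeta_residue_one
  · rw [HH, continuousAt_update_of_ne hs]
    exact ContinuousAt.mul (by fun_prop) (differentiableAt_riemannZeta hs).continuousAt

theorem HH_ne_zero {s : ℂ} (hs : 1 ≤ s.re) : HH s ≠ 0 := by
  by_cases h : s = 1
  · subst h; rw [HH_one]; exact one_ne_zero
  · rw [HH_of_ne h]
    exact mul_ne_zero (sub_ne_zero.mpr h) (riemannZeta_ne_zero_of_one_le_re hs)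

theorem HH_bounds : ∃ c C : ℝ, 0 < c ∧ 1 ≤ C ∧ ∀ s : ℂ, 1 ≤ s.re → ‖s - 1‖ ≤ 1 →
    c ≤ ‖HH s‖ ∧ ‖HH s‖ ≤ C := by
  have hK : IsCompact {s : ℂ | 1 ≤ s.re ∧ ‖s - 1‖ ≤ 1} := by
    have h1 : {s : ℂ | 1 ≤ s.re ∧ ‖s - 1‖ ≤ 1} = Metric.closedBall 1 1 ∩ {s : ℂ | 1 ≤ s.re} := by
      ext s; simp [dist_eq_norm, and_comm]
    rw [h1]
    exact (isCompact_closedBall _ _).inter_right
      (isClosed_le continuous_const Complex.continuous_re)
  have hne : {s : ℂ | 1 ≤ s.re ∧ ‖s - 1‖ ≤ 1}.Nonempty := ⟨1, by simp⟩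
  have hcont : ContinuousOn (fun s => ‖HH s‖) {s : ℂ | 1 ≤ s.re ∧ ‖s - 1‖ ≤ 1} :=
    continuous_HH.norm.continuousOn
  obtain ⟨s0, hs0, hmin⟩ := hK.exists_isMinOn hne hcont
  obtain ⟨s1, hs1, hmax⟩ := hK.exists_isMaxOn hne hcont
  refine ⟨‖HH s0‖, max 1 ‖HH s1‖, norm_pos_iff.mpr (HH_ne_zero hs0.1), le_max_left _ _, ?_⟩
  intro s h1 h2
  exact ⟨hmin ⟨h1, h2⟩, (hmax ⟨h1, h2⟩).trans (le_max_right _ _)⟩

theorem norm_cpow_neg {p : ℕ} (hp : p.Prime) (s : ℂ) : ‖(p : ℂ) ^ (-s)‖ = (p : ℝ) ^ (-s.re) := by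
  rw [Complex.norm_natCast_cpow_of_pos hp.pos, Complex.neg_re]

theorem rpow_lt_one_prime {p : ℕ} (hp : p.Prime) {σ : ℝ} (hσ : 0 < σ) : (p : ℝ) ^ (-σ) < 1 := by
  apply Real.rpow_lt_one_of_one_lt_of_neg
  · exact_mod_cast hp.one_lt
  · linarith

theorem zeta_norm_le {s : ℂ} (hs : 1 < s.re) :
    ‖riemannZeta s‖ ≤ ‖riemannZeta (s.re : ℂ)‖ ∧ ‖(riemannZeta s)⁻¹‖ ≤ ‖riemannZeta (s.re : ℂ)‖ := by
  have hs' : 1 < ((s.re : ℝ) : ℂ).re := by simpa using hs
  have h1 := (riemannZeta_eulerProduct hs).norm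
  have h2 := (riemannZeta_eulerProduct hs').norm
  have h3 := ((riemannZeta_eulerProduct hs).inv₀
    (riemannZeta_ne_zero_of_one_le_re hs.le)).norm
  have key : ∀ p : ℕ, p.Prime → ‖(1 - (p : ℂ) ^ (-s))⁻¹‖ ≤ ‖(1 - (p : ℂ) ^ (-(s.re : ℂ)))⁻¹‖ ∧
      ‖(1 - (p : ℂ) ^ (-s))‖ ≤ ‖(1 - (p : ℂ) ^ (-(s.re : ℂ)))⁻¹‖ := by
    intro p hp
    have e1 : (p : ℂ) ^ (-(s.re : ℂ)) = (((p : ℝ) ^ (-s.re) : ℝ) : ℂ) := by
      rw [Complex.ofReal_cpow (by positivity)]
      push_cast; rfl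
    set x := (p : ℝ) ^ (-s.re) with hx
    have hx1 : x < 1 := rpow_lt_one_prime hp (by linarith)
    have hx0 : 0 < x := Real.rpow_pos_of_pos (by exact_mod_cast hp.pos) _
    have e2 : ‖(1 - (p : ℂ) ^ (-(s.re : ℂ)))⁻¹‖ = (1 - x)⁻¹ := by
      rw [e1, norm_inv, ← Complex.ofReal_one, ← Complex.ofReal_sub, Complex.norm_real,
        Real.norm_of_nonneg (by linarith)]
    have e3 : ‖(p : ℂ) ^ (-s)‖ = x := norm_cpow_neg hp s
    rw [e2]
    constructor
    · rw [norm_inv]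
      apply inv_anti₀ (by linarith)
      have := norm_sub_norm_le (1 : ℂ) ((p : ℂ) ^ (-s))
      rw [norm_one, e3] at this
      exact this
    · have h4 : ‖(1 - (p : ℂ) ^ (-s))‖ ≤ 1 + x := by
        refine (norm_sub_le _ _).trans ?_
        rw [norm_one, e3]
      refine h4.trans ?_
      rw [← one_div, le_div_iff₀ (by linarith)]
      nlinarith
  constructor
  · apply le_of_tendsto_of_tendsto h1 h2
    refine Eventually.of_forall (fun n => ?_)
    simp only
    rw [norm_prod, norm_prod]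
    apply Finset.prod_le_prod (fun _ _ => norm_nonneg _)
    intro p hp
    exact (key p (Nat.prime_of_mem_primesBelow hp)).1
  · apply le_of_tendsto_of_tendsto h3 h2
    refine Eventually.of_forall (fun n => ?_)
    simp only
    rw [← Finset.prod_inv_distrib, norm_prod, norm_prod]
    apply Finset.prod_le_prod (fun _ _ => norm_nonneg _)
    intro p hp
    rw [inv_inv]
    exact (key p (Nat.prime_of_mem_primesBelow hp)).2

theorem zeta_bounds : ∃ C : ℝ, 1 ≤ C ∧ ∀ α : ℂ, 0 < α.re → α.re ≤ 1 →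
    ‖riemannZeta (1 + α)‖ ≤ C / α.re ∧ ‖(riemannZeta (1 + α))⁻¹‖ ≤ C * ‖α‖ ^ 2 / α.re := by
  obtain ⟨c, C, hc, hC, hb⟩ := HH_bounds
  refine ⟨max C (1 / c), hC.trans (le_max_left _ _), ?_⟩
  intro α h0 h1
  have hre : (1 + α).re = 1 + α.re := by simp
  have hs : 1 < (1 + α).re := by rw [hre]; linarith
  have hreal : ‖riemannZeta (((1 + α).re : ℝ) : ℂ)‖ ≤ C / α.re := by
    rw [hre]
    have h2 := (hb (((1 + α.re : ℝ)) : ℂ) (by simp; linarith) (by
      have : (((1 + α.re : ℝ)) : ℂ) - 1 = ((α.re : ℝ) : ℂ) := by push_cast; ring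
      rw [this, Complex.norm_real, Real.norm_of_nonneg h0.le]; exact h1)).2
    rw [HH_of_ne (by
      intro h
      have := congrArg Complex.re h
      simp at this
      linarith), norm_mul] at h2
    have : (((1 + α.re : ℝ)) : ℂ) - 1 = ((α.re : ℝ) : ℂ) := by push_cast; ring
    rw [this, Complex.norm_real, Real.norm_of_nonneg h0.le] at h2
    rw [le_div_iff₀ h0, mul_comm]; exact h2
  have hCm : C ≤ max C (1 / c) := le_max_left _ _
  have hcm : 1 / c ≤ max C (1 / c) := le_max_right _ _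
  have hmpos : 0 < max C (1 / c) := lt_of_lt_of_le (by linarith) hCm
  constructor
  · refine (zeta_norm_le hs).1.trans (hreal.trans ?_)
    exact div_le_div_of_nonneg_right hCm h0.le
  · have hαre : α.re ≤ ‖α‖ := (le_abs_self _).trans (Complex.abs_re_le_norm α)
    rcases le_total ‖α‖ 1 with h | h
    · have h2 := (hb (1 + α) hs.le (by simpa using h)).1
      have hne : (1 + α) ≠ 1 := by
        intro h'
        have := congrArg Complex.re h'
        simp at this
        linarith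
      rw [HH_of_ne hne, norm_mul] at h2
      have e1 : (1 + α) - 1 = α := by ring
      rw [e1] at h2
      have hz : 0 < ‖riemannZeta (1 + α)‖ :=
        norm_pos_iff.mpr (riemannZeta_ne_zero_of_one_le_re hs.le)
      have hα0 : 0 < ‖α‖ := h0.trans_le hαre
      set x := ‖α‖ with hx
      rw [norm_inv, inv_le_comm₀ hz (by positivity)]
      have h3 : (max C (1 / c) * x ^ 2 / α.re)⁻¹ ≤ c / x := by
        rw [inv_le_comm₀ (by positivity) (by positivity)]
        rw [inv_div]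
        calc x / c = (1 / c) * (x * α.re) / α.re := by field_simp
          _ ≤ max C (1 / c) * x ^ 2 / α.re := by
            apply div_le_div_of_nonneg_right _ h0.le
            apply mul_le_mul hcm _ (by positivity) hmpos.le
            rw [sq]; exact mul_le_mul_of_nonneg_left hαre hα0.le
      refine h3.trans ?_
      rw [div_le_iff₀ (by linarith), mul_comm]; exact h2
    · refine (zeta_norm_le hs).2.trans (hreal.trans ?_)
      apply div_le_div_of_nonneg_right _ h0.le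
      calc C ≤ max C (1 / c) := hCm
        _ ≤ max C (1 / c) * ‖α‖ ^ 2 := by
          apply le_mul_of_one_le_right hmpos.le
          exact one_le_pow₀ h

/-- the zeta factor -/
noncomputable def zf (L : ℝ) (v v' : ℝ) : ℂ :=
  (L : ℂ) * (riemannZeta (1 + (ss v / L + ss v' / L)) *
    (riemannZeta (1 + ss v / L))⁻¹ * (riemannZeta (1 + ss v' / L))⁻¹)

theorem ss_div_re (v : ℝ) (L : ℝ) : (ss v / L).re = 1 / L := by
  rw [Complex.div_ofReal_re, ss_re]

theorem zf_bound : ∃ C : ℝ, 1 ≤ C ∧ ∀ L : ℝ, 2 ≤ L → ∀ v v' : ℝ,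
    ‖zf L v v'‖ ≤ C * ‖ss v‖ ^ 2 * ‖ss v'‖ ^ 2 := by
  obtain ⟨C, hC, hb⟩ := zeta_bounds
  refine ⟨C ^ 3, one_le_pow₀ hC, ?_⟩
  intro L hL v v'
  have hL0 : 0 < L := by linarith
  have h1 := (hb (ss v / L + ss v' / L) (by rw [Complex.add_re, ss_div_re, ss_div_re]; positivity) (by
    rw [Complex.add_re, ss_div_re, ss_div_re, ← add_div, div_le_one hL0]; linarith)).1
  have h2 := (hb (ss v / L) (by rw [ss_div_re]; positivity) (by
    rw [ss_div_re, div_le_one hL0]; linarith)).2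
  have h3 := (hb (ss v' / L) (by rw [ss_div_re]; positivity) (by
    rw [ss_div_re, div_le_one hL0]; linarith)).2
  rw [Complex.add_re, ss_div_re, ss_div_re] at h1
  rw [ss_div_re, norm_div, Complex.norm_real, Real.norm_of_nonneg hL0.le] at h2 h3
  rw [zf, norm_mul, norm_mul, norm_mul, Complex.norm_real, Real.norm_of_nonneg hL0.le]
  have e1 : C / (1 / L + 1 / L) = C * L / 2 := by field_simp; norm_num
  have e2 : ∀ x : ℝ, C * (x / L) ^ 2 / (1 / L) = C * x ^ 2 / L := by intro x; field_simp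
  rw [e1] at h1
  rw [e2] at h2 h3
  calc L * (‖riemannZeta (1 + (ss v / L + ss v' / L))‖ * ‖(riemannZeta (1 + ss v / L))⁻¹‖ *
        ‖(riemannZeta (1 + ss v' / L))⁻¹‖) ≤ L * ((C * L / 2) * (C * ‖ss v‖ ^ 2 / L) *
        (C * ‖ss v'‖ ^ 2 / L)) := by
        apply mul_le_mul_of_nonneg_left _ hL0.le
        apply mul_le_mul _ h3 (norm_nonneg _) (by positivity)
        exact mul_le_mul h1 h2 (norm_nonneg _) (by positivity)
    _ = C ^ 3 * ‖ss v‖ ^ 2 * ‖ss v'‖ ^ 2 / 2 := by field_simp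
    _ ≤ C ^ 3 * ‖ss v‖ ^ 2 * ‖ss v'‖ ^ 2 := by
        apply half_le_self; positivity

theorem zf_eq (L : ℝ) (hL : 0 < L) (v v' : ℝ) :
    zf L v v' = (ss v * ss v' / (ss v + ss v')) *
      (HH (1 + (ss v / L + ss v' / L)) * (HH (1 + ss v / L))⁻¹ * (HH (1 + ss v' / L))⁻¹) := by
  have hLc : (L : ℂ) ≠ 0 := by exact_mod_cast hL.ne'
  have hs : ∀ u, ss u ≠ 0 := by
    intro u h
    have := congrArg Complex.re h
    rw [ss_re] at this
    norm_num at this
  have hne1 : ∀ u, (1 : ℂ) + ss u / L ≠ 1 := by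
    intro u h
    have : ss u / L = 0 := by linear_combination h
    rw [div_eq_zero_iff] at this
    rcases this with h' | h'
    · exact hs u h'
    · exact hLc h'
  have hadd := ss_add_ne v v'
  have hne2 : (1 : ℂ) + (ss v / L + ss v' / L) ≠ 1 := by
    intro h
    have : (ss v + ss v') / L = 0 := by rw [add_div]; linear_combination h
    rw [div_eq_zero_iff] at this
    rcases this with h' | h'
    · exact hadd h'
    · exact hLc h'
  rw [zf, HH_of_ne hne2, HH_of_ne (hne1 v), HH_of_ne (hne1 v')]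
  have e1 : (1 : ℂ) + (ss v / L + ss v' / L) - 1 = (ss v + ss v') / L := by ring
  have e2 : ∀ u, (1 : ℂ) + ss u / L - 1 = ss u / L := by intro u; ring
  rw [e1, e2, e2, mul_inv, mul_inv]
  have h1 := hs v
  have h2 := hs v'
  field_simp

theorem zf_tendsto (L : ℕ → ℝ) (hL : Tendsto L atTop atTop) (v v' : ℝ) :
    Tendsto (fun n => zf (L n) v v') atTop (𝓝 (ss v * ss v' / (ss v + ss v'))) := by
  have hinv : ∀ u : ℂ, Tendsto (fun n => u / (L n : ℂ)) atTop (𝓝 0) := by
    intro u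
    have h1 : Tendsto (fun n => ((L n)⁻¹ : ℝ)) atTop (𝓝 0) := tendsto_inv_atTop_zero.comp hL
    have h2 : Tendsto (fun n => u * (((L n)⁻¹ : ℝ) : ℂ)) atTop (𝓝 (u * ((0 : ℝ) : ℂ))) :=
      ((Complex.continuous_ofReal.tendsto 0).comp h1).const_mul u
    simpa [div_eq_mul_inv] using h2
  have hH : ∀ (a : ℕ → ℂ), Tendsto a atTop (𝓝 0) → Tendsto (fun n => HH (1 + a n)) atTop (𝓝 1) := by
    intro a ha
    have h1 : Tendsto (fun n => 1 + a n) atTop (𝓝 (1 + 0)) := tendsto_const_nhds.add ha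
    rw [add_zero] at h1
    have h2 := (continuous_HH.tendsto 1).comp h1
    rw [HH_one] at h2
    exact h2
  have h1 := hH _ (hinv (ss v))
  have h2 := hH _ (hinv (ss v'))
  have h3 := hH (fun n => ss v / L n + ss v' / L n) (by
    have := (hinv (ss v)).add (hinv (ss v'))
    simpa using this)
  have h4 := (h3.mul (h1.inv₀ one_ne_zero)).mul (h2.inv₀ one_ne_zero)
  have h5 := h4.const_mul (ss v * ss v' / (ss v + ss v'))
  simp only [inv_one, mul_one] at h5
  apply h5.congr'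
  filter_upwards [hL.eventually_gt_atTop 0] with n hn
  rw [zf_eq _ hn]

end Pool.Agent.H378R2.M5
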