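import Mathlib
import Pool.Agent.H378R2.M5f

set_option autoImplicit false

open Finset Filter Topology

namespace Pool.Agent.H378R2.M5

theorem norm_prod_second {ι : Type*} (t : Finset ι) (f : ι → ℂ) :
    ‖∏ i ∈ t, (1 + f i) - 1 - ∑ i ∈ t, f i‖ ≤ Real.exp (∑ i ∈ t, ‖f i‖) - 1 - ∑ i ∈ t, ‖f i‖ := by
  classical
  induction t using Finset.induction_on with
  | empty => simp
  | insert i t hi ih =>
    rw [Finset.prod_insert hi, Finset.sum_insert hi, Finset.sum_insert hi]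
    have h1 := Finset.norm_prod_one_add_sub_one_le t f
    have e : (1 + f i) * ∏ j ∈ t, (1 + f j) - 1 - (f i + ∑ j ∈ t, f j) =
        (∏ j ∈ t, (1 + f j) - 1 - ∑ j ∈ t, f j) + f i * (∏ j ∈ t, (1 + f j) - 1) := by ring
    rw [e]
    refine (norm_add_le _ _).trans ?_
    rw [norm_mul]
    set S := ∑ j ∈ t, ‖f j‖ with hS
    set β := ‖f i‖ with hβ
    have hβ0 : 0 ≤ β := norm_nonneg _
    have h2 : β * ‖∏ j ∈ t, (1 + f j) - 1‖ ≤ β * (Real.exp S - 1) := mul_le_mul_of_nonneg_left h1 hβ0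
    have h3 : Real.exp (β + S) = Real.exp β * Real.exp S := Real.exp_add _ _
    have h4 : β + 1 ≤ Real.exp β := Real.add_one_le_exp β
    have h5 : 0 < Real.exp S := Real.exp_pos _
    have h6 : β * Real.exp S ≤ (Real.exp β - 1) * Real.exp S :=
      mul_le_mul_of_nonneg_right (by linarith) h5.le
    rw [h3]
    linarith

/-- local factor of the multidimensional sum -/
noncomputable def kk {J : ℕ} (L : ℝ) (E : Fin J → Finset ℕ) (w : ℕ → Fin J → ℝ)
    (z : Fin J → ℝ × ℝ) (p : ℕ) : ℂ :=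
  1 + ∑ j, (((if p ∈ E j then 0 else w p j : ℝ)) : ℂ) *
    (-xp L (z j).1 p + -xp L (z j).2 p + -xp L (z j).1 p * -xp L (z j).2 p)

/-- local factor of the product of zeta quotients -/
noncomputable def UU {J : ℕ} (L : ℝ) (E : Fin J → Finset ℕ) (z : Fin J → ℝ × ℝ) (p : ℕ) : ℂ :=
  ∏ j, (if p ∈ E j then 1 else uu L (z j).1 (z j).2 p)

theorem uu_second {L : ℝ} (hL : 0 < L) (v v' : ℝ) {p : ℕ} (hp : p.Prime) :
    ‖(-xp L v p + -xp L v' p + -xp L v p * -xp L v' p) / p - (uu L v v' p - 1)‖ ≤ 8 / (p : ℝ) ^ 2 := by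
  have hp0 : (0 : ℝ) < p := by exact_mod_cast hp.pos
  have hpc : (p : ℂ) ≠ 0 := by exact_mod_cast hp.ne_zero
  have h3 := norm_one_sub_div_ge (norm_mul_xp_le hL v v' p) hp
  have h3' := one_sub_div_ne (norm_mul_xp_le hL v v' p) hp
  have h1 := norm_one_sub_xp_le_two hL v p
  have h2 := norm_one_sub_xp_le_two hL v' p
  have h4 := norm_mul_xp_le hL v v' p
  have e1 : (-xp L v p + -xp L v' p + -xp L v p * -xp L v' p) / p - (uu L v v' p - 1) =
      -((xp L v p * xp L v' p) * ((1 - xp L v p) * (1 - xp L v' p)) /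
        ((p : ℂ) ^ 2 * (1 - xp L v p * xp L v' p / p))) := by
    rw [uu]
    generalize xp L v p = x at *
    generalize xp L v' p = y at *
    have h3'' : (p : ℂ) - x * y ≠ 0 := by
      intro h; apply h3'
      have e : 1 - x * y / p = (p - x * y) / p := by field_simp
      rw [e, h, zero_div]
    field_simp
    ring
  rw [e1, norm_neg, norm_div, norm_mul, norm_mul (1 - xp L v p), norm_mul ((p : ℂ) ^ 2), norm_pow,
    Complex.norm_natCast]
  set A := ‖1 - xp L v p‖ with hA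
  set B := ‖1 - xp L v' p‖ with hB
  set C := ‖xp L v p * xp L v' p‖ with hC
  set D := ‖1 - xp L v p * xp L v' p / p‖ with hD
  have hA0 : 0 ≤ A := norm_nonneg _
  have hB0 : 0 ≤ B := norm_nonneg _
  have hC0 : 0 ≤ C := norm_nonneg _
  have hAB : A * B ≤ 4 := by
    calc A * B ≤ 2 * 2 := mul_le_mul h1 h2 hB0 (by norm_num)
      _ = 4 := by norm_num
  have hCAB : C * (A * B) ≤ 4 := by
    calc C * (A * B) ≤ 1 * 4 := mul_le_mul h4 hAB (by positivity) (by norm_num)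
      _ = 4 := by norm_num
  rw [div_le_div_iff₀ (by positivity) (by positivity)]
  have hp2 : 0 < (p : ℝ) ^ 2 := by positivity
  calc C * (A * B) * (p : ℝ) ^ 2 ≤ 4 * (p : ℝ) ^ 2 := mul_le_mul_of_nonneg_right hCAB hp2.le
    _ = 8 * ((p : ℝ) ^ 2 * (1 / 2)) := by ring
    _ ≤ 8 * ((p : ℝ) ^ 2 * D) := by
      apply mul_le_mul_of_nonneg_left _ (by norm_num)
      exact mul_le_mul_of_nonneg_left h3 hp2.le

/-- the constant -/
noncomputable def CJ (J : ℕ) : ℝ := 2 * (64 * J ^ 2 + 14 * J)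

theorem local_compare {J : ℕ} {L : ℝ} (hL : 0 < L) (E : Fin J → Finset ℕ) (w : ℕ → Fin J → ℝ)
    (z : Fin J → ℝ × ℝ) {p : ℕ} (hp : p.Prime) (hpJ : 32 * J ≤ p)
    (hw : ∀ j, p ∉ E j → |w p j - 1 / p| ≤ 2 / (p : ℝ) ^ 2) :
    UU L E z p ≠ 0 ∧ ‖kk L E w z p / UU L E z p - 1‖ ≤ CJ J * ((p : ℝ) ^ 2)⁻¹ := by
  have hp0 : (0 : ℝ) < p := by exact_mod_cast hp.pos
  have hp1 : (1 : ℝ) ≤ p := by exact_mod_cast hp.one_lt.le
  have hpJ' : 32 * (J : ℝ) ≤ p := by exact_mod_cast hpJ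
  have hU0 : UU L E z p ≠ 0 := by
    rw [UU, Finset.prod_ne_zero_iff]
    intro j _
    split_ifs
    · exact one_ne_zero
    · exact uu_ne_zero hL _ _ hp
  refine ⟨hU0, ?_⟩
  set b : Fin J → ℂ := fun j => if p ∈ E j then 0 else uu L (z j).1 (z j).2 p - 1 with hb
  have hUb : UU L E z p = ∏ j, (1 + b j) := by
    rw [UU]
    refine Finset.prod_congr rfl (fun j _ => ?_)
    simp only [hb]
    split_ifs
    · simp
    · ring
  have hbn : ∀ j, ‖b j‖ ≤ 8 / p := by
    intro j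
    simp only [hb]
    split_ifs
    · simp; positivity
    · refine (norm_uu_sub_one hL _ _ hp).trans ?_
      rw [div_eq_mul_inv]
      apply mul_le_mul_of_nonneg_left _ (by norm_num)
      apply inv_anti₀ hp0
      calc (p : ℝ) = (p : ℝ) ^ (1 : ℝ) := (Real.rpow_one _).symm
        _ ≤ (p : ℝ) ^ (1 + 1 / L) := by
          apply Real.rpow_le_rpow_of_exponent_le hp1
          have : 0 < 1 / L := by positivity
          linarith
  set S := ∑ j, ‖b j‖ with hS
  have hS0 : 0 ≤ S := Finset.sum_nonneg (fun _ _ => norm_nonneg _)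
  have hSle : S ≤ 8 * J / p := by
    refine (Finset.sum_le_card_nsmul _ _ _ (fun j _ => hbn j)).trans ?_
    simp
    apply le_of_eq; ring
  have hS4 : S ≤ 1 / 4 := by
    refine hSle.trans ?_
    rw [div_le_div_iff₀ hp0 (by norm_num)]
    linarith
  have h1 : ‖UU L E z p - 1 - ∑ j, b j‖ ≤ S ^ 2 := by
    rw [hUb]
    refine (norm_prod_second _ _).trans ?_
    have h2 := Real.norm_exp_sub_one_sub_id_le (x := S) (by
      rw [Real.norm_of_nonneg hS0]; linarith)
    rw [Real.norm_of_nonneg hS0] at h2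
    exact (le_abs_self _).trans h2
  have h2 : ‖UU L E z p - 1‖ ≤ 1 / 2 := by
    rw [hUb]
    refine (Finset.norm_prod_one_add_sub_one_le _ _).trans ?_
    have h3 := Real.norm_exp_sub_one_sub_id_le (x := S) (by
      rw [Real.norm_of_nonneg hS0]; linarith)
    rw [Real.norm_of_nonneg hS0] at h3
    have h4 := (le_abs_self _).trans h3
    rw [← hS]
    nlinarith
  have h3 : ‖kk L E w z p - 1 - ∑ j, b j‖ ≤ 14 * J / (p : ℝ) ^ 2 := by
    rw [kk, add_sub_cancel_left, ← Finset.sum_sub_distrib]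
    refine (norm_sum_le _ _).trans ?_
    have h4 : ∀ j ∈ (Finset.univ : Finset (Fin J)), ‖(((if p ∈ E j then 0 else w p j : ℝ)) : ℂ) *
        (-xp L (z j).1 p + -xp L (z j).2 p + -xp L (z j).1 p * -xp L (z j).2 p) - b j‖ ≤
        14 / (p : ℝ) ^ 2 := by
      intro j _
      simp only [hb]
      split_ifs with hpE
      · simp; positivity
      · set c : ℂ := (-xp L (z j).1 p + -xp L (z j).2 p + -xp L (z j).1 p * -xp L (z j).2 p) with hc
        have hcn : ‖c‖ ≤ 3 := by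
          have hx := norm_xp_le_one hL (z j).1 p
          have hy := norm_xp_le_one hL (z j).2 p
          have hxy : ‖-xp L (z j).1 p * -xp L (z j).2 p‖ ≤ 1 := by
            rw [norm_mul, norm_neg, norm_neg]
            exact mul_le_one₀ hx (norm_nonneg _) hy
          have hx' : ‖-xp L (z j).1 p‖ ≤ 1 := by rwa [norm_neg]
          have hy' : ‖-xp L (z j).2 p‖ ≤ 1 := by rwa [norm_neg]
          refine (norm_add_le _ _).trans ?_
          have := norm_add_le (-xp L (z j).1 p) (-xp L (z j).2 p)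
          linarith
        have e : ((w p j : ℝ) : ℂ) * c - (uu L (z j).1 (z j).2 p - 1) =
            (((w p j - 1 / p : ℝ)) : ℂ) * c + (c / p - (uu L (z j).1 (z j).2 p - 1)) := by
          push_cast; ring
        rw [e]
        refine (norm_add_le _ _).trans ?_
        have h5 := uu_second hL (z j).1 (z j).2 hp
        rw [norm_mul, Complex.norm_real, Real.norm_eq_abs]
        have h6 : |w p j - 1 / p| * ‖c‖ ≤ 2 / (p : ℝ) ^ 2 * 3 :=
          mul_le_mul (hw j hpE) hcn (norm_nonneg _) (by positivity)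
        calc |w p j - 1 / p| * ‖c‖ + ‖c / p - (uu L (z j).1 (z j).2 p - 1)‖ ≤
            2 / (p : ℝ) ^ 2 * 3 + 8 / (p : ℝ) ^ 2 := add_le_add h6 h5
          _ = 14 / (p : ℝ) ^ 2 := by ring
    refine (Finset.sum_le_card_nsmul _ _ _ h4).trans ?_
    simp
    apply le_of_eq; ring
  have h4 : ‖kk L E w z p - UU L E z p‖ ≤ (64 * J ^ 2 + 14 * J) * ((p : ℝ) ^ 2)⁻¹ := by
    have e : kk L E w z p - UU L E z p = (kk L E w z p - 1 - ∑ j, b j) - (UU L E z p - 1 - ∑ j, b j) := by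
      ring
    rw [e]
    refine (norm_sub_le _ _).trans ?_
    have h5 : S ^ 2 ≤ 64 * J ^ 2 / (p : ℝ) ^ 2 := by
      calc S ^ 2 ≤ (8 * J / p) ^ 2 := pow_le_pow_left₀ hS0 hSle 2
        _ = 64 * J ^ 2 / (p : ℝ) ^ 2 := by rw [div_pow]; ring
    calc ‖kk L E w z p - 1 - ∑ j, b j‖ + ‖UU L E z p - 1 - ∑ j, b j‖ ≤
        14 * J / (p : ℝ) ^ 2 + 64 * J ^ 2 / (p : ℝ) ^ 2 := add_le_add h3 (h1.trans h5)
      _ = (64 * J ^ 2 + 14 * J) * ((p : ℝ) ^ 2)⁻¹ := by ring
  have h5 : 1 / 2 ≤ ‖UU L E z p‖ := by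
    have := norm_sub_norm_le (1 : ℂ) (1 - UU L E z p)
    rw [norm_one, sub_sub_cancel, norm_sub_rev] at this
    linarith
  rw [div_sub_one hU0, norm_div, div_le_iff₀ (by linarith), CJ]
  refine h4.trans ?_
  have h6 : 0 ≤ (64 * (J : ℝ) ^ 2 + 14 * J) * ((p : ℝ) ^ 2)⁻¹ := by positivity
  calc (64 * (J : ℝ) ^ 2 + 14 * J) * ((p : ℝ) ^ 2)⁻¹ =
      2 * (64 * (J : ℝ) ^ 2 + 14 * J) * ((p : ℝ) ^ 2)⁻¹ * (1 / 2) := by ring
    _ ≤ _ := mul_le_mul_of_nonneg_left h5 (by positivity)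

theorem sum_inv_sq_le (N Y : ℕ) (hN : 1 ≤ N) :
    ∑ p ∈ (PY Y).filter (fun p => N < p), (((p : ℕ) : ℝ) ^ 2)⁻¹ ≤ 1 / N := by
  have hN0 : (0 : ℝ) < N := by exact_mod_cast hN
  rcases le_total N Y with h | h
  · have hsub : (PY Y).filter (fun p => N < p) ⊆ Finset.Ioc N Y := by
      intro p hp
      rw [Finset.mem_filter, PY, Finset.mem_filter, Finset.mem_Icc] at hp
      rw [Finset.mem_Ioc]
      exact ⟨hp.2, hp.1.1.2⟩
    refine (Finset.sum_le_sum_of_subset_of_nonneg hsub (fun _ _ _ => by positivity)).trans ?_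
    refine (sum_Ioc_inv_sq_le_sub (by omega) h).trans ?_
    rw [one_div]
    have : 0 ≤ ((Y : ℝ))⁻¹ := by positivity
    linarith
  · have : (PY Y).filter (fun p => N < p) = ∅ := by
      apply Finset.filter_false_of_mem
      intro p hp
      rw [PY, Finset.mem_filter, Finset.mem_Icc] at hp
      omega
    rw [this]; simp

theorem exists_rho {J : ℕ} {L : ℝ} (hL : 0 < L) (E : Fin J → Finset ℕ) (w : ℕ → Fin J → ℝ)
    (N Y : ℕ) (hN : 1 ≤ N) (hNJ : 32 * J ≤ N)
    (hE : ∀ j, ∀ p : ℕ, p.Prime → p ≤ N → p ∈ E j)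
    (hw : ∀ j, ∀ p : ℕ, p.Prime → p ∉ E j → |w p j - 1 / p| ≤ 2 / (p : ℝ) ^ 2)
    (z : Fin J → ℝ × ℝ) :
    ∃ ρ : ℂ, ‖ρ - 1‖ ≤ Real.exp (CJ J / N) - 1 ∧
      ∏ p ∈ PY Y, kk L E w z p = ρ * ∏ p ∈ PY Y, UU L E z p := by
  have hCJ : 0 ≤ CJ J := by rw [CJ]; positivity
  have hpr : ∀ p ∈ PY Y, p.Prime := fun p hp => (Finset.mem_filter.mp hp).2
  have hU0 : ∀ p ∈ PY Y, UU L E z p ≠ 0 := by
    intro p hp
    rw [UU, Finset.prod_ne_zero_iff]
    intro j _
    split_ifs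
    · exact one_ne_zero
    · exact uu_ne_zero hL _ _ (hpr p hp)
  refine ⟨∏ p ∈ PY Y, (1 + (kk L E w z p / UU L E z p - 1)), ?_, ?_⟩
  · refine (Finset.norm_prod_one_add_sub_one_le _ _).trans ?_
    apply sub_le_sub_right
    apply Real.exp_le_exp.mpr
    have h1 : ∑ p ∈ PY Y, ‖kk L E w z p / UU L E z p - 1‖ =
        ∑ p ∈ (PY Y).filter (fun p => N < p), ‖kk L E w z p / UU L E z p - 1‖ := by
      rw [Finset.sum_filter]
      refine Finset.sum_congr rfl (fun p hp => ?_)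
      split_ifs with h
      · rfl
      · have hpN : p ≤ N := not_lt.mp h
        have hk : kk L E w z p = 1 := by
          rw [kk]
          rw [Finset.sum_eq_zero]
          · simp
          · intro j _
            rw [if_pos (hE j p (hpr p hp) hpN)]; simp
        have hU : UU L E z p = 1 := by
          rw [UU]
          apply Finset.prod_eq_one
          intro j _
          rw [if_pos (hE j p (hpr p hp) hpN)]
        rw [hk, hU]; simp
    rw [h1]
    have h2 : ∀ p ∈ (PY Y).filter (fun p => N < p), ‖kk L E w z p / UU L E z p - 1‖ ≤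
        CJ J * (((p : ℕ) : ℝ) ^ 2)⁻¹ := by
      intro p hp
      rw [Finset.mem_filter] at hp
      exact (local_compare hL E w z (hpr p hp.1) (by omega) (fun j hj => hw j p (hpr p hp.1) hj)).2
    refine (Finset.sum_le_sum h2).trans ?_
    rw [← Finset.mul_sum, div_eq_mul_one_div]
    exact mul_le_mul_of_nonneg_left (sum_inv_sq_le N Y hN) hCJ
  · rw [← Finset.prod_mul_distrib]
    refine Finset.prod_congr rfl (fun p hp => ?_)
    have := hU0 p hp
    field_simp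
    ring

theorem assemble {J : ℕ} {L : ℝ} (hL : 0 < L) (E : Fin J → Finset ℕ) (Y : ℕ)
    (hE : ∀ j, E j ⊆ PY Y) (z : Fin J → ℝ × ℝ) :
    (∏ j, ((L : ℂ) * ∏ p ∈ E j, (1 - 1 / (p : ℂ)))) * ∏ p ∈ PY Y, UU L E z p =
      ∏ j, (TTT L (z j).1 (z j).2 (E j) * ((L : ℂ) * ∏ p ∈ PY Y, uu L (z j).1 (z j).2 p)) := by
  have h1 : ∏ p ∈ PY Y, UU L E z p =
      ∏ j, ∏ p ∈ PY Y \ E j, uu L (z j).1 (z j).2 p := by
    simp only [UU]
    rw [Finset.prod_comm]
    refine Finset.prod_congr rfl (fun j _ => ?_)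
    rw [← Finset.prod_sdiff (hE j)]
    have e1 : ∏ p ∈ E j, (if p ∈ E j then (1 : ℂ) else uu L (z j).1 (z j).2 p) = 1 := by
      apply Finset.prod_eq_one
      intro p hp; rw [if_pos hp]
    rw [e1, mul_one]
    refine Finset.prod_congr rfl (fun p hp => ?_)
    rw [if_neg (Finset.mem_sdiff.mp hp).2]
  rw [h1, ← Finset.prod_mul_distrib]
  refine Finset.prod_congr rfl (fun j _ => ?_)
  rw [← Finset.prod_sdiff (hE j), TTT]
  have h2 : ∏ p ∈ E j, (1 - 1 / (p : ℂ)) =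
      (∏ p ∈ E j, (1 + tt L (z j).1 (z j).2 p)) * ∏ p ∈ E j, uu L (z j).1 (z j).2 p := by
    rw [← Finset.prod_mul_distrib]
    refine Finset.prod_congr rfl (fun p hp => ?_)
    have hp' : p.Prime := (Finset.mem_filter.mp (hE j hp)).2
    rw [← one_add_tt hL _ _ hp', mul_assoc, inv_mul_cancel₀ (uu_ne_zero hL _ _ hp'), mul_one]
  rw [h2]; ring

end Pool.Agent.H378R2.M5
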