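import Mathlib
import Pool.Agent.H378R2.M5g

set_option autoImplicit false

open Finset Filter Topology MeasureTheory
open scoped ContDiff

namespace Pool.Agent.H378R2.M5

theorem continuous_xp (L : ℝ) (p : ℕ) : Continuous (fun v => xp L v p) := by
  unfold xp
  have := continuous_ss
  fun_prop

theorem prod_xp (L v : ℝ) (D : Finset ℕ) :
    ∏ p ∈ D, xp L v p = Complex.exp (-(ss v) * (((∑ p ∈ D, Real.log p) / L : ℝ) : ℂ)) := by
  simp only [xp]
  rw [← Complex.exp_sum]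
  congr 1
  rw [← Finset.mul_sum]
  congr 1
  push_cast
  rw [Finset.sum_div]

theorem prod_neg_xp (L v : ℝ) (D : Finset ℕ) :
    ∏ p ∈ D, (-xp L v p) = (-1) ^ D.card * ∏ p ∈ D, xp L v p := by
  rw [← Finset.prod_const, ← Finset.prod_mul_distrib]
  refine Finset.prod_congr rfl (fun p _ => ?_)
  ring

theorem norm_phi_le {L : ℝ} (hL : 0 < L) (w : ℕ → ℝ) (v v' : ℝ) (P : Finset ℕ × Finset ℕ) :
    ‖phi (fun p => -xp L v p) (fun p => -xp L v' p) (fun p => ((w p : ℝ) : ℂ)) P‖ ≤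
      ‖∏ p ∈ U P, ((w p : ℝ) : ℂ)‖ := by
  rw [phi, norm_mul, norm_mul]
  have h1 : ∀ (u : ℝ) (D : Finset ℕ), ‖∏ p ∈ D, (-xp L u p)‖ ≤ 1 := by
    intro u D
    rw [norm_prod]
    apply Finset.prod_le_one (fun _ _ => norm_nonneg _)
    intro p _
    rw [norm_neg]; exact norm_xp_le_one hL u p
  have h2 := mul_le_one₀ (h1 v P.1) (norm_nonneg _) (h1 v' P.2)
  exact mul_le_of_le_one_left (norm_nonneg _) h2

theorem val_eq {L : ℝ} (w : ℕ → ℝ) (F G : ℝ → ℝ) (η η' : ℝ → ℂ)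
    (hF : ∀ t : ℝ, (F t : ℂ) = ∫ v, η v * Complex.exp (-(ss v) * t))
    (hG : ∀ t : ℝ, (G t : ℂ) = ∫ v, η' v * Complex.exp (-(ss v) * t))
    (P : Finset ℕ × Finset ℕ) :
    ((val F G L w P : ℝ) : ℂ) = ∫ z : ℝ × ℝ, η z.1 * η' z.2 *
      phi (fun p => -xp L z.1 p) (fun p => -xp L z.2 p) (fun p => ((w p : ℝ) : ℂ)) P := by
  rw [val]
  push_cast
  have e1 : ((F ((∑ p ∈ P.1, Real.log p) / L) : ℝ) : ℂ) = ∫ v, η v * ∏ p ∈ P.1, xp L v p := by
    rw [hF]
    refine integral_congr_ae (Filter.Eventually.of_forall (fun v => ?_))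
    simp only
    rw [prod_xp]
  have e2 : ((G ((∑ p ∈ P.2, Real.log p) / L) : ℝ) : ℂ) = ∫ v, η' v * ∏ p ∈ P.2, xp L v p := by
    rw [hG]
    refine integral_congr_ae (Filter.Eventually.of_forall (fun v => ?_))
    simp only
    rw [prod_xp]
  rw [e1, e2]
  have e3 : ∀ z : ℝ × ℝ, η z.1 * η' z.2 *
      phi (fun p => -xp L z.1 p) (fun p => -xp L z.2 p) (fun p => ((w p : ℝ) : ℂ)) P =
      ((-1) ^ P.1.card * (-1) ^ P.2.card * ∏ p ∈ U P, ((w p : ℝ) : ℂ)) *
        ((η z.1 * ∏ p ∈ P.1, xp L z.1 p) * (η' z.2 * ∏ p ∈ P.2, xp L z.2 p)) := by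
    intro z
    rw [phi, prod_neg_xp, prod_neg_xp, U]
    ring
  simp_rw [e3]
  have e4 : ∫ a : ℝ × ℝ, (η a.1 * ∏ p ∈ P.1, xp L a.1 p) * (η' a.2 * ∏ p ∈ P.2, xp L a.2 p) =
      (∫ v, η v * ∏ p ∈ P.1, xp L v p) * ∫ v, η' v * ∏ p ∈ P.2, xp L v p :=
    integral_prod_mul (fun v => η v * ∏ p ∈ P.1, xp L v p) (fun v => η' v * ∏ p ∈ P.2, xp L v p)
  rw [integral_const_mul, e4]
  ring

theorem integrable_term {L : ℝ} (hL : 0 < L) (w : ℕ → ℝ) (η η' : ℝ → ℂ)
    (hηc : Continuous η) (hηc' : Continuous η') (hη : Integrable η) (hη' : Integrable η')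
    (P : Finset ℕ × Finset ℕ) :
    Integrable (fun z : ℝ × ℝ => η z.1 * η' z.2 *
      phi (fun p => -xp L z.1 p) (fun p => -xp L z.2 p) (fun p => ((w p : ℝ) : ℂ)) P) := by
  have h1 : Integrable (fun z : ℝ × ℝ => ‖η z.1‖ * ‖η' z.2‖) (volume.prod volume) :=
    hη.norm.mul_prod hη'.norm
  have h2 := h1.mul_const ‖∏ p ∈ U P, ((w p : ℝ) : ℂ)‖
  refine h2.mono' ?_ ?_
  · apply Continuous.aestronglyMeasurable
    unfold phi
    have hx := continuous_xp L
    have c1 : ∀ p, Continuous (fun z : ℝ × ℝ => xp L z.1 p) := fun p => (hx p).comp continuous_fst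
    have c2 : ∀ p, Continuous (fun z : ℝ × ℝ => xp L z.2 p) := fun p => (hx p).comp continuous_snd
    have c3 : Continuous (fun z : ℝ × ℝ => η z.1) := hηc.comp continuous_fst
    have c4 : Continuous (fun z : ℝ × ℝ => η' z.2) := hηc'.comp continuous_snd
    refine (c3.mul c4).mul (((continuous_finsetProd _ (fun p _ => (c1 p).neg)).mul
      (continuous_finsetProd _ (fun p _ => (c2 p).neg))).mul continuous_const)
  · refine Filter.Eventually.of_forall (fun z => ?_)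
    rw [norm_mul, norm_mul]
    exact mul_le_mul_of_nonneg_left (norm_phi_le hL w z.1 z.2 P) (by positivity)

open Classical in
theorem representation {J : ℕ} (F G : Fin J → ℝ → ℝ) {L : ℝ} (hL : 0 < L) (E : Fin J → Finset ℕ)
    (w : ℕ → Fin J → ℝ) (R Y : ℕ) (hRY : R ≤ Y)
    (hFc : ∀ j, Continuous (F j)) (hGc : ∀ j, Continuous (G j))
    (hFG : ∀ j x, Real.log R / L < x → F j x = 0 ∧ G j x = 0)
    (η η' : Fin J → ℝ → ℂ) (hηc : ∀ j, Continuous (η j)) (hηc' : ∀ j, Continuous (η' j))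
    (hη : ∀ j, Integrable (η j)) (hη' : ∀ j, Integrable (η' j))
    (hF : ∀ j, ∀ t : ℝ, (F j t : ℂ) = ∫ v, η j v * Complex.exp (-(ss v) * t))
    (hG : ∀ j, ∀ t : ℝ, (G j t : ℂ) = ∫ v, η' j v * Complex.exp (-(ss v) * t)) :
    ((sieveSum J F G L E w R : ℝ) : ℂ) = ∫ z : Fin J → ℝ × ℝ,
      (∏ j, (η j (z j).1 * η' j (z j).2)) * ∏ p ∈ PY Y, kk L E w z p := by
  rw [sieveSum_eq J F G L hL E w R Y hRY hFc hGc hFG]
  push_cast
  -- each term
  set W : Fin J → ℕ → ℝ := fun j p => if p ∈ E j then 0 else w p j with hW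
  have hterm : ∀ P : Fin J → Finset ℕ × Finset ℕ,
      ((if Pairwise (fun i j => Disjoint (U (P i)) (U (P j))) then
          ∏ j, val (F j) (G j) L (fun p => if p ∈ E j then 0 else w p j) (P j) else 0 : ℝ) : ℂ) =
      ∫ z : Fin J → ℝ × ℝ, (if Pairwise (fun i j => Disjoint (U (P i)) (U (P j))) then
        ∏ j, (η j (z j).1 * η' j (z j).2 * phi (fun p => -xp L (z j).1 p) (fun p => -xp L (z j).2 p)
          (fun p => ((W j p : ℝ) : ℂ)) (P j)) else 0) := by
    intro P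
    split_ifs with hpw
    · rw [integral_fintype_prod_volume_eq_prod (fun j (z : ℝ × ℝ) => (η j z.1 * η' j z.2 *
        phi (fun p => -xp L z.1 p) (fun p => -xp L z.2 p) (fun p => ((W j p : ℝ) : ℂ)) (P j)))]
      push_cast
      refine Finset.prod_congr rfl (fun j _ => ?_)
      rw [← val_eq (L := L) (W j) (F j) (G j) (η j) (η' j) (hF j) (hG j) (P j)]
    · simp
  have hint : ∀ P ∈ Fintype.piFinset (fun _ : Fin J => (PY Y).powerset ×ˢ (PY Y).powerset),
      Integrable (fun z : Fin J → ℝ × ℝ =>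
        (if Pairwise (fun i j => Disjoint (U (P i)) (U (P j))) then
        ∏ j, (η j (z j).1 * η' j (z j).2 * phi (fun p => -xp L (z j).1 p) (fun p => -xp L (z j).2 p)
          (fun p => ((W j p : ℝ) : ℂ)) (P j)) else 0)) := by
    intro P _
    split_ifs with hpw
    · exact Integrable.fintype_prod (fun j => integrable_term hL (W j) (η j) (η' j) (hηc j) (hηc' j)
        (hη j) (hη' j) (P j))
    · exact integrable_zero _ _ _
  have hsum : ∑ P ∈ Fintype.piFinset (fun _ : Fin J => (PY Y).powerset ×ˢ (PY Y).powerset),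
      ((if Pairwise (fun i j => Disjoint (U (P i)) (U (P j))) then
          ∏ j, val (F j) (G j) L (fun p => if p ∈ E j then 0 else w p j) (P j) else 0 : ℝ) : ℂ) =
      ∫ z : Fin J → ℝ × ℝ, ∑ P ∈ Fintype.piFinset (fun _ : Fin J => (PY Y).powerset ×ˢ (PY Y).powerset),
        (if Pairwise (fun i j => Disjoint (U (P i)) (U (P j))) then
        ∏ j, (η j (z j).1 * η' j (z j).2 * phi (fun p => -xp L (z j).1 p) (fun p => -xp L (z j).2 p)
          (fun p => ((W j p : ℝ) : ℂ)) (P j)) else 0) := by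
    rw [integral_finsetSum _ hint]
    exact Finset.sum_congr rfl (fun P _ => hterm P)
  push_cast at hsum
  rw [hsum]
  refine integral_congr_ae (Filter.Eventually.of_forall (fun z => ?_))
  simp only
  have heul := euler J (PY Y) (fun j p => -xp L (z j).1 p) (fun j p => -xp L (z j).2 p)
    (fun j p => ((W j p : ℝ) : ℂ))
  have hkk : ∏ p ∈ PY Y, kk L E w z p = ∏ p ∈ PY Y, (1 + ∑ j, ((W j p : ℝ) : ℂ) *
      (-xp L (z j).1 p + -xp L (z j).2 p + -xp L (z j).1 p * -xp L (z j).2 p)) := rfl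
  rw [hkk, ← heul, Finset.mul_sum]
  refine Finset.sum_congr rfl (fun P _ => ?_)
  split_ifs with hpw
  · rw [← Finset.prod_mul_distrib]
  · rw [mul_zero]

end Pool.Agent.H378R2.M5
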