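import Mathlib
import Pool.Agent.H378R2.M7n

open Finset Filter
open scoped ContDiff

namespace Pool.Agent.H378R2

open Pool.Agent.Erdos456.Mert (PP)

theorem fst_zero : fst 0 = 1 := hs_at_zero _

theorem Gp_le (X : ℝ) (j W R : ℕ) (L : ℝ) (E1 E2 : Finset ℕ) (zz : ℕ) (hzz : 0 < zz)
    (hj : ⌊(2 * Real.log X) ^ 3⌋₊ * ⌊(2 * Real.log X) ^ 3⌋₊ < j)
    (hjR : ⌊(2 * Real.log X) ^ 3⌋₊ * R < j) (hR : 1 ≤ R)
    (hW0 : 0 < W) (hW : ∀ q : ℕ, q.Prime → q ∣ W → q ≤ ⌊(2 * Real.log X) ^ 3⌋₊)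
    (hE1 : ∀ q : ℕ, q.Prime → q ∉ E1 → zz < q)
    (hE2 : ∀ q : ℕ, q.Prime → q ≤ ⌊(2 * Real.log X) ^ 3⌋₊ → q ∈ E2) :
    Gp X j ≤ (1 / (Nat.gcd j W : ℝ)) * (VVm E1 R L fst (j : ℤ)) ^ 2 + (1 / (zz : ℝ)) * (VVm E2 R L fst (j : ℤ)) ^ 2 := by
  classical
  set N2 := ⌊(2 * Real.log X) ^ 3⌋₊ with hN2
  have hrhs : 0 ≤ (1 / (Nat.gcd j W : ℝ)) * (VVm E1 R L fst (j : ℤ)) ^ 2 + (1 / (zz : ℝ)) * (VVm E2 R L fst (j : ℤ)) ^ 2 := by
    positivity
  unfold Gp
  rw [← hN2]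
  set T := (Icc 1 N2).filter (fun l => l ∣ j ∧ (j / l).Prime) with hT
  -- big primes
  have hbig : ∀ l ∈ T, N2 < j / l ∧ R < j / l := by
    intro l hl
    rw [hT, Finset.mem_filter, Finset.mem_Icc] at hl
    have h1 : j / l * l = j := Nat.div_mul_cancel hl.2.1
    constructor
    · by_contra h
      push Not at h
      have : j / l * l ≤ N2 * N2 := Nat.mul_le_mul h hl.1.2
      omega
    · by_contra h
      push Not at h
      have : j / l * l ≤ R * N2 := Nat.mul_le_mul h hl.1.2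
      rw [mul_comm R] at this
      omega
  have huniq : ∀ l1 ∈ T, ∀ l2 ∈ T, l1 = l2 := by
    intro l1 h1 l2 h2
    have b1 := hbig l1 h1
    have b2 := hbig l2 h2
    rw [hT, Finset.mem_filter, Finset.mem_Icc] at h1 h2
    have e1 : j / l1 * l1 = j := Nat.div_mul_cancel h1.2.1
    have e2 : j / l2 * l2 = j := Nat.div_mul_cancel h2.2.1
    have hd : j / l1 ∣ j / l2 * l2 := by rw [e2]; exact ⟨l1, e1.symm⟩
    rcases (Nat.Prime.dvd_mul h1.2.2).1 hd with h3 | h3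
    · have h4 : j / l1 = j / l2 := (Nat.prime_dvd_prime_iff_eq h1.2.2 h2.2.2).1 h3
      rw [h4] at e1
      have h5 : 0 < j / l2 := h2.2.2.pos
      exact Nat.eq_of_mul_eq_mul_left h5 (e1.trans e2.symm)
    · exfalso
      have := Nat.le_of_dvd (by omega) h3
      omega
  rcases T.eq_empty_or_nonempty with hemp | ⟨l, hl⟩
  · rw [hemp, Finset.sum_empty]
    exact hrhs
  have hTs : T = {l} := by
    rw [Finset.eq_singleton_iff_unique_mem]
    exact ⟨hl, fun x hx => huniq x hx l hl⟩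
  rw [hTs, Finset.sum_singleton]
  have hb := hbig l hl
  have hl' := hl
  rw [hT, Finset.mem_filter, Finset.mem_Icc] at hl'
  obtain ⟨⟨hl1, hlN⟩, hlj, hpr⟩ := hl'
  set p := j / l with hp
  have hjl : p * l = j := Nat.div_mul_cancel hlj
  have hlpos : (0 : ℝ) < l := by exact_mod_cast hl1
  -- the key evaluation
  have heval : ∀ E' : Finset ℕ, (∀ q : ℕ, q.Prime → q ∣ l → q ∈ E') → VVm E' R L fst (j : ℤ) = 1 := by
    intro E' hE'
    rw [← fst_zero]
    apply VV_eq_of_only_one E' R hR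
    intro d hd hdj
    rw [mem_adm] at hd
    by_contra hne
    obtain ⟨q, hq, hqd⟩ := Nat.exists_prime_and_dvd hne
    have hqj : q ∣ p * l := by
      rw [hjl]
      exact hqd.trans (Int.natCast_dvd_natCast.1 hdj)
    rcases (Nat.Prime.dvd_mul hq).1 hqj with h3 | h3
    · have h4 : q = p := (Nat.prime_dvd_prime_iff_eq hq hpr).1 h3
      have h5 : q ≤ d := Nat.le_of_dvd hd.1.1 hqd
      have := hd.1.2
      omega
    · exact hd.2.2 q (hE' q hq h3) hq hqd
  by_cases hall : ∀ q : ℕ, q.Prime → q ∣ l → q ∈ E1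
  · have hv := heval E1 hall
    have hg : Nat.gcd j W ∣ l := by
      have h1 : (Nat.gcd j W).Coprime p := by
        rw [Nat.coprime_comm, Nat.Prime.coprime_iff_not_dvd hpr]
        intro h2
        have h3 := hW p hpr (h2.trans (Nat.gcd_dvd_right j W))
        omega
      have h2 : Nat.gcd j W ∣ p * l := by rw [hjl]; exact Nat.gcd_dvd_left j W
      exact Nat.Coprime.dvd_of_dvd_mul_left h1 h2
    have hgpos : 0 < Nat.gcd j W := Nat.gcd_pos_of_pos_right _ hW0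
    have hgl : Nat.gcd j W ≤ l := Nat.le_of_dvd (by omega) hg
    have h3 : (1 : ℝ) / l ≤ 1 / (Nat.gcd j W : ℝ) := by
      apply one_div_le_one_div_of_le (by exact_mod_cast hgpos)
      exact_mod_cast hgl
    rw [hv]
    have h4 : 0 ≤ (1 / (zz : ℝ)) * (VVm E2 R L fst (j : ℤ)) ^ 2 := by positivity
    linarith
  · push Not at hall
    obtain ⟨q, hq, hql, hqE⟩ := hall
    have hzq := hE1 q hq hqE
    have hqle : q ≤ l := Nat.le_of_dvd (by omega) hql
    have hv := heval E2 (fun q' hq' hq'l => hE2 q' hq' ((Nat.le_of_dvd (by omega) hq'l).trans hlN))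
    have h3 : (1 : ℝ) / l ≤ 1 / (zz : ℝ) := by
      apply one_div_le_one_div_of_le (by exact_mod_cast hzz)
      exact_mod_cast (by omega : zz ≤ l)
    rw [hv]
    have h4 : 0 ≤ (1 / (Nat.gcd j W : ℝ)) * (VVm E1 R L fst (j : ℤ)) ^ 2 := by positivity
    linarith

theorem gcd_congr {n a W m s : ℕ} (h : n ≡ a [MOD W]) (h1 : s ≤ m * n) (h2 : s ≤ m * a) :
    Nat.gcd (m * n - s) W = Nat.gcd (m * a - s) W := by
  have h3 : m * n - s ≡ m * a - s [MOD W] := by
    have h4 : (m * n - s) + s ≡ (m * a - s) + s [MOD W] := by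
      rw [Nat.sub_add_cancel h1, Nat.sub_add_cancel h2]
      exact Nat.ModEq.mul_left m h
    exact Nat.ModEq.add_right_cancel' s h4
  exact Nat.ModEq.gcd_eq h3

end Pool.Agent.H378R2
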