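import Mathlib
import Pool.Agent.H378R2.M7o

open Finset Filter
open scoped ContDiff

namespace Pool.Agent.H378R2

open Pool.Agent.Erdos456.Mert (PP)

theorem ev_pow_exp (n : ℕ) (c C : ℝ) (hc : 0 < c) : ∀ᶠ t : ℝ in atTop, C * t ^ n ≤ Real.exp (c * t) := by
  have h1 : Tendsto (fun t : ℝ => c * t) atTop atTop := tendsto_id.const_mul_atTop hc
  have h2 := (Real.isLittleO_pow_exp_atTop (n := n)).def (by positivity : (0 : ℝ) < c ^ n / (|C| + 1))
  have h3 := h1.eventually h2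
  filter_upwards [h3, eventually_ge_atTop 0] with t ht ht0
  rw [Real.norm_of_nonneg (by positivity), Real.norm_of_nonneg (Real.exp_pos _).le, mul_pow] at ht
  have h4 : (|C| + 1) * t ^ n ≤ Real.exp (c * t) := by
    have h5 : 0 < c ^ n := by positivity
    have h6 : c ^ n * t ^ n * ((|C| + 1) / c ^ n) ≤ c ^ n / (|C| + 1) * Real.exp (c * t) * ((|C| + 1) / c ^ n) :=
      mul_le_mul_of_nonneg_right ht (by positivity)
    have h7 : c ^ n * t ^ n * ((|C| + 1) / c ^ n) = (|C| + 1) * t ^ n := by field_simp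
    have h8 : c ^ n / (|C| + 1) * Real.exp (c * t) * ((|C| + 1) / c ^ n) = Real.exp (c * t) := by field_simp
    rwa [h7, h8] at h6
  have h9 : C * t ^ n ≤ (|C| + 1) * t ^ n := by
    apply mul_le_mul_of_nonneg_right _ (by positivity)
    have := le_abs_self C
    linarith
  linarith

theorem ev3 (H : ℕ) (δ : ℝ) (hδ : 0 < δ) : ∀ᶠ X : ℝ in atTop,
    ((H : ℝ) + 1) + (2 * Real.log X + H + 1) / (Real.log (Real.log X)) ^ 3 ≤ δ * Real.log X / Real.log (Real.log X) := by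
  have hlog := Real.tendsto_log_atTop
  have hll : Tendsto (fun X : ℝ => Real.log (Real.log X)) atTop atTop := hlog.comp hlog
  have h1 : ∀ᶠ u : ℝ in atTop, ((H : ℝ) + 1) + (2 * Real.exp u + H + 1) / u ^ 3 ≤ δ * Real.exp u / u := by
    have h2 := ev_pow_exp 1 1 (4 * (H + 1) / δ) one_pos
    filter_upwards [h2, eventually_ge_atTop 1, eventually_ge_atTop (4 / δ)] with u hu1 hu2 hu3
    have hu0 : 0 < u := by linarith
    rw [one_mul, pow_one] at hu1
    have h3 : 4 * (H + 1) * u ≤ δ * Real.exp u := by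
      have : 4 * ((H : ℝ) + 1) / δ * u * δ ≤ Real.exp u * δ := mul_le_mul_of_nonneg_right hu1 hδ.le
      have h4 : 4 * ((H : ℝ) + 1) / δ * u * δ = 4 * (H + 1) * u := by field_simp
      rw [h4] at this
      linarith
    have h4 : 4 ≤ δ * u := by
      rw [div_le_iff₀ hδ] at hu3
      linarith
    have hexp : 0 < Real.exp u := Real.exp_pos u
    have hu4 : 1 ≤ u ^ 3 := one_le_pow₀ hu2
    have hH : (0 : ℝ) ≤ (H : ℝ) + 1 := by positivity
    have a1 : (2 * Real.exp u) / u ^ 3 ≤ (1 / 2) * (δ * Real.exp u / u) := by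
      rw [← mul_div_assoc, div_le_div_iff₀ (by positivity) hu0]
      have : 4 ≤ δ * u * u := by nlinarith
      nlinarith [mul_pos hexp hu0]
    have a2 : ((H : ℝ) + 1) / u ^ 3 ≤ H + 1 := by
      rw [div_le_iff₀ (by positivity)]
      nlinarith
    have a3 : 2 * ((H : ℝ) + 1) ≤ (1 / 2) * (δ * Real.exp u / u) := by
      rw [← mul_div_assoc, le_div_iff₀ hu0]
      linarith
    have a4 : (2 * Real.exp u + H + 1) / u ^ 3 = (2 * Real.exp u) / u ^ 3 + ((H : ℝ) + 1) / u ^ 3 := by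
      rw [← add_div]; ring
    rw [a4]
    linarith
  have h2 := hll.eventually h1
  filter_upwards [h2, eventually_gt_atTop 1] with X hX hX1
  have h3 : Real.exp (Real.log (Real.log X)) = Real.log X := Real.exp_log (Real.log_pos hX1)
  rw [h3] at hX
  exact hX

theorem ev4 (H : ℕ) : ∀ᶠ X : ℝ in atTop,
    (⌊(2 * Real.log X) ^ 3⌋₊ : ℝ) * ⌊(2 * Real.log X) ^ 3⌋₊ + 2 * Real.log X < X ∧
    (⌊(2 * Real.log X) ^ 3⌋₊ : ℝ) * RR X + 2 * Real.log X < X ∧
    2 * Real.log X + 3 * H + 2 ≤ (⌊(2 * Real.log X) ^ 3⌋₊ : ℝ) ∧ 1 ≤ RR X ∧ (4 * RR X : ℝ) < X := by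
  have hlog := Real.tendsto_log_atTop
  have h1 := hlog.eventually (ev_pow_exp 3 (1 / 4) 8 (by norm_num))
  have h2 := hlog.eventually (ev_pow_exp 1 (1 / 4) 2 (by norm_num))
  filter_upwards [h1, h2, hlog.eventually_ge_atTop (40 : ℝ), hlog.eventually_ge_atTop (3 * H + 3 : ℝ),
    eventually_gt_atTop 1] with X e1 e2 e3 e4 e5
  set t := Real.log X with ht
  have hX : Real.exp t = X := Real.exp_log (by linarith)
  have hN : (⌊(2 * t) ^ 3⌋₊ : ℝ) ≤ (2 * t) ^ 3 := Nat.floor_le (by positivity)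
  have hN2 : (⌊(2 * t) ^ 3⌋₊ : ℝ) ≤ Real.exp (1 / 4 * t) := by
    refine hN.trans ?_
    have : (2 * t) ^ 3 = 8 * t ^ 3 := by ring
    rw [this]; exact e1
  have hR : (RR X : ℝ) ≤ Real.exp (1 / 4 * t) := by
    unfold RR
    refine (Nat.floor_le (Real.exp_pos _).le).trans ?_
    apply Real.exp_le_exp.2
    unfold LL
    rw [← ht]
    linarith
  have hq : Real.exp t = Real.exp (1 / 4 * t) ^ 4 := by
    rw [← Real.exp_nat_mul]; congr 1; push_cast; ring
  have hbig : 10 ≤ Real.exp (1 / 4 * t) := by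
    have := Real.add_one_le_exp (1 / 4 * t)
    linarith
  set q := Real.exp (1 / 4 * t) with hqdef
  have hNn : (0 : ℝ) ≤ (⌊(2 * t) ^ 3⌋₊ : ℝ) := Nat.cast_nonneg _
  have hRn : (0 : ℝ) ≤ (RR X : ℝ) := Nat.cast_nonneg _
  rw [pow_one] at e2
  have hfin : q * q + q < q ^ 4 := by
    have : q ^ 4 = q * q * (q * q) := by ring
    rw [this]
    have h100 : 100 ≤ q * q := by nlinarith
    nlinarith
  have hXq : X = q ^ 4 := by rw [← hX, hq]
  refine ⟨?_, ?_, ?_, ?_, ?_⟩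
  · have : (⌊(2 * t) ^ 3⌋₊ : ℝ) * ⌊(2 * t) ^ 3⌋₊ ≤ q * q := mul_le_mul hN2 hN2 hNn (by linarith)
    linarith
  · have : (⌊(2 * t) ^ 3⌋₊ : ℝ) * RR X ≤ q * q := mul_le_mul hN2 hR hRn (by linarith)
    linarith
  · have h6 : (2 * t) ^ 3 - 1 < (⌊(2 * t) ^ 3⌋₊ : ℝ) := by
      have := Nat.lt_floor_add_one ((2 * t) ^ 3)
      linarith
    have h7 : 4 * t ≤ (2 * t) ^ 3 - 1 := by nlinarith [mul_pos (by linarith : (0:ℝ) < t) (by linarith : (0:ℝ) < t)]
    linarith
  · unfold RR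
    apply Nat.le_floor
    rw [Nat.cast_one]
    apply Real.one_le_exp
    unfold LL
    rw [← ht]
    linarith
  · have : 4 * q < q ^ 4 := by
      have h8 : q ^ 4 = q * (q * (q * q)) := by ring
      rw [h8]
      have h100 : 100 ≤ q * q := by nlinarith
      nlinarith
    linarith

/-- the positions of the window -/
noncomputable def Vpos {K : ℕ} (X : ℝ) (m H : ℕ) (t : Fin K → ℕ) : Finset ℕ := by
  classical
  exact (range (⌊2 * Real.log X⌋₊ + H + 1)).filter (fun v => ∀ j, v ≠ ⌊2 * Real.log X⌋₊ + m * t j)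

theorem mem_Vpos {K : ℕ} {X : ℝ} {m H : ℕ} {t : Fin K → ℕ} {v : ℕ} :
    v ∈ Vpos X m H t ↔ v < ⌊2 * Real.log X⌋₊ + H + 1 ∧ ∀ j, v ≠ ⌊2 * Real.log X⌋₊ + m * t j := by
  unfold Vpos
  rw [Finset.mem_filter, Finset.mem_range]

theorem Vpos_card {K : ℕ} (X : ℝ) (m H : ℕ) (t : Fin K → ℕ) :
    (Vpos X m H t).card ≤ ⌊2 * Real.log X⌋₊ + H + 1 := by
  unfold Vpos
  refine (Finset.card_filter_le _ _).trans ?_
  rw [Finset.card_range]

end Pool.Agent.H378R2
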