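import Mathlib
import Pool.Agent.H378R2.M7q

open Finset Filter
open scoped ContDiff

namespace Pool.Agent.H378R2

theorem Phi_mid {u : ℝ} (h1 : 11 / 10 ≤ u) (h2 : u ≤ 5 / 2) : 1 / 20 ≤ Phi u := by
  have hl1 : 1 / 20 ≤ Real.log u := by
    have h3 := Real.one_sub_inv_le_log_of_pos (by linarith : 0 < u)
    have h4 : u⁻¹ ≤ 10 / 11 := (inv_anti₀ (by norm_num) h1).trans (by norm_num)
    linarith
  have hl2 : Real.log u ≤ 19 / 20 := by
    have h3 := Real.log_le_log (by linarith) h2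
    have h4 : Real.log (5 / 2) = Real.log 2 + Real.log (5 / 4) := by
      rw [← Real.log_mul (by norm_num) (by norm_num)]; norm_num
    have h5 : Real.log (5 / 4) ≤ 1 / 4 := by
      have := Real.log_le_sub_one_of_pos (by norm_num : (0 : ℝ) < 5 / 4)
      linarith
    have := Real.log_two_lt_d9
    linarith
  unfold Phi
  apply le_max_of_le_right
  have : |Real.log u - 1 / 2| ≤ 9 / 20 := by
    rw [abs_le]; constructor <;> linarith
  linarith

theorem LPhi_ge : ∀ᶠ X : ℝ in atTop, X / 200 ≤ LPhi X := by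
  have h1 : ∀ᶠ X : ℝ in atTop, Real.log (5 / 2 * X + 2) + 2 * Real.sqrt (11 / 10 * X) * Real.log (11 / 10 * X) + 1 ≤ X / 20 := by
    have e1 : (fun X : ℝ => Real.log X) =o[atTop] (fun X : ℝ => X ^ (1 / 4 : ℝ)) := isLittleO_log_rpow_atTop (by norm_num)
    filter_upwards [e1.def (by norm_num : (0 : ℝ) < 1), eventually_ge_atTop (10 ^ 12 : ℝ)] with X h2 h3
    rw [one_mul, Real.norm_of_nonneg (Real.log_nonneg (by linarith)), Real.norm_of_nonneg (Real.rpow_nonneg (by linarith) _)] at h2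
    set q := X ^ (1 / 4 : ℝ) with hq
    have hq4 : q ^ 4 = X := by
      rw [hq, ← Real.rpow_natCast, ← Real.rpow_mul (by linarith)]; norm_num
    have hqn : 0 ≤ q := Real.rpow_nonneg (by linarith) _
    have hq2 : Real.sqrt X = q ^ 2 := by
      rw [Real.sqrt_eq_iff_mul_self_eq (by linarith) (by positivity)]
      rw [← hq4]; ring
    have hq1000 : 1000 ≤ q := by
      by_contra h
      push Not at h
      have : q ^ 4 < 1000 ^ 4 := pow_lt_pow_left₀ h hqn (by norm_num)
      rw [hq4] at this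
      linarith
    have e2 : Real.log (5 / 2 * X + 2) ≤ 2 + q := by
      have : 5 / 2 * X + 2 ≤ 3 * X := by linarith
      have h4 := Real.log_le_log (by linarith) this
      rw [Real.log_mul (by norm_num) (by linarith)] at h4
      have : Real.log 3 ≤ 2 := by
        have := Real.log_le_sub_one_of_pos (by norm_num : (0 : ℝ) < 3)
        linarith
      linarith
    have e3 : Real.sqrt (11 / 10 * X) ≤ 2 * q ^ 2 := by
      rw [← hq2]
      rw [Real.sqrt_le_left (by positivity), mul_pow, Real.sq_sqrt (by linarith)]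
      linarith
    have e4 : Real.log (11 / 10 * X) ≤ 1 + q := by
      rw [Real.log_mul (by norm_num) (by linarith)]
      have := Real.log_le_sub_one_of_pos (by norm_num : (0 : ℝ) < 11 / 10)
      linarith
    have e5 : 0 ≤ Real.log (11 / 10 * X) := Real.log_nonneg (by linarith)
    have e6 : 2 * Real.sqrt (11 / 10 * X) * Real.log (11 / 10 * X) ≤ 2 * (2 * q ^ 2) * (1 + q) := by
      gcongr
    have e7 : 2 + q + 2 * (2 * q ^ 2) * (1 + q) + 1 ≤ q ^ 4 / 20 := by
      have : q ^ 4 = q * (q * (q * q)) := by ring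
      have hqq : 1000 * (q * q) ≤ q * (q * q) := by nlinarith [mul_nonneg hqn hqn]
      nlinarith [mul_nonneg hqn hqn, mul_nonneg hqn (mul_nonneg hqn hqn)]
    rw [← hq4]
    rw [← hq4] at e2 e6
    linarith
  filter_upwards [h1, eventually_ge_atTop 10] with X h2 h3
  have h4 := Chebyshev.psi_ge' (x := 5 / 2 * X) (by linarith)
  have h5 := Chebyshev.psi_le (x := 11 / 10 * X) (by linarith)
  have hl4 : Real.log 4 = 2 * Real.log 2 := by
    rw [show (4 : ℝ) = 2 ^ 2 by norm_num, Real.log_pow]; norm_num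
  have hdiff : X / 10 ≤ Chebyshev.psi (5 / 2 * X) - Chebyshev.psi (11 / 10 * X) := by
    have := Real.log_two_gt_d9
    have := Real.log_two_lt_d9
    rw [hl4] at h5
    nlinarith
  have hsum : Chebyshev.psi (5 / 2 * X) - Chebyshev.psi (11 / 10 * X) =
      ∑ n ∈ Ioc ⌊11 / 10 * X⌋₊ ⌊5 / 2 * X⌋₊, ArithmeticFunction.vonMangoldt n := by
    unfold Chebyshev.psi
    rw [sub_eq_iff_eq_add, add_comm]
    have hd : Ioc 0 ⌊5 / 2 * X⌋₊ = Ioc 0 ⌊11 / 10 * X⌋₊ ∪ Ioc ⌊11 / 10 * X⌋₊ ⌊5 / 2 * X⌋₊ := by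
      rw [Finset.Ioc_union_Ioc_eq_Ioc (Nat.zero_le _) (Nat.floor_le_floor (by linarith))]
    rw [hd, Finset.sum_union]
    rw [Finset.disjoint_left]
    intro n
    simp only [Finset.mem_Ioc]
    omega
  unfold LPhi
  have h6 : ∑ n ∈ Ioc ⌊11 / 10 * X⌋₊ ⌊5 / 2 * X⌋₊, Phi (n / X) * ArithmeticFunction.vonMangoldt n ≤
      ∑ n ∈ Icc 1 ⌊3 * X⌋₊, Phi (n / X) * ArithmeticFunction.vonMangoldt n := by
    apply Finset.sum_le_sum_of_subset_of_nonneg
    · intro n hn
      rw [Finset.mem_Ioc] at hn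
      rw [Finset.mem_Icc]
      refine ⟨by omega, hn.2.trans (Nat.floor_le_floor (by linarith))⟩
    · intro n _ _
      exact mul_nonneg (Phi_nonneg _) ArithmeticFunction.vonMangoldt_nonneg
  refine le_trans ?_ h6
  have h7 : ∀ n ∈ Ioc ⌊11 / 10 * X⌋₊ ⌊5 / 2 * X⌋₊, (1 / 20) * ArithmeticFunction.vonMangoldt n ≤
      Phi (n / X) * ArithmeticFunction.vonMangoldt n := by
    intro n hn
    rw [Finset.mem_Ioc] at hn
    apply mul_le_mul_of_nonneg_right _ ArithmeticFunction.vonMangoldt_nonneg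
    apply Phi_mid
    · rw [le_div_iff₀ (by linarith)]
      exact (Nat.lt_of_floor_lt hn.1).le
    · rw [div_le_iff₀ (by linarith)]
      exact (Nat.cast_le.2 hn.2).trans (Nat.floor_le (by linarith))
  refine le_trans ?_ (Finset.sum_le_sum h7)
  rw [← Finset.mul_sum, ← hsum]
  linarith

end Pool.Agent.H378R2
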