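import Mathlib

/-! Real-number bookkeeping for the main theorem. -/

namespace Pool.Agent.H378R2

theorem combine_real (Mm M2 IIv ε1 K r l4 L JJs c0 δ g eps S1v S2v Tv Bv cA BVE e2 e3 E2 kk P0 lX sX T0 : ℝ)
    (hMm : 0 < Mm) (hII : 0 < IIv) (hε1 : 0 < ε1) (hK : 0 < K) (hr : 0 ≤ r) (hl4 : 1 ≤ l4) (hl4L : l4 ≤ 400 * L)
    (hL : 0 < L) (hc0 : 0 < c0) (hg : 0 < g) (heps : 0 < eps)
    (hε1le : (K + r) * ε1 ≤ IIv) (hε1le2 : ε1 ≤ IIv)
    (hδ : δ = eps * c0 / (400 * K * (2 * g + 1)))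
    (hJ : 1600000 * (r + 3) * IIv ≤ JJs)
    (hM2 : Mm * (L / 800) ≤ M2)
    (hBVE : 0 ≤ BVE) (hE2 : 0 ≤ E2)
    (H1 : S1v ≤ Mm * (IIv + ε1) + cA ^ 2 * (5 * e2))
    (H2 : M2 * (JJs - K * ε1) - K * (cA ^ 2 * (BVE + E2)) ≤ S2v)
    (H3 : Tv ≤ Mm * ((200 / c0) * (IIv * (2 * g) + ε1) * (2 * δ)) + 2 * kk * (cA ^ 2 * (5 * e3)))
    (H4 : Bv ≤ lX * (cA ^ 2 * e2))
    (hB1 : K * cA ^ 2 * E2 + r * (cA ^ 2 * (5 * e2)) + K / eps * (2 * kk * (cA ^ 2 * (5 * e3))) +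
      K * (lX * (cA ^ 2 * e2)) ≤ P0 * (IIv / 80))
    (hB2 : K * cA ^ 2 * BVE ≤ P0 * (IIv / 80))
    (hP0 : P0 / 20 ≤ Mm) :
    0 < S2v / l4 - r * S1v - K / eps * Tv - K * Bv := by
  have hKε1 : 0 ≤ K * ε1 := by positivity
  have hrε1 : 0 ≤ r * ε1 := by positivity
  have hrI : 0 ≤ r * IIv := by positivity
  have hJge : 1600000 * (r + 3) * IIv - K * ε1 ≤ JJs - K * ε1 := by linarith
  have hJnn : 0 ≤ 1600000 * (r + 3) * IIv - K * ε1 := by linarith
  have g1 : Mm * (1 / 320000) * (1600000 * (r + 3) * IIv - K * ε1) - K * cA ^ 2 * (BVE + E2) ≤ S2v / l4 := by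
    rw [le_div_iff₀ (by linarith)]
    refine le_trans ?_ H2
    have h1 : Mm * (1 / 320000) * (1600000 * (r + 3) * IIv - K * ε1) * l4 ≤ M2 * (JJs - K * ε1) := by
      calc Mm * (1 / 320000) * (1600000 * (r + 3) * IIv - K * ε1) * l4
          ≤ Mm * (1 / 320000) * (1600000 * (r + 3) * IIv - K * ε1) * (400 * L) :=
            mul_le_mul_of_nonneg_left hl4L (by positivity)
        _ = (Mm * (L / 800)) * (1600000 * (r + 3) * IIv - K * ε1) := by ring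
        _ ≤ M2 * (JJs - K * ε1) := by
            apply mul_le_mul hM2 hJge hJnn
            exact le_trans (by positivity) hM2
    have h2 : K * (cA ^ 2 * (BVE + E2)) ≤ K * cA ^ 2 * (BVE + E2) * l4 := by
      have h3 : 0 ≤ K * cA ^ 2 * (BVE + E2) := by positivity
      have h4 : K * cA ^ 2 * (BVE + E2) * 1 ≤ K * cA ^ 2 * (BVE + E2) * l4 := mul_le_mul_of_nonneg_left hl4 h3
      linarith
    rw [sub_mul]
    linarith
  have g2 : r * S1v ≤ Mm * (r * (IIv + ε1)) + r * (cA ^ 2 * (5 * e2)) := by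
    have := mul_le_mul_of_nonneg_left H1 hr
    linarith
  have g3 : K / eps * Tv ≤ Mm * IIv + K / eps * (2 * kk * (cA ^ 2 * (5 * e3))) := by
    have h1 : 0 ≤ K / eps := by positivity
    have h2 := mul_le_mul_of_nonneg_left H3 h1
    refine h2.trans ?_
    rw [mul_add]
    apply add_le_add_left
    have h3 : IIv * (2 * g) + ε1 ≤ IIv * (2 * g + 1) := by linarith
    have hδnn : 0 ≤ δ := by rw [hδ]; positivity
    calc K / eps * (Mm * ((200 / c0) * (IIv * (2 * g) + ε1) * (2 * δ)))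
        ≤ K / eps * (Mm * ((200 / c0) * (IIv * (2 * g + 1)) * (2 * δ))) := by gcongr
      _ = Mm * IIv := by
          rw [hδ]
          have : 2 * g + 1 ≠ 0 := by positivity
          field_simp
          ring
  have g4 : K * Bv ≤ K * (lX * (cA ^ 2 * e2)) := mul_le_mul_of_nonneg_left H4 hK.le
  have herr : K * cA ^ 2 * (BVE + E2) + r * (cA ^ 2 * (5 * e2)) +
      K / eps * (2 * kk * (cA ^ 2 * (5 * e3))) + K * (lX * (cA ^ 2 * e2)) ≤ Mm * (IIv / 2) := by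
    have h1 : P0 * (IIv / 80) + P0 * (IIv / 80) ≤ Mm * (IIv / 2) := by
      have : P0 / 20 * (IIv / 2) ≤ Mm * (IIv / 2) := mul_le_mul_of_nonneg_right hP0 (by positivity)
      linarith
    rw [mul_add]
    linarith
  have hmain : Mm * (IIv / 2) < Mm * (1 / 320000) * (1600000 * (r + 3) * IIv - K * ε1) -
      Mm * (r * (IIv + ε1)) - Mm * IIv := by
    have h1 : Mm * (1 / 320000) * (1600000 * (r + 3) * IIv - K * ε1) - Mm * (r * (IIv + ε1)) - Mm * IIv =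
        Mm * (5 * (r * IIv) + 15 * IIv - K * ε1 / 320000 - r * IIv - r * ε1 - IIv) := by ring
    rw [h1]
    apply mul_lt_mul_of_pos_left _ hMm
    linarith
  linarith

theorem M2_real (MP LP W BEE BEP L : ℝ) (K0 : ℕ) (hMP : 0 ≤ MP) (hW : 0 < W) (hBEE : 0 < BEE) (hBEP : 0 < BEP)
    (hL : 0 < L) (h1 : BEP / 2 ≤ BEE) (h3 : MP / 400 ≤ LP) :
    (MP * (1 / W)) * (1 / (L * BEE) ^ (K0 + 1)) * (L / 800) ≤ (LP * (1 / (W * BEP))) * (1 / (L * BEE) ^ K0) := by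
  have h4 : 1 / (2 * BEE) ≤ 1 / BEP := by
    apply one_div_le_one_div_of_le hBEP
    linarith
  have hLP : 0 ≤ LP := le_trans (by positivity) h3
  have hLPW : 0 ≤ LP * (1 / W) := by positivity
  calc MP * (1 / W) * (1 / (L * BEE) ^ (K0 + 1)) * (L / 800)
      = (MP / 400 * (1 / W)) * (1 / (2 * BEE)) * (1 / (L * BEE) ^ K0) := by
        rw [pow_succ]
        field_simp
        ring
    _ ≤ (LP * (1 / W)) * (1 / BEP) * (1 / (L * BEE) ^ K0) := by
        gcongr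
    _ = LP * (1 / (W * BEP)) * (1 / (L * BEE) ^ K0) := by
        field_simp

theorem Mm_real (X MP W BEE L lX : ℝ) (K : ℕ) (hX : 0 < X) (hW : 0 < W) (hBEE : 0 < BEE) (hBE1 : BEE ≤ 1)
    (hL : 0 < L) (hLl : L ≤ lX) (h3 : X / 20 ≤ MP) :
    X / (W * lX ^ K) / 20 ≤ (MP * (1 / W)) * (1 / (L * BEE) ^ K) := by
  have hlX : 0 < lX := by linarith
  have h1 : (L * BEE) ^ K ≤ lX ^ K := by
    apply pow_le_pow_left₀ (by positivity)
    calc L * BEE ≤ L * 1 := mul_le_mul_of_nonneg_left hBE1 hL.le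
      _ ≤ lX := by linarith
  have hMP : 0 ≤ MP := le_trans (by positivity) h3
  have hMPW : 0 ≤ MP * (1 / W) := by positivity
  calc X / (W * lX ^ K) / 20 = (X / 20 * (1 / W)) * (1 / lX ^ K) := by
        field_simp
    _ ≤ (MP * (1 / W)) * (1 / (L * BEE) ^ K) := by
        gcongr

end Pool.Agent.H378R2
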