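import Mathlib
import Pool.Agent.H378R2.Defs

open Finset

namespace Pool.Agent.H378R2

/-- the core statement about steps -/
def Core : Prop := ∀ ε Y : ℝ, 0 < ε → ∃ (H : ℕ) (X0 : ℝ), ∀ X : ℝ, X0 ≤ X →
  ∀ bad : Finset ℕ, (bad.card : ℝ) ≤ (Real.log X) ^ 4 →
  ∃ (N : ℕ) (C : Finset ℕ), X ≤ (N : ℝ) ∧ (N : ℝ) ≤ X ^ (3 / 2 : ℝ) ∧ N ∉ bad ∧
    C ⊆ Icc (N + 1) (N + H) ∧
    ∑ j ∈ (Icc (N - ⌊2 * Real.log X⌋₊) (N + H)) \ C, lg j ≤ ε ∧
    (∀ j ∈ C, lg j ≤ ε) ∧ Y ≤ ∑ j ∈ C, lg j

lemma card_pos' (n : ℕ) : (0 : ℝ) < (n.factorial.divisors.card : ℝ) := by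
  exact_mod_cast Finset.card_pos.2 ⟨1, Nat.one_mem_divisors.2 (Nat.factorial_ne_zero n)⟩

lemma lg_nonneg (j : ℕ) : 0 ≤ lg j := by
  unfold lg
  apply Real.log_nonneg
  rw [le_div_iff₀ (card_pos' _), one_mul]
  exact_mod_cast Finset.card_le_card
    (Nat.divisors_subset_of_dvd (Nat.factorial_ne_zero j)
      (Nat.factorial_dvd_factorial (Nat.sub_le j 1)))

lemma lg_tele (n k : ℕ) :
    Real.log (((n + k).factorial.divisors.card : ℝ) / (n.factorial.divisors.card : ℝ)) =
      ∑ j ∈ Ioc n (n + k), lg j := by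
  induction k with
  | zero => simp [div_self (card_pos' n).ne']
  | succ k ih =>
    have h1 : Ioc n (n + (k + 1)) = insert (n + k + 1) (Ioc n (n + k)) := by
      ext x; simp only [mem_Ioc, mem_insert]; omega
    rw [h1, Finset.sum_insert (by simp), ← ih]
    unfold lg
    rw [show n + k + 1 - 1 = n + k by omega, show n + (k + 1) = n + k + 1 by ring]
    rw [← Real.log_mul (div_pos (card_pos' _) (card_pos' _)).ne'
      (div_pos (card_pos' _) (card_pos' _)).ne']
    congr 1
    have := (card_pos' (n + k)).ne'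
    have := (card_pos' n).ne'
    field_simp

/-- points near a jump of a monotone function are few -/
lemma card_bad (g : ℕ → ℕ) (hg : Monotone g) (A B M J : ℕ) (hBM : B ≤ M) (hJ : g M ≤ J) :
    ((Icc A (M - B)).filter (fun N => g (N - A) ≠ g (N + B))).card ≤ J * (A + B) := by
  classical
  -- jumps
  set T := (range M).filter (fun i => g i ≠ g (i + 1)) with hT
  have hTc : T.card ≤ J := by
    have h1 : T.card ≤ (Icc 1 (g M)).card := by
      apply Finset.card_le_card_of_injOn (fun i => g (i + 1))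
      · intro i hi
        simp only [hT, coe_filter, Set.mem_ofPred_eq, mem_range] at hi
        simp only [coe_Icc, Set.mem_Icc]
        have h2 : g i ≤ g (i + 1) := hg (Nat.le_succ i)
        have h3 : g (i + 1) ≤ g M := hg (by omega)
        have := hi.2
        omega
      · intro i hi j hj hij
        simp only [hT, coe_filter, Set.mem_ofPred_eq, mem_range] at hi hj
        simp only at hij
        by_contra hne
        rcases Nat.lt_or_gt_of_ne hne with h | h
        · have h2 : g (i + 1) ≤ g j := hg (by omega)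
          have h3 : g j ≤ g (j + 1) := hg (Nat.le_succ j)
          have := hj.2
          omega
        · have h2 : g (j + 1) ≤ g i := hg (by omega)
          have h3 : g i ≤ g (i + 1) := hg (Nat.le_succ i)
          have := hi.2
          omega
    simpa using h1.trans (by simpa using hJ)
  have hsub : (Icc A (M - B)).filter (fun N => g (N - A) ≠ g (N + B)) ⊆
      T.biUnion (fun i => Icc (i + 1 - B) (i + A)) := by
    intro N hN
    simp only [mem_filter, mem_Icc] at hN
    obtain ⟨⟨h1, h2⟩, h3⟩ := hN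
    by_contra hcon
    simp only [mem_biUnion, mem_Icc, not_exists, not_and, hT, mem_filter, mem_range] at hcon
    -- no jumps between N - A and N + B
    have key : ∀ t : ℕ, t ≤ A + B → g (N - A + t) = g (N - A) := by
      intro t
      induction t with
      | zero => simp
      | succ t ih =>
        intro ht
        rw [← ih (by omega)]
        by_contra hne
        by_cases hM : N - A + t < M
        · have := hcon (N - A + t) ⟨hM, fun h => hne (by rw [← add_assoc]; exact h.symm)⟩
            (by omega)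
          omega
        · omega
    apply h3
    rw [← key (A + B) le_rfl]
    congr 1
    omega
  calc _ ≤ _ := Finset.card_le_card hsub
    _ ≤ ∑ i ∈ T, (Icc (i + 1 - B) (i + A)).card := Finset.card_biUnion_le
    _ ≤ ∑ i ∈ T, (A + B) := by
        apply Finset.sum_le_sum
        intro i hi
        rw [Nat.card_Icc]
        omega
    _ = T.card * (A + B) := by simp
    _ ≤ J * (A + B) := Nat.mul_le_mul_right _ hTc

open Filter Topology

/-- (M8b) final assembly -/
theorem final_of_core (h : Core) (f : ℕ → ℝ) (hmono : Monotone f) (hlog : ∀ n, f n ≤ Real.log n)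
    (hinf : Filter.Tendsto f Filter.atTop Filter.atTop) :
    Set.Ioi (1 : ℝ) ⊆ closure (Set.range (fun n =>
      ((n + ⌊f n⌋₊).factorial.divisors.card : ℝ) / (n.factorial.divisors.card : ℝ))) := by
  intro x hx
  have hx1 : (1 : ℝ) < x := hx
  set v := Real.log x with hv
  have hv0 : 0 < v := Real.log_pos hx1
  rw [Metric.mem_closure_iff]
  intro η hη
  -- continuity of exp
  obtain ⟨ε, hε, hεv, hexp⟩ : ∃ ε : ℝ, 0 < ε ∧ ε < v ∧ ∀ t : ℝ, |t - v| ≤ ε →
      dist x (Real.exp t) < η := by
    have hc : ContinuousAt Real.exp v := Real.continuous_exp.continuousAt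
    rw [Metric.continuousAt_iff] at hc
    obtain ⟨δ, hδ, h1⟩ := hc η hη
    refine ⟨min (δ / 2) (v / 2), by positivity, ?_, ?_⟩
    · exact (min_le_right _ _).trans_lt (by linarith)
    · intro t ht
      have h2 : dist t v < δ := by
        rw [Real.dist_eq]
        exact (ht.trans (min_le_left _ _)).trans_lt (by linarith)
      have h3 := h1 h2
      rw [hv, Real.exp_log (by linarith), dist_comm] at h3
      exact h3
  obtain ⟨H, X0, hcore⟩ := h ε v hε
  -- choose X
  have E1 : ∀ᶠ X : ℝ in atTop, X0 ≤ X := eventually_ge_atTop X0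
  have E2 : ∀ᶠ X : ℝ in atTop, ∀ n : ℕ, X ≤ n → (H : ℝ) + 1 ≤ f n := by
    obtain ⟨n0, hn0⟩ := (hinf.eventually (eventually_ge_atTop ((H : ℝ) + 1))).exists_forall_of_atTop
    filter_upwards [eventually_ge_atTop (n0 : ℝ)] with X hX n hn
    exact hn0 n (by exact_mod_cast hX.trans hn)
  have hlogtop : Tendsto Real.log atTop atTop := Real.tendsto_log_atTop
  have E3 : ∀ᶠ X : ℝ in atTop, (H : ℝ) + 3 ≤ Real.log X := hlogtop.eventually_ge_atTop _
  have E4 : ∀ᶠ X : ℝ in atTop, 2 * Real.log X + 1 ≤ X := by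
    have h1 := Real.isLittleO_log_id_atTop.bound (show (0 : ℝ) < 1 / 4 by norm_num)
    filter_upwards [h1, eventually_ge_atTop (2 : ℝ)] with X h1 h2
    simp only [id, Real.norm_eq_abs] at h1
    rw [abs_of_nonneg (Real.log_nonneg (by linarith)), abs_of_nonneg (by linarith)] at h1
    linarith
  have E5 : ∀ᶠ X : ℝ in atTop, (H : ℝ) + 1 ≤ X := eventually_ge_atTop _
  have E6 : ∀ᶠ X : ℝ in atTop, (4 : ℝ) ≤ X := eventually_ge_atTop _
  obtain ⟨X, hX0, hXf, hX3, hX4, hX5, hX6⟩ :=
    (E1.and (E2.and (E3.and (E4.and (E5.and E6))))).exists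
  have hlX : 0 < Real.log X := by have : (0 : ℝ) ≤ H := Nat.cast_nonneg _; linarith
  set K := ⌊2 * Real.log X⌋₊ with hK
  have hKle : (K : ℝ) ≤ 2 * Real.log X := Nat.floor_le (by positivity)
  set g : ℕ → ℕ := fun n => ⌊f n⌋₊ with hg
  have hgm : Monotone g := fun a b hab => Nat.floor_le_floor (hmono hab)
  set M := ⌊X ^ (3 / 2 : ℝ)⌋₊ + H with hM
  have hXX : X ≤ X ^ (3 / 2 : ℝ) := by
    conv_lhs => rw [← Real.rpow_one X]
    exact Real.rpow_le_rpow_of_exponent_le (by linarith) (by norm_num)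
  have hMlog : Real.log (M : ℝ) ≤ 2 * Real.log X := by
    have h1 : (M : ℝ) ≤ X ^ (3 / 2 : ℝ) + X ^ (3 / 2 : ℝ) := by
      rw [hM]
      push_cast
      have := Nat.floor_le (show 0 ≤ X ^ (3 / 2 : ℝ) by positivity)
      linarith
    have h2 : X ^ (3 / 2 : ℝ) + X ^ (3 / 2 : ℝ) ≤ X ^ (2 : ℝ) := by
      have h3 : X ^ (2 : ℝ) = X ^ (3 / 2 : ℝ) * X ^ (1 / 2 : ℝ) := by
        rw [← Real.rpow_add (show 0 < X by linarith)]; norm_num
      have h4 : (2 : ℝ) ≤ X ^ (1 / 2 : ℝ) := by
        have : (2 : ℝ) = 4 ^ (1 / 2 : ℝ) := by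
          rw [show (4 : ℝ) = 2 ^ (2 : ℝ) by norm_num, ← Real.rpow_mul (show (0 : ℝ) ≤ 2 by norm_num)]
          norm_num
        exact this.le.trans (Real.rpow_le_rpow (by norm_num) hX6 (by norm_num))
      rw [h3]
      nlinarith [show 0 < X ^ (3 / 2 : ℝ) by positivity]
    have h5 : 0 < (M : ℝ) := by
      have : 0 < ⌊X ^ (3 / 2 : ℝ)⌋₊ := Nat.floor_pos.2 (by linarith)
      have : 0 < M := by omega
      exact_mod_cast this
    calc Real.log (M : ℝ) ≤ Real.log (X ^ (2 : ℝ)) := Real.log_le_log h5 (h1.trans h2)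
      _ = 2 * Real.log X := Real.log_rpow (by linarith) _
  have hgM : g M ≤ K := by
    simp only [hg, hK]
    exact Nat.floor_le_floor ((hlog M).trans hMlog)
  have hbadcard := card_bad g hgm K H M K (by omega) hgM
  set bad := (Icc K (M - H)).filter (fun N => g (N - K) ≠ g (N + H)) with hbad
  have hbc : (bad.card : ℝ) ≤ (Real.log X) ^ 4 := by
    have h1 : (bad.card : ℝ) ≤ K * (K + H) := by exact_mod_cast hbadcard
    have hH0 : (0 : ℝ) ≤ H := Nat.cast_nonneg _
    have h2 : (K : ℝ) * (K + H) ≤ (2 * Real.log X) * (3 * Real.log X) := by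
      apply mul_le_mul hKle (by linarith) (by positivity) (by positivity)
    have h3 : (2 * Real.log X) * (3 * Real.log X) ≤ (Real.log X) ^ 4 := by
      have h4 : (3 : ℝ) ≤ Real.log X := by linarith
      have h5 : (9 : ℝ) ≤ Real.log X ^ 2 := by nlinarith
      nlinarith [sq_nonneg (Real.log X)]
    linarith
  obtain ⟨N, C, hN1, hN2, hN3, hC, hsum, hCle, hCsum⟩ := hcore X hX0 bad hbc
  have hKN : K ≤ N := by
    have : (K : ℝ) ≤ N := by linarith
    exact_mod_cast this
  have hNM : N ≤ M - H := by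
    have : N ≤ ⌊X ^ (3 / 2 : ℝ)⌋₊ := Nat.le_floor hN2
    omega
  have hconst : g (N - K) = g (N + H) := by
    by_contra hne
    exact hN3 (by rw [hbad, mem_filter, mem_Icc]; exact ⟨⟨hKN, hNM⟩, hne⟩)
  set k := g (N + H) with hk
  have hgc : ∀ n, N - K ≤ n → n ≤ N + H → g n = k := by
    intro n h1 h2
    have h3 := hgm h1
    have h4 := hgm h2
    omega
  have hkN : g N = k := hgc N (by omega) (by omega)
  have hHk : H < k := by
    rw [← hkN]
    have h1 := hXf N hN1
    have : H + 1 ≤ ⌊f N⌋₊ := Nat.le_floor (by push_cast; exact h1)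
    exact this
  have hkK : k ≤ K := by
    rw [← hkN]
    exact (hgm (by omega : N ≤ M)).trans hgM
  set G : ℕ → ℝ := fun n => ∑ j ∈ Ioc n (n + k), lg j with hG
  have hin : ∀ j, N - K ≤ j → j ≤ N + H → lg j ≤ ε := by
    intro j h1 h2
    by_cases hj : j ∈ C
    · exact hCle j hj
    · refine le_trans ?_ hsum
      exact Finset.single_le_sum (f := lg) (fun i _ => lg_nonneg i)
        (Finset.mem_sdiff.2 ⟨mem_Icc.2 ⟨h1, h2⟩, hj⟩)
  have hG0 : G (N - k) ≤ ε := by
    refine le_trans ?_ hsum
    apply Finset.sum_le_sum_of_subset_of_nonneg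
    · intro j hj
      rw [mem_Ioc] at hj
      rw [Finset.mem_sdiff, mem_Icc]
      refine ⟨by omega, fun hjC => ?_⟩
      have := mem_Icc.1 (hC hjC)
      omega
    · intro i _ _
      exact lg_nonneg i
  have hG1 : v ≤ G (N - k + H) := by
    refine le_trans hCsum ?_
    apply Finset.sum_le_sum_of_subset_of_nonneg
    · intro j hj
      have := mem_Icc.1 (hC hj)
      rw [mem_Ioc]
      omega
    · intro i _ _
      exact lg_nonneg i
  have hstep : ∀ i, i < H → G (N - k + (i + 1)) ≤ G (N - k + i) + ε := by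
    intro i hi
    have h1 : lg (N - k + i + k + 1) ≤ ε := hin _ (by omega) (by omega)
    have h2 : G (N - k + i) + lg (N - k + i + k + 1) = G (N - k + (i + 1)) + lg (N - k + i + 1) := by
      simp only [hG]
      have e1 : ∑ j ∈ Ioc (N - k + i) (N - k + i + k + 1), lg j =
          ∑ j ∈ Ioc (N - k + i) (N - k + i + k), lg j + lg (N - k + i + k + 1) := by
        rw [show Ioc (N - k + i) (N - k + i + k + 1) =
          insert (N - k + i + k + 1) (Ioc (N - k + i) (N - k + i + k)) by
            ext x; simp only [mem_Ioc, mem_insert]; omega]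
        rw [Finset.sum_insert (by simp), add_comm]
      have e2 : ∑ j ∈ Ioc (N - k + i) (N - k + i + k + 1), lg j =
          ∑ j ∈ Ioc (N - k + (i + 1)) (N - k + (i + 1) + k), lg j + lg (N - k + i + 1) := by
        rw [show Ioc (N - k + i) (N - k + i + k + 1) =
          insert (N - k + i + 1) (Ioc (N - k + (i + 1)) (N - k + (i + 1) + k)) by
            ext x; simp only [mem_Ioc, mem_insert]; omega]
        rw [Finset.sum_insert (by simp), add_comm]
      rw [← e1, e2]
    have h3 := lg_nonneg (N - k + i + 1)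
    linarith
  -- discrete intermediate value
  obtain ⟨i, hiH, hGi1, hGi2⟩ : ∃ i, i ≤ H ∧ v ≤ G (N - k + i) ∧ G (N - k + i) ≤ v + ε := by
    classical
    have hex : ∃ i, v ≤ G (N - k + i) := ⟨H, hG1⟩
    refine ⟨Nat.find hex, Nat.find_min' hex hG1, Nat.find_spec hex, ?_⟩
    rcases Nat.eq_zero_or_pos (Nat.find hex) with h0 | h0
    · rw [h0, Nat.add_zero]; linarith
    · have hfm := Nat.find_min' hex hG1
      have h1 : ¬ v ≤ G (N - k + (Nat.find hex - 1)) := Nat.find_min hex (by omega)
      have h2 := hstep (Nat.find hex - 1) (by omega)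
      rw [show Nat.find hex - 1 + 1 = Nat.find hex by omega] at h2
      have h3 := not_le.1 h1
      linarith
  refine ⟨_, ⟨N - k + i, rfl⟩, ?_⟩
  have hgk : ⌊f (N - k + i)⌋₊ = k := hgc _ (by omega) (by omega)
  simp only [hgk]
  rw [← Real.exp_log (div_pos (card_pos' (N - k + i + k)) (card_pos' (N - k + i))), lg_tele]
  apply hexp
  rw [abs_le]
  simp only [hG] at hGi1 hGi2
  constructor <;> linarith

end Pool.Agent.H378R2
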