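import Mathlib
import Pool.Agent.H378R2.M7t
import Pool.Agent.H378R2.M5
import Pool.Agent.H378R2.M1
import Pool.Agent.H378R2.LSBV7
import Pool.Agent.H378R2.M8b
import Pool.Agent.H378R2.M8c

namespace Pool.Agent.H378R2

theorem sieveAsymp_holds : SieveAsymp := sieve_asymp

theorem smallConductor_holds : SmallConductor := small_conductor

theorem bvrel_holds : BVrel := fun A Z => bv_of smallConductor_holds A Z

theorem density_of_cover (hcover : Cover) (f : ℕ → ℝ) (hmono : Monotone f) (hlog : ∀ n, f n ≤ Real.log n)
    (hinf : Filter.Tendsto f Filter.atTop Filter.atTop) :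
    Set.Ioi (1 : ℝ) ⊆ closure (Set.range (fun n =>
      ((n + ⌊f n⌋₊).factorial.divisors.card : ℝ) / (n.factorial.divisors.card : ℝ))) :=
  final_of_core (core_of_main (main_of sieveAsymp_holds bvrel_holds hcover)) f hmono hlog hinf

end Pool.Agent.H378R2
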