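import Mathlib

open Finset

namespace Pool.Agent.H378R2

/-- product of `1/p` over the primes of `Q` dividing `s` -/
noncomputable def hQ (Q : Finset ℕ) (s : ℕ) : ℝ := ∏ p ∈ Q.filter (fun p => p ∣ s), (1 : ℝ) / p

lemma hQ_nonneg (Q : Finset ℕ) (s : ℕ) : 0 ≤ hQ Q s :=
  Finset.prod_nonneg fun p _ => by positivity

lemma one_div_le_one_nat (p : ℕ) : (1 : ℝ) / p ≤ 1 := by
  rcases Nat.eq_zero_or_pos p with h | h
  · subst h; simp
  · rw [div_le_one (by exact_mod_cast h)]; exact_mod_cast h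

lemma hQ_le_one (Q : Finset ℕ) (s : ℕ) : hQ Q s ≤ 1 :=
  Finset.prod_le_one (fun p _ => by positivity) (fun p _ => one_div_le_one_nat p)

lemma hQ_anti (Q : Finset ℕ) (d s : ℕ) : hQ Q (d * s) ≤ hQ Q s := by
  unfold hQ
  apply Finset.prod_le_prod_of_subset_of_le_one
  · intro p hp
    rw [mem_filter] at hp ⊢
    exact ⟨hp.1, hp.2.mul_left _⟩
  · intro p _; positivity
  · intro p _ _; exact one_div_le_one_nat p

lemma hQ_le_of_mem (Q : Finset ℕ) (s p : ℕ) (hp : p ∈ Q) (hps : p ∣ s) : hQ Q s ≤ 1 / p := by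
  unfold hQ
  have h1 : ∏ q ∈ Q.filter (fun q => q ∣ s), (1 : ℝ) / q =
      (1 / p) * ∏ q ∈ (Q.filter (fun q => q ∣ s)).erase p, (1 : ℝ) / q :=
    (Finset.mul_prod_erase _ _ (mem_filter.2 ⟨hp, hps⟩)).symm
  rw [h1]
  have h2 : ∏ q ∈ (Q.filter (fun q => q ∣ s)).erase p, (1 : ℝ) / q ≤ 1 :=
    Finset.prod_le_one (fun p _ => by positivity) (fun p _ => one_div_le_one_nat p)
  have h3 : (0 : ℝ) ≤ 1 / p := by positivity
  calc (1 / (p : ℝ)) * ∏ q ∈ (Q.filter (fun q => q ∣ s)).erase p, (1 : ℝ) / q ≤ 1 / p * 1 := by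
        gcongr
    _ = 1 / p := mul_one _

lemma hQ_one (Q : Finset ℕ) (hQ' : ∀ p ∈ Q, p.Prime) : hQ Q 1 = 1 := by
  unfold hQ
  rw [Finset.filter_false_of_mem, Finset.prod_empty]
  intro p hp h
  exact (hQ' p hp).one_lt.ne' (Nat.dvd_one.1 h)

lemma hQ_mul (Q : Finset ℕ) (hQ' : ∀ p ∈ Q, p.Prime) {a b : ℕ} (hab : a.Coprime b) :
    hQ Q (a * b) = hQ Q a * hQ Q b := by
  unfold hQ
  rw [← Finset.prod_union]
  · apply Finset.prod_congr _ (fun _ _ => rfl)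
    ext p
    simp only [mem_filter, mem_union]
    constructor
    · rintro ⟨h1, h2⟩
      rcases (hQ' p h1).dvd_mul.1 h2 with h | h
      · exact Or.inl ⟨h1, h⟩
      · exact Or.inr ⟨h1, h⟩
    · rintro (⟨h1, h2⟩ | ⟨h1, h2⟩)
      · exact ⟨h1, h2.mul_right _⟩
      · exact ⟨h1, h2.mul_left _⟩
  · rw [Finset.disjoint_left]
    intro p h1 h2
    rw [mem_filter] at h1 h2
    exact Nat.not_coprime_of_dvd_of_dvd (hQ' p h1.1).one_lt h1.2 h2.2 hab

lemma hQ_prime_mul (Q : Finset ℕ) (hQ' : ∀ p ∈ Q, p.Prime) (p s : ℕ) (hp : p ∈ Q) :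
    hQ Q (p * s) = 1 / p * hQ (Q.erase p) s := by
  unfold hQ
  rw [← Finset.mul_prod_erase (Q.filter (fun q => q ∣ p * s)) (fun q : ℕ => (1 : ℝ) / q)
    (mem_filter.2 ⟨hp, dvd_mul_right _ _⟩)]
  congr 1
  apply Finset.prod_congr _ (fun _ _ => rfl)
  ext q
  simp only [mem_filter, mem_erase]
  constructor
  · rintro ⟨h1, h2, h3⟩
    refine ⟨⟨h1, h2⟩, ?_⟩
    rcases (hQ' q h2).dvd_mul.1 h3 with h | h
    · exact absurd ((Nat.prime_dvd_prime_iff_eq (hQ' q h2) (hQ' p hp)).1 h) h1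
    · exact h
  · rintro ⟨⟨h1, h2⟩, h3⟩
    exact ⟨h1, h2, h3.mul_left _⟩

lemma hQ_prime_pow (Q : Finset ℕ) (hQ' : ∀ p ∈ Q, p.Prime) (p : ℕ) (e : ℕ) :
    hQ Q (p ^ (e + 1)) = hQ Q p := by
  unfold hQ
  apply Finset.prod_congr _ (fun _ _ => rfl)
  ext q
  simp only [mem_filter]
  constructor
  · rintro ⟨h1, h2⟩
    exact ⟨h1, (hQ' q h1).dvd_of_dvd_pow h2⟩
  · rintro ⟨h1, h2⟩
    exact ⟨h1, dvd_pow h2 (by omega)⟩

lemma hQ_prime (Q : Finset ℕ) (hQ' : ∀ p ∈ Q, p.Prime) (p : ℕ) (hp : p.Prime) :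
    hQ Q p = if p ∈ Q then 1 / (p : ℝ) else 1 := by
  unfold hQ
  split_ifs with h
  · have : Q.filter (fun q => q ∣ p) = {p} := by
      ext q
      simp only [mem_filter, mem_singleton]
      constructor
      · rintro ⟨h1, h2⟩
        exact (Nat.prime_dvd_prime_iff_eq (hQ' q h1) hp).1 h2
      · rintro rfl
        exact ⟨h, dvd_rfl⟩
    rw [this, Finset.prod_singleton]
  · rw [Finset.filter_false_of_mem, Finset.prod_empty]
    intro q hq h2
    have := (Nat.prime_dvd_prime_iff_eq (hQ' q hq) hp).1 h2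
    exact h (this ▸ hq)

/-- Euler product bound -/
lemma sum_hQ_div_le (Q : Finset ℕ) (hQ' : ∀ p ∈ Q, p.Prime) (k : ℕ) :
    ∑ s ∈ Icc 1 k, hQ Q s / s ≤ ∏ p ∈ (k + 1).primesBelow, (1 + hQ Q p / ((p : ℝ) - 1)) := by
  set f : ℕ → ℝ := fun n => hQ Q n / n with hf
  have hf1 : f 1 = 1 := by simp [hf, hQ_one Q hQ']
  have hmul : ∀ {m n : ℕ}, Nat.Coprime m n → f (m * n) = f m * f n := by
    intro m n hmn
    simp only [hf]
    rw [hQ_mul Q hQ' hmn]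
    push_cast
    rw [mul_div_mul_comm]
  have hgeo : ∀ {p : ℕ}, p.Prime → HasSum (fun n : ℕ => f (p ^ n)) (1 + hQ Q p / ((p : ℝ) - 1)) := by
    intro p hp
    have hp1 : (1 : ℝ) < p := by exact_mod_cast hp.one_lt
    have hp0 : (0 : ℝ) < p := by linarith
    have h1 : HasSum (fun n : ℕ => ((p : ℝ)⁻¹) ^ n) (1 - (p : ℝ)⁻¹)⁻¹ :=
      hasSum_geometric_of_lt_one (by positivity) (inv_lt_one_of_one_lt₀ hp1)
    have h2 : HasSum (fun n : ℕ => f (p ^ (n + 1))) (hQ Q p * (p : ℝ)⁻¹ * (1 - (p : ℝ)⁻¹)⁻¹) := by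
      have h3 := h1.mul_left (hQ Q p * (p : ℝ)⁻¹)
      have h4 : (fun n : ℕ => f (p ^ (n + 1))) = fun n : ℕ => hQ Q p * (p : ℝ)⁻¹ * ((p : ℝ)⁻¹) ^ n := by
        funext n
        simp only [hf]
        rw [hQ_prime_pow Q hQ' p]
        push_cast
        rw [pow_succ, inv_pow]
        field_simp
      rw [h4]
      exact h3
    rw [← hasSum_nat_add_iff' 1]
    have h5 : hQ Q p * (p : ℝ)⁻¹ * (1 - (p : ℝ)⁻¹)⁻¹ =
        (1 + hQ Q p / ((p : ℝ) - 1)) - ∑ i ∈ range 1, f (p ^ i) := by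
      have h6 : (p : ℝ) - 1 ≠ 0 := by linarith
      have h7 : (1 - (p : ℝ)⁻¹) ≠ 0 := by
        have : (p : ℝ)⁻¹ < 1 := inv_lt_one_of_one_lt₀ hp1
        linarith
      simp only [sum_range_one, pow_zero, hf1]
      field_simp
      ring
    rw [← h5]
    exact h2
  have hnn : ∀ n, 0 ≤ f n := fun n => div_nonneg (hQ_nonneg Q n) (Nat.cast_nonneg n)
  have hsum : ∀ {p : ℕ}, p.Prime → Summable (fun n : ℕ => ‖f (p ^ n)‖) := by
    intro p hp
    simp only [Real.norm_of_nonneg (hnn _)]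
    exact (hgeo hp).summable
  obtain ⟨hs1, hs2⟩ := EulerProduct.summable_and_hasSum_smoothNumbers_prod_primesBelow_tsum
    hf1 hmul hsum (k + 1)
  have hprod : ∏ p ∈ (k + 1).primesBelow, ∑' n : ℕ, f (p ^ n) =
      ∏ p ∈ (k + 1).primesBelow, (1 + hQ Q p / ((p : ℝ) - 1)) := by
    apply Finset.prod_congr rfl
    intro p hp
    exact (hgeo (Nat.prime_of_mem_primesBelow hp)).tsum_eq
  rw [hprod] at hs2
  -- the finite sum is at most the infinite one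
  have hmem : ∀ s ∈ Icc 1 k, s ∈ Nat.smoothNumbers (k + 1) := by
    intro s hs
    rw [mem_Icc] at hs
    exact Nat.mem_smoothNumbers_of_lt (by omega) (by omega)
  have h5 : ∑ s ∈ Icc 1 k, f s = ∑ s ∈ (Icc 1 k).attach.image
      (fun x => (⟨x.1, hmem x.1 x.2⟩ : Nat.smoothNumbers (k + 1))), f s := by
    rw [Finset.sum_image, Finset.sum_attach (Icc 1 k) (fun s => f s)]
    intro x _ y _ hxy
    exact Subtype.ext (congrArg (fun z : Nat.smoothNumbers (k + 1) => (z : ℕ)) hxy)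
  rw [h5]
  exact sum_le_hasSum _ (fun i _ => hnn _) hs2

end Pool.Agent.H378R2
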