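import Mathlib
import Pool.Agent.H378R2.M6a

open Finset

namespace Pool.Agent.H378R2

open ArithmeticFunction in
/-- the logarithm trick -/
lemma log_sum_le (Q : Finset ℕ) (hQ' : ∀ p ∈ Q, p.Prime) (p : ℕ) (hp : p ∈ Q) (k : ℕ) :
    ∑ s ∈ (Icc 1 k).filter (fun s => p ∣ s), hQ Q s * Real.log s ≤
      6 * k / (p : ℝ) ^ 2 * (∑ s ∈ Icc 1 k, hQ (Q.erase p) s / s) +
        k * (Real.log p / (p * ((p : ℝ) - 1))) := by
  have hpp := hQ' p hp
  have hp1 : (1 : ℝ) < p := by exact_mod_cast hpp.one_lt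
  have hp0 : (0 : ℝ) < p := by linarith
  have hI : Icc 1 k = Ioc 0 k := by ext x; simp only [mem_Icc, mem_Ioc]; omega
  set F : ℕ → ℝ := fun s => if p ∣ s then hQ Q s else 0 with hF
  have hFnn : ∀ s, 0 ≤ F s := by
    intro s; simp only [hF]; split_ifs
    · exact hQ_nonneg _ _
    · exact le_rfl
  have hΛ : ∀ d : ℕ, 0 ≤ vonMangoldt d := fun d => vonMangoldt_nonneg
  set P := (Ioc 0 k ×ˢ Ioc 0 k).filter (fun x : ℕ × ℕ => x.1 * x.2 ∈ Ioc 0 k) with hP
  -- step 1
  have e1 : ∑ s ∈ (Icc 1 k).filter (fun s => p ∣ s), hQ Q s * Real.log s =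
      ∑ x ∈ P, vonMangoldt x.1 * F (x.1 * x.2) := by
    rw [hI, Finset.sum_filter]
    have h1 : ∀ s ∈ Ioc 0 k, (if p ∣ s then hQ Q s * Real.log s else 0) =
        ∑ x ∈ (Ioc 0 k ×ˢ Ioc 0 k).filter (fun x : ℕ × ℕ => x.1 * x.2 = s),
          vonMangoldt x.1 * F (x.1 * x.2) := by
      intro s hs
      rw [mem_Ioc] at hs
      rw [← Nat.divisorsAntidiagonal_eq_prod_filter_of_le (by omega) hs.2]
      have h2 : (if p ∣ s then hQ Q s * Real.log s else 0) = F s * Real.log s := by
        simp only [hF]; split_ifs <;> ring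
      rw [h2, ← vonMangoldt_sum, Finset.mul_sum]
      rw [Nat.sum_divisorsAntidiagonal (n := s) (fun d e => vonMangoldt d * F (d * e))]
      apply Finset.sum_congr rfl
      intro d hd
      rw [Nat.mul_div_cancel' (Nat.dvd_of_mem_divisors hd), mul_comm]
    rw [Finset.sum_congr rfl h1]
    rw [hP, ← Finset.sum_fiberwise_of_maps_to (s := (Ioc 0 k ×ˢ Ioc 0 k).filter
      (fun x : ℕ × ℕ => x.1 * x.2 ∈ Ioc 0 k)) (t := Ioc 0 k) (g := fun x : ℕ × ℕ => x.1 * x.2)
      (fun x hx => (mem_filter.1 hx).2)]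
    apply Finset.sum_congr rfl
    intro s hs
    apply Finset.sum_congr _ (fun _ _ => rfl)
    ext x
    simp only [mem_filter]
    constructor
    · rintro ⟨h1, h2⟩; exact ⟨⟨h1, h2 ▸ hs⟩, h2⟩
    · rintro ⟨⟨h1, _⟩, h2⟩; exact ⟨h1, h2⟩
  rw [e1]
  -- step 2
  have e2 : ∀ x ∈ P, vonMangoldt x.1 * F (x.1 * x.2) ≤
      vonMangoldt x.1 * F x.2 + (if p ∣ x.1 then vonMangoldt x.1 / p else 0) := by
    intro x _
    by_cases hd : p ∣ x.1
    · rw [if_pos hd]
      have h1 : F (x.1 * x.2) ≤ 1 / p := by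
        simp only [hF]
        rw [if_pos (hd.mul_right _)]
        exact hQ_le_of_mem Q _ p hp (hd.mul_right _)
      have h2 : vonMangoldt x.1 * F (x.1 * x.2) ≤ vonMangoldt x.1 * (1 / p) :=
        mul_le_mul_of_nonneg_left h1 (hΛ _)
      have h3 : 0 ≤ vonMangoldt x.1 * F x.2 := mul_nonneg (hΛ _) (hFnn _)
      have h4 : vonMangoldt x.1 * (1 / (p : ℝ)) = vonMangoldt x.1 / p := by ring
      linarith
    · rw [if_neg hd, add_zero]
      apply mul_le_mul_of_nonneg_left _ (hΛ _)
      simp only [hF]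
      by_cases h2 : p ∣ x.2
      · rw [if_pos h2, if_pos (h2.mul_left _)]
        exact hQ_anti Q _ _
      · rw [if_neg h2, if_neg]
        intro h3
        rcases hpp.dvd_mul.1 h3 with h | h
        · exact hd h
        · exact h2 h
  refine (Finset.sum_le_sum e2).trans ?_
  rw [Finset.sum_add_distrib]
  apply add_le_add
  · -- step 3
    have h1 : ∑ x ∈ P, vonMangoldt x.1 * F x.2 =
        ∑ t ∈ Ioc 0 k, F t * ∑ d ∈ Ioc 0 (k / t), vonMangoldt d := by
      rw [hP, Finset.sum_filter, Finset.sum_product_right]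
      apply Finset.sum_congr rfl
      intro t ht
      rw [mem_Ioc] at ht
      rw [Finset.mul_sum, ← Finset.sum_filter]
      apply Finset.sum_congr
      · ext d
        simp only [mem_filter, mem_Ioc]
        constructor
        · rintro ⟨⟨h1, h2⟩, h3, h4⟩
          exact ⟨h1, (Nat.le_div_iff_mul_le ht.1).2 h4⟩
        · rintro ⟨h1, h2⟩
          have h3 := (Nat.le_div_iff_mul_le ht.1).1 h2
          have h4 : d ≤ d * t := Nat.le_mul_of_pos_right _ ht.1
          exact ⟨⟨h1, h4.trans h3⟩, Nat.mul_pos h1 ht.1, h3⟩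
      · intro d _; ring
    have h2 : ∀ t ∈ Ioc 0 k, F t * ∑ d ∈ Ioc 0 (k / t), vonMangoldt d ≤ 6 * k * (F t / t) := by
      intro t ht
      rw [mem_Ioc] at ht
      have ht0 : (0 : ℝ) < t := by exact_mod_cast ht.1
      have h3 : ∑ d ∈ Ioc 0 (k / t), vonMangoldt d = Chebyshev.psi ((k / t : ℕ) : ℝ) := by
        unfold Chebyshev.psi
        rw [Nat.floor_natCast]
      have h4 : Chebyshev.psi ((k / t : ℕ) : ℝ) ≤ 6 * ((k : ℝ) / t) := by
        refine (Chebyshev.psi_le_const_mul_self (Nat.cast_nonneg _)).trans ?_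
        have h5 : ((k / t : ℕ) : ℝ) ≤ (k : ℝ) / t := Nat.cast_div_le
        have h6 : Real.log 4 + 4 ≤ 6 := by
          have : Real.log 4 = 2 * Real.log 2 := by
            rw [show (4 : ℝ) = 2 ^ 2 by norm_num, Real.log_pow]; norm_num
          have := Real.log_two_lt_d9
          linarith
        have h7 : (0 : ℝ) ≤ (k : ℝ) / t := by positivity
        calc (Real.log 4 + 4) * ((k / t : ℕ) : ℝ) ≤ 6 * ((k / t : ℕ) : ℝ) := by
              apply mul_le_mul_of_nonneg_right h6 (Nat.cast_nonneg _)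
          _ ≤ 6 * ((k : ℝ) / t) := by linarith
      rw [h3]
      calc F t * Chebyshev.psi ((k / t : ℕ) : ℝ) ≤ F t * (6 * ((k : ℝ) / t)) :=
            mul_le_mul_of_nonneg_left h4 (hFnn t)
        _ = 6 * k * (F t / t) := by ring
    rw [h1]
    refine (Finset.sum_le_sum h2).trans ?_
    rw [← Finset.mul_sum]
    -- step 5
    have h3 : ∑ t ∈ Ioc 0 k, F t / t ≤ 1 / (p : ℝ) ^ 2 * ∑ s ∈ Icc 1 k, hQ (Q.erase p) s / s := by
      have h4 : ∑ t ∈ Ioc 0 k, F t / t = ∑ t ∈ (Ioc 0 k).filter (fun t => p ∣ t), F t / t := by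
        rw [Finset.sum_filter]
        apply Finset.sum_congr rfl
        intro t _
        simp only [hF]
        split_ifs <;> simp
      rw [h4]
      have h5 : (Ioc 0 k).filter (fun t => p ∣ t) ⊆ (Icc 1 k).image (fun t => p * t) := by
        intro t ht
        rw [mem_filter, mem_Ioc] at ht
        obtain ⟨⟨h6, h7⟩, u, rfl⟩ := ht
        rw [mem_image]
        refine ⟨u, ?_, rfl⟩
        rw [mem_Icc]
        constructor
        · rcases Nat.eq_zero_or_pos u with h | h
          · subst h; simp at h6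
          · exact h
        · exact (Nat.le_mul_of_pos_left u hpp.pos).trans h7
      refine (Finset.sum_le_sum_of_subset_of_nonneg h5
        (fun t _ _ => div_nonneg (hFnn t) (Nat.cast_nonneg t))).trans ?_
      rw [Finset.sum_image (by
        intro a _ b _ hab
        exact Nat.eq_of_mul_eq_mul_left hpp.pos hab), Finset.mul_sum]
      apply Finset.sum_le_sum
      intro u _
      simp only [hF]
      rw [if_pos (dvd_mul_right _ _), hQ_prime_mul Q hQ' p u hp]
      push_cast
      apply le_of_eq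
      field_simp
    calc 6 * (k : ℝ) * ∑ t ∈ Ioc 0 k, F t / t
        ≤ 6 * k * (1 / (p : ℝ) ^ 2 * ∑ s ∈ Icc 1 k, hQ (Q.erase p) s / s) := by gcongr
      _ = 6 * k / (p : ℝ) ^ 2 * (∑ s ∈ Icc 1 k, hQ (Q.erase p) s / s) := by ring
  · -- step 4
    have h1 : ∑ x ∈ P, (if p ∣ x.1 then vonMangoldt x.1 / p else 0) ≤
        ∑ d ∈ Ioc 0 k, (if p ∣ d then vonMangoldt d / p else 0) * ((k : ℝ) / d) := by
      rw [hP, Finset.sum_filter, Finset.sum_product]
      apply Finset.sum_le_sum
      intro d hd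
      rw [mem_Ioc] at hd
      have hd0 : (0 : ℝ) < d := by exact_mod_cast hd.1
      rw [← Finset.sum_filter]
      change (∑ _a ∈ (Ioc 0 k).filter (fun a => d * a ∈ Ioc 0 k),
        (if p ∣ d then vonMangoldt d / (p : ℝ) else 0)) ≤ _
      rw [Finset.sum_const, nsmul_eq_mul, mul_comm]
      apply mul_le_mul_of_nonneg_left
      · have h2 : (Ioc 0 k).filter (fun t => d * t ∈ Ioc 0 k) ⊆ Ioc 0 (k / d) := by
          intro t ht
          simp only [mem_filter, mem_Ioc] at ht ⊢
          refine ⟨ht.1.1, ?_⟩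
          rw [Nat.le_div_iff_mul_le hd.1, mul_comm]
          exact ht.2.2
        have h3 := Finset.card_le_card h2
        rw [Nat.card_Ioc, Nat.sub_zero] at h3
        calc (((Ioc 0 k).filter (fun t => d * t ∈ Ioc 0 k)).card : ℝ) ≤ ((k / d : ℕ) : ℝ) := by
              exact_mod_cast h3
          _ ≤ (k : ℝ) / d := Nat.cast_div_le
      · split_ifs
        · exact div_nonneg (hΛ _) hp0.le
        · exact le_rfl
    refine h1.trans ?_
    -- only powers of `p`
    have h2 : ∑ d ∈ Ioc 0 k, (if p ∣ d then vonMangoldt d / p else 0) * ((k : ℝ) / d) =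
        ∑ d ∈ (Ioc 0 k).filter (fun d => p ∣ d ∧ vonMangoldt d ≠ 0),
          vonMangoldt d / p * ((k : ℝ) / d) := by
      rw [Finset.sum_filter]
      apply Finset.sum_congr rfl
      intro d _
      by_cases hd : p ∣ d
      · by_cases hz : vonMangoldt d = 0
        · simp [hz]
        · simp [hd, hz]
      · simp [hd]
    rw [h2]
    have h3 : (Ioc 0 k).filter (fun d => p ∣ d ∧ vonMangoldt d ≠ 0) ⊆
        (range k).image (fun b => p ^ (b + 1)) := by
      intro d hd
      simp only [mem_filter, mem_Ioc] at hd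
      obtain ⟨⟨h4, h5⟩, h6, h7⟩ := hd
      have h8 : IsPrimePow d := by
        by_contra hcon
        exact h7 (vonMangoldt_eq_zero_iff.2 hcon)
      obtain ⟨q, e, hq, he, rfl⟩ := h8
      have hq' := Nat.prime_iff.2 hq
      have hqp : p = q := (Nat.prime_dvd_prime_iff_eq hpp hq').1 (hpp.dvd_of_dvd_pow h6)
      subst hqp
      rw [mem_image]
      refine ⟨e - 1, ?_, by congr 1; omega⟩
      rw [mem_range]
      have : e < p ^ e := Nat.lt_pow_self hpp.one_lt
      omega
    refine (Finset.sum_le_sum_of_subset_of_nonneg h3 (fun d _ _ => ?_)).trans ?_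
    · exact mul_nonneg (div_nonneg (hΛ _) hp0.le) (by positivity)
    · rw [Finset.sum_image (by
        intro a _ b _ hab
        have := Nat.pow_right_injective hpp.two_le hab
        omega)]
      have h4 : ∀ b ∈ range k, vonMangoldt (p ^ (b + 1)) / p * ((k : ℝ) / ((p ^ (b + 1) : ℕ) : ℝ)) =
          (k * Real.log p / (p : ℝ) ^ 2) * ((p : ℝ)⁻¹) ^ b := by
        intro b _
        rw [vonMangoldt_apply_pow (by omega), vonMangoldt_apply_prime hpp]
        push_cast
        rw [pow_succ, inv_pow]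
        field_simp
      rw [Finset.sum_congr rfl h4, ← Finset.mul_sum]
      have h5 : ∑ b ∈ range k, ((p : ℝ)⁻¹) ^ b ≤ (1 - (p : ℝ)⁻¹)⁻¹ := by
        have h6 : HasSum (fun n : ℕ => ((p : ℝ)⁻¹) ^ n) (1 - (p : ℝ)⁻¹)⁻¹ :=
          hasSum_geometric_of_lt_one (by positivity) (inv_lt_one_of_one_lt₀ hp1)
        exact sum_le_hasSum _ (fun i _ => by positivity) h6
      have h6 : 0 ≤ k * Real.log p / (p : ℝ) ^ 2 := by
        have := Real.log_nonneg hp1.le
        positivity
      refine (mul_le_mul_of_nonneg_left h5 h6).trans (le_of_eq ?_)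
      have h7 : (p : ℝ) - 1 ≠ 0 := by linarith
      have h8 : (1 - (p : ℝ)⁻¹) ≠ 0 := by
        have : (p : ℝ)⁻¹ < 1 := inv_lt_one_of_one_lt₀ hp1
        linarith
      field_simp

end Pool.Agent.H378R2
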