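import Mathlib
import Pool.Agent.H378R2.M6b

open Finset

namespace Pool.Agent.H378R2

/-- `∏_{p ≤ z} p/(p-1)` -/
noncomputable def AA (z : ℕ) : ℝ := ∏ p ∈ (z + 1).primesBelow, (1 + 1 / ((p : ℝ) - 1))

lemma AA_mono {a b : ℕ} (h : a ≤ b) : AA a ≤ AA b := by
  unfold AA
  apply Finset.prod_le_prod_of_subset_of_one_le
  · intro p hp
    rw [Nat.mem_primesBelow] at hp ⊢
    exact ⟨by omega, hp.2⟩
  · intro p hp
    have : (1 : ℝ) ≤ p := by exact_mod_cast (Nat.prime_of_mem_primesBelow hp).one_lt.le
    have : 0 ≤ 1 / ((p : ℝ) - 1) := div_nonneg zero_le_one (by linarith)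
    linarith
  · intro p hp _
    have : (1 : ℝ) ≤ p := by exact_mod_cast (Nat.prime_of_mem_primesBelow hp).one_lt.le
    have : 0 ≤ 1 / ((p : ℝ) - 1) := div_nonneg zero_le_one (by linarith)
    linarith

lemma AA_odd (n : ℕ) : AA (2 * n + 1) ≤ 2 * Real.sqrt (2 * n + 1) := by
  induction n with
  | zero =>
    have : (2 : ℕ).primesBelow = ∅ := by decide
    simp [AA, this]
  | succ n ih =>
    rcases Nat.eq_zero_or_pos n with h0 | h0
    · subst h0
      have : (4 : ℕ).primesBelow = {2, 3} := by decide
      have h3 : (2 : ℝ) * (1 + 1 / 2) ≤ 2 * Real.sqrt 3 := by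
        have : (3 / 2 : ℝ) ≤ Real.sqrt 3 := by
          apply Real.le_sqrt_of_sq_le; norm_num
        linarith
      simp only [AA, zero_add, mul_one]
      norm_num [this]
      norm_num at h3
      linarith
    · have h1 : (2 * (n + 1) + 1 + 1).primesBelow ⊆
          insert (2 * n + 3) ((2 * n + 1 + 1).primesBelow) := by
        intro p hp
        rw [Nat.mem_primesBelow] at hp
        rw [mem_insert, Nat.mem_primesBelow]
        by_cases h : p = 2 * n + 3
        · exact Or.inl h
        · right
          refine ⟨?_, hp.2⟩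
          by_contra hcon
          have h2 : p = 2 * (n + 1) := by omega
          have h3 : 2 ∣ p := ⟨n + 1, h2⟩
          have := (Nat.prime_dvd_prime_iff_eq Nat.prime_two hp.2).1 h3
          omega
      have h2 : AA (2 * (n + 1) + 1) ≤ (1 + 1 / ((2 * n + 3 : ℕ) - 1 : ℝ)) * AA (2 * n + 1) := by
        unfold AA
        have hnot : 2 * n + 3 ∉ (2 * n + 1 + 1).primesBelow := by
          rw [Nat.mem_primesBelow]; omega
        have h7 := Finset.prod_insert (f := fun p : ℕ => (1 + 1 / ((p : ℝ) - 1))) hnot
        refine le_trans ?_ h7.le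
        apply Finset.prod_le_prod_of_subset_of_one_le h1
        · intro p hp
          have h4 : 1 ≤ p := (Nat.prime_of_mem_primesBelow hp).one_lt.le
          have : (1 : ℝ) ≤ p := by exact_mod_cast h4
          have : 0 ≤ 1 / ((p : ℝ) - 1) := div_nonneg zero_le_one (by linarith)
          linarith
        · intro p hp _
          have h4 : 1 ≤ p := by
            rcases mem_insert.1 hp with h | h
            · omega
            · exact (Nat.prime_of_mem_primesBelow h).one_lt.le
          have : (1 : ℝ) ≤ p := by exact_mod_cast h4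
          have : 0 ≤ 1 / ((p : ℝ) - 1) := div_nonneg zero_le_one (by linarith)
          linarith
      have hn : (1 : ℝ) ≤ n := by exact_mod_cast h0
      have h5 : (1 + 1 / ((2 * n + 3 : ℕ) - 1 : ℝ)) * (2 * Real.sqrt (2 * n + 1)) ≤
          2 * Real.sqrt (2 * (n + 1 : ℕ) + 1) := by
        push_cast
        have e1 : (1 + 1 / ((2 * (n : ℝ) + 3) - 1)) = (2 * n + 3) / (2 * n + 2) := by
          have : (2 * (n : ℝ) + 3) - 1 = 2 * n + 2 := by ring
          rw [this]
          field_simp
          ring
        rw [e1, div_mul_eq_mul_div, div_le_iff₀ (by positivity)]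
        have e2 : Real.sqrt (2 * n + 1) * Real.sqrt (2 * (n + 1) + 1) ≤ 2 * n + 2 := by
          rw [← Real.sqrt_mul (by positivity)]
          apply Real.sqrt_le_iff.2
          constructor
          · positivity
          · nlinarith
        have e3 : Real.sqrt (2 * (n + 1) + 1) * Real.sqrt (2 * (n + 1) + 1) = 2 * n + 3 := by
          rw [Real.mul_self_sqrt (by positivity)]; ring
        have e4 : 0 ≤ Real.sqrt (2 * ((n : ℝ) + 1) + 1) := Real.sqrt_nonneg _
        calc (2 * (n : ℝ) + 3) * (2 * Real.sqrt (2 * n + 1))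
            = 2 * Real.sqrt (2 * (n + 1) + 1) *
              (Real.sqrt (2 * n + 1) * Real.sqrt (2 * (n + 1) + 1)) := by
              rw [← e3]; ring
          _ ≤ 2 * Real.sqrt (2 * (n + 1) + 1) * (2 * n + 2) := by gcongr
      have h6 : 0 ≤ (1 + 1 / ((2 * n + 3 : ℕ) - 1 : ℝ)) := by
        push_cast
        have : 0 ≤ 1 / ((2 * (n : ℝ) + 3) - 1) := div_nonneg zero_le_one (by linarith)
        linarith
      calc AA (2 * (n + 1) + 1) ≤ _ := h2
        _ ≤ (1 + 1 / ((2 * n + 3 : ℕ) - 1 : ℝ)) * (2 * Real.sqrt (2 * n + 1)) :=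
            mul_le_mul_of_nonneg_left ih h6
        _ ≤ _ := h5

lemma AA_le (z : ℕ) : AA z ≤ 2 * Real.sqrt (z + 1) := by
  have h1 : z ≤ 2 * (z / 2) + 1 := by omega
  refine (AA_mono h1).trans ((AA_odd _).trans ?_)
  gcongr
  have : 2 * (z / 2) ≤ z := Nat.mul_div_le z 2
  exact_mod_cast this

lemma sum_inv_sq_le (Q : Finset ℕ) (z : ℕ) (hz : 1 ≤ z) (hQz : ∀ p ∈ Q, z < p) :
    ∑ p ∈ Q, (1 : ℝ) / (p : ℝ) ^ 2 ≤ 1 / (z : ℝ) := by
  obtain ⟨M, hM⟩ : ∃ M, ∀ p ∈ Q, p ≤ M := ⟨Q.sup id, fun p hp => Finset.le_sup (f := id) hp⟩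
  have h1 : Q ⊆ Ioc z (max z M) := by
    intro p hp
    rw [mem_Ioc]
    exact ⟨hQz p hp, (hM p hp).trans (le_max_right _ _)⟩
  calc ∑ p ∈ Q, (1 : ℝ) / (p : ℝ) ^ 2 ≤ ∑ p ∈ Ioc z (max z M), (1 : ℝ) / (p : ℝ) ^ 2 :=
        Finset.sum_le_sum_of_subset_of_nonneg h1 (fun p _ _ => by positivity)
    _ = ∑ p ∈ Ioc z (max z M), ((p : ℝ) ^ 2)⁻¹ := by simp
    _ ≤ (z : ℝ)⁻¹ - ((max z M : ℕ) : ℝ)⁻¹ := sum_Ioc_inv_sq_le_sub (by omega) (le_max_left _ _)
    _ ≤ 1 / z := by
        rw [one_div]
        have : (0 : ℝ) ≤ ((max z M : ℕ) : ℝ)⁻¹ := by positivity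
        linarith

lemma sum_log_le (Q : Finset ℕ) (z : ℕ) (hz : 1 ≤ z) (hQz : ∀ p ∈ Q, z < p) :
    ∑ p ∈ Q, Real.log p / (p * ((p : ℝ) - 1)) ≤ 8 / Real.sqrt z := by
  obtain ⟨M, hM⟩ : ∃ M, ∀ p ∈ Q, p ≤ M := ⟨Q.sup id, fun p hp => Finset.le_sup (f := id) hp⟩
  have h1 : Q ⊆ Ioc z (max z M) := by
    intro p hp
    rw [mem_Ioc]
    exact ⟨hQz p hp, (hM p hp).trans (le_max_right _ _)⟩
  have hterm : ∀ n : ℕ, 1 ≤ n → Real.log ((n + 1 : ℕ) : ℝ) / (((n + 1 : ℕ) : ℝ) * (((n + 1 : ℕ) : ℝ) - 1)) ≤
      8 / Real.sqrt n - 8 / Real.sqrt ((n + 1 : ℕ) : ℝ) := by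
    intro n hn
    have hn0 : (1 : ℝ) ≤ n := by exact_mod_cast hn
    push_cast
    set a := Real.sqrt n with ha
    set b := Real.sqrt (n + 1) with hb
    have ha2 : a ^ 2 = n := Real.sq_sqrt (by positivity)
    have hb2 : b ^ 2 = n + 1 := Real.sq_sqrt (by positivity)
    have ha0 : 0 < a := Real.sqrt_pos.2 (by linarith)
    have hb0 : 0 < b := Real.sqrt_pos.2 (by linarith)
    have hab : a ≤ b := Real.sqrt_le_sqrt (by linarith)
    have hlog : Real.log ((n : ℝ) + 1) ≤ 2 * b := by
      rw [← hb2, Real.log_pow]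
      have := Real.log_le_sub_one_of_pos hb0
      push_cast
      linarith
    have e1 : 8 / a - 8 / b = 8 / (a * b * (a + b)) := by
      have h3 : (b - a) * (a + b) = 1 := by ring_nf; rw [ha2, hb2]; ring
      field_simp
      linear_combination h3
    rw [e1, add_sub_cancel_right]
    rw [div_le_div_iff₀ (by positivity) (by positivity)]
    have e2 : a * b * (a + b) ≤ 2 * b ^ 3 := by nlinarith [mul_pos ha0 hb0]
    have hlog0 : 0 ≤ Real.log ((n : ℝ) + 1) := Real.log_nonneg (by linarith)
    calc Real.log ((n : ℝ) + 1) * (a * b * (a + b)) ≤ (2 * b) * (2 * b ^ 3) := by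
          apply mul_le_mul hlog e2 (by positivity) (by positivity)
      _ = 4 * (b ^ 2) * (b ^ 2) := by ring
      _ = 4 * (n + 1) * (n + 1) := by rw [hb2]
      _ ≤ 8 * ((n + 1) * n) := by nlinarith
  have hsum : ∀ N, z ≤ N → ∑ p ∈ Ioc z N, Real.log p / (p * ((p : ℝ) - 1)) ≤
      8 / Real.sqrt z - 8 / Real.sqrt N := by
    intro N hN
    induction N, hN using Nat.le_induction with
    | base => simp
    | succ N hN ih =>
      rw [Finset.sum_Ioc_succ_top hN]
      have := hterm N (by omega)
      linarith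
  calc ∑ p ∈ Q, Real.log p / (p * ((p : ℝ) - 1))
      ≤ ∑ p ∈ Ioc z (max z M), Real.log p / (p * ((p : ℝ) - 1)) := by
        apply Finset.sum_le_sum_of_subset_of_nonneg h1
        intro p hp _
        rw [mem_Ioc] at hp
        have : (1 : ℝ) ≤ p := by exact_mod_cast (by omega : 1 ≤ p)
        apply div_nonneg (Real.log_nonneg this)
        apply mul_nonneg <;> linarith
    _ ≤ 8 / Real.sqrt z - 8 / Real.sqrt (max z M : ℕ) := hsum _ (le_max_left _ _)
    _ ≤ 8 / Real.sqrt z := by
        have : 0 ≤ 8 / Real.sqrt (max z M : ℕ) := by positivity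
        linarith

/-- `S` and `ps` are the only primes in `(z, y]` missing from `Q`. -/
structure Data (z y k D : ℕ) (S : Finset ℕ) (ps : ℕ) (Q : Finset ℕ) : Prop where
  hz : 1 ≤ z
  hy : 1 ≤ y
  hk : k ≤ D * y
  hQ : ∀ p ∈ Q, p.Prime
  hQz : ∀ p ∈ Q, z < p
  hcov : ∀ p, p.Prime → z < p → p ≤ y → p ∈ Q ∨ p ∈ S ∨ p = ps
  hS : ∀ p ∈ S, p.Prime
  hSsum : ∑ q ∈ S, (1 : ℝ) / q ≤ 1 / 2

lemma sum_erase_le {z y k D : ℕ} {S : Finset ℕ} {ps : ℕ} {Q : Finset ℕ} (h : Data z y k D S ps Q)
    (p0 : ℕ) :
    ∑ s ∈ Icc 1 k, hQ (Q.erase p0) s / s ≤ 2 * Real.sqrt (z + 1) * Real.exp (D + 4) := by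
  set Q' := Q.erase p0 with hQ'
  have hQ'p : ∀ p ∈ Q', p.Prime := fun p hp => h.hQ p (mem_of_mem_erase hp)
  refine (sum_hQ_div_le Q' hQ'p k).trans ?_
  rw [← Finset.prod_filter_mul_prod_filter_not (k + 1).primesBelow (fun p => p ≤ z)]
  have hnn : ∀ p : ℕ, p.Prime → 0 ≤ hQ Q' p / ((p : ℝ) - 1) := by
    intro p hp
    have : (1 : ℝ) ≤ p := by exact_mod_cast hp.one_lt.le
    exact div_nonneg (hQ_nonneg _ _) (by linarith)
  apply mul_le_mul
  · -- small primes
    refine le_trans ?_ (AA_le z)
    calc ∏ p ∈ (k + 1).primesBelow.filter (fun p => p ≤ z), (1 + hQ Q' p / ((p : ℝ) - 1))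
        ≤ ∏ p ∈ (k + 1).primesBelow.filter (fun p => p ≤ z), (1 + 1 / ((p : ℝ) - 1)) := by
          apply Finset.prod_le_prod
          · intro p hp
            have := hnn p (Nat.prime_of_mem_primesBelow (mem_filter.1 hp).1)
            linarith
          · intro p hp
            have hpp := Nat.prime_of_mem_primesBelow (mem_filter.1 hp).1
            have h1 : (1 : ℝ) < p := by exact_mod_cast hpp.one_lt
            have h2 := hQ_le_one Q' p
            have h3 : 0 < (p : ℝ) - 1 := by linarith
            gcongr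
      _ ≤ AA z := by
          unfold AA
          apply Finset.prod_le_prod_of_subset_of_one_le
          · intro p hp
            rw [mem_filter, Nat.mem_primesBelow] at hp
            rw [Nat.mem_primesBelow]
            exact ⟨by omega, hp.1.2⟩
          · intro p hp
            have hpp := Nat.prime_of_mem_primesBelow (mem_filter.1 hp).1
            have : (1 : ℝ) ≤ p := by exact_mod_cast hpp.one_lt.le
            have : 0 ≤ 1 / ((p : ℝ) - 1) := div_nonneg zero_le_one (by linarith)
            linarith
          · intro p hp _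
            have hpp := Nat.prime_of_mem_primesBelow hp
            have : (1 : ℝ) ≤ p := by exact_mod_cast hpp.one_lt.le
            have : 0 ≤ 1 / ((p : ℝ) - 1) := div_nonneg zero_le_one (by linarith)
            linarith
  · -- large primes
    set B := (k + 1).primesBelow.filter (fun p => ¬ p ≤ z) with hB
    calc ∏ p ∈ B, (1 + hQ Q' p / ((p : ℝ) - 1)) ≤ ∏ p ∈ B, Real.exp (hQ Q' p / ((p : ℝ) - 1)) := by
          apply Finset.prod_le_prod
          · intro p hp
            have := hnn p (Nat.prime_of_mem_primesBelow (mem_filter.1 hp).1)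
            linarith
          · intro p _
            have := Real.add_one_le_exp (hQ Q' p / ((p : ℝ) - 1))
            linarith
      _ = Real.exp (∑ p ∈ B, hQ Q' p / ((p : ℝ) - 1)) := by rw [Real.exp_sum]
      _ ≤ Real.exp (D + 4) := by
          apply Real.exp_le_exp.2
          have hBp : ∀ p ∈ B, p.Prime ∧ z < p ∧ p ≤ k := by
            intro p hp
            rw [hB, mem_filter, Nat.mem_primesBelow] at hp
            exact ⟨hp.1.2, by omega, by omega⟩
          have hterm : ∀ p ∈ B, hQ Q' p / ((p : ℝ) - 1) ≤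
              (if p ∈ Q' then 1 / ((p : ℝ) * ((p : ℝ) - 1)) else 0) +
              (if p ∈ S then 2 * (1 / (p : ℝ)) else 0) + (if p = ps then 1 else 0) +
              (if p = p0 then 1 else 0) + (if y < p then 1 / (y : ℝ) else 0) := by
            intro p hp
            obtain ⟨hpp, hzp, hpk⟩ := hBp p hp
            have h2 : (2 : ℝ) ≤ p := by exact_mod_cast hpp.two_le
            have t1 : 0 ≤ (if p ∈ Q' then 1 / ((p : ℝ) * ((p : ℝ) - 1)) else 0) := by
              split_ifs
              · apply div_nonneg zero_le_one; nlinarith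
              · exact le_rfl
            have t2 : 0 ≤ (if p ∈ S then 2 * (1 / (p : ℝ)) else 0) := by
              split_ifs
              · positivity
              · exact le_rfl
            have t3 : (0 : ℝ) ≤ (if p = ps then 1 else 0) := by split_ifs <;> norm_num
            have t4 : (0 : ℝ) ≤ (if p = p0 then 1 else 0) := by split_ifs <;> norm_num
            have t5 : 0 ≤ (if y < p then 1 / (y : ℝ) else 0) := by
              split_ifs
              · positivity
              · exact le_rfl
            have hle1 : hQ Q' p / ((p : ℝ) - 1) ≤ 1 / ((p : ℝ) - 1) := by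
              have h3 : 0 < (p : ℝ) - 1 := by linarith
              have := hQ_le_one Q' p
              gcongr
            by_cases c1 : p ∈ Q'
            · have h3 : hQ Q' p / ((p : ℝ) - 1) = 1 / ((p : ℝ) * ((p : ℝ) - 1)) := by
                rw [hQ_prime Q' hQ'p p hpp, if_pos c1, div_div]
              rw [h3]
              rw [if_pos c1] at t1 ⊢
              linarith
            by_cases c2 : p ∈ S
            · have h3 : 1 / ((p : ℝ) - 1) ≤ 2 * (1 / p) := by
                rw [mul_one_div, div_le_div_iff₀ (by linarith) (by linarith)]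
                linarith
              rw [if_pos c2] at t2 ⊢
              linarith
            by_cases c3 : p = ps
            · have h3 : 1 / ((p : ℝ) - 1) ≤ 1 := by
                rw [div_le_one (by linarith)]; linarith
              rw [if_pos c3] at t3 ⊢
              linarith
            by_cases c4 : p = p0
            · have h3 : 1 / ((p : ℝ) - 1) ≤ 1 := by
                rw [div_le_one (by linarith)]; linarith
              rw [if_pos c4] at t4 ⊢
              linarith
            by_cases c5 : y < p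
            · have hy0 : (0 : ℝ) < y := by exact_mod_cast h.hy
              have h4 : (y : ℝ) ≤ (p : ℝ) - 1 := by
                have : (y : ℝ) + 1 ≤ p := by exact_mod_cast c5
                linarith
              have h3 : 1 / ((p : ℝ) - 1) ≤ 1 / y := one_div_le_one_div_of_le hy0 h4
              rw [if_pos c5] at t5 ⊢
              linarith
            · exfalso
              rcases h.hcov p hpp hzp (by omega) with h5 | h5 | h5
              · exact c1 (mem_erase.2 ⟨c4, h5⟩)
              · exact c2 h5
              · exact c3 h5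
          refine (Finset.sum_le_sum hterm).trans ?_
          rw [Finset.sum_add_distrib, Finset.sum_add_distrib, Finset.sum_add_distrib,
            Finset.sum_add_distrib]
          have s1 : ∑ p ∈ B, (if p ∈ Q' then 1 / ((p : ℝ) * ((p : ℝ) - 1)) else 0) ≤ 1 := by
            have h6 : ∀ N, z ≤ N → ∑ p ∈ Ioc z N, 1 / ((p : ℝ) * ((p : ℝ) - 1)) ≤
                1 / (z : ℝ) - 1 / (N : ℝ) := by
              intro N hN
              induction N, hN using Nat.le_induction with
              | base => simp
              | succ N hN ih =>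
                rw [Finset.sum_Ioc_succ_top hN]
                have hN0 : (0 : ℝ) < N := by exact_mod_cast (lt_of_lt_of_le h.hz hN)
                have : 1 / (((N + 1 : ℕ) : ℝ) * (((N + 1 : ℕ) : ℝ) - 1)) =
                    1 / (N : ℝ) - 1 / ((N + 1 : ℕ) : ℝ) := by
                  push_cast
                  rw [add_sub_cancel_right]
                  field_simp
                  ring
                linarith
            have h7 := h6 (max z k) (le_max_left _ _)
            have hz0 : (1 : ℝ) ≤ z := by exact_mod_cast h.hz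
            have h8 : 1 / (z : ℝ) ≤ 1 := by rw [div_le_one (by linarith)]; exact hz0
            have h9 : (0 : ℝ) ≤ 1 / ((max z k : ℕ) : ℝ) := by positivity
            refine le_trans ?_ (h7.trans (by linarith))
            calc ∑ p ∈ B, (if p ∈ Q' then 1 / ((p : ℝ) * ((p : ℝ) - 1)) else 0)
                ≤ ∑ p ∈ B, 1 / ((p : ℝ) * ((p : ℝ) - 1)) := by
                  apply Finset.sum_le_sum
                  intro p hp
                  have h2 : (2 : ℝ) ≤ p := by exact_mod_cast (hBp p hp).1.two_le
                  split_ifs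
                  · exact le_rfl
                  · apply div_nonneg zero_le_one; nlinarith
              _ ≤ ∑ p ∈ Ioc z (max z k), 1 / ((p : ℝ) * ((p : ℝ) - 1)) := by
                  apply Finset.sum_le_sum_of_subset_of_nonneg
                  · intro p hp
                    rw [mem_Ioc]
                    exact ⟨(hBp p hp).2.1, (hBp p hp).2.2.trans (le_max_right _ _)⟩
                  · intro p hp _
                    rw [mem_Ioc] at hp
                    have : (1 : ℝ) ≤ p := by exact_mod_cast (by omega : 1 ≤ p)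
                    apply div_nonneg zero_le_one
                    apply mul_nonneg <;> linarith
          have s2 : ∑ p ∈ B, (if p ∈ S then 2 * (1 / (p : ℝ)) else 0) ≤ 1 := by
            rw [← Finset.sum_filter, ← Finset.mul_sum]
            have : ∑ p ∈ B.filter (fun p => p ∈ S), 1 / (p : ℝ) ≤ ∑ q ∈ S, (1 : ℝ) / q := by
              apply Finset.sum_le_sum_of_subset_of_nonneg
              · intro p hp; exact (mem_filter.1 hp).2
              · intro p _ _; positivity
            have := h.hSsum
            linarith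
          have s34 : ∀ q : ℕ, ∑ p ∈ B, (if p = q then (1 : ℝ) else 0) ≤ 1 := by
            intro q
            rw [Finset.sum_ite_eq' B q (fun _ => (1 : ℝ))]
            split_ifs <;> norm_num
          have s5 : ∑ p ∈ B, (if y < p then 1 / (y : ℝ) else 0) ≤ D := by
            rw [← Finset.sum_filter, Finset.sum_const, nsmul_eq_mul]
            have h6 : (B.filter (fun p => y < p)).card ≤ k := by
              have h7 : B.filter (fun p => y < p) ⊆ Icc 1 k := by
                intro p hp
                have h8 := hBp p (mem_filter.1 hp).1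
                rw [mem_Icc]
                exact ⟨h8.1.one_lt.le, h8.2.2⟩
              simpa using Finset.card_le_card h7
            have hy0 : (0 : ℝ) < y := by exact_mod_cast h.hy
            rw [mul_one_div, div_le_iff₀ hy0]
            exact_mod_cast h6.trans h.hk
          have := s34 ps
          have := s34 p0
          linarith
  · apply Finset.prod_nonneg
    intro p hp
    have := hnn p (Nat.prime_of_mem_primesBelow (mem_filter.1 hp).1)
    linarith
  · positivity

lemma sum_biUnion_le' (s : Finset ℕ) (t : ℕ → Finset ℕ) (f : ℕ → ℝ) (hf : ∀ a, 0 ≤ f a) :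
    ∑ a ∈ s.biUnion t, f a ≤ ∑ i ∈ s, ∑ a ∈ t i, f a := by
  classical
  induction s using Finset.induction_on with
  | empty => simp
  | insert i s hi ih =>
    rw [Finset.biUnion_insert, Finset.sum_insert hi]
    have h1 := Finset.sum_union_inter (s₁ := t i) (s₂ := s.biUnion t) (f := f)
    have h2 : 0 ≤ ∑ a ∈ t i ∩ s.biUnion t, f a := Finset.sum_nonneg (fun a _ => hf a)
    linarith

/-- the uncovered part: integers divisible by some prime of `Q` -/
lemma sum_notV_le {z y k D : ℕ} {S : Finset ℕ} {ps : ℕ} {Q : Finset ℕ} (h : Data z y k D S ps Q)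
    (hk2 : 2 ≤ k) :
    ∑ s ∈ (Icc 1 k).filter (fun s => ∃ p ∈ Q, p ∣ s), hQ Q s ≤
      Real.sqrt k + (k / Real.log k) * (60 * Real.exp (D + 4) / Real.sqrt z) := by
  have hk0 : (2 : ℝ) ≤ k := by exact_mod_cast hk2
  have hlk : 0 < Real.log k := Real.log_pos (by linarith)
  have hz0 : (1 : ℝ) ≤ z := by exact_mod_cast h.hz
  set E := Real.exp ((D : ℝ) + 4) with hE
  have hE1 : 1 ≤ E := Real.one_le_exp (by positivity)
  -- weighted sum
  have h1 : ∑ s ∈ (Icc 1 k).filter (fun s => ∃ p ∈ Q, p ∣ s), hQ Q s * Real.log s ≤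
      k * (30 * E / Real.sqrt z) := by
    calc ∑ s ∈ (Icc 1 k).filter (fun s => ∃ p ∈ Q, p ∣ s), hQ Q s * Real.log s
        ≤ ∑ p ∈ Q, ∑ s ∈ (Icc 1 k).filter (fun s => p ∣ s), hQ Q s * Real.log s := by
          have hsub : (Icc 1 k).filter (fun s => ∃ p ∈ Q, p ∣ s) ⊆
              Q.biUnion (fun p => (Icc 1 k).filter (fun s => p ∣ s)) := by
            intro s hs
            rw [mem_filter] at hs
            obtain ⟨h2, p, hp, hps⟩ := hs
            exact mem_biUnion.2 ⟨p, hp, mem_filter.2 ⟨h2, hps⟩⟩
          have hnn : ∀ s : ℕ, 0 ≤ hQ Q s * Real.log s := fun s =>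
            mul_nonneg (hQ_nonneg _ _) (Real.log_natCast_nonneg s)
          refine (Finset.sum_le_sum_of_subset_of_nonneg hsub (fun s _ _ => hnn s)).trans ?_
          exact sum_biUnion_le' _ _ _ hnn
      _ ≤ ∑ p ∈ Q, (6 * k / (p : ℝ) ^ 2 * (2 * Real.sqrt (z + 1) * E) +
            k * (Real.log p / (p * ((p : ℝ) - 1)))) := by
          apply Finset.sum_le_sum
          intro p hp
          refine (log_sum_le Q h.hQ p hp k).trans ?_
          have := sum_erase_le h p
          gcongr
      _ = 12 * k * Real.sqrt (z + 1) * E * (∑ p ∈ Q, 1 / (p : ℝ) ^ 2) +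
            k * ∑ p ∈ Q, Real.log p / (p * ((p : ℝ) - 1)) := by
          rw [Finset.sum_add_distrib, Finset.mul_sum, Finset.mul_sum]
          congr 1
          apply Finset.sum_congr rfl
          intro p _
          ring
      _ ≤ 12 * k * Real.sqrt (z + 1) * E * (1 / z) + k * (8 / Real.sqrt z) := by
          have a1 := sum_inv_sq_le Q z h.hz h.hQz
          have a2 := sum_log_le Q z h.hz h.hQz
          gcongr
      _ ≤ k * (30 * E / Real.sqrt z) := by
          have a3 : Real.sqrt (z + 1) ≤ 1.5 * Real.sqrt z := by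
            rw [show (1.5 : ℝ) = Real.sqrt (1.5 ^ 2) by rw [Real.sqrt_sq]; norm_num,
              ← Real.sqrt_mul (by norm_num)]
            apply Real.sqrt_le_sqrt
            nlinarith
          have a4 : 0 < Real.sqrt z := Real.sqrt_pos.2 (by linarith)
          have a5 : Real.sqrt z * Real.sqrt z = z := Real.mul_self_sqrt (by linarith)
          have a6 : Real.sqrt (z + 1) * (1 / z) ≤ 1.5 / Real.sqrt z := by
            rw [mul_one_div, div_le_div_iff₀ (by linarith) a4]
            nlinarith
          have a7 : 12 * (k : ℝ) * Real.sqrt (z + 1) * E * (1 / z) =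
              12 * k * E * (Real.sqrt (z + 1) * (1 / z)) := by ring
          rw [a7]
          calc 12 * (k : ℝ) * E * (Real.sqrt (z + 1) * (1 / z)) + k * (8 / Real.sqrt z)
              ≤ 12 * k * E * (1.5 / Real.sqrt z) + k * (8 * E / Real.sqrt z) := by
                gcongr
                nlinarith
            _ = k * (26 * E / Real.sqrt z) := by ring
            _ ≤ k * (30 * E / Real.sqrt z) := by gcongr; norm_num
  -- split at sqrt
  rw [← Finset.sum_filter_add_sum_filter_not _ (fun s => s ≤ Nat.sqrt k)]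
  apply add_le_add
  · calc ∑ s ∈ ((Icc 1 k).filter (fun s => ∃ p ∈ Q, p ∣ s)).filter (fun s => s ≤ Nat.sqrt k), hQ Q s
        ≤ ∑ s ∈ ((Icc 1 k).filter (fun s => ∃ p ∈ Q, p ∣ s)).filter (fun s => s ≤ Nat.sqrt k), 1 :=
          Finset.sum_le_sum (fun s _ => hQ_le_one Q s)
      _ = ((((Icc 1 k).filter (fun s => ∃ p ∈ Q, p ∣ s)).filter
            (fun s => s ≤ Nat.sqrt k)).card : ℝ) := by simp
      _ ≤ (Nat.sqrt k : ℝ) := by
          have h2 : ((Icc 1 k).filter (fun s => ∃ p ∈ Q, p ∣ s)).filter (fun s => s ≤ Nat.sqrt k) ⊆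
              Icc 1 (Nat.sqrt k) := by
            intro s hs
            rw [mem_filter, mem_filter, mem_Icc] at hs
            rw [mem_Icc]
            exact ⟨hs.1.1.1, hs.2⟩
          have h3 := Finset.card_le_card h2
          rw [Nat.card_Icc, Nat.add_sub_cancel] at h3
          exact_mod_cast h3
      _ ≤ Real.sqrt k := Real.nat_sqrt_le_real_sqrt
  · have h2 : ∀ s ∈ ((Icc 1 k).filter (fun s => ∃ p ∈ Q, p ∣ s)).filter (fun s => ¬ s ≤ Nat.sqrt k),
        hQ Q s ≤ (2 / Real.log k) * (hQ Q s * Real.log s) := by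
      intro s hs
      rw [mem_filter] at hs
      have h3 : k < s * s := by
        have := Nat.sqrt_lt'.1 (not_le.1 hs.2)
        nlinarith
      have h4 : Real.log k ≤ 2 * Real.log s := by
        have h5 : (k : ℝ) ≤ (s : ℝ) ^ 2 := by
          have : k ≤ s ^ 2 := by nlinarith
          exact_mod_cast this
        have := Real.log_le_log (by linarith) h5
        rw [Real.log_pow] at this
        exact_mod_cast this
      have h5 : 1 ≤ (2 / Real.log k) * Real.log s := by
        rw [div_mul_eq_mul_div, le_div_iff₀ hlk]; linarith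
      have h6 := hQ_nonneg Q s
      nlinarith
    calc ∑ s ∈ ((Icc 1 k).filter (fun s => ∃ p ∈ Q, p ∣ s)).filter (fun s => ¬ s ≤ Nat.sqrt k), hQ Q s
        ≤ ∑ s ∈ ((Icc 1 k).filter (fun s => ∃ p ∈ Q, p ∣ s)).filter (fun s => ¬ s ≤ Nat.sqrt k),
          (2 / Real.log k) * (hQ Q s * Real.log s) := Finset.sum_le_sum h2
      _ = (2 / Real.log k) * ∑ s ∈ ((Icc 1 k).filter (fun s => ∃ p ∈ Q, p ∣ s)).filter
            (fun s => ¬ s ≤ Nat.sqrt k), hQ Q s * Real.log s := by rw [Finset.mul_sum]
      _ ≤ (2 / Real.log k) * ∑ s ∈ (Icc 1 k).filter (fun s => ∃ p ∈ Q, p ∣ s),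
            hQ Q s * Real.log s := by
          apply mul_le_mul_of_nonneg_left _ (by positivity)
          apply Finset.sum_le_sum_of_subset_of_nonneg (Finset.filter_subset _ _)
          intro s hs _
          have h3 := mem_Icc.1 (mem_filter.1 hs).1
          have : (1 : ℝ) ≤ s := by exact_mod_cast h3.1
          exact mul_nonneg (hQ_nonneg _ _) (Real.log_nonneg this)
      _ ≤ (2 / Real.log k) * (k * (30 * E / Real.sqrt z)) :=
          mul_le_mul_of_nonneg_left h1 (by positivity)
      _ = (k / Real.log k) * (60 * E / Real.sqrt z) := by ring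

end Pool.Agent.H378R2
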