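import Mathlib
import Pool.Agent.H378R2.M6c

open Finset

namespace Pool.Agent.H378R2

open Classical in
/-- integers in `[1,t]` free of primes of `Q` -/
noncomputable def VV (Q : Finset ℕ) (t : ℕ) : Finset ℕ := (Icc 1 t).filter (fun s => ∀ p ∈ Q, ¬ p ∣ s)

lemma card_multiples (t q : ℕ) : ((Icc 1 t).filter (fun s => q ∣ s)).card = t / q := by
  have : Icc 1 t = Ioc 0 t := by ext x; simp only [mem_Icc, mem_Ioc]; omega
  rw [this]
  exact Nat.Ioc_filter_dvd_card_eq_div t q

lemma VV_card_le {z y k D : ℕ} {S : Finset ℕ} {ps : ℕ} {Q : Finset ℕ} (h : Data z y k D S ps Q)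
    (hps : ps = 1 ∨ ps.Prime) (t : ℕ) (ht : t ≤ k) :
    ((VV Q t).card : ℝ) ≤ ((Nat.log 2 t : ℝ) + 1) * 2 ^ (z + 1) * Real.sqrt t +
      D * (Nat.primeCounting t : ℝ) + t * ∑ q ∈ S, (1 : ℝ) / q := by
  classical
  set V1 := ((range (Nat.log 2 t + 1)) ×ˢ (Nat.smoothNumbersUpTo t (z + 1))).image
    (fun x : ℕ × ℕ => ps ^ x.1 * x.2) with hV1
  set V2 := ((t + 1).primesBelow.filter (fun q => y < q)).biUnion
    (fun q => (Icc 1 t).filter (fun s => q ∣ s)) with hV2
  set V3 := S.biUnion (fun q => (Icc 1 t).filter (fun s => q ∣ s)) with hV3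
  have hsub : VV Q t ⊆ V1 ∪ V2 ∪ V3 := by
    intro s hs
    rw [VV, mem_filter] at hs
    obtain ⟨hs1, hs2⟩ := hs
    rw [mem_Icc] at hs1
    by_cases c2 : s ∈ V2
    · exact mem_union_left _ (mem_union_right _ c2)
    by_cases c3 : s ∈ V3
    · exact mem_union_right _ c3
    apply mem_union_left _ (mem_union_left _ _)
    have hprime : ∀ q, q.Prime → q ∣ s → q ≤ z ∨ q = ps := by
      intro q hq hqs
      have hqt : q ≤ t := (Nat.le_of_dvd (by omega) hqs).trans hs1.2
      have hqy : q ≤ y := by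
        by_contra hcon
        apply c2
        rw [hV2, mem_biUnion]
        exact ⟨q, mem_filter.2 ⟨Nat.mem_primesBelow.2 ⟨by omega, hq⟩, by omega⟩,
          mem_filter.2 ⟨mem_Icc.2 hs1, hqs⟩⟩
      by_cases hqz : q ≤ z
      · exact Or.inl hqz
      · right
        rcases h.hcov q hq (by omega) hqy with h4 | h4 | h4
        · exact absurd hqs (hs2 q h4)
        · exfalso
          apply c3
          rw [hV3, mem_biUnion]
          exact ⟨q, h4, mem_filter.2 ⟨mem_Icc.2 hs1, hqs⟩⟩
        · exact h4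
    rw [hV1, mem_image]
    rcases hps with hp1 | hpp
    · refine ⟨(0, s), ?_, by simp⟩
      rw [mem_product, mem_range, Nat.mem_smoothNumbersUpTo, Nat.mem_smoothNumbers']
      refine ⟨by simp, hs1.2, ?_⟩
      intro q hq hqs
      rcases hprime q hq hqs with h4 | h4
      · omega
      · exact absurd hq (by rw [h4, hp1]; exact Nat.not_prime_one)
    · obtain ⟨b, s', hns, hss⟩ := Nat.exists_eq_pow_mul_and_not_dvd (n := s) (by omega) ps
        hpp.ne_one
      refine ⟨(b, s'), ?_, hss.symm⟩
      have hs'0 : 0 < s' := by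
        rcases Nat.eq_zero_or_pos s' with h5 | h5
        · subst h5; simp at hns
        · exact h5
      have hs's : s' ≤ s := by
        rw [hss]; exact Nat.le_mul_of_pos_left _ (pow_pos hpp.pos b)
      rw [mem_product, mem_range, Nat.mem_smoothNumbersUpTo, Nat.mem_smoothNumbers']
      refine ⟨?_, hs's.trans hs1.2, ?_⟩
      · have h6 : 2 ^ b ≤ t := by
          calc 2 ^ b ≤ ps ^ b := Nat.pow_le_pow_left hpp.two_le b
            _ ≤ ps ^ b * s' := Nat.le_mul_of_pos_right _ hs'0
            _ = s := hss.symm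
            _ ≤ t := hs1.2
        have h7 : b ≤ Nat.log 2 t := Nat.le_log_of_pow_le (by norm_num) h6
        omega
      · intro q hq hqs'
        rcases hprime q hq (hss ▸ hqs'.mul_left _) with h4 | h4
        · omega
        · subst h4; exact absurd hqs' hns
  have hcard : (VV Q t).card ≤ V1.card + V2.card + V3.card :=
    (Finset.card_le_card hsub).trans ((Finset.card_union_le _ _).trans
      (Nat.add_le_add_right (Finset.card_union_le _ _) _))
  have hc : ((VV Q t).card : ℝ) ≤ V1.card + V2.card + V3.card := by exact_mod_cast hcard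
  refine hc.trans (add_le_add (add_le_add ?_ ?_) ?_)
  · -- V1
    have h1 : V1.card ≤ (Nat.log 2 t + 1) * (2 ^ (z + 1) * Nat.sqrt t) := by
      refine Finset.card_image_le.trans ?_
      rw [Finset.card_product, Finset.card_range]
      apply Nat.mul_le_mul_left
      refine (Nat.smoothNumbersUpTo_card_le t (z + 1)).trans ?_
      apply Nat.mul_le_mul_right
      apply Nat.pow_le_pow_right (by norm_num)
      calc (z + 1).primesBelow.card ≤ (range (z + 1)).card := Finset.card_le_card
            (Finset.filter_subset _ _)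
        _ = z + 1 := Finset.card_range _
    have h2 : (V1.card : ℝ) ≤ ((Nat.log 2 t : ℝ) + 1) * (2 ^ (z + 1) * (Nat.sqrt t : ℝ)) := by
      exact_mod_cast h1
    have h3 : (Nat.sqrt t : ℝ) ≤ Real.sqrt t := Real.nat_sqrt_le_real_sqrt
    refine h2.trans ?_
    rw [mul_assoc]
    gcongr
  · -- V2
    have h1 : V2.card ≤ ∑ q ∈ (t + 1).primesBelow.filter (fun q => y < q), t / q := by
      refine Finset.card_biUnion_le.trans (le_of_eq ?_)
      apply Finset.sum_congr rfl
      intro q _
      exact card_multiples t q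
    have h2 : ∀ q ∈ (t + 1).primesBelow.filter (fun q => y < q), t / q ≤ D := by
      intro q hq
      have hyq := (mem_filter.1 hq).2
      have : t / q ≤ D * y / y := by
        calc t / q ≤ t / y := Nat.div_le_div_left hyq.le (by have := h.hy; omega)
          _ ≤ D * y / y := Nat.div_le_div_right (ht.trans h.hk)
      rwa [Nat.mul_div_cancel _ (by have := h.hy; omega)] at this
    have h3 : V2.card ≤ D * Nat.primeCounting t := by
      calc V2.card ≤ _ := h1
        _ ≤ ∑ q ∈ (t + 1).primesBelow.filter (fun q => y < q), D := Finset.sum_le_sum h2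
        _ = ((t + 1).primesBelow.filter (fun q => y < q)).card * D := by simp
        _ ≤ (t + 1).primesBelow.card * D :=
            Nat.mul_le_mul_right _ (Finset.card_le_card (Finset.filter_subset _ _))
        _ = D * Nat.primeCounting t := by
            rw [Nat.primesBelow_card_eq_primeCounting', Nat.primeCounting, mul_comm]
    exact_mod_cast h3
  · -- V3
    have h1 : V3.card ≤ ∑ q ∈ S, t / q := by
      refine Finset.card_biUnion_le.trans (le_of_eq ?_)
      apply Finset.sum_congr rfl
      intro q _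
      exact card_multiples t q
    calc (V3.card : ℝ) ≤ ((∑ q ∈ S, t / q : ℕ) : ℝ) := by exact_mod_cast h1
      _ = ∑ q ∈ S, ((t / q : ℕ) : ℝ) := by push_cast; rfl
      _ ≤ ∑ q ∈ S, t * ((1 : ℝ) / q) := by
          apply Finset.sum_le_sum
          intro q _
          rw [mul_one_div]
          exact Nat.cast_div_le
      _ = t * ∑ q ∈ S, (1 : ℝ) / q := by rw [Finset.mul_sum]

open Filter in
lemma VV_bound (D z : ℕ) : ∃ t0 : ℕ, 2 ≤ t0 ∧ ∀ {y k : ℕ} {S : Finset ℕ} {ps : ℕ} {Q : Finset ℕ},
    Data z y k D S ps Q → (ps = 1 ∨ ps.Prime) → ∑ q ∈ S, (1 : ℝ) / q ≤ 12 / Real.log k →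
    ∀ t, t0 ≤ t → t ≤ k → ((VV Q t).card : ℝ) ≤ (5 * D + 13) * (t / Real.log t) := by
  have hev : ∀ᶠ t : ℕ in atTop, 2 ≤ t ∧
      ((Nat.log 2 t : ℝ) + 1) * 2 ^ (z + 1) * Real.sqrt t ≤ t / Real.log t := by
    have h1 := (isLittleO_log_rpow_atTop (show (0 : ℝ) < 1 / 4 by norm_num)).bound
      (show (0 : ℝ) < 1 / (4 * 2 ^ (z + 1)) by positivity)
    have h2 := (tendsto_natCast_atTop_atTop (R := ℝ)).eventually h1
    filter_upwards [h2, eventually_ge_atTop 3] with t ht ht3
    refine ⟨by omega, ?_⟩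
    have ht0 : (3 : ℝ) ≤ t := by exact_mod_cast ht3
    have hl1 : 1 ≤ Real.log t := by
      rw [Real.le_log_iff_exp_le (by linarith)]
      have := Real.exp_one_lt_d9
      linarith
    rw [Real.norm_of_nonneg (by linarith), Real.norm_of_nonneg (by positivity)] at ht
    have h3 : (Nat.log 2 t : ℝ) * Real.log 2 ≤ Real.log t := by
      have h4 : 2 ^ (Nat.log 2 t) ≤ t := Nat.pow_log_le_self 2 (by omega)
      have h5 : ((2 : ℝ) ^ (Nat.log 2 t)) ≤ t := by exact_mod_cast h4
      have h6 := Real.log_le_log (by positivity) h5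
      rwa [Real.log_pow] at h6
    have h4 : (Nat.log 2 t : ℝ) + 1 ≤ 4 * Real.log t := by
      have := Real.log_two_gt_d9
      have h7 : (0 : ℝ) ≤ (Nat.log 2 t : ℝ) := Nat.cast_nonneg _
      nlinarith
    rw [le_div_iff₀ (by linarith)]
    set A : ℝ := 2 ^ (z + 1) with hA
    have hA0 : 0 < A := by positivity
    have h5 : 4 * A * Real.log t ≤ (t : ℝ) ^ (1 / 4 : ℝ) := by
      rw [div_mul_eq_mul_div, one_mul, le_div_iff₀ (by positivity)] at ht
      linarith
    have h6 : (t : ℝ) ^ (1 / 4 : ℝ) * (t : ℝ) ^ (1 / 4 : ℝ) = Real.sqrt t := by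
      rw [← Real.rpow_add (by linarith), Real.sqrt_eq_rpow]; norm_num
    have h7 : Real.sqrt t * Real.sqrt t = t := Real.mul_self_sqrt (by linarith)
    have hA1 : 1 ≤ A := one_le_pow₀ (by norm_num)
    calc ((Nat.log 2 t : ℝ) + 1) * A * Real.sqrt t * Real.log t
        ≤ (4 * Real.log t) * A * Real.sqrt t * Real.log t := by gcongr
      _ = (4 * A * Real.log t) * Real.log t * Real.sqrt t := by ring
      _ ≤ (4 * A * Real.log t) * (4 * A * Real.log t) * Real.sqrt t := by
          gcongr
          nlinarith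
      _ ≤ ((t : ℝ) ^ (1 / 4 : ℝ)) * ((t : ℝ) ^ (1 / 4 : ℝ)) * Real.sqrt t := by
          gcongr
      _ = t := by rw [h6, h7]
  obtain ⟨t0, ht0⟩ := eventually_atTop.1 hev
  refine ⟨max t0 2, le_max_right _ _, ?_⟩
  intro y k S ps Q hD hps hS t ht htk
  obtain ⟨ht2, ht1⟩ := ht0 t ((le_max_left _ _).trans ht)
  have htr : (2 : ℝ) ≤ t := by exact_mod_cast ht2
  have hlt : 0 < Real.log t := Real.log_pos (by linarith)
  have hltk : Real.log t ≤ Real.log k := Real.log_le_log (by linarith) (by exact_mod_cast htk)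
  refine (VV_card_le hD hps t htk).trans ?_
  have h1 : (Nat.primeCounting t : ℝ) ≤ 5 * (t / Real.log t) := by
    have h2 := Chebyshev.pi_le_log4_mul_div (x := (t : ℝ)) (by linarith)
    rw [Nat.floor_natCast] at h2
    have h3 : Real.log (Real.sqrt t) = Real.log t / 2 := Real.log_sqrt (by linarith)
    have h4 : Real.sqrt t ≤ 2 * (t / Real.log t) := by
      rw [mul_div_assoc', le_div_iff₀ hlt]
      have h5 : Real.log t ≤ 2 * Real.sqrt t := by
        have h6 := Real.log_le_sub_one_of_pos (Real.sqrt_pos.2 (show (0 : ℝ) < t by linarith))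
        rw [h3] at h6
        linarith
      have h7 : Real.sqrt t * Real.sqrt t = t := Real.mul_self_sqrt (by linarith)
      nlinarith [Real.sqrt_nonneg (t : ℝ)]
    have h5 : Real.log 4 * t / Real.log (Real.sqrt t) ≤ 3 * (t / Real.log t) := by
      rw [h3]
      have h6 : Real.log 4 ≤ 1.5 := by
        have : Real.log 4 = 2 * Real.log 2 := by
          rw [show (4 : ℝ) = 2 ^ 2 by norm_num, Real.log_pow]; norm_num
        have := Real.log_two_lt_d9
        linarith
      have h7 : Real.log 4 * t / (Real.log t / 2) = (2 * Real.log 4) * (t / Real.log t) := by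
        field_simp
      rw [h7]
      have : 0 ≤ t / Real.log t := by positivity
      nlinarith
    linarith
  have h2 : (t : ℝ) * ∑ q ∈ S, (1 : ℝ) / q ≤ 12 * (t / Real.log t) := by
    calc (t : ℝ) * ∑ q ∈ S, (1 : ℝ) / q ≤ t * (12 / Real.log k) := by gcongr
      _ ≤ t * (12 / Real.log t) := by gcongr
      _ = 12 * (t / Real.log t) := by ring
  have h3 : (D : ℝ) * (Nat.primeCounting t : ℝ) ≤ D * (5 * (t / Real.log t)) := by gcongr
  linarith

end Pool.Agent.H378R2
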