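import Mathlib

open Finset

namespace Pool.Agent.H378R2

/-- one greedy step -/
lemma greedy_step (U : Finset ℕ) (p : ℕ) (hp : 2 ≤ p) :
    ∃ r, 1 ≤ r ∧ r < p ∧
      (U.card : ℝ) - ((U.filter (fun s => p ∣ s)).card : ℝ) ≤
        ((p : ℝ) - 1) * ((U.filter (fun s => s % p = r)).card : ℝ) := by
  by_contra hcon
  push Not at hcon
  have hp1 : (1 : ℝ) < p := by exact_mod_cast hp
  have h1 : ∑ r ∈ Icc 1 (p - 1), ((U.filter (fun s => s % p = r)).card : ℝ) =
      (U.card : ℝ) - ((U.filter (fun s => p ∣ s)).card : ℝ) := by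
    have h2 : (U.filter (fun s => ¬ p ∣ s)).card =
        ∑ r ∈ Icc 1 (p - 1), ((U.filter (fun s => ¬ p ∣ s)).filter (fun s => s % p = r)).card := by
      apply Finset.card_eq_sum_card_fiberwise
      intro s hs
      rw [mem_coe, mem_filter] at hs
      rw [mem_coe, mem_Icc]
      have h3 : s % p ≠ 0 := fun h => hs.2 (Nat.dvd_of_mod_eq_zero h)
      have h4 := Nat.mod_lt s (show 0 < p by omega)
      show 1 ≤ s % p ∧ s % p ≤ p - 1
      omega
    have h3 := Finset.card_filter_add_card_filter_not (s := U) (fun s => p ∣ s)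
    have h4 : ∀ r ∈ Icc 1 (p - 1), ((U.filter (fun s => ¬ p ∣ s)).filter (fun s => s % p = r)).card =
        (U.filter (fun s => s % p = r)).card := by
      intro r hr
      rw [mem_Icc] at hr
      congr 1
      ext s
      simp only [mem_filter]
      constructor
      · rintro ⟨⟨a, _⟩, c⟩; exact ⟨a, c⟩
      · rintro ⟨a, c⟩
        refine ⟨⟨a, fun h => ?_⟩, c⟩
        have := Nat.mod_eq_zero_of_dvd h
        omega
    rw [Finset.sum_congr rfl h4] at h2
    have h5 : ((U.filter (fun s => ¬ p ∣ s)).card : ℝ) =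
        ∑ r ∈ Icc 1 (p - 1), ((U.filter (fun s => s % p = r)).card : ℝ) := by
      rw [h2]; push_cast; rfl
    rw [← h5, ← h3]
    push_cast
    ring
  have h6 : ∑ r ∈ Icc 1 (p - 1), ((U.filter (fun s => s % p = r)).card : ℝ) <
      ∑ _r ∈ Icc 1 (p - 1), ((U.card : ℝ) - ((U.filter (fun s => p ∣ s)).card : ℝ)) / ((p : ℝ) - 1) := by
    apply Finset.sum_lt_sum_of_nonempty
    · exact ⟨1, by rw [mem_Icc]; omega⟩
    · intro r hr
      rw [mem_Icc] at hr
      have := hcon r hr.1 (by omega)
      rw [lt_div_iff₀ (by linarith)]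
      linarith
  rw [h1, Finset.sum_const, Nat.card_Icc, nsmul_eq_mul] at h6
  have h7 : ((p - 1 + 1 - 1 : ℕ) : ℝ) = (p : ℝ) - 1 := by
    rw [show p - 1 + 1 - 1 = p - 1 by omega]
    rw [Nat.cast_sub (by omega)]; simp
  rw [h7, mul_div_cancel₀ _ (by linarith)] at h6
  exact lt_irrefl _ h6

lemma greedy (V : Finset ℕ) (c : ℝ) (hc : 0 ≤ c) (T : Finset ℕ) (hT : ∀ p ∈ T, 2 ≤ p)
    (hN : ∀ p ∈ T, ((V.filter (fun s => p ∣ s)).card : ℝ) ≤ c / p) :
    ∃ b : ℕ → ℕ, (∀ p ∈ T, ¬ p ∣ b p) ∧
      ((V.filter (fun s => ∀ p ∈ T, ¬ s % p = b p % p)).card : ℝ) ≤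
        V.card * ∏ p ∈ T, (1 - 1 / (p : ℝ)) + ∑ p ∈ T, c / (p * ((p : ℝ) - 1)) := by
  classical
  induction T using Finset.induction_on with
  | empty => exact ⟨fun _ => 1, by simp, by simp⟩
  | insert p T hpT ih =>
    obtain ⟨b, hb1, hb2⟩ := ih (fun q hq => hT q (mem_insert_of_mem hq))
      (fun q hq => hN q (mem_insert_of_mem hq))
    set U := V.filter (fun s => ∀ q ∈ T, ¬ s % q = b q % q) with hU
    have hp2 := hT p (mem_insert_self _ _)
    have hp1 : (1 : ℝ) < p := by exact_mod_cast hp2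
    obtain ⟨r, hr1, hrp, hr⟩ := greedy_step U p hp2
    refine ⟨Function.update b p r, ?_, ?_⟩
    · intro q hq
      rcases mem_insert.1 hq with h | h
      · subst h
        rw [Function.update_self]
        intro h2
        have := Nat.le_of_dvd (by omega) h2
        omega
      · have hqp : q ≠ p := fun h2 => hpT (h2 ▸ h)
        rw [Function.update_of_ne hqp]
        exact hb1 q h
    · have h1 : V.filter (fun s => ∀ q ∈ insert p T, ¬ s % q = Function.update b p r q % q) =
          U.filter (fun s => ¬ s % p = r) := by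
        ext s
        simp only [hU, mem_filter, mem_insert, forall_eq_or_imp, Function.update_self,
          Nat.mod_eq_of_lt hrp]
        constructor
        · rintro ⟨a1, a2, a3⟩
          refine ⟨⟨a1, fun q hq => ?_⟩, a2⟩
          have hqp : q ≠ p := fun h2 => hpT (h2 ▸ hq)
          have := a3 q hq
          rwa [Function.update_of_ne hqp] at this
        · rintro ⟨⟨a1, a2⟩, a3⟩
          refine ⟨a1, a3, fun q hq => ?_⟩
          have hqp : q ≠ p := fun h2 => hpT (h2 ▸ hq)
          rw [Function.update_of_ne hqp]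
          exact a2 q hq
      rw [h1]
      have h2 : ((U.filter (fun s => s % p = r)).card : ℝ) +
          ((U.filter (fun s => ¬ s % p = r)).card : ℝ) = U.card := by
        exact_mod_cast Finset.card_filter_add_card_filter_not (s := U) (fun s => s % p = r)
      have h3 : ((U.filter (fun s => p ∣ s)).card : ℝ) ≤ c / p := by
        refine le_trans ?_ (hN p (mem_insert_self _ _))
        have : U.filter (fun s => p ∣ s) ⊆ V.filter (fun s => p ∣ s) :=
          Finset.filter_subset_filter _ (Finset.filter_subset _ _)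
        exact_mod_cast Finset.card_le_card this
      rw [Finset.prod_insert hpT, Finset.sum_insert hpT]
      set u := (U.card : ℝ) with hu
      have hu0 : 0 ≤ u := Nat.cast_nonneg _
      have hpp : 0 < (p : ℝ) - 1 := by linarith
      have h4 : (u - c / p) / ((p : ℝ) - 1) ≤ ((U.filter (fun s => s % p = r)).card : ℝ) := by
        rw [div_le_iff₀ hpp]; linarith
      have h5 : ((U.filter (fun s => ¬ s % p = r)).card : ℝ) ≤ u - (u - c / p) / ((p : ℝ) - 1) := by
        linarith
      have h6 : u - (u - c / p) / ((p : ℝ) - 1) ≤ u * (1 - 1 / (p : ℝ)) + c / (p * ((p : ℝ) - 1)) := by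
        have h7 : u - (u - c / p) / ((p : ℝ) - 1) =
            u * (1 - 1 / ((p : ℝ) - 1)) + c / (p * ((p : ℝ) - 1)) := by
          have : (p : ℝ) ≠ 0 := by linarith
          field_simp
          ring
        rw [h7]
        have h8 : 1 / (p : ℝ) ≤ 1 / ((p : ℝ) - 1) :=
          one_div_le_one_div_of_le hpp (by linarith)
        nlinarith
      have h9 : 0 ≤ 1 - 1 / (p : ℝ) := by
        have : 1 / (p : ℝ) ≤ 1 := by rw [div_le_one (by linarith)]; linarith
        linarith
      have h10 : 1 - 1 / (p : ℝ) ≤ 1 := by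
        have : 0 ≤ 1 / (p : ℝ) := by positivity
        linarith
      have h11 : 0 ≤ ∑ q ∈ T, c / (q * ((q : ℝ) - 1)) := by
        apply Finset.sum_nonneg
        intro q hq
        have : (2 : ℝ) ≤ q := by exact_mod_cast hT q (mem_insert_of_mem hq)
        apply div_nonneg hc
        apply mul_nonneg <;> linarith
      calc ((U.filter (fun s => ¬ s % p = r)).card : ℝ)
          ≤ u * (1 - 1 / (p : ℝ)) + c / (p * ((p : ℝ) - 1)) := h5.trans h6
        _ ≤ (V.card * ∏ q ∈ T, (1 - 1 / (q : ℝ)) + ∑ q ∈ T, c / (q * ((q : ℝ) - 1))) *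
              (1 - 1 / (p : ℝ)) + c / (p * ((p : ℝ) - 1)) := by gcongr
        _ ≤ V.card * ((1 - 1 / (p : ℝ)) * ∏ q ∈ T, (1 - 1 / (q : ℝ))) +
              (c / (p * ((p : ℝ) - 1)) + ∑ q ∈ T, c / (q * ((q : ℝ) - 1))) := by
            have h12 := mul_le_mul_of_nonneg_left h10 h11
            nlinarith

open Filter in
lemma prod_small (M : ℕ) (ε : ℝ) (hε : 0 < ε) (K : ℕ) : ∃ z, K ≤ z ∧
    ∏ p ∈ (Icc (M + 1) z).filter Nat.Prime, (1 - 1 / (p : ℝ)) ≤ ε := by
  have h1 : Tendsto (fun n => ∑ i ∈ range n, Set.indicator {p : ℕ | p.Prime}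
      (fun n : ℕ => (1 : ℝ) / n) i) atTop atTop := by
    rw [← not_summable_iff_tendsto_nat_atTop_of_nonneg]
    · exact not_summable_one_div_on_primes
    · intro n
      apply Set.indicator_nonneg
      intro x _
      positivity
  obtain ⟨n, hn1, hn2⟩ := ((h1.eventually_ge_atTop (M + 1 - Real.log ε)).and
    (eventually_ge_atTop (K + 1))).exists
  refine ⟨n - 1, by omega, ?_⟩
  set T := (Icc (M + 1) (n - 1)).filter Nat.Prime with hT
  have h2 : ∏ p ∈ T, (1 - 1 / (p : ℝ)) ≤ Real.exp (-∑ p ∈ T, 1 / (p : ℝ)) := by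
    rw [← Finset.sum_neg_distrib, Real.exp_sum]
    apply Finset.prod_le_prod
    · intro p hp
      have hp1 : 1 ≤ p := (mem_filter.1 hp).2.one_lt.le
      have : (1 : ℝ) ≤ p := by exact_mod_cast hp1
      have : 1 / (p : ℝ) ≤ 1 := by rw [div_le_one (by linarith)]; exact this
      linarith
    · intro p _
      have := Real.add_one_le_exp (-(1 / (p : ℝ)))
      linarith
  refine h2.trans ?_
  have h3 : M + 1 - Real.log ε ≤ M + 1 + ∑ p ∈ T, 1 / (p : ℝ) := by
    refine hn1.trans ?_
    have h4 : ∑ i ∈ range n, Set.indicator {p : ℕ | p.Prime} (fun n : ℕ => (1 : ℝ) / n) i ≤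
        ∑ i ∈ range (M + 1), (1 : ℝ) + ∑ p ∈ T, 1 / (p : ℝ) := by
      have h5 : ∑ i ∈ range n, Set.indicator {p : ℕ | p.Prime} (fun n : ℕ => (1 : ℝ) / n) i =
          ∑ i ∈ (range n).filter Nat.Prime, (1 : ℝ) / i := by
        rw [Finset.sum_filter]
        apply Finset.sum_congr rfl
        intro i _
        simp [Set.indicator_apply]
      rw [h5]
      have h6 : (range n).filter Nat.Prime ⊆ (range (M + 1)) ∪ T := by
        intro i hi
        rw [mem_filter, mem_range] at hi
        rw [mem_union, mem_range, hT, mem_filter, mem_Icc]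
        by_cases h : i < M + 1
        · exact Or.inl h
        · exact Or.inr ⟨by omega, hi.2⟩
      refine (Finset.sum_le_sum_of_subset_of_nonneg h6 (fun i _ _ => by positivity)).trans ?_
      have h7 : Disjoint (range (M + 1)) T := by
        rw [Finset.disjoint_left]
        intro i hi hi2
        rw [mem_range] at hi
        rw [hT, mem_filter, mem_Icc] at hi2
        omega
      rw [Finset.sum_union h7]
      gcongr with i _
      rcases Nat.eq_zero_or_pos i with h | h
      · subst h; simp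
      · rw [div_le_one (by exact_mod_cast h)]; exact_mod_cast h
    simpa using h4
  have h8 : -∑ p ∈ T, 1 / (p : ℝ) ≤ Real.log ε := by linarith
  calc Real.exp (-∑ p ∈ T, 1 / (p : ℝ)) ≤ Real.exp (Real.log ε) := Real.exp_le_exp.2 h8
    _ = ε := Real.exp_log hε

end Pool.Agent.H378R2
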