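import Mathlib
import Pool.Agent.H378R2.Defs
import Pool.Agent.H378R2.M6d
import Pool.Agent.H378R2.M6e

open Finset

namespace Pool.Agent.H378R2

lemma VV_mul_le (Q : Finset ℕ) (k p : ℕ) (hp : 1 ≤ p) :
    ((VV Q k).filter (fun s => p ∣ s)).card ≤ (VV Q (k / p)).card := by
  classical
  have h1 : (VV Q k).filter (fun s => p ∣ s) ⊆ (VV Q (k / p)).image (fun u => p * u) := by
    intro s hs
    rw [mem_filter, VV, mem_filter, mem_Icc] at hs
    obtain ⟨⟨⟨h1, h2⟩, h3⟩, u, rfl⟩ := hs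
    rw [mem_image]
    refine ⟨u, ?_, rfl⟩
    rw [VV, mem_filter, mem_Icc]
    refine ⟨⟨?_, ?_⟩, ?_⟩
    · rcases Nat.eq_zero_or_pos u with h | h
      · subst h; simp at h1
      · exact h
    · rw [Nat.le_div_iff_mul_le hp, mul_comm]; exact h2
    · intro q hq hqu
      exact h3 q hq (hqu.mul_left _)
  exact (Finset.card_le_card h1).trans Finset.card_image_le

/-- lower bound for the gcd -/
lemma one_div_gcd_le (P : Finset ℕ) (hP : ∀ p ∈ P, p.Prime) (N : ℕ) (R : Finset ℕ) (hR : R ⊆ P)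
    (hRN : ∀ p ∈ R, p ∣ N) :
    (1 : ℝ) / (Nat.gcd N (∏ p ∈ P, p) : ℝ) ≤ ∏ p ∈ R, (1 : ℝ) / p := by
  have h1 : ∏ p ∈ R, p ∣ N := Finset.prod_primes_dvd N
    (fun p hp => (hP p (hR hp)).prime) hRN
  have h2 : ∏ p ∈ R, p ∣ ∏ p ∈ P, p := Finset.prod_dvd_prod_of_subset _ _ _ hR
  have h3 : ∏ p ∈ R, p ∣ Nat.gcd N (∏ p ∈ P, p) := Nat.dvd_gcd h1 h2
  have h4 : 0 < ∏ p ∈ P, p := Finset.prod_pos (fun p hp => (hP p hp).pos)
  have h5 : 0 < Nat.gcd N (∏ p ∈ P, p) := Nat.gcd_pos_of_pos_right _ h4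
  have h6 : ∏ p ∈ R, p ≤ Nat.gcd N (∏ p ∈ P, p) := Nat.le_of_dvd h5 h3
  have h7 : 0 < ∏ p ∈ R, p := Finset.prod_pos (fun p hp => (hP p (hR hp)).pos)
  rw [Finset.prod_div_distrib, Finset.prod_const_one, ← Nat.cast_prod]
  apply one_div_le_one_div_of_le
  · exact Nat.cast_pos.2 h7
  · exact Nat.cast_le.2 h6

/-- choice of the residue class -/
lemma exists_class (m : ℕ) (hm : ∃ a, m = 2 ^ a) (M1 z k : ℕ) (hM1 : 2 ≤ M1) (Q : Finset ℕ)
    (hQ : ∀ p ∈ Q, p.Prime) (hQz : ∀ p ∈ Q, z < p) (b : ℕ → ℕ)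
    (hb : ∀ p ∈ (Icc (M1 + 1) z).filter Nat.Prime, ¬ p ∣ b p) :
    ∃ a : ℕ, k < a ∧ (∀ p ∈ Q, p ∣ a) ∧ (∀ p : ℕ, p.Prime → p ≤ z → ¬ p ∣ a) ∧
      ∀ p ∈ (Icc (M1 + 1) z).filter Nat.Prime, (m * a) % p = b p % p := by
  classical
  set T := (Icc (M1 + 1) z).filter Nat.Prime with hT
  have hcop : ∀ p ∈ T, Nat.Coprime m p := by
    intro p hp
    rw [hT, mem_filter, mem_Icc] at hp
    obtain ⟨e, he⟩ := hm
    rw [he]
    apply Nat.Coprime.pow_left
    rw [Nat.coprime_primes Nat.prime_two hp.2]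
    omega
  have hc : ∀ p ∈ T, ∃ c, (m * c) % p = b p % p ∧ ¬ p ∣ c := by
    intro p hp
    have hpp := (mem_filter.1 hp).2
    obtain ⟨m', hm'⟩ := Nat.exists_mul_mod_eq_one_of_coprime (hcop p hp) hpp.one_lt
    have h1 : (m * (m' * b p)) % p = b p % p := by
      rw [← mul_assoc, Nat.mul_mod, hm'.2, one_mul, Nat.mod_mod]
    refine ⟨m' * b p, h1, fun h => ?_⟩
    have h2 : (m * (m' * b p)) % p = 0 := Nat.mod_eq_zero_of_dvd (h.mul_left _)
    rw [h1] at h2
    exact hb p hp (Nat.dvd_of_mod_eq_zero h2)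
  choose! c hc1 hc2 using hc
  set All := (Icc 1 z).filter Nat.Prime ∪ Q with hAll
  have hAllp : ∀ p ∈ All, p.Prime := by
    intro p hp
    rcases mem_union.1 hp with h | h
    · exact (mem_filter.1 h).2
    · exact hQ p h
  obtain ⟨a0, ha0⟩ := Nat.chineseRemainderOfFinset
    (fun p => if z < p then 0 else if p ≤ M1 then 1 else c p) (fun p => p) All
    (fun p hp => (hAllp p hp).ne_zero)
    (by
      intro p hp q hq hpq
      exact (Nat.coprime_primes (hAllp p hp) (hAllp q hq)).2 hpq)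
  set Pr := ∏ p ∈ All, p with hPr
  have hPr0 : 1 ≤ Pr := Finset.prod_pos (fun p hp => (hAllp p hp).pos)
  have hmod : ∀ p ∈ All, (a0 + (k + 1) * Pr) ≡ (if z < p then 0 else if p ≤ M1 then 1 else c p) [MOD p] := by
    intro p hp
    have h1 : p ∣ (k + 1) * Pr := (Finset.dvd_prod_of_mem _ hp).mul_left _
    have h2 : (a0 + (k + 1) * Pr) ≡ a0 + 0 [MOD p] :=
      Nat.ModEq.add_left _ ((Nat.modEq_zero_iff_dvd).2 h1)
    rw [add_zero] at h2
    exact h2.trans (ha0 p hp)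
  refine ⟨a0 + (k + 1) * Pr, by nlinarith, ?_, ?_, ?_⟩
  · intro p hp
    have h1 := hmod p (mem_union_right _ hp)
    rw [if_pos (hQz p hp)] at h1
    exact (Nat.modEq_zero_iff_dvd).1 h1
  · intro p hpp hpz h
    have h1 := hmod p (mem_union_left _ (mem_filter.2 ⟨mem_Icc.2 ⟨hpp.one_lt.le, hpz⟩, hpp⟩))
    rw [if_neg (by omega)] at h1
    have h2 := (Nat.modEq_zero_iff_dvd).2 h
    have h3 := h1.symm.trans h2
    split_ifs at h3 with h4
    · exact hpp.one_lt.ne' (Nat.dvd_one.1 ((Nat.modEq_zero_iff_dvd).1 h3))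
    · exact hc2 p (mem_filter.2 ⟨mem_Icc.2 ⟨by omega, hpz⟩, hpp⟩) ((Nat.modEq_zero_iff_dvd).1 h3)
  · intro p hp
    have hp2 := mem_filter.1 hp
    rw [mem_Icc] at hp2
    have h1 := hmod p (mem_union_left _ (mem_filter.2 ⟨mem_Icc.2 ⟨hp2.2.one_lt.le, hp2.1.2⟩, hp2.2⟩))
    rw [if_neg (by omega), if_neg (by omega)] at h1
    rw [← hc1 p hp]
    exact Nat.ModEq.mul_left m h1

/-- the combinatorial core of the covering lemma -/
lemma cover_core (m : ℕ) (hm : ∃ a, m = 2 ^ a) (M1 z y k D : ℕ) (hM1 : 2 ≤ M1) (hM1z : M1 ≤ z)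
    (t0 : ℕ) (C1 : ℝ) (hC1 : 0 ≤ C1) (S : Finset ℕ) (ps : ℕ) (P : Finset ℕ) (hP : ∀ p ∈ P, p.Prime)
    (hPz : ∀ p, p.Prime → p ≤ z → p ∈ P)
    (hD : Data z y k D S ps (P.filter (fun p => z < p))) (hk : 2 ≤ k)
    (hV : ∀ t, t0 ≤ t → t ≤ k →
      ((VV (P.filter (fun p => z < p)) t).card : ℝ) ≤ C1 * (t / Real.log t))
    (ht0 : (t0 : ℝ) ≤ Real.sqrt k) (hkz : 2 * (z : ℝ) ≤ Real.sqrt k) :
    ∃ a : ℕ, k < a ∧ (∀ p ∈ P, z < p → p ∣ a) ∧ (∀ p : ℕ, p.Prime → p ≤ z → ¬ p ∣ a) ∧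
      ∑ s ∈ Icc 1 k, (1 : ℝ) / (Nat.gcd (m * a - s) (∏ p ∈ P, p) : ℝ) ≤
        Real.sqrt k + (k / Real.log k) * (60 * Real.exp (D + 4) / Real.sqrt z +
          C1 * ∏ p ∈ (Icc (M1 + 1) z).filter Nat.Prime, (1 - 1 / (p : ℝ)) + 3 * C1 / M1) := by
  classical
  set Q := P.filter (fun p => z < p) with hQdef
  set T := (Icc (M1 + 1) z).filter Nat.Prime with hT
  have hk0 : (2 : ℝ) ≤ k := by exact_mod_cast hk
  have hlk : 0 < Real.log k := Real.log_pos (by linarith)
  have hM0 : (0 : ℝ) < M1 := by exact_mod_cast (by omega : 0 < M1)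
  have hz0 : (0 : ℝ) < z := by exact_mod_cast (by omega : 0 < z)
  set L := (k : ℝ) / Real.log k with hL
  have hL0 : 0 ≤ L := by positivity
  have hsk : Real.sqrt k * Real.sqrt k = k := Real.mul_self_sqrt (by linarith)
  have hsk0 : 0 < Real.sqrt k := Real.sqrt_pos.2 (by linarith)
  have hmem : ∀ p ∈ T, p.Prime ∧ M1 < p ∧ p ≤ z := by
    intro p hp
    rw [hT, mem_filter, mem_Icc] at hp
    exact ⟨hp.2, by omega, hp.1.2⟩
  -- greedy choice
  obtain ⟨b, hb1, hb2⟩ := greedy (VV Q k) (2 * C1 * L) (by positivity) T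
    (fun p hp => (hmem p hp).1.two_le) (by
      intro p hp
      obtain ⟨hpp, hMp, hpz⟩ := hmem p hp
      have hp0 : (0 : ℝ) < p := by exact_mod_cast hpp.pos
      have hpz' : (p : ℝ) ≤ z := by exact_mod_cast hpz
      have h1 : Real.sqrt k ≤ ((k / p : ℕ) : ℝ) := by
        have h2 : (k : ℝ) / p - 1 ≤ ((k / p : ℕ) : ℝ) := by
          have h3 : (k : ℝ) / p < ((k / p : ℕ) : ℝ) + 1 := by
            rw [div_lt_iff₀ hp0]
            have h4 : k < (k / p + 1) * p := Nat.lt_mul_of_div_lt (Nat.lt_succ_self _) hpp.pos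
            exact_mod_cast h4
          linarith
        have h5 : 2 * Real.sqrt k ≤ (k : ℝ) / p := by
          rw [le_div_iff₀ hp0]
          calc 2 * Real.sqrt k * p ≤ 2 * Real.sqrt k * z := by gcongr
            _ = Real.sqrt k * (2 * z) := by ring
            _ ≤ Real.sqrt k * Real.sqrt k := by gcongr
            _ = k := hsk
        have h6 : (1 : ℝ) ≤ Real.sqrt k := by
          have : (1 : ℝ) ≤ z := by exact_mod_cast (by omega : 1 ≤ z)
          linarith
        linarith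
      have h2 : t0 ≤ k / p := by exact_mod_cast ht0.trans h1
      have h3 := hV (k / p) h2 (Nat.div_le_self _ _)
      have h4 : (((VV Q k).filter (fun s => p ∣ s)).card : ℝ) ≤ ((VV Q (k / p)).card : ℝ) := by
        exact_mod_cast VV_mul_le Q k p hpp.one_lt.le
      refine h4.trans (h3.trans ?_)
      have h5 : Real.log k / 2 ≤ Real.log ((k / p : ℕ) : ℝ) := by
        rw [← Real.log_sqrt (by linarith)]
        exact Real.log_le_log hsk0 h1
      have h6 : ((k / p : ℕ) : ℝ) ≤ (k : ℝ) / p := Nat.cast_div_le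
      calc C1 * (((k / p : ℕ) : ℝ) / Real.log ((k / p : ℕ) : ℝ))
          ≤ C1 * (((k : ℝ) / p) / (Real.log k / 2)) := by gcongr
        _ = 2 * C1 * L / p := by rw [hL]; field_simp)
  obtain ⟨a, hka, ha1, ha2, ha3⟩ := exists_class m hm M1 z k hM1 Q hD.hQ hD.hQz b hb1
  refine ⟨a, hka, fun p hp hpz => ha1 p (mem_filter.2 ⟨hp, hpz⟩), ha2, ?_⟩
  have hm1 : 1 ≤ m := by obtain ⟨e, he⟩ := hm; rw [he]; exact Nat.one_le_two_pow
  have hma : a ≤ m * a := Nat.le_mul_of_pos_left _ hm1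
  -- bounds for single terms
  have hA : ∀ s ∈ Icc 1 k, (1 : ℝ) / (Nat.gcd (m * a - s) (∏ p ∈ P, p) : ℝ) ≤ hQ Q s := by
    intro s hs
    rw [mem_Icc] at hs
    unfold hQ
    apply one_div_gcd_le P hP
    · exact (Finset.filter_subset _ _).trans (Finset.filter_subset _ _)
    · intro p hp
      rw [mem_filter] at hp
      exact Nat.dvd_sub ((ha1 p hp.1).mul_left _) hp.2
  have hB : ∀ s ∈ Icc 1 k, ∀ p ∈ T, s % p = b p % p →
      (1 : ℝ) / (Nat.gcd (m * a - s) (∏ p ∈ P, p) : ℝ) ≤ 1 / M1 := by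
    intro s hs p hp hsp
    rw [mem_Icc] at hs
    obtain ⟨hpp, hMp, hpz⟩ := hmem p hp
    have h1 := one_div_gcd_le P hP (m * a - s) {p} (by
      intro q hq
      rw [mem_singleton] at hq
      subst hq
      exact hPz q hpp hpz) (by
      intro q hq
      rw [mem_singleton] at hq
      subst hq
      apply (Nat.modEq_iff_dvd' (by omega)).1
      show s % q = m * a % q
      rw [hsp, ha3 q hp])
    rw [Finset.prod_singleton] at h1
    refine h1.trans (one_div_le_one_div_of_le hM0 ?_)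
    exact_mod_cast hMp.le
  have hle1 : ∀ s ∈ Icc 1 k, (1 : ℝ) / (Nat.gcd (m * a - s) (∏ p ∈ P, p) : ℝ) ≤ 1 :=
    fun s hs => (hA s hs).trans (hQ_le_one Q s)
  -- split
  rw [← Finset.sum_filter_add_sum_filter_not (Icc 1 k) (fun s => ∃ p ∈ Q, p ∣ s)]
  have part1 : ∑ s ∈ (Icc 1 k).filter (fun s => ∃ p ∈ Q, p ∣ s),
      (1 : ℝ) / (Nat.gcd (m * a - s) (∏ p ∈ P, p) : ℝ) ≤
      Real.sqrt k + L * (60 * Real.exp (D + 4) / Real.sqrt z) := by
    refine le_trans ?_ (sum_notV_le hD hk)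
    apply Finset.sum_le_sum
    intro s hs
    exact hA s (mem_filter.1 hs).1
  have hVk : ((VV Q k).card : ℝ) ≤ C1 * L := by
    apply hV k _ le_rfl
    have : (t0 : ℝ) ≤ k := by nlinarith
    exact_mod_cast this
  have hVeq : (Icc 1 k).filter (fun s => ¬ ∃ p ∈ Q, p ∣ s) = VV Q k := by
    unfold VV
    apply Finset.filter_congr
    intro s _
    push Not
    rfl
  have part2 : ∑ s ∈ (Icc 1 k).filter (fun s => ¬ ∃ p ∈ Q, p ∣ s),
      (1 : ℝ) / (Nat.gcd (m * a - s) (∏ p ∈ P, p) : ℝ) ≤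
      L * (C1 * ∏ p ∈ T, (1 - 1 / (p : ℝ)) + 3 * C1 / M1) := by
    rw [hVeq, ← Finset.sum_filter_add_sum_filter_not (VV Q k) (fun s => ∀ p ∈ T, ¬ s % p = b p % p)]
    have hin : ∀ s ∈ VV Q k, s ∈ Icc 1 k := by
      intro s hs
      unfold VV at hs
      exact (mem_filter.1 hs).1
    have q1 : ∑ s ∈ (VV Q k).filter (fun s => ∀ p ∈ T, ¬ s % p = b p % p),
        (1 : ℝ) / (Nat.gcd (m * a - s) (∏ p ∈ P, p) : ℝ) ≤
        C1 * L * ∏ p ∈ T, (1 - 1 / (p : ℝ)) + 2 * C1 * L / M1 := by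
      calc ∑ s ∈ (VV Q k).filter (fun s => ∀ p ∈ T, ¬ s % p = b p % p),
            (1 : ℝ) / (Nat.gcd (m * a - s) (∏ p ∈ P, p) : ℝ)
          ≤ ∑ s ∈ (VV Q k).filter (fun s => ∀ p ∈ T, ¬ s % p = b p % p), 1 := by
            apply Finset.sum_le_sum
            intro s hs
            exact hle1 s (hin s (mem_filter.1 hs).1)
        _ = (((VV Q k).filter (fun s => ∀ p ∈ T, ¬ s % p = b p % p)).card : ℝ) := by simp
        _ ≤ (VV Q k).card * ∏ p ∈ T, (1 - 1 / (p : ℝ)) +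
              ∑ p ∈ T, 2 * C1 * L / (p * ((p : ℝ) - 1)) := hb2
        _ ≤ C1 * L * ∏ p ∈ T, (1 - 1 / (p : ℝ)) + 2 * C1 * L / M1 := by
            have hpr : 0 ≤ ∏ p ∈ T, (1 - 1 / (p : ℝ)) := by
              apply Finset.prod_nonneg
              intro p hp
              have : (1 : ℝ) ≤ p := by exact_mod_cast (hmem p hp).1.one_lt.le
              have : 1 / (p : ℝ) ≤ 1 := by rw [div_le_one (by linarith)]; exact this
              linarith
            have hsum : ∑ p ∈ T, 2 * C1 * L / (p * ((p : ℝ) - 1)) ≤ 2 * C1 * L / M1 := by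
              have h6 : ∀ N, M1 ≤ N → ∑ p ∈ Ioc M1 N, 1 / ((p : ℝ) * ((p : ℝ) - 1)) ≤
                  1 / (M1 : ℝ) - 1 / (N : ℝ) := by
                intro N hN
                induction N, hN using Nat.le_induction with
                | base => simp
                | succ N hN ih =>
                  rw [Finset.sum_Ioc_succ_top hN]
                  have hN0 : (0 : ℝ) < N := by exact_mod_cast (by omega : 0 < N)
                  have : 1 / (((N + 1 : ℕ) : ℝ) * (((N + 1 : ℕ) : ℝ) - 1)) =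
                      1 / (N : ℝ) - 1 / ((N + 1 : ℕ) : ℝ) := by
                    push_cast
                    rw [add_sub_cancel_right]
                    field_simp
                    ring
                  linarith
              have h7 : ∑ p ∈ T, 1 / ((p : ℝ) * ((p : ℝ) - 1)) ≤ 1 / M1 := by
                refine le_trans ?_ ((h6 z hM1z).trans ?_)
                · apply Finset.sum_le_sum_of_subset_of_nonneg
                  · intro p hp
                    rw [mem_Ioc]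
                    exact ⟨(hmem p hp).2.1, (hmem p hp).2.2⟩
                  · intro p hp _
                    rw [mem_Ioc] at hp
                    have : (1 : ℝ) ≤ p := by exact_mod_cast (by omega : 1 ≤ p)
                    apply div_nonneg zero_le_one
                    apply mul_nonneg <;> linarith
                · have : 0 ≤ 1 / (z : ℝ) := by positivity
                  linarith
              calc ∑ p ∈ T, 2 * C1 * L / (p * ((p : ℝ) - 1))
                  = 2 * C1 * L * ∑ p ∈ T, 1 / ((p : ℝ) * ((p : ℝ) - 1)) := by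
                    rw [Finset.mul_sum]
                    apply Finset.sum_congr rfl
                    intro p _
                    ring
                _ ≤ 2 * C1 * L * (1 / M1) := by gcongr
                _ = 2 * C1 * L / M1 := by ring
            gcongr
    have q2 : ∑ s ∈ (VV Q k).filter (fun s => ¬ ∀ p ∈ T, ¬ s % p = b p % p),
        (1 : ℝ) / (Nat.gcd (m * a - s) (∏ p ∈ P, p) : ℝ) ≤ C1 * L / M1 := by
      calc ∑ s ∈ (VV Q k).filter (fun s => ¬ ∀ p ∈ T, ¬ s % p = b p % p),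
            (1 : ℝ) / (Nat.gcd (m * a - s) (∏ p ∈ P, p) : ℝ)
          ≤ ∑ _s ∈ (VV Q k).filter (fun s => ¬ ∀ p ∈ T, ¬ s % p = b p % p), 1 / (M1 : ℝ) := by
            apply Finset.sum_le_sum
            intro s hs
            rw [mem_filter] at hs
            obtain ⟨hs1, hs2⟩ := hs
            push Not at hs2
            obtain ⟨p, hp, hsp⟩ := hs2
            exact hB s (hin s hs1) p hp hsp
        _ = (((VV Q k).filter (fun s => ¬ ∀ p ∈ T, ¬ s % p = b p % p)).card : ℝ) * (1 / M1) := by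
            rw [Finset.sum_const, nsmul_eq_mul]
        _ ≤ ((VV Q k).card : ℝ) * (1 / M1) := by
            gcongr
            exact Finset.filter_subset _ _
        _ ≤ C1 * L * (1 / M1) := by gcongr
        _ = C1 * L / M1 := by ring
    calc _ ≤ (C1 * L * ∏ p ∈ T, (1 - 1 / (p : ℝ)) + 2 * C1 * L / M1) + C1 * L / M1 :=
          add_le_add q1 q2
      _ = L * (C1 * ∏ p ∈ T, (1 - 1 / (p : ℝ)) + 3 * C1 / M1) := by ring
  calc _ ≤ (Real.sqrt k + L * (60 * Real.exp (D + 4) / Real.sqrt z)) +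
        L * (C1 * ∏ p ∈ T, (1 - 1 / (p : ℝ)) + 3 * C1 / M1) := add_le_add part1 part2
    _ = _ := by ring

end Pool.Agent.H378R2
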