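import Mathlib
import Pool.Agent.H378R2.Defs
import Pool.Agent.H378R2.M6f

open Finset Filter

namespace Pool.Agent.H378R2

/-- (M6) covering -/
theorem cover (m : ℕ) (hm : ∃ a, m = 2 ^ a) (δ : ℝ) (hδ : 0 < δ) (K : ℕ) :
    ∃ z Z : ℕ, K ≤ z ∧ z ≤ Z ∧ ∃ X0 : ℝ, ∀ X : ℝ, X0 ≤ X → ∀ (ps : ℕ) (S : Finset ℕ),
      GoodP Z ps → GoodS X S →
      ∃ a : ℕ, ⌊2 * Real.log X⌋₊ < a ∧ (∀ p ∈ PW X S ps, z < p → p ∣ a) ∧
        (∀ p : ℕ, p.Prime → p ≤ z → ¬ p ∣ a) ∧
        ∑ s ∈ Icc 1 ⌊2 * Real.log X⌋₊, (1 : ℝ) / (Nat.gcd (m * a - s) (WW X S ps) : ℝ) ≤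
          δ * Real.log X / Real.log (Real.log X) := by
  obtain ⟨D, hDdef⟩ : ∃ D : ℕ, D = 2100 := ⟨_, rfl⟩
  obtain ⟨C1, hC1def⟩ : ∃ C1 : ℝ, C1 = 5 * D + 13 := ⟨_, rfl⟩
  have hC1 : 0 < C1 := by rw [hC1def]; positivity
  obtain ⟨E, hE⟩ : ∃ E : ℝ, E = Real.exp ((D : ℝ) + 4) := ⟨_, rfl⟩
  have hE0 : 0 < E := by rw [hE]; exact Real.exp_pos _
  obtain ⟨M1, hM1⟩ : ∃ M1 : ℕ, 36 * C1 / δ + 2 ≤ M1 := exists_nat_ge _
  have hM1a : 2 ≤ M1 := by
    have h1 : 0 ≤ 36 * C1 / δ := by positivity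
    have : (2 : ℝ) ≤ M1 := by linarith
    exact_mod_cast this
  have hM0 : (0 : ℝ) < M1 := by exact_mod_cast (by omega : 0 < M1)
  have hM1b : 3 * C1 / M1 ≤ δ / 12 := by
    rw [div_le_div_iff₀ hM0 (by norm_num)]
    have h1 : 36 * C1 / δ ≤ M1 := by linarith
    rw [div_le_iff₀ hδ] at h1
    linarith
  obtain ⟨K2, hK2⟩ : ∃ K2 : ℕ, (720 * E / δ) ^ 2 ≤ K2 := exists_nat_ge _
  obtain ⟨z, hzK, hzprod⟩ := prod_small M1 (δ / (12 * C1)) (by positivity) (max K (max M1 K2))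
  have hz1 : K ≤ z := (le_max_left _ _).trans hzK
  have hz2 : M1 ≤ z := (le_max_left _ _).trans ((le_max_right _ _).trans hzK)
  have hz3 : K2 ≤ z := (le_max_right _ _).trans ((le_max_right _ _).trans hzK)
  have hz0 : (0 : ℝ) < z := by exact_mod_cast (by omega : 0 < z)
  have hzE : 60 * E / Real.sqrt z ≤ δ / 12 := by
    have h1 : 720 * E / δ ≤ Real.sqrt z := by
      apply Real.le_sqrt_of_sq_le
      exact hK2.trans (by exact_mod_cast hz3)
    rw [div_le_iff₀ hδ] at h1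
    rw [div_le_div_iff₀ (Real.sqrt_pos.2 hz0) (by norm_num)]
    linarith
  obtain ⟨t0, ht02, ht0⟩ := VV_bound D z
  -- conditions on k
  have hkev : ∀ᶠ k : ℕ in atTop, 2 ≤ k ∧ (t0 : ℝ) ≤ Real.sqrt k ∧ 2 * (z : ℝ) ≤ Real.sqrt k ∧
      Real.sqrt k ≤ (δ / 4) * (k / Real.log k) := by
    have h1 := (isLittleO_log_rpow_atTop (show (0 : ℝ) < 1 / 2 by norm_num)).bound
      (show (0 : ℝ) < δ / 4 by positivity)
    have h2 := (tendsto_natCast_atTop_atTop (R := ℝ)).eventually h1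
    have h3 : Tendsto (fun k : ℕ => Real.sqrt k) atTop atTop :=
      Real.tendsto_sqrt_atTop.comp tendsto_natCast_atTop_atTop
    filter_upwards [h2, eventually_ge_atTop 2, h3.eventually_ge_atTop (t0 : ℝ),
      h3.eventually_ge_atTop (2 * (z : ℝ))] with k a1 a2 a3 a4
    have hk0 : (2 : ℝ) ≤ k := by exact_mod_cast a2
    have hlk : 0 < Real.log k := Real.log_pos (by linarith)
    refine ⟨a2, a3, a4, ?_⟩
    rw [Real.norm_of_nonneg hlk.le, Real.norm_of_nonneg (by positivity), ← Real.sqrt_eq_rpow] at a1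
    rw [mul_div_assoc', le_div_iff₀ hlk]
    have h5 : Real.sqrt k * Real.sqrt k = k := Real.mul_self_sqrt (by linarith)
    have h6 : 0 < Real.sqrt k := Real.sqrt_pos.2 (by linarith)
    nlinarith
  have hlogtop : Tendsto Real.log atTop atTop := Real.tendsto_log_atTop
  have hloglog : Tendsto (fun X => Real.log (Real.log X)) atTop atTop := hlogtop.comp hlogtop
  have hktop : Tendsto (fun X : ℝ => ⌊2 * Real.log X⌋₊) atTop atTop :=
    tendsto_nat_floor_atTop.comp (hlogtop.const_mul_atTop (by norm_num))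
  have hytop : Tendsto (fun X : ℝ => yy X) atTop atTop :=
    tendsto_nat_floor_atTop.comp (hlogtop.atTop_div_const (by norm_num))
  have hz2top : Tendsto (fun X : ℝ => z2 X) atTop atTop :=
    tendsto_nat_ceil_atTop.comp ((tendsto_pow_atTop (by norm_num)).comp hloglog)
  have hev : ∀ᶠ X : ℝ in atTop, (2 ≤ ⌊2 * Real.log X⌋₊ ∧ (t0 : ℝ) ≤ Real.sqrt ⌊2 * Real.log X⌋₊ ∧
      2 * (z : ℝ) ≤ Real.sqrt ⌊2 * Real.log X⌋₊ ∧ Real.sqrt ⌊2 * Real.log X⌋₊ ≤
        (δ / 4) * ((⌊2 * Real.log X⌋₊ : ℝ) / Real.log ⌊2 * Real.log X⌋₊)) ∧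
      z ≤ yy X ∧ z ≤ z2 X ∧ 4 ≤ Real.log (Real.log X) ∧ 21000 ≤ Real.log X := by
    filter_upwards [hktop.eventually hkev, hytop.eventually_ge_atTop z,
      hz2top.eventually_ge_atTop z, hloglog.eventually_ge_atTop 4,
      hlogtop.eventually_ge_atTop 21000] with X a1 a2 a3 a4 a5
    exact ⟨a1, a2, a3, a4, a5⟩
  obtain ⟨X0, hX0⟩ := eventually_atTop.1 hev
  refine ⟨z, z, hz1, le_rfl, X0, ?_⟩
  intro X hX ps S hps hS
  obtain ⟨⟨b1, b2, b3, b4⟩, b5, b6, b7, b8⟩ := hX0 X hX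
  set k := ⌊2 * Real.log X⌋₊ with hk
  set L := Real.log X with hL
  have hL0 : 0 < L := by linarith
  have hkle : (k : ℝ) ≤ 2 * L := Nat.floor_le (by positivity)
  have hkge : L ≤ k := by
    have := Nat.lt_floor_add_one (2 * L)
    rw [← hk] at this
    linarith
  have hk2 : (2 : ℝ) ≤ k := by exact_mod_cast b1
  have hlk : Real.log L ≤ Real.log k := Real.log_le_log hL0 hkge
  have hlk2 : Real.log k ≤ 2 * Real.log L := by
    calc Real.log k ≤ Real.log (L ^ 2) := by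
          apply Real.log_le_log (by linarith)
          nlinarith
      _ = 2 * Real.log L := by rw [Real.log_pow]; norm_num
  have hlk0 : 0 < Real.log k := by linarith
  have hps' : ps = 1 ∨ ps.Prime := by
    rcases hps with h | h
    · exact Or.inl h
    · exact Or.inr h.1
  have hll : 6 / (Real.log L) ^ 2 ≤ 12 / Real.log k := by
    rw [div_le_div_iff₀ (by positivity) hlk0]
    nlinarith
  have hll2 : 6 / (Real.log L) ^ 2 ≤ 1 / 2 := by
    rw [div_le_div_iff₀ (by positivity) (by norm_num)]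
    nlinarith
  have hkD : k ≤ D * yy X := by
    have h1 : L / 1000 < (yy X : ℝ) + 1 := Nat.lt_floor_add_one (L / 1000)
    have h2 : (k : ℝ) ≤ D * yy X := by
      rw [hDdef]
      push_cast
      linarith
    exact_mod_cast h2
  have hD : Data z (yy X) k D S ps ((PW X S ps).filter (fun p => z < p)) := by
    refine ⟨by omega, by omega, hkD, ?_, ?_, ?_, fun p hp => (hS.1 p hp).1, hS.2.trans hll2⟩
    · intro p hp
      rw [mem_filter, PW, mem_filter] at hp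
      exact hp.1.2.1
    · intro p hp
      exact (mem_filter.1 hp).2
    · intro p hp hzp hpy
      by_cases h1 : p ∈ S
      · exact Or.inr (Or.inl h1)
      by_cases h2 : p = ps
      · exact Or.inr (Or.inr h2)
      left
      rw [mem_filter, PW, mem_filter, mem_Icc]
      exact ⟨⟨⟨hp.one_lt.le, hpy⟩, hp, h1, h2⟩, hzp⟩
  obtain ⟨a, ha1, ha2, ha3, ha4⟩ := cover_core m hm M1 z (yy X) k D hM1a hz2 t0 C1 hC1.le S ps
    (PW X S ps) (by
      intro p hp
      rw [PW, mem_filter] at hp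
      exact hp.2.1) (by
      intro p hp hpz
      rw [PW, mem_filter, mem_Icc]
      refine ⟨⟨hp.one_lt.le, by omega⟩, hp, ?_, ?_⟩
      · intro h
        have := (hS.1 p h).2.1
        omega
      · rintro rfl
        rcases hps with h | h
        · exact hp.one_lt.ne' h
        · omega) hD b1 (by
      intro t ht htk
      rw [hC1def]
      exact ht0 hD hps' (hS.2.trans hll) t ht htk) b2 b3
  refine ⟨a, ha1, ha2, ha3, ?_⟩
  refine ha4.trans ?_
  rw [← hE]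
  have hkl : (k : ℝ) / Real.log k ≤ 2 * L / Real.log L := by gcongr
  have hkl0 : 0 ≤ (k : ℝ) / Real.log k := by positivity
  have hprod : C1 * ∏ p ∈ (Icc (M1 + 1) z).filter Nat.Prime, (1 - 1 / (p : ℝ)) ≤ δ / 12 := by
    calc C1 * ∏ p ∈ (Icc (M1 + 1) z).filter Nat.Prime, (1 - 1 / (p : ℝ))
        ≤ C1 * (δ / (12 * C1)) := by gcongr
      _ = δ / 12 := by field_simp
  calc Real.sqrt k + (k / Real.log k) * (60 * E / Real.sqrt z +
        C1 * ∏ p ∈ (Icc (M1 + 1) z).filter Nat.Prime, (1 - 1 / (p : ℝ)) + 3 * C1 / M1)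
      ≤ (δ / 4) * (k / Real.log k) + (k / Real.log k) * (δ / 12 + δ / 12 + δ / 12) := by
        gcongr
    _ = (δ / 2) * (k / Real.log k) := by ring
    _ ≤ (δ / 2) * (2 * L / Real.log L) := by gcongr
    _ = δ * L / Real.log L := by ring

end Pool.Agent.H378R2
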