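import Mathlib
import Pool.Agent.H378R2.Final
import Pool.Agent.H378R2.M6

namespace Pool.Agent.H378R2

theorem cover_holds : Cover := fun m hm δ hδ K => cover m hm δ hδ K

theorem density (f : ℕ → ℝ) (hmono : Monotone f) (hlog : ∀ n, f n ≤ Real.log n)
    (hinf : Filter.Tendsto f Filter.atTop Filter.atTop) :
    Set.Ioi (1 : ℝ) ⊆ closure (Set.range (fun n =>
      ((n + ⌊f n⌋₊).factorial.divisors.card : ℝ) / (n.factorial.divisors.card : ℝ))) :=
  density_of_cover cover_holds f hmono hlog hinf

end Pool.Agent.H378R2
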