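import Pool.Agent.H312R2.RG.Defs
import Pool.Agent.H312R2.PG.Asm3

set_option autoImplicit false

/-! Patterns of consecutive primes of every diameter up to the record scale, from (RG) (helper378). -/

open Finset Filter Topology

namespace Pool.Agent.H378R2.RGT

open Pool.Agent.H312R2 Pool.Agent.H312R2.PG
open Pool.Agent.H312R2.RG (MTRG)
open Pool.Agent.H256R2.SC (ff)
open Pool.Agent.H378R2 (yy)

theorem log_ge_aux {a b : ℝ} (_ : 0 < a) (hb : Real.exp 2 ≤ b) (h : 9 / 10 * b ≤ a) :
    9 / 10 * Real.log b ≤ Real.log a := by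
  have hb0 : 0 < b := (Real.exp_pos _).trans_le hb
  have h1 : Real.log (9 / 10 * b) ≤ Real.log a := Real.log_le_log (by positivity) h
  have h2 : Real.log (9 / 10 * b) = Real.log (9 / 10) + Real.log b :=
    Real.log_mul (by norm_num) hb0.ne'
  have h3 : (2 : ℝ) ≤ Real.log b := by
    rw [Real.le_log_iff_exp_le hb0]; exact hb
  have h4 : -(1 / 9 : ℝ) ≤ Real.log (9 / 10) := by
    have h5 : Real.log (10 / 9) ≤ 10 / 9 - 1 := Real.log_le_sub_one_of_pos (by norm_num)
    have h6 : Real.log (9 / 10 : ℝ) = - Real.log (10 / 9) := by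
      rw [← Real.log_inv]; norm_num
    rw [h6]; linarith
  linarith

/-- slow variation of the record function -/
theorem ff_half : ∀ᶠ x : ℝ in atTop, ff x / 2 ≤ ff (x / 5) := by
  have t0 : Tendsto (fun x : ℝ => x) atTop atTop := tendsto_id
  have e5 : ∀ᶠ x : ℝ in atTop, 50 ≤ Real.log x := Real.tendsto_log_atTop.eventually_ge_atTop _
  filter_upwards [e5, Pool.Agent.H256R2.SC.t1.eventually_ge_atTop (Real.exp 2),
    Pool.Agent.H256R2.SC.t2.eventually_ge_atTop (Real.exp 2),
    Pool.Agent.H256R2.SC.t3.eventually_ge_atTop (Real.exp 2), eventually_gt_atTop 5,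
    Pool.Agent.H256R2.SC.t4.eventually_ge_atTop 1] with x h1 h2 h3 h4 h5 h6
  have hx : 0 < x := by linarith
  have hX : 0 < x / 5 := by positivity
  have hlog5 : Real.log 5 ≤ 3 := by
    have h1 : Real.log 5 ≤ Real.log 8 := Real.log_le_log (by norm_num) (by norm_num)
    have h2 : Real.log 8 = 3 * Real.log 2 := by
      rw [show (8 : ℝ) = 2 ^ 3 by norm_num, Real.log_pow]; norm_num
    have := Real.log_two_lt_d9
    linarith
  have hlog5' : 0 ≤ Real.log 5 := Real.log_nonneg (by norm_num)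
  have g1 : Real.log (x / 5) = Real.log x - Real.log 5 := Real.log_div hx.ne' (by norm_num)
  set a1 := Real.log (x / 5) with ha1
  set b1 := Real.log x with hb1
  have k1 : 9 / 10 * b1 ≤ a1 := by rw [g1]; linarith
  have k1' : a1 ≤ b1 := by rw [g1]; linarith
  have p1 : 0 < a1 := by linarith
  set a2 := Real.log a1 with ha2
  set b2 := Real.log b1 with hb2
  have k2 : 9 / 10 * b2 ≤ a2 := log_ge_aux p1 h2 k1
  have k2' : a2 ≤ b2 := Real.log_le_log p1 k1'
  have he : (1 : ℝ) ≤ Real.exp 2 := Real.one_le_exp (by norm_num)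
  have q2 : 1 ≤ b2 := he.trans h3
  have p2 : 0 < a2 := by linarith
  set a3 := Real.log a2 with ha3
  set b3 := Real.log b2 with hb3
  have k3 : 9 / 10 * b3 ≤ a3 := log_ge_aux p2 h3 k2
  have k3' : a3 ≤ b3 := Real.log_le_log p2 k2'
  have q3 : 1 ≤ b3 := he.trans h4
  have p3 : 0 < a3 := by linarith
  set a4 := Real.log a3 with ha4
  set b4 := Real.log b3 with hb4
  have k4 : 9 / 10 * b4 ≤ a4 := log_ge_aux p3 h4 k3
  have q4 : 1 ≤ b4 := h6
  have p4 : 0 < a4 := by linarith
  have e1 : ff x = b1 * b2 ^ 2 * b4 / b3 ^ 2 := rfl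
  have e2 : ff (x / 5) = a1 * a2 ^ 2 * a4 / a3 ^ 2 := rfl
  rw [e1, e2]
  have s1 : b1 * b2 ^ 2 * b4 / b3 ^ 2 / 2 ≤ (9 / 10 * b1) * (9 / 10 * b2) ^ 2 * (9 / 10 * b4) / b3 ^ 2 := by
    have : (9 / 10 * b1) * (9 / 10 * b2) ^ 2 * (9 / 10 * b4) / b3 ^ 2 =
        (6561 / 10000) * (b1 * b2 ^ 2 * b4 / b3 ^ 2) := by ring
    rw [this]
    have : 0 ≤ b1 * b2 ^ 2 * b4 / b3 ^ 2 := by positivity
    linarith
  refine s1.trans ?_
  apply div_le_div₀
  · positivity
  · have := k1; have := k2; have := k4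
    gcongr
  · positivity
  · gcongr

theorem admissible_primes {m y : ℕ} (hmy : m ≤ y) {A : Finset ℕ} (hc : #A = m)
    (h : ∀ a ∈ A, a.Prime ∧ y < a) : Admissible (patOf A) := by
  intro p hp
  rcases le_or_gt p y with hz | hz
  · have hp0 : 0 < p := hp.pos
    refine ⟨(p - low A % p) % p, Nat.mod_lt _ hp0, fun x hx hxr => ?_⟩
    unfold patOf at hx
    obtain ⟨a, ha, rfl⟩ := mem_image.1 hx
    have h2 := low_le ha
    have h3 : (a - low A + low A) % p = 0 := by
      have h4 : (a - low A) ≡ (p - low A % p) [MOD p] := hxr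
      have h5 : low A ≡ low A % p [MOD p] := (Nat.mod_modEq _ _).symm
      have h6 : a - low A + low A ≡ (p - low A % p) + low A % p [MOD p] := h4.add h5
      have h7 : (p - low A % p) + low A % p = p := by
        have := Nat.mod_lt (low A) hp0
        omega
      rw [h7] at h6
      have h8 : (a - low A + low A) % p = p % p := h6
      rw [h8, Nat.mod_self]
    rw [Nat.sub_add_cancel h2] at h3
    have h9 : p ∣ a := Nat.dvd_of_mod_eq_zero h3
    have h10 := (Nat.prime_dvd_prime_iff_eq hp (h a ha).1).1 h9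
    have := (h a ha).2
    omega
  · by_contra hcon
    push Not at hcon
    have h1 : range p ⊆ (patOf A).image (fun x => x % p) := by
      intro r hr
      obtain ⟨x, hx, hxr⟩ := hcon r (mem_range.1 hr)
      exact mem_image.2 ⟨x, hx, hxr⟩
    have h2 := (card_le_card h1).trans card_image_le
    rw [card_range, patOf_card, hc] at h2
    omega

open Classical in
/-- admissible patterns of diameter at most `Y` realised at least `x^(4/5)` times as consecutive primes -/
noncomputable def FreqY (m : ℕ) (Y : ℝ) (x : ℕ) : Finset (Finset ℕ) :=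
  (base m ⌊Y⌋₊).filter (fun H => Admissible H ∧
    (x : ℝ) ^ (4 / 5 : ℝ) ≤ #{n ∈ Icc 1 x | Realises H n})

theorem T3R_of (h : MTRG) (m : ℕ) (hm : 2 ≤ m) : ∃ c : ℝ, 0 < c ∧ ∃ x₀ : ℕ, ∀ x : ℕ, x₀ ≤ x →
    ∀ Y : ℝ, Real.log x ≤ Y → Y ≤ c * ff x → c * Y ^ (m - 1) ≤ #(FreqY m Y x) := by
  classical
  obtain ⟨K, hmK, c1, hc1, X0, hX0⟩ := h m
  obtain ⟨c0, hc0, N0, hN0⟩ := many_patterns m K hm hmK 1 one_pos
  refine ⟨min (c1 / 2) (c0 / 2 ^ (m - 1)), by positivity, ?_⟩
  have tX : Tendsto (fun x : ℕ => (x : ℝ) / 5) atTop atTop :=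
    (tendsto_natCast_atTop_atTop.atTop_div_const (by norm_num : (0 : ℝ) < 5))
  have hlogT : Tendsto (fun x : ℕ => Real.log ((x : ℝ) / 5)) atTop atTop :=
    Real.tendsto_log_atTop.comp tX
  have e1 : ∀ᶠ x : ℕ in atTop, X0 ≤ (x : ℝ) / 5 := tX.eventually_ge_atTop _
  have e2 : ∀ᶠ x : ℕ in atTop, (N0 : ℝ) + 1000 * m + 10 ≤ Real.log ((x : ℝ) / 5) := hlogT.eventually_ge_atTop _
  have e3 : ∀ᶠ x : ℕ in atTop, c1 * ff x ≤ (x : ℝ) / 5 := by
    have h1 : ∀ᶠ x : ℝ in atTop, c1 * ff x ≤ x / 5 := by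
      have hl := Pool.Agent.H256R2.SC.t1
      have h2 := (Real.isLittleO_pow_log_id_atTop (n := 4)).def (show (0 : ℝ) < 1 / (5 * c1) by positivity)
      filter_upwards [h2, Pool.Agent.H256R2.SC.t4.eventually_ge_atTop 1, eventually_gt_atTop 0,
        Pool.Agent.H256R2.SC.t3.eventually_ge_atTop 1, Pool.Agent.H256R2.SC.t2.eventually_ge_atTop 1,
        Pool.Agent.H256R2.SC.t1.eventually_ge_atTop 1] with x g1 g4 g0 g3 g2 g5
      rw [Real.norm_of_nonneg (by positivity), id, Real.norm_of_nonneg g0.le] at g1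
      have k2 : Real.log (Real.log x) ≤ Real.log x := (Real.log_le_self (by linarith))
      have k3 : Real.log (Real.log (Real.log x)) ≤ Real.log x := (Real.log_le_self (by linarith)).trans k2
      have k4 : Real.log (Real.log (Real.log (Real.log x))) ≤ Real.log x := (Real.log_le_self (by linarith)).trans k3
      have k5 : ff x ≤ Real.log x ^ 4 := by
        unfold ff
        rw [div_le_iff₀ (by positivity)]
        calc Real.log x * Real.log (Real.log x) ^ 2 * Real.log (Real.log (Real.log (Real.log x))) ≤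
            Real.log x * Real.log x ^ 2 * Real.log x := by gcongr
          _ = Real.log x ^ 4 * 1 := by ring
          _ ≤ Real.log x ^ 4 * Real.log (Real.log (Real.log x)) ^ 2 := by
              apply mul_le_mul_of_nonneg_left _ (by positivity)
              nlinarith
      calc c1 * ff x ≤ c1 * Real.log x ^ 4 := mul_le_mul_of_nonneg_left k5 hc1.le
        _ ≤ c1 * (1 / (5 * c1) * x) := mul_le_mul_of_nonneg_left g1 hc1.le
        _ = x / 5 := by field_simp
    exact tendsto_natCast_atTop_atTop.eventually h1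
  have e4 : ∀ᶠ x : ℕ in atTop, ((K.choose m : ℕ) : ℝ) * (x : ℝ) ^ (4 / 5 : ℝ) ≤ ((x : ℝ) / 5) ^ (9 / 10 : ℝ) := by
    have h1 : Tendsto (fun x : ℕ => (x : ℝ) ^ (1 / 10 : ℝ)) atTop atTop :=
      (tendsto_rpow_atTop (by norm_num)).comp tendsto_natCast_atTop_atTop
    filter_upwards [h1.eventually_ge_atTop (((K.choose m : ℕ) : ℝ) * 5 ^ (9 / 10 : ℝ)), eventually_gt_atTop 0] with x h2 h3
    have hx : (0 : ℝ) < x := by exact_mod_cast h3
    rw [Real.div_rpow hx.le (by norm_num), le_div_iff₀ (by positivity)]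
    calc ((K.choose m : ℕ) : ℝ) * (x : ℝ) ^ (4 / 5 : ℝ) * 5 ^ (9 / 10 : ℝ) =
        (((K.choose m : ℕ) : ℝ) * 5 ^ (9 / 10 : ℝ)) * (x : ℝ) ^ (4 / 5 : ℝ) := by ring
      _ ≤ (x : ℝ) ^ (1 / 10 : ℝ) * (x : ℝ) ^ (4 / 5 : ℝ) := by gcongr
      _ = (x : ℝ) ^ (9 / 10 : ℝ) := by rw [← Real.rpow_add hx]; norm_num
  have e5 : ∀ᶠ x : ℕ in atTop, ff x / 2 ≤ ff ((x : ℝ) / 5) := tendsto_natCast_atTop_atTop.eventually ff_half
  have e6 : ∀ᶠ x : ℕ in atTop, 0 ≤ ff (x : ℝ) := by
    have h1 : ∀ᶠ x : ℝ in atTop, 0 ≤ ff x := by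
      filter_upwards [Pool.Agent.H256R2.SC.t4.eventually_ge_atTop 1,
        Pool.Agent.H256R2.SC.t1.eventually_ge_atTop 1] with x g4 g1
      unfold ff
      positivity
    exact tendsto_natCast_atTop_atTop.eventually h1
  obtain ⟨x1, hx1⟩ := eventually_atTop.1 (((e1.and e2).and (e3.and e4)).and (e5.and e6))
  refine ⟨max x1 5, fun x hx Y hY1 hY2 => ?_⟩
  obtain ⟨⟨⟨f1, f2⟩, f3, f4⟩, f5, f6⟩ := hx1 x ((le_max_left _ _).trans hx)
  have hx5 : 5 ≤ x := (le_max_right _ _).trans hx
  have hxpos : (0 : ℝ) < x := by exact_mod_cast (by omega : 0 < x)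
  set X : ℝ := (x : ℝ) / 5 with hX
  have hXpos : 0 < X := by positivity
  set ℓ := Real.log X with hℓ
  have hN0nn : (0 : ℝ) ≤ N0 := Nat.cast_nonneg _
  have hmnn : (0 : ℝ) ≤ m := Nat.cast_nonneg _
  have hlogx : Real.log x = ℓ + Real.log 5 := by
    rw [hℓ, hX, Real.log_div hxpos.ne' (by norm_num)]; ring
  have hlog5' : 0 ≤ Real.log 5 := Real.log_nonneg (by norm_num)
  have hYl : ℓ ≤ Y := by linarith
  have hYff : Y ≤ c1 * ff X := by
    have h1 : min (c1 / 2) (c0 / 2 ^ (m - 1)) * ff x ≤ c1 / 2 * ff x :=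
      mul_le_mul_of_nonneg_right (min_le_left _ _) f6
    have h2 : c1 * (ff x / 2) ≤ c1 * ff X := mul_le_mul_of_nonneg_left f5 hc1.le
    linarith
  have hYx : Y ≤ X := by
    have h1 : min (c1 / 2) (c0 / 2 ^ (m - 1)) * ff x ≤ c1 / 2 * ff x :=
      mul_le_mul_of_nonneg_right (min_le_left _ _) f6
    have h2 : 0 ≤ c1 * ff x := mul_nonneg hc1.le f6
    linarith
  set N := ⌊Y⌋₊ with hN
  have hY0 : 0 ≤ Y := by linarith
  have hN1 : (N : ℝ) ≤ Y := Nat.floor_le hY0
  have hN2 : Y < N + 1 := Nat.lt_floor_add_one _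
  have hNN0 : N0 ≤ N := by
    have : (N0 : ℝ) < N + 1 := by linarith
    have : N0 < N + 1 := by exact_mod_cast this
    omega
  have hy0 : (yy X : ℝ) ≤ ℓ / 1000 := by
    unfold yy
    exact Nat.floor_le (by linarith)
  have hy : 500 * yy X ≤ N := by
    have h2 : (500 * yy X : ℝ) < N + 1 := by linarith
    have h3 : 500 * yy X < N + 1 := by exact_mod_cast h2
    omega
  have hmy : m ≤ yy X := by
    unfold yy
    apply Nat.le_floor
    linarith
  have key := hN0 N hNN0 (yy X) hy (FreqY m Y x) (by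
    intro B hB hBK
    set t : Fin K → ℕ := fun j => B.orderEmbOfFin hBK j with ht
    have htB : ∀ j, t j ∈ B := fun j => B.orderEmbOfFin_mem hBK j
    have htinj : Function.Injective t := (B.orderEmbOfFin hBK).injective
    have htsurj : ∀ b ∈ B, ∃ j, t j = b := by
      intro b hb
      have := B.image_orderEmbOfFin_univ hBK
      rw [← this] at hb
      obtain ⟨j, _, hj⟩ := mem_image.1 hb
      exact ⟨j, hj⟩
    have hBp : ∀ b ∈ B, b.Prime ∧ yy X < b ∧ (b : ℝ) ≤ Y := by
      intro b hb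
      have h1 := mem_filter.1 (hB hb)
      rw [mem_Icc] at h1
      refine ⟨h1.2.1, h1.2.2.1, ?_⟩
      have : (b : ℝ) ≤ N := by exact_mod_cast h1.1.2
      linarith
    have htup : ∀ j, (t j).Prime ∧ yy X < t j ∧ (t j : ℝ) ≤ c1 * ff X := fun j =>
      ⟨(hBp _ (htB j)).1, (hBp _ (htB j)).2.1, (hBp _ (htB j)).2.2.trans hYff⟩
    set G : Finset ℕ := (Icc 1 ⌊3 * X⌋₊).filter (fun n => m ≤ ((univ : Finset (Fin K)).filter (fun j => (n + t j).Prime)).card ∧
      ∀ s : ℕ, (s : ℝ) ≤ Y → (n + s).Prime → ∃ j, s = t j) with hG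
    have hGc : X ^ (9 / 10 : ℝ) < #G := by
      by_contra hcon
      push Not at hcon
      obtain ⟨n, hn1, hn2, hn3, hn4, hn5⟩ := hX0 X f1 t htinj htup G hcon
      apply hn3
      rw [hG, mem_filter, mem_Icc]
      refine ⟨⟨?_, Nat.le_floor hn2⟩, hn4, fun s hs => hn5 s (hs.trans hYff)⟩
      have : (0 : ℝ) < n := hXpos.trans hn1
      have : 0 < n := by exact_mod_cast this
      omega
    -- initial segments
    have hQ : ∀ n ∈ G, ∃ A ∈ powersetCard m B, (∀ a ∈ A, (n + a).Prime) ∧
        ∀ a ∈ A, ∀ q ∈ B, (n + q).Prime → q ≤ a → q ∈ A := by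
      intro n hn
      have hn' := (mem_filter.1 hn).2
      have h1 : m ≤ #(B.filter (fun q => (n + q).Prime)) := by
        refine hn'.1.trans ?_
        apply card_le_card_of_injOn t
        · intro j hj
          rw [mem_coe, mem_filter] at hj ⊢
          exact ⟨htB j, hj.2⟩
        · exact htinj.injOn
      obtain ⟨A, hA1, hA2, hA3⟩ := exists_initial m _ h1
      refine ⟨A, mem_powersetCard.2 ⟨hA1.trans (filter_subset _ _), hA2⟩, ?_, ?_⟩
      · intro a ha; exact (mem_filter.1 (hA1 ha)).2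
      · intro a ha q hq hqp hqa
        exact hA3 a ha q (mem_filter.2 ⟨hq, hqp⟩) hqa
    choose! AA hAA1 hAA2 hAA3 using hQ
    have hpig : ∃ A ∈ powersetCard m B, #G ≤ K.choose m * #(G.filter (fun n => AA n = A)) := by
      by_contra hcon
      push Not at hcon
      have h1 : #G = ∑ A ∈ powersetCard m B, #(G.filter (fun n => AA n = A)) :=
        card_eq_sum_card_fiberwise (fun n hn => hAA1 n hn)
      have hne : (powersetCard m B).Nonempty := by
        rw [← card_pos, card_powersetCard, hBK]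
        exact Nat.choose_pos hmK
      have h2 : ∑ A ∈ powersetCard m B, K.choose m * #(G.filter (fun n => AA n = A)) <
          ∑ A ∈ powersetCard m B, #G := sum_lt_sum_of_nonempty hne hcon
      rw [← mul_sum, ← h1, sum_const, smul_eq_mul, card_powersetCard, hBK] at h2
      exact lt_irrefl _ h2
    obtain ⟨A, hA, hAc⟩ := hpig
    obtain ⟨hAB, hAm⟩ := mem_powersetCard.1 hA
    have hAne : A.Nonempty := card_pos.1 (by omega)
    refine ⟨A, hAB, hAm, ?_⟩
    unfold FreqY
    rw [mem_filter, mem_base]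
    refine ⟨⟨⟨?_, ?_⟩, zero_mem_patOf hAne⟩, ?_, ?_⟩
    · apply patOf_subset
      intro a ha
      exact Nat.le_floor (hBp a (hAB ha)).2.2
    · rw [patOf_card, hAm]
    · exact admissible_primes hmy hAm fun a ha => ⟨(hBp a (hAB ha)).1, (hBp a (hAB ha)).2.1⟩
    · have h1 : #(G.filter (fun n => AA n = A)) ≤ #{n ∈ Icc 1 x | Realises (patOf A) n} := by
        apply card_le_card_of_injOn (fun n => n + low A)
        · intro n hn
          obtain ⟨hn1, hn2⟩ := mem_filter.1 (mem_coe.1 hn)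
          have hnG := mem_filter.1 hn1
          rw [mem_Icc] at hnG
          have hlow := hBp _ (hAB (low_mem hAne))
          rw [mem_coe, mem_filter, mem_Icc]
          refine ⟨⟨(hnG.1.1).trans (Nat.le_add_right _ _), ?_⟩, ?_, ?_⟩
          · have h2 : (n : ℝ) ≤ 3 * X :=
              le_trans (by exact_mod_cast hnG.1.2) (Nat.floor_le (by positivity))
            have h3 : ((n + low A : ℕ) : ℝ) ≤ x := by
              push_cast
              have h5 : X = (x : ℝ) / 5 := hX
              linarith [hlow.2.2]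
            exact_mod_cast h3
          · intro y hy
            unfold patOf at hy
            obtain ⟨a, ha, rfl⟩ := mem_image.1 hy
            have h2 := low_le ha
            have h3 : n + low A + (a - low A) = n + a := by omega
            rw [h3]
            rw [← hn2] at ha
            exact hAA2 n hn1 a ha
          · intro y hy hex
            obtain ⟨w, hw, hyw⟩ := hex
            unfold patOf at hw
            obtain ⟨a, ha, rfl⟩ := mem_image.1 hw
            have h2 := low_le ha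
            have h3 : low A + y ≤ a := by omega
            have h4 : ((low A + y : ℕ) : ℝ) ≤ Y := by
              have h5 := (hBp a (hAB ha)).2.2
              have h6 : ((low A + y : ℕ) : ℝ) ≤ a := by exact_mod_cast h3
              linarith
            have h5 : (n + (low A + y)).Prime := by rw [← add_assoc]; exact hy
            obtain ⟨j, hj⟩ := hnG.2.2 _ h4 h5
            have h6 : low A + y ∈ B := by rw [hj]; exact htB j
            have h7 : low A + y ∈ A := by
              have := hAA3 n hn1 a (by rw [hn2]; exact ha) _ h6 h5 h3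
              rwa [hn2] at this
            unfold patOf
            rw [mem_image]
            exact ⟨low A + y, h7, by omega⟩
        · intro a _ b _ hab
          simp only at hab
          omega
      have h2 : (#G : ℝ) ≤ (K.choose m : ℕ) * #{n ∈ Icc 1 x | Realises (patOf A) n} := by
        exact_mod_cast hAc.trans (Nat.mul_le_mul_left _ h1)
      have hKm : (0 : ℝ) < (K.choose m : ℕ) := by exact_mod_cast Nat.choose_pos hmK
      have h3 : ((K.choose m : ℕ) : ℝ) * (x : ℝ) ^ (4 / 5 : ℝ) ≤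
          (K.choose m : ℕ) * #{n ∈ Icc 1 x | Realises (patOf A) n} := by linarith
      exact le_of_mul_le_mul_left h3 hKm)
  refine le_trans ?_ key
  have hNhalf : Y ≤ 2 * N := by linarith
  calc min (c1 / 2) (c0 / 2 ^ (m - 1)) * Y ^ (m - 1) ≤ (c0 / 2 ^ (m - 1)) * (2 * N) ^ (m - 1) := by
        apply mul_le_mul (min_le_right _ _) _ (by positivity) (by positivity)
        gcongr
    _ = c0 * (N : ℝ) ^ (m - 1) := by rw [mul_pow]; field_simp

end Pool.Agent.H378R2.RGT
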